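import Pool.Agent.H574R2.D3.Defs

/-! Task A1: the mixed Hankel determinant in other bases. -/

open Polynomial Pool.Agent.H337R2

namespace Pool.Agent.H574R2.D3

noncomputable section

private lemma A1_expand (m : ℕ) (P : ℚ[X]) (h : P.natDegree < m) :
    P = ∑ k ∈ Finset.range m, (P.coeff k) • (X ^ k : ℚ[X]) := by
  conv_lhs => rw [P.as_sum_range' m h]
  apply Finset.sum_congr rfl
  intro k _
  rw [← Polynomial.C_mul_X_pow_eq_monomial, Polynomial.smul_eq_C_mul]

private lemma A1_left {K : Type} [CommRing K] [Algebra ℚ K] (A : ℚ[X] →ₗ[ℚ] K) (m : ℕ) (P R : ℚ[X])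
    (h : P.natDegree < m) :
    A (P * R) = ∑ k : Fin m, algebraMap ℚ K (P.coeff k.1) * A (X ^ k.1 * R) := by
  conv_lhs => rw [A1_expand m P h, Finset.sum_mul, map_sum]
  rw [Fin.sum_univ_eq_sum_range (fun k => algebraMap ℚ K (P.coeff k) * A (X ^ k * R)) m]
  apply Finset.sum_congr rfl
  intro k _
  rw [smul_mul_assoc, map_smul, Algebra.smul_def]

private lemma A1_right {K : Type} [CommRing K] [Algebra ℚ K] (A : ℚ[X] →ₗ[ℚ] K) (m : ℕ) (P R : ℚ[X])
    (h : P.natDegree < m) :
    A (R * P) = ∑ k ∈ Finset.range m, algebraMap ℚ K (P.coeff k) * A (R * X ^ k) := by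
  conv_lhs => rw [A1_expand m P h, Finset.mul_sum, map_sum]
  apply Finset.sum_congr rfl
  intro k _
  rw [mul_smul_comm, map_smul, Algebra.smul_def]

/-- the general statement over a commutative `ℚ`-algebra -/
private lemma A1_gen {K : Type} [CommRing K] [Algebra ℚ K] (A B : ℚ[X] →ₗ[ℚ] K) (m : ℕ)
    (Q P P' : ℕ → ℚ[X])
    (hQ : ∀ i < 2 * m, (Q i).Monic ∧ (Q i).natDegree = i)
    (hP : ∀ i < m, (P i).Monic ∧ (P i).natDegree = i)
    (hP' : ∀ i < m, (P' i).Monic ∧ (P' i).natDegree = i) :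
    (Matrix.of fun i j : Fin (2 * m) =>
      if j.1 < m then A (Q i.1 * P j.1) else B (Q i.1 * P' (j.1 - m))).det =
    (Matrix.of fun i j : Fin (2 * m) =>
      if j.1 < m then A (X ^ (i.1 + j.1)) else B (X ^ (i.1 + (j.1 - m)))).det := by
  obtain ⟨U, hU⟩ : ∃ U : Matrix (Fin (2 * m)) (Fin (2 * m)) K, ∀ i k, U i k =
    algebraMap ℚ K ((Q i.1).coeff k.1) := ⟨_, fun _ _ => rfl⟩
  obtain ⟨W, hW⟩ : ∃ W : Matrix (Fin (2 * m)) (Fin (2 * m)) K, ∀ l j, W l j =
    if j.1 < m then (if l.1 < m then algebraMap ℚ K ((P j.1).coeff l.1) else 0)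
    else (if l.1 < m then 0 else algebraMap ℚ K ((P' (j.1 - m)).coeff (l.1 - m))) :=
      ⟨_, fun _ _ => rfl⟩
  obtain ⟨T, hT⟩ : ∃ T : Matrix (Fin (2 * m)) (Fin (2 * m)) K, T = Matrix.of fun i j =>
      if j.1 < m then A (X ^ (i.1 + j.1)) else B (X ^ (i.1 + (j.1 - m))) := ⟨_, rfl⟩
  have hone : ∀ (F : ℕ → ℚ[X]) (i : ℕ), (F i).Monic ∧ (F i).natDegree = i → (F i).coeff i = 1 := by
    intro F i h
    have h3 := h.1
    rw [Polynomial.Monic, Polynomial.leadingCoeff, h.2] at h3
    exact h3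
  have hUdet : U.det = 1 := by
    rw [Matrix.det_of_isLowerTriangular]
    · apply Finset.prod_eq_one
      intro i _
      rw [hU, hone Q i.1 (hQ i.1 i.2), map_one]
    · intro i j hij
      rw [hU, Polynomial.coeff_eq_zero_of_natDegree_lt, map_zero]
      rw [(hQ i.1 i.2).2]
      exact hij
  have hWdet : W.det = 1 := by
    rw [Matrix.det_of_isUpperTriangular]
    · apply Finset.prod_eq_one
      intro i _
      rw [hW]
      by_cases h : i.1 < m
      · rw [if_pos h, if_pos h, hone P i.1 (hP i.1 h), map_one]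
      · rw [if_neg h, if_neg h, hone P' (i.1 - m) (hP' _ (by omega)), map_one]
    · intro l j hlj
      have hlj' : j.1 < l.1 := hlj
      rw [hW]
      by_cases h : j.1 < m
      · rw [if_pos h]
        by_cases h2 : l.1 < m
        · rw [if_pos h2, Polynomial.coeff_eq_zero_of_natDegree_lt, map_zero]
          rw [(hP j.1 h).2]
          exact hlj'
        · rw [if_neg h2]
      · rw [if_neg h]
        by_cases h2 : l.1 < m
        · rw [if_pos h2]
        · rw [if_neg h2, Polynomial.coeff_eq_zero_of_natDegree_lt, map_zero]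
          rw [(hP' (j.1 - m) (by omega)).2]
          omega
  have hUT : ∀ i l : Fin (2 * m), (U * T) i l =
      if l.1 < m then A (Q i.1 * X ^ l.1) else B (Q i.1 * X ^ (l.1 - m)) := by
    intro i l
    rw [Matrix.mul_apply]
    have hd : (Q i.1).natDegree < 2 * m := by rw [(hQ i.1 i.2).2]; exact i.2
    by_cases h : l.1 < m
    · rw [if_pos h, A1_left A (2 * m) (Q i.1) (X ^ l.1) hd]
      apply Finset.sum_congr rfl
      intro k _
      rw [hU, hT, Matrix.of_apply, if_pos h, pow_add]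
    · rw [if_neg h, A1_left B (2 * m) (Q i.1) (X ^ (l.1 - m)) hd]
      apply Finset.sum_congr rfl
      intro k _
      rw [hU, hT, Matrix.of_apply, if_neg h, pow_add]
  have hG : (Matrix.of fun i j : Fin (2 * m) =>
      if j.1 < m then A (Q i.1 * P j.1) else B (Q i.1 * P' (j.1 - m))) = U * T * W := by
    ext i j
    rw [Matrix.mul_apply, Matrix.of_apply]
    simp only [hUT, hW]
    rw [Fin.sum_univ_eq_sum_range (fun l => (if l < m then A (Q i.1 * X ^ l) else
      B (Q i.1 * X ^ (l - m))) * (if j.1 < m then (if l < m then algebraMap ℚ K ((P j.1).coeff l) else 0)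
      else (if l < m then 0 else algebraMap ℚ K ((P' (j.1 - m)).coeff (l - m))))) (2 * m),
      show Finset.range (2 * m) = Finset.range (m + m) by rw [two_mul], Finset.sum_range_add]
    by_cases h : j.1 < m
    · rw [if_pos h, A1_right A m (P j.1) (Q i.1) (by rw [(hP j.1 h).2]; exact h)]
      have h0 : ∑ x ∈ Finset.range m, (if m + x < m then A (Q i.1 * X ^ (m + x)) else
          B (Q i.1 * X ^ (m + x - m))) * (if j.1 < m then (if m + x < m then
            algebraMap ℚ K ((P j.1).coeff (m + x)) else 0)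
          else (if m + x < m then 0 else algebraMap ℚ K ((P' (j.1 - m)).coeff (m + x - m)))) = 0 := by
        apply Finset.sum_eq_zero
        intro x _
        rw [if_pos h, if_neg (by omega : ¬ m + x < m), if_neg (by omega : ¬ m + x < m), mul_zero]
      rw [h0, add_zero]
      apply Finset.sum_congr rfl
      intro l hl
      rw [Finset.mem_range] at hl
      rw [if_pos hl, if_pos h, if_pos hl, mul_comm]
    · rw [if_neg h, A1_right B m (P' (j.1 - m)) (Q i.1)
        (by rw [(hP' (j.1 - m) (by omega)).2]; omega)]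
      have h0 : ∑ x ∈ Finset.range m, (if x < m then A (Q i.1 * X ^ x) else
          B (Q i.1 * X ^ (x - m))) * (if j.1 < m then (if x < m then
            algebraMap ℚ K ((P j.1).coeff x) else 0)
          else (if x < m then 0 else algebraMap ℚ K ((P' (j.1 - m)).coeff (x - m)))) = 0 := by
        apply Finset.sum_eq_zero
        intro x hx
        rw [Finset.mem_range] at hx
        rw [if_neg h, if_pos hx, if_pos hx, mul_zero]
      rw [h0, zero_add]
      apply Finset.sum_congr rfl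
      intro l hl
      rw [if_neg h, if_neg (by omega : ¬ m + l < m), if_neg (by omega : ¬ m + l < m),
        Nat.add_sub_cancel_left, mul_comm]
  rw [hG, Matrix.det_mul, Matrix.det_mul, hUdet, hWdet, one_mul, mul_one, hT]

theorem A1_MD_monic (A B : ℚ[X] →ₗ[ℚ] ℚ) (m : ℕ) (Q P P' : ℕ → ℚ[X])
    (hQ : ∀ i < 2 * m, (Q i).Monic ∧ (Q i).natDegree = i)
    (hP : ∀ i < m, (P i).Monic ∧ (P i).natDegree = i)
    (hP' : ∀ i < m, (P' i).Monic ∧ (P' i).natDegree = i) :
    (Matrix.of fun i j : Fin (2 * m) =>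
      if j.1 < m then A (Q i.1 * P j.1) else B (Q i.1 * P' (j.1 - m))).det = MD A B m :=
  A1_gen A B m Q P P' hQ hP hP'

theorem A1_real (A B : ℚ[X] →ₗ[ℚ] ℚ) (θ : ℝ) (m : ℕ) (Q P P' : ℕ → ℚ[X])
    (hQ : ∀ i < 2 * m, (Q i).Monic ∧ (Q i).natDegree = i)
    (hP : ∀ i < m, (P i).Monic ∧ (P i).natDegree = i)
    (hP' : ∀ i < m, (P' i).Monic ∧ (P' i).natDegree = i) :
    (Matrix.of fun i j : Fin (2 * m) =>
      if j.1 < m then ((A (Q i.1 * P j.1) : ℚ) : ℝ) + θ * ((B (Q i.1 * P j.1) : ℚ) : ℝ)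
      else ((B (Q i.1 * P' (j.1 - m)) : ℚ) : ℝ)).det = ((MD A B m : ℚ) : ℝ) := by
  let A' : ℚ[X] →ₗ[ℚ] ℝ :=
    { toFun := fun F => ((A F : ℚ) : ℝ) + θ * ((B F : ℚ) : ℝ)
      map_add' := fun F G => by rw [map_add, map_add]; push_cast; ring
      map_smul' := fun c F => by
        rw [map_smul, map_smul, smul_eq_mul, smul_eq_mul, RingHom.id_apply, Rat.smul_def]
        push_cast
        ring }
  let B' : ℚ[X] →ₗ[ℚ] ℝ :=
    { toFun := fun F => ((B F : ℚ) : ℝ)
      map_add' := fun F G => by rw [map_add]; push_cast; ring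
      map_smul' := fun c F => by
        rw [map_smul, smul_eq_mul, RingHom.id_apply, Rat.smul_def]
        push_cast
        ring }
  have hA' : ∀ F, A' F = ((A F : ℚ) : ℝ) + θ * ((B F : ℚ) : ℝ) := fun _ => rfl
  have hB' : ∀ F, B' F = ((B F : ℚ) : ℝ) := fun _ => rfl
  have h1 := A1_gen A' B' m Q P P' hQ hP hP'
  simp only [hA', hB'] at h1
  rw [h1]
  obtain ⟨L, hL⟩ : ∃ L : Matrix (Fin (2 * m)) (Fin (2 * m)) ℝ, ∀ l j, L l j =
    if l.1 = j.1 then 1 else (if l.1 = j.1 + m then θ else 0) := ⟨_, fun _ _ => rfl⟩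
  obtain ⟨T, hT⟩ : ∃ T : Matrix (Fin (2 * m)) (Fin (2 * m)) ℚ, T = Matrix.of fun i j =>
      if j.1 < m then A (X ^ (i.1 + j.1)) else B (X ^ (i.1 + (j.1 - m))) := ⟨_, rfl⟩
  have hLdet : L.det = 1 := by
    rw [Matrix.det_of_isLowerTriangular]
    · apply Finset.prod_eq_one
      intro i _
      rw [hL, if_pos rfl]
    · intro i j hij
      have hij' : i.1 < j.1 := hij
      rw [hL, if_neg (by omega), if_neg (by omega)]
  have hG : (Matrix.of fun i j : Fin (2 * m) =>
      if j.1 < m then ((A (X ^ (i.1 + j.1)) : ℚ) : ℝ) + θ * ((B (X ^ (i.1 + j.1)) : ℚ) : ℝ)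
      else ((B (X ^ (i.1 + (j.1 - m))) : ℚ) : ℝ)) = T.map (Rat.castHom ℝ) * L := by
    ext i j
    rw [Matrix.of_apply, Matrix.mul_apply]
    by_cases h : j.1 < m
    · obtain ⟨j', hj'⟩ : ∃ j' : Fin (2 * m), j'.1 = j.1 + m := ⟨⟨j.1 + m, by omega⟩, rfl⟩
      have hne : j ≠ j' := by
        intro e
        have := congrArg Fin.val e
        omega
      rw [if_pos h, Finset.sum_eq_add j j' hne]
      · rw [hL, hL, if_pos rfl, if_neg (by omega), if_pos hj', hT, Matrix.map_apply,
          Matrix.map_apply, Matrix.of_apply, Matrix.of_apply, if_pos h, if_neg (by omega), hj',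
          Nat.add_sub_cancel]
        simp only [Rat.coe_castHom]
        ring
      · intro l _ hl
        rw [hL, if_neg (fun e => hl.1 (Fin.ext e)), if_neg (fun e => hl.2 (Fin.ext (by rw [hj']; exact e))),
          mul_zero]
      · intro h; exact absurd (Finset.mem_univ _) h
      · intro h; exact absurd (Finset.mem_univ _) h
    · rw [if_neg h, Finset.sum_eq_single j]
      · rw [hL, if_pos rfl, hT, Matrix.map_apply, Matrix.of_apply, if_neg h, mul_one]
        rfl
      · intro l _ hl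
        rw [hL, if_neg (fun e => hl (Fin.ext e)), if_neg (by omega), mul_zero]
      · intro h; exact absurd (Finset.mem_univ _) h
  rw [hG, Matrix.det_mul, hLdet, mul_one]
  have h2 := RingHom.map_det (Rat.castHom ℝ) T
  rw [RingHom.mapMatrix_apply] at h2
  rw [← h2]
  unfold MD
  rw [hT]
  rfl

end

end Pool.Agent.H574R2.D3
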