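import Pool.Agent.H574R2.D3.Defs

/-! Task B1 (helper666): the linear form as a series, order-one case. -/

open Polynomial Pool.Agent.H337R2 Filter Topology

namespace Pool.Agent.H574R2.D3

noncomputable section

/-! ### telescoping -/

lemma B1_tel1 (m : ℕ) : HasSum (fun t : ℕ => 1 / ((t : ℝ) + (m + 1)) - 1 / ((t : ℝ) + (m + 2)))
    (1 / ((m : ℝ) + 1)) := by
  rw [hasSum_iff_tendsto_nat_of_nonneg]
  · have h1 : ∀ N : ℕ, ∑ t ∈ Finset.range N, (1 / ((t : ℝ) + (m + 1)) - 1 / ((t : ℝ) + (m + 2))) =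
        1 / ((m : ℝ) + 1) - 1 / ((N : ℝ) + (m + 1)) := by
      intro N
      induction N with
      | zero => simp
      | succ N ih =>
        rw [Finset.sum_range_succ, ih]
        push_cast
        have e : (N : ℝ) + 1 + (m + 1) = (N : ℝ) + (m + 2) := by ring
        rw [e]
        ring
    simp_rw [h1]
    have h2 : Tendsto (fun N : ℕ => 1 / ((N : ℝ) + (m + 1))) atTop (𝓝 0) := by
      have h3 : Tendsto (fun N : ℕ => (N : ℝ) + (m + 1)) atTop atTop :=
        tendsto_atTop_add_const_right _ _ tendsto_natCast_atTop_atTop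
      exact (h3.inv_tendsto_atTop).congr (fun N => by simp)
    simpa using tendsto_const_nhds.sub h2
  · intro t
    rw [sub_nonneg]
    apply one_div_le_one_div_of_le
    · positivity
    · linarith

lemma B1_tel (m : ℕ) : HasSum (fun t : ℕ => 1 / ((t : ℝ) + (m + 1)) - 1 / ((t : ℝ) + 1))
    (-((hs 1 m : ℚ) : ℝ)) := by
  induction m with
  | zero =>
    have : (fun t : ℕ => 1 / ((t : ℝ) + (((0 : ℕ) : ℝ) + 1)) - 1 / ((t : ℝ) + 1)) = fun _ => 0 := by
      funext t
      simp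
    rw [this]
    simp [hs]
  | succ m ih =>
    have h := ih.sub (B1_tel1 m)
    have e1 : (fun t : ℕ => 1 / ((t : ℝ) + (((m + 1 : ℕ) : ℝ) + 1)) - 1 / ((t : ℝ) + 1)) =
        fun t : ℕ => (1 / ((t : ℝ) + (m + 1)) - 1 / ((t : ℝ) + 1)) -
          (1 / ((t : ℝ) + (m + 1)) - 1 / ((t : ℝ) + (m + 2))) := by
      funext t
      push_cast
      have e : (t : ℝ) + ((m : ℝ) + 1 + 1) = (t : ℝ) + (m + 2) := by ring
      rw [e]
      ring
    have e2 : -((hs 1 (m + 1) : ℚ) : ℝ) = -((hs 1 m : ℚ) : ℝ) - 1 / ((m : ℝ) + 1) := by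
      unfold hs
      rw [Finset.sum_range_succ]
      push_cast
      ring
    rw [e1, e2]
    exact h

/-- the linear form, order-one case, for general poles and numerator -/
theorem B1_form (s : Finset ℕ) (μ : ℕ → ℕ) (P : ℚ[X])
    (hdeg : P.natDegree + 2 ≤ (QQ s μ).natDegree) (s0 r : ℕ)
    (hs0 : ∀ k ∈ s, s0 ≤ k) (hr : ∀ k ∈ s, μ k ≤ r)
    (hz : ∀ m < s0, P.eval (-(m : ℚ)) = 0) :
    HasSum (fun t : ℕ => ((P.eval ((t : ℚ) + 1) / (QQ s μ).eval ((t : ℚ) + 1) : ℚ) : ℝ))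
      (∑ i ∈ Finset.Icc 1 r,
        (((∑ k ∈ s, pa s μ P k i : ℚ) : ℝ) * (if i = 1 then 0 else zr i) -
          ((∑ k ∈ s, pa s μ P k i * hs i (k - s0) : ℚ) : ℝ))) := by
  have hdeg' : P.degree < (QQ s μ).degree := by
    rw [Polynomial.degree_eq_natDegree (QQ_monic _ _).ne_zero]
    exact lt_of_le_of_lt Polynomial.degree_le_natDegree (by exact_mod_cast (by omega))
  have hres := residue_sum s μ P hdeg
  -- the shifted function
  let φ : ℕ → ℝ := fun t => ∑ k ∈ s, ∑ i ∈ Finset.Icc 1 r,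
    ((pa s μ P k i : ℚ) : ℝ) * (1 / ((t : ℝ) + (((k - s0 : ℕ) : ℝ) + 1)) ^ i)
  have hφ : HasSum φ (∑ i ∈ Finset.Icc 1 r,
        (((∑ k ∈ s, pa s μ P k i : ℚ) : ℝ) * (if i = 1 then 0 else zr i) -
          ((∑ k ∈ s, pa s μ P k i * hs i (k - s0) : ℚ) : ℝ))) := by
    have hφ2 : φ = fun t : ℕ => ∑ i ∈ Finset.Icc 1 r, ∑ k ∈ s,
        ((pa s μ P k i : ℚ) : ℝ) * (1 / ((t : ℝ) + (((k - s0 : ℕ) : ℝ) + 1)) ^ i) := by
      funext t
      exact Finset.sum_comm
    rw [hφ2]
    apply hasSum_sum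
    intro i hi
    rw [Finset.mem_Icc] at hi
    by_cases hi1 : i = 1
    · subst hi1
      have h1 : HasSum (fun t : ℕ => ∑ k ∈ s, ((pa s μ P k 1 : ℚ) : ℝ) *
          (1 / ((t : ℝ) + (((k - s0 : ℕ) : ℝ) + 1)) - 1 / ((t : ℝ) + 1)))
          (∑ k ∈ s, ((pa s μ P k 1 : ℚ) : ℝ) * (-((hs 1 (k - s0) : ℚ) : ℝ))) := by
        apply hasSum_sum
        intro k _
        exact (B1_tel (k - s0)).mul_left _
      convert h1 using 1
      · funext t
        have h2 : ∑ k ∈ s, ((pa s μ P k 1 : ℚ) : ℝ) * (1 / ((t : ℝ) + 1)) = 0 := by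
          rw [← Finset.sum_mul]
          have : (∑ k ∈ s, ((pa s μ P k 1 : ℚ) : ℝ)) = ((∑ k ∈ s, pa s μ P k 1 : ℚ) : ℝ) := by
            push_cast; rfl
          rw [this, hres]
          simp
        simp only [mul_sub, Finset.sum_sub_distrib, pow_one]
        rw [h2, sub_zero]
      · rw [if_pos rfl, mul_zero, zero_sub]
        push_cast
        rw [← Finset.sum_neg_distrib]
        exact Finset.sum_congr rfl fun k _ => by ring
    · have h1 : HasSum (fun t : ℕ => ∑ k ∈ s, ((pa s μ P k i : ℚ) : ℝ) *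
          (1 / ((t : ℝ) + (((k - s0 : ℕ) : ℝ) + 1)) ^ i))
          (∑ k ∈ s, ((pa s μ P k i : ℚ) : ℝ) * (zr i - ((hs i (k - s0) : ℚ) : ℝ))) := by
        apply hasSum_sum
        intro k _
        exact (hasSum_tail (by omega) (k - s0)).mul_left _
      convert h1 using 1
      rw [if_neg hi1]
      push_cast
      rw [Finset.sum_mul, ← Finset.sum_sub_distrib]
      exact Finset.sum_congr rfl fun k _ => by ring
  -- φ t is the value at t + 1 - s0
  have hval : ∀ t : ℕ, φ t = ((P.eval ((t : ℚ) + 1 - s0) / (QQ s μ).eval ((t : ℚ) + 1 - s0) : ℚ) : ℝ) := by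
    intro t
    have hne : ∀ k ∈ s, ((t : ℚ) + 1 - s0) + (k : ℚ) ≠ 0 := by
      intro k hk
      have h2 : (s0 : ℚ) ≤ k := by exact_mod_cast hs0 k hk
      have h3 : (0 : ℚ) ≤ t := by positivity
      intro h4
      linarith
    have h5 : P.eval ((t : ℚ) + 1 - s0) / (QQ s μ).eval ((t : ℚ) + 1 - s0) =
        PowerSeries.coeff 0 (RS s μ P ((t : ℚ) + 1 - s0)) := by
      unfold RS
      have hQ := TS_QQ_mul_VV s μ ((t : ℚ) + 1 - s0) (fun m hm _ => hne m hm)
      have hQ2 := congrArg (PowerSeries.constantCoeff (R := ℚ)) hQ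
      rw [map_mul, constCoeff_TS, map_one] at hQ2
      rw [PowerSeries.coeff_zero_eq_constantCoeff_apply, map_mul, constCoeff_TS]
      have hQ3 : (QQ s μ).eval ((t : ℚ) + 1 - s0) ≠ 0 := left_ne_zero_of_mul_eq_one hQ2
      rw [div_eq_iff hQ3, mul_assoc, mul_comm (PowerSeries.constantCoeff _), hQ2, mul_one]
    rw [h5, coeff_RS s μ P hdeg' _ hne 0]
    push_cast
    show ∑ k ∈ s, _ = _
    apply Finset.sum_congr rfl
    intro k hk
    have h6 := sum_pfc_eq s μ P r k (hr k hk) (fun a i => ((a : ℚ) : ℝ) *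
          (1 / ((t : ℝ) + (((k - s0 : ℕ) : ℝ) + 1)) ^ i)) (by intro i; simp)
    rw [← h6]
    apply Finset.sum_congr rfl
    intro j _
    have h7 : (((k - s0 : ℕ) : ℝ) + 1) = (k : ℝ) - s0 + 1 := by
      rw [Nat.cast_sub (hs0 k hk)]
    rw [h7]
    simp only [pow_zero, add_zero, Nat.choose_self, Nat.cast_one, mul_one]
    rw [show (t : ℝ) + ((k : ℝ) - s0 + 1) = (t : ℝ) + 1 - s0 + k by ring]
  have hzero : ∀ t : ℕ, t < s0 → φ t = 0 := by
    intro t ht
    rw [hval]
    have h1 : ((t : ℚ) + 1 - s0) = -((s0 - 1 - t : ℕ) : ℚ) := by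
      have : s0 - 1 - t + (t + 1) = s0 := by omega
      have h2 : (((s0 - 1 - t + (t + 1) : ℕ)) : ℚ) = (s0 : ℚ) := by rw [this]
      push_cast at h2
      linarith
    rw [h1, hz _ (by omega), zero_div]
    simp
  have hshift : ∀ t : ℕ, φ (t + s0) = ((P.eval ((t : ℚ) + 1) / (QQ s μ).eval ((t : ℚ) + 1) : ℚ) : ℝ) := by
    intro t
    rw [hval (t + s0)]
    push_cast
    rw [show (t : ℚ) + s0 + 1 - s0 = (t : ℚ) + 1 by ring]
  have h1 := (hasSum_nat_add_iff' (f := φ) s0).2 hφ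
  have h2 : ∑ i ∈ Finset.range s0, φ i = 0 :=
    Finset.sum_eq_zero fun i hi => hzero i (Finset.mem_range.1 hi)
  rw [h2, sub_zero] at h1
  simpa only [hshift] using h1

/-! ### the concrete function -/

lemma B1_ZM_comp (n : ℕ) : (ZM n).comp (-X - C ((6 * n : ℕ) : ℚ)) = ZM n := by
  unfold ZM
  rw [Polynomial.mul_comp, Polynomial.prod_comp, Polynomial.prod_comp]
  have h1 : ∏ m ∈ Finset.range (2 * n), (X + C (m : ℚ) : ℚ[X]).comp (-X - C ((6 * n : ℕ) : ℚ)) =
      ∏ m ∈ Finset.Icc (4 * n + 1) (6 * n), (X + C (m : ℚ)) := by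
    have h2 : ∏ m ∈ Finset.range (2 * n), (X + C (m : ℚ) : ℚ[X]).comp (-X - C ((6 * n : ℕ) : ℚ)) =
        ∏ m ∈ Finset.range (2 * n), (-1) * (X + C ((6 * n - m : ℕ) : ℚ)) := by
      apply Finset.prod_congr rfl
      intro m hm
      rw [Finset.mem_range] at hm
      simp only [Polynomial.add_comp, Polynomial.X_comp, Polynomial.C_comp]
      rw [Nat.cast_sub (by omega), map_sub]
      ring
    rw [h2, Finset.prod_mul_distrib, Finset.prod_const, Finset.card_range, pow_mul]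
    rw [show ((-1 : ℚ[X])) ^ 2 = 1 by ring, one_pow, one_mul]
    apply Finset.prod_bij (fun m _ => 6 * n - m)
    · intro m hm
      rw [Finset.mem_range] at hm
      rw [Finset.mem_Icc]
      omega
    · intro m1 hm1 m2 hm2 h
      rw [Finset.mem_range] at hm1 hm2
      omega
    · intro m hm
      rw [Finset.mem_Icc] at hm
      exact ⟨6 * n - m, by rw [Finset.mem_range]; omega, by omega⟩
    · intro m _
      rfl
  have h3 : ∏ m ∈ Finset.Icc (4 * n + 1) (6 * n), (X + C (m : ℚ) : ℚ[X]).comp (-X - C ((6 * n : ℕ) : ℚ)) =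
      ∏ m ∈ Finset.range (2 * n), (X + C (m : ℚ)) := by
    have h2 : ∏ m ∈ Finset.Icc (4 * n + 1) (6 * n), (X + C (m : ℚ) : ℚ[X]).comp (-X - C ((6 * n : ℕ) : ℚ)) =
        ∏ m ∈ Finset.Icc (4 * n + 1) (6 * n), (-1) * (X + C ((6 * n - m : ℕ) : ℚ)) := by
      apply Finset.prod_congr rfl
      intro m hm
      rw [Finset.mem_Icc] at hm
      simp only [Polynomial.add_comp, Polynomial.X_comp, Polynomial.C_comp]
      rw [Nat.cast_sub (by omega), map_sub]
      ring
    have hcard : (Finset.Icc (4 * n + 1) (6 * n)).card = 2 * n := by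
      rw [Nat.card_Icc]; omega
    rw [h2, Finset.prod_mul_distrib, Finset.prod_const, hcard, pow_mul]
    rw [show ((-1 : ℚ[X])) ^ 2 = 1 by ring, one_pow, one_mul]
    apply Finset.prod_bij (fun m _ => 6 * n - m)
    · intro m hm
      rw [Finset.mem_Icc] at hm
      rw [Finset.mem_range]
      omega
    · intro m1 hm1 m2 hm2 h
      rw [Finset.mem_Icc] at hm1 hm2
      omega
    · intro m hm
      rw [Finset.mem_range] at hm
      exact ⟨6 * n - m, by rw [Finset.mem_Icc]; omega, by omega⟩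
    · intro m _
      rfl
  rw [h1, h3, mul_comm]

lemma B1_PM_comp (n : ℕ) : (PM n).comp (-X - C ((6 * n : ℕ) : ℚ)) = - PM n := by
  unfold PM
  rw [Polynomial.mul_comp, Polynomial.mul_comp, B1_ZM_comp, Polynomial.C_comp]
  have h1 : (2 * X + C ((6 * n : ℕ) : ℚ) : ℚ[X]).comp (-X - C ((6 * n : ℕ) : ℚ)) =
      -(2 * X + C ((6 * n : ℕ) : ℚ)) := by
    simp only [Polynomial.add_comp, Polynomial.mul_comp, Polynomial.X_comp, Polynomial.C_comp,
      Polynomial.ofNat_comp]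
    ring
  rw [h1]
  ring

lemma B1_xM_comp (n : ℕ) : (xM n).comp (-X - C ((6 * n : ℕ) : ℚ)) = xM n := by
  unfold xM
  rw [Polynomial.pow_comp]
  simp only [Polynomial.add_comp, Polynomial.X_comp, Polynomial.C_comp]
  have : (C ((6 * n : ℕ) : ℚ) : ℚ[X]) = 2 * C ((3 * n : ℕ) : ℚ) := by
    rw [show ((6 * n : ℕ) : ℚ) = 2 * ((3 * n : ℕ) : ℚ) by push_cast; ring, map_mul, map_ofNat]
  rw [this]
  ring

lemma B1_P_comp (n : ℕ) (Q : ℚ[X]) :
    (PM n * EM n Q).comp (-X - C ((6 * n : ℕ) : ℚ)) = -(PM n * EM n Q) := by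
  rw [Polynomial.mul_comp, B1_PM_comp]
  have : (EM n Q).comp (-X - C ((6 * n : ℕ) : ℚ)) = EM n Q := by
    unfold EM
    rw [Polynomial.comp_assoc, B1_xM_comp]
  rw [this]
  ring

lemma B1_deg {n : ℕ} (hn : 5 ≤ n) (Q : ℚ[X]) (hQ : Q.natDegree ≤ 12 * n) :
    (PM n * EM n Q).natDegree + 2 ≤ (QQ (sM n) mM).natDegree := by
  have h0 : (QQ (sM n) mM).natDegree = 20 * (2 * n + 1) := by
    rw [QQ_natDegree, Finset.sum_const, Nat.card_Icc, smul_eq_mul]
    have : 4 * n + 1 - 2 * n = 2 * n + 1 := by omega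
    rw [this, mul_comm]
  have h1 : (EM n Q).natDegree ≤ (36 + Q.natDegree) * 2 := by
    unfold EM
    refine Polynomial.natDegree_comp_le.trans ?_
    have h2 : (xM n).natDegree ≤ 2 := by
      unfold xM
      refine Polynomial.natDegree_pow_le.trans ?_
      rw [Polynomial.natDegree_X_add_C]
    have h3 : (X ^ 36 * Q).natDegree ≤ 36 + Q.natDegree := by
      refine Polynomial.natDegree_mul_le.trans ?_
      rw [Polynomial.natDegree_X_pow]
    exact Nat.mul_le_mul h3 h2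
  have h2 : (ZM n).natDegree ≤ 2 * n + 2 * n := by
    unfold ZM
    refine Polynomial.natDegree_mul_le.trans (add_le_add ?_ ?_)
    · refine (Polynomial.natDegree_prod_le _ _).trans ?_
      refine (Finset.sum_le_card_nsmul _ _ 1 fun m _ => by rw [Polynomial.natDegree_X_add_C]).trans ?_
      simp
    · refine (Polynomial.natDegree_prod_le _ _).trans ?_
      refine (Finset.sum_le_card_nsmul _ _ 1 fun m _ => by rw [Polynomial.natDegree_X_add_C]).trans ?_
      rw [Nat.card_Icc, smul_eq_mul]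
      omega
  have h3 : (PM n).natDegree ≤ 1 + (2 * n + 2 * n) := by
    unfold PM
    refine Polynomial.natDegree_mul_le.trans (add_le_add ?_ h2)
    refine (Polynomial.natDegree_C_mul_le _ _).trans ?_
    compute_degree
  have h4 : (PM n * EM n Q).natDegree ≤ (PM n).natDegree + (EM n Q).natDegree :=
    Polynomial.natDegree_mul_le
  rw [h0]
  omega

lemma B1_prod_fact (c N : ℕ) : (∏ m ∈ Finset.range N, (((c + 1 + m : ℕ)) : ℚ)) * (c.factorial : ℚ) =
    ((c + N).factorial : ℚ) := by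
  induction N with
  | zero => simp
  | succ N ih =>
    rw [Finset.prod_range_succ, show c + (N + 1) = (c + N) + 1 by ring, Nat.factorial_succ]
    push_cast at ih ⊢
    rw [← ih]
    ring

lemma B1_eval_ZM (n t : ℕ) : (ZM n).eval ((t : ℚ) + 1) =
    (((2 * n + t).factorial : ℚ) / (t.factorial : ℚ)) *
      (((6 * n + 1 + t).factorial : ℚ) / ((4 * n + 1 + t).factorial : ℚ)) := by
  unfold ZM
  rw [Polynomial.eval_mul, Polynomial.eval_prod, Polynomial.eval_prod]
  congr 1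
  · rw [eq_div_iff (by exact_mod_cast Nat.factorial_ne_zero _)]
    have := B1_prod_fact t (2 * n)
    rw [show 2 * n + t = t + 2 * n by ring, ← this]
    congr 1
    apply Finset.prod_congr rfl
    intro m _
    simp
  · rw [eq_div_iff (by exact_mod_cast Nat.factorial_ne_zero _)]
    have := B1_prod_fact (4 * n + 1 + t) (2 * n)
    rw [show 6 * n + 1 + t = 4 * n + 1 + t + 2 * n by ring, ← this]
    congr 1
    rw [show Finset.Icc (4 * n + 1) (6 * n) = Finset.Ico (4 * n + 1) (6 * n + 1) by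
      ext x; simp [Finset.mem_Icc, Finset.mem_Ico], Finset.prod_Ico_eq_prod_range]
    have e : 6 * n + 1 - (4 * n + 1) = 2 * n := by omega
    rw [e]
    apply Finset.prod_congr rfl
    intro m _
    simp only [Polynomial.eval_add, Polynomial.eval_X, Polynomial.eval_C]
    push_cast
    ring

lemma B1_eval_QQ (n t : ℕ) : (QQ (sM n) mM).eval ((t : ℚ) + 1) =
    (((4 * n + 1 + t).factorial : ℚ) / ((2 * n + t).factorial : ℚ)) ^ 20 := by
  unfold QQ
  rw [Polynomial.eval_prod]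
  have h0 : ∀ m ∈ sM n, ((X + C (m : ℚ) : ℚ[X]) ^ mM m).eval ((t : ℚ) + 1) =
      ((t : ℚ) + 1 + m) ^ 20 := by
    intro m _
    simp [Polynomial.eval_pow]
  rw [Finset.prod_congr rfl h0, Finset.prod_pow]
  congr 1
  rw [eq_div_iff (by exact_mod_cast Nat.factorial_ne_zero _)]
  have := B1_prod_fact (2 * n + t) (2 * n + 1)
  rw [show 4 * n + 1 + t = 2 * n + t + (2 * n + 1) by ring, ← this]
  congr 1
  rw [show sM n = Finset.Ico (2 * n) (4 * n + 1) by
    ext x; simp [sM, Finset.mem_Icc, Finset.mem_Ico], Finset.prod_Ico_eq_prod_range]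
  have e : 4 * n + 1 - 2 * n = 2 * n + 1 := by omega
  rw [e]
  apply Finset.prod_congr rfl
  intro m _
  push_cast
  ring

lemma B1_val (n t : ℕ) (Q : ℚ[X]) :
    (((PM n * EM n Q).eval ((t : ℚ) + 1) / (QQ (sM n) mM).eval ((t : ℚ) + 1) : ℚ) : ℝ) =
      wv n (3 * n + 1 + t) * ((Q.eval (((3 * n + 1 + t : ℕ) : ℚ) ^ 2) : ℚ) : ℝ) := by
  have hE : (EM n Q).eval ((t : ℚ) + 1) = (((3 * n + 1 + t : ℕ) : ℚ)) ^ 72 *
      Q.eval (((3 * n + 1 + t : ℕ) : ℚ) ^ 2) := by
    unfold EM xM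
    rw [Polynomial.eval_comp, Polynomial.eval_mul, Polynomial.eval_pow, Polynomial.eval_X,
      Polynomial.eval_pow, Polynomial.eval_add, Polynomial.eval_X, Polynomial.eval_C, ← pow_mul]
    have : (t : ℚ) + 1 + ((3 * n : ℕ) : ℚ) = ((3 * n + 1 + t : ℕ) : ℚ) := by push_cast; ring
    rw [this]
  have hP : (PM n).eval ((t : ℚ) + 1) = ((2 * n).factorial : ℚ) ^ 18 * (2 * ((3 * n + 1 + t : ℕ) : ℚ)) *
      ((((2 * n + t).factorial : ℚ) / (t.factorial : ℚ)) *
      (((6 * n + 1 + t).factorial : ℚ) / ((4 * n + 1 + t).factorial : ℚ))) := by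
    unfold PM cM
    rw [Polynomial.eval_mul, Polynomial.eval_mul, B1_eval_ZM]
    simp only [Polynomial.eval_C, Polynomial.eval_add, Polynomial.eval_mul, Polynomial.eval_X,
      Polynomial.eval_ofNat]
    congr 2
    push_cast
    ring
  rw [Polynomial.eval_mul, hE, hP, B1_eval_QQ]
  unfold wv
  have e1 : 3 * n + 1 + t + 3 * n = 6 * n + 1 + t := by ring
  have e2 : 3 * n + 1 + t + n = 4 * n + 1 + t := by ring
  have e3 : 3 * n + 1 + t - n - 1 = 2 * n + t := by omega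
  have e4 : 3 * n + 1 + t - 3 * n - 1 = t := by omega
  rw [e1, e2, e3, e4]
  have f1 : ((2 * n + t).factorial : ℝ) ≠ 0 := by exact_mod_cast Nat.factorial_ne_zero _
  have f2 : (t.factorial : ℝ) ≠ 0 := by exact_mod_cast Nat.factorial_ne_zero _
  have f3 : ((4 * n + 1 + t).factorial : ℝ) ≠ 0 := by exact_mod_cast Nat.factorial_ne_zero _
  have f4 : ((6 * n + 1 + t).factorial : ℝ) ≠ 0 := by exact_mod_cast Nat.factorial_ne_zero _
  simp only [Rat.cast_div, Rat.cast_mul, Rat.cast_pow, Rat.cast_natCast, Rat.cast_ofNat]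
  rw [show ((((2 * n + t).factorial : ℝ)) / ((4 * n + 1 + t).factorial : ℝ)) ^ 20 =
    1 / (((4 * n + 1 + t).factorial : ℝ) / ((2 * n + t).factorial : ℝ)) ^ 20 by
      rw [one_div, ← inv_pow, inv_div]]
  ring

theorem B1_hasSum {n : ℕ} (hn : 5 ≤ n) (α β : ℕ → ℚ) (θ : ℝ)
    (h : ∀ i, Odd i → 3 ≤ i → i ≤ 19 → zr i = (α i : ℝ) + θ * (β i : ℝ))
    (Q : ℚ[X]) (hQ : Q.natDegree ≤ 12 * n) :
    HasSum (fun t : ℕ => wv n (3 * n + 1 + t) * ((Q.eval (((3 * n + 1 + t : ℕ) : ℚ) ^ 2) : ℚ) : ℝ))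
      (((AL n α Q : ℚ) : ℝ) + θ * ((BL n β Q : ℚ) : ℝ)) := by
  have hd := B1_deg hn Q hQ
  have h1 := B1_form (sM n) mM (PM n * EM n Q) hd (2 * n) 20
    (fun k hk => (Finset.mem_Icc.1 hk).1) (fun k _ => le_rfl) (by
      intro m hm
      have : (ZM n).eval (-(m : ℚ)) = 0 := by
        unfold ZM
        rw [Polynomial.eval_mul, Polynomial.eval_prod,
          Finset.prod_eq_zero (Finset.mem_range.2 hm) (by simp), zero_mul]
      unfold PM
      rw [Polynomial.eval_mul, Polynomial.eval_mul, this, mul_zero, zero_mul])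
  have h2 : (fun t : ℕ => wv n (3 * n + 1 + t) * ((Q.eval (((3 * n + 1 + t : ℕ) : ℚ) ^ 2) : ℚ) : ℝ)) =
      fun t : ℕ => (((PM n * EM n Q).eval ((t : ℚ) + 1) / (QQ (sM n) mM).eval ((t : ℚ) + 1) : ℚ) : ℝ) := by
    funext t
    rw [B1_val]
  rw [h2]
  convert h1 using 1
  rw [AL_apply, BL_apply]
  unfold xa xb rho
  push_cast
  rw [Finset.mul_sum, ← Finset.sum_add_distrib]
  apply Finset.sum_congr rfl
  intro i hi
  rw [Finset.mem_Icc] at hi
  have key : (∑ k ∈ sM n, ((pa (sM n) mM (PM n * EM n Q) k i : ℚ) : ℝ)) *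
      ((α i : ℝ) + θ * (β i : ℝ)) = (∑ k ∈ sM n, ((pa (sM n) mM (PM n * EM n Q) k i : ℚ) : ℝ)) *
      (if i = 1 then 0 else zr i) := by
    by_cases hodd : Odd i
    · by_cases hi1 : i = 1
      · subst hi1
        have h6 := residue_sum (sM n) mM (PM n * EM n Q) hd
        have h4 : (∑ k ∈ sM n, ((pa (sM n) mM (PM n * EM n Q) k 1 : ℚ) : ℝ)) = 0 := by
          have : (((∑ k ∈ sM n, pa (sM n) mM (PM n * EM n Q) k 1 : ℚ)) : ℝ) = 0 := by
            rw [h6]; simp
          push_cast at this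
          exact this
        rw [h4, zero_mul, zero_mul]
      · rw [if_neg hi1, h i hodd (by obtain ⟨j, hj⟩ := hodd; omega) (by obtain ⟨j, hj⟩ := hodd; omega)]
    · have hodd' := Nat.not_odd_iff_even.1 hodd
      have h6 := even_vanish (sM n) mM (PM n * EM n Q) (6 * n)
        (fun k hk => by
          rw [Finset.mem_Icc] at hk ⊢
          omega) (fun k hk => rfl)
        (B1_P_comp n Q) (by
          rw [Finset.sum_const, smul_eq_mul]
          exact (by decide : Even 20).mul_left _) hodd' hi.1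
      have h4 : (∑ k ∈ sM n, ((pa (sM n) mM (PM n * EM n Q) k i : ℚ) : ℝ)) = 0 := by
        have : (((∑ k ∈ sM n, pa (sM n) mM (PM n * EM n Q) k i : ℚ)) : ℝ) = 0 := by
          rw [h6]; simp
        push_cast at this
        exact this
      rw [h4, zero_mul, zero_mul]
  linear_combination key

end

end Pool.Agent.H574R2.D3
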