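import Pool.Agent.H574R2.D3.Defs

/-!
# The greedy algorithm and the splitting of the exponent (task D1)
-/

open Polynomial Pool.Agent.H337R2

namespace Pool.Agent.H574R2.D3

theorem D1_T1_step (y : ℤ) : T1 y - T1 (y - 1) = max 0 y := by
  unfold T1
  by_cases h1 : 0 < y
  · by_cases h2 : 0 < y - 1
    · rw [if_pos h1, if_pos h2, max_eq_right h1.le]
      have : y * (y + 1) = (y - 1) * (y - 1 + 1) + y * 2 := by ring
      rw [this, Int.add_mul_ediv_right _ _ (by norm_num)]
      ring
    · rw [if_pos h1, if_neg h2, max_eq_right h1.le]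
      obtain rfl : y = 1 := by omega
      norm_num
  · have h2 : ¬ 0 < y - 1 := by omega
    rw [if_neg h1, if_neg h2, max_eq_left (by omega)]
    norm_num

theorem D1_T1_nonneg (y : ℤ) : 0 ≤ T1 y := by
  unfold T1
  split_ifs
  · positivity
  · exact le_rfl

theorem D1_greedy {K : Type} [DecidableEq K] (S : Finset K) (hS : S.Nonempty) (c : K → ℤ) (μ : ℤ) (m : ℕ) :
    ∃ (κ : ℕ → K) (s : ℕ → ℤ), (∀ i, κ i ∈ S) ∧ (∀ i, μ ≤ s i) ∧
      (∑ i ∈ Finset.range m, s i ≤ m * μ + ∑ k ∈ S, T1 (c k - μ)) ∧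
      ∀ k ∈ S, ∀ i, c k - (((Finset.range i).filter fun l => κ l = k).card : ℤ) ≤ s i := by
  classical
  have hpick : ∀ l : K → ℕ, ∃ k ∈ S, ∀ k' ∈ S, c k' - (l k' : ℤ) ≤ c k - (l k : ℤ) :=
    fun l => Finset.exists_max_image S (fun k => c k - (l k : ℤ)) hS
  choose pick hp1 hp2 using hpick
  obtain ⟨L, hL0, hLs⟩ : ∃ L : ℕ → K → ℕ, (∀ k, L 0 k = 0) ∧
      ∀ i k, L (i + 1) k = L i k + if pick (L i) = k then 1 else 0 :=
    ⟨fun i => Nat.rec (motive := fun _ => K → ℕ) (fun _ => 0)
      (fun _ l k => l k + if pick l = k then 1 else 0) i, fun _ => rfl, fun _ _ => rfl⟩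
  have hcount : ∀ i k, ((Finset.range i).filter fun l => pick (L l) = k).card = L i k := by
    intro i k
    induction i with
    | zero => simp [hL0]
    | succ i ih =>
      rw [hLs, Finset.range_add_one, Finset.filter_insert]
      split_ifs with h
      · rw [Finset.card_insert_of_notMem (by simp), ih]
      · rw [ih, add_zero]
  let sq : ℕ → ℤ := fun i => max μ (c (pick (L i)) - ((L i (pick (L i)) : ℕ) : ℤ))
  refine ⟨fun i => pick (L i), sq, fun i => hp1 _, fun i => le_max_left _ _, ?_, ?_⟩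
  · have key : ∀ m : ℕ, ∑ i ∈ Finset.range m, max μ (c (pick (L i)) - (L i (pick (L i)) : ℤ)) +
        ∑ k ∈ S, T1 (c k - μ - (L m k : ℤ)) ≤ m * μ + ∑ k ∈ S, T1 (c k - μ) := by
      intro m
      induction m with
      | zero => simp [hL0]
      | succ m ih =>
        rw [Finset.sum_range_succ]
        have h1 : ∑ k ∈ S, T1 (c k - μ - (L (m + 1) k : ℤ)) =
            ∑ k ∈ S, T1 (c k - μ - (L m k : ℤ)) -
              max 0 (c (pick (L m)) - μ - (L m (pick (L m)) : ℤ)) := by
          rw [← Finset.add_sum_erase S _ (hp1 (L m)), ← Finset.add_sum_erase S _ (hp1 (L m))]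
          rw [Finset.sum_congr rfl (g := fun k => T1 (c k - μ - (L m k : ℤ))) (fun k hk => ?_)]
          · have h2 := D1_T1_step (c (pick (L m)) - μ - (L m (pick (L m)) : ℤ))
            have h3 : c (pick (L m)) - μ - (L (m + 1) (pick (L m)) : ℤ) =
                c (pick (L m)) - μ - (L m (pick (L m)) : ℤ) - 1 := by
              rw [hLs, if_pos rfl]; push_cast; ring
            rw [h3]
            linarith
          · have h2 : pick (L m) ≠ k := (Finset.ne_of_mem_erase hk).symm
            simp only [hLs, if_neg h2, add_zero]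
        rw [h1]
        have h4 : max μ (c (pick (L m)) - (L m (pick (L m)) : ℤ)) =
            μ + max 0 (c (pick (L m)) - μ - (L m (pick (L m)) : ℤ)) := by
          rcases le_total μ (c (pick (L m)) - (L m (pick (L m)) : ℤ)) with h | h
          · rw [max_eq_right h, max_eq_right (by linarith)]; ring
          · rw [max_eq_left h, max_eq_left (by linarith)]; ring
        rw [h4]
        push_cast
        linarith
    have h5 : 0 ≤ ∑ k ∈ S, T1 (c k - μ - (L m k : ℤ)) :=
      Finset.sum_nonneg fun _ _ => D1_T1_nonneg _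
    linarith [key m]
  · intro k hk i
    rw [hcount]
    exact (hp2 (L i) k hk).trans (le_max_right _ _)

theorem D1_two_T1 (y : ℤ) (hy : 0 ≤ y) : 2 * T1 y = y * (y + 1) := by
  unfold T1
  split_ifs with h
  · exact Int.mul_ediv_cancel' (Int.even_mul_succ_self y).two_dvd
  · obtain rfl : y = 0 := by omega
    norm_num

theorem D1_split (y : ℤ) : ∃ z : ℤ, T1 z + 2 * T1 (y - z) ≤ T3 y := by
  by_cases hy : 0 < y
  · obtain ⟨m, hm0, hm⟩ : ∃ m : ℤ, 0 ≤ m ∧ (y = 3 * m ∨ y = 3 * m + 1 ∨ y = 3 * m + 2) :=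
      ⟨y / 3, by omega, by omega⟩
    have hT3 : T3 y = (y + 1) ^ 2 / 3 := by
      unfold T3
      rw [if_pos hy]
    rw [hT3]
    rcases hm with rfl | rfl | rfl
    · refine ⟨2 * m, ?_⟩
      have h1 := D1_two_T1 (2 * m) (by omega)
      have h2 := D1_two_T1 (3 * m - 2 * m) (by omega)
      have h3 : (3 * m + 1) ^ 2 / 3 = 3 * m ^ 2 + 2 * m := by
        have : (3 * m + 1) ^ 2 = 1 + (3 * m ^ 2 + 2 * m) * 3 := by ring
        rw [this, Int.add_mul_ediv_right _ _ (by norm_num)]
        norm_num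
      rw [h3]
      nlinarith
    · refine ⟨2 * m + 1, ?_⟩
      have h1 := D1_two_T1 (2 * m + 1) (by omega)
      have h2 := D1_two_T1 (3 * m + 1 - (2 * m + 1)) (by omega)
      have h3 : (3 * m + 1 + 1) ^ 2 / 3 = 3 * m ^ 2 + 4 * m + 1 := by
        have : (3 * m + 1 + 1) ^ 2 = 1 + (3 * m ^ 2 + 4 * m + 1) * 3 := by ring
        rw [this, Int.add_mul_ediv_right _ _ (by norm_num)]
        norm_num
      rw [h3]
      nlinarith
    · refine ⟨2 * m + 1, ?_⟩
      have h1 := D1_two_T1 (2 * m + 1) (by omega)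
      have h2 := D1_two_T1 (3 * m + 2 - (2 * m + 1)) (by omega)
      have h3 : (3 * m + 2 + 1) ^ 2 / 3 = 3 * m ^ 2 + 6 * m + 3 := by
        have : (3 * m + 2 + 1) ^ 2 = (3 * m ^ 2 + 6 * m + 3) * 3 := by ring
        rw [this, Int.mul_ediv_cancel _ (by norm_num)]
      rw [h3]
      nlinarith
  · refine ⟨0, ?_⟩
    have h1 : T1 0 = 0 := by
      unfold T1
      rw [if_neg (lt_irrefl 0)]
    have h2 : T1 (y - 0) = 0 := by
      unfold T1
      rw [if_neg (by omega)]
    have h3 : T3 y = 0 := by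
      unfold T3
      rw [if_neg hy]
    rw [h1, h2, h3]
    norm_num

end Pool.Agent.H574R2.D3
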