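import Pool.Agent.H574R2.D3.Defs

/-! Task D2: class pairs and the exponent `e_p`. -/

open Polynomial Pool.Agent.H337R2

namespace Pool.Agent.H574R2.D3

noncomputable section

lemma D2_mod1 {N p k : ℕ} (hk : k ≤ N) : (N - k % p) % p = (N - k) % p := by
  have h1 : N - k % p = (N - k) + p * (k / p) := by
    have := Nat.mod_add_div k p
    omega
  rw [h1, Nat.add_mul_mod_self_left]

lemma D2_mod2 {N p k : ℕ} (hk : k ≤ N) : (N - (N - k) % p) % p = k % p := by
  rw [D2_mod1 (Nat.sub_le _ _), Nat.sub_sub_self hk]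

theorem D2_kap_mem {n p k : ℕ} (hp : 0 < p) (hk : k ≤ 6 * n) : kap n p k ∈ Kset n p := by
  unfold kap Kset
  rw [Finset.mem_filter, Finset.mem_range]
  refine ⟨(min_le_left _ _).trans_lt (Nat.mod_lt _ hp), ?_⟩
  rcases le_total (k % p) ((6 * n - k) % p) with h | h
  · rw [min_eq_left h, D2_mod1 hk]
    exact h
  · rw [min_eq_right h, D2_mod2 hk]
    exact h

lemma D2_cnt_congr {p A B k k' : ℕ} (h : k % p = k' % p) : cnt p A B k = cnt p A B k' := by
  unfold cnt
  congr 1
  apply Finset.filter_congr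
  intro m _
  have h1 : (p : ℤ) ∣ (k : ℤ) - k' := by
    have : (k : ℤ) ≡ k' [ZMOD p] := by
      exact (Int.natCast_modEq_iff).2 h
    exact this.symm.dvd
  constructor
  · intro h2
    have := dvd_add h2 h1
    simpa using this
  · intro h2
    have := dvd_sub h2 h1
    simpa using this

lemma D2_cnt_refl {p A B N k : ℕ} (hA : A ≤ N) (hB : B ≤ N) (hk : k ≤ N) :
    cnt p A B (N - k) = cnt p (N - B) (N - A) k := by
  unfold cnt
  apply Finset.card_bij (fun m _ => N - m)
  · intro m hm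
    rw [Finset.mem_filter, Finset.mem_Icc] at hm ⊢
    refine ⟨by omega, ?_⟩
    have h1 : ((N - m : ℕ) : ℤ) = N - m := by omega
    have h2 : ((N - k : ℕ) : ℤ) = N - k := by omega
    rw [h2] at hm
    rw [h1]
    have := (dvd_neg).2 hm.2
    have h3 : -((m : ℤ) - (N - k)) = (N : ℤ) - m - k := by ring
    rwa [h3] at this
  · intro a ha b hb hab
    rw [Finset.mem_filter, Finset.mem_Icc] at ha hb
    omega
  · intro b hb
    rw [Finset.mem_filter, Finset.mem_Icc] at hb
    refine ⟨N - b, ?_, by omega⟩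
    rw [Finset.mem_filter, Finset.mem_Icc]
    refine ⟨by omega, ?_⟩
    have h1 : ((N - b : ℕ) : ℤ) = N - b := by omega
    have h2 : ((N - k : ℕ) : ℤ) = N - k := by omega
    rw [h1, h2]
    have := (dvd_neg).2 hb.2
    have h3 : -((b : ℤ) - k) = (N : ℤ) - b - (N - k) := by ring
    rwa [h3] at this

lemma D2_eM_congr {n p k k' : ℕ} (h : k % p = k' % p) : eM n p k = eM n p k' := by
  unfold eM Np Zp
  simp only [D2_cnt_congr h]

lemma D2_eM_refl {n p k : ℕ} (hn : 1 ≤ n) (hk : k ≤ 6 * n) : eM n p (6 * n - k) = eM n p k := by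
  unfold eM Np Zp
  rw [D2_cnt_refl (A := 2 * n) (B := 4 * n) (by omega) (by omega) hk,
    D2_cnt_refl (A := 0) (B := 2 * n - 1) (by omega) (by omega) hk,
    D2_cnt_refl (A := 4 * n + 1) (B := 6 * n) (by omega) (by omega) hk]
  have h1 : 6 * n - 4 * n = 2 * n := by omega
  have h2 : 6 * n - 2 * n = 4 * n := by omega
  have h3 : 6 * n - (2 * n - 1) = 4 * n + 1 := by omega
  have h4 : 6 * n - 0 = 6 * n := by omega
  have h5 : 6 * n - 6 * n = 0 := by omega
  have h6 : 6 * n - (4 * n + 1) = 2 * n - 1 := by omega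
  rw [h1, h2, h3, h4, h5, h6, add_comm (cnt p (4 * n + 1) (6 * n) k)]

theorem D2_eM_kap {n p k : ℕ} (hn : 1 ≤ n) (hp : 0 < p) (hk : k ≤ 6 * n) : eM n p (kap n p k) = eM n p k := by
  unfold kap
  rcases le_total (k % p) ((6 * n - k) % p) with h | h
  · rw [min_eq_left h]
    exact D2_eM_congr (Nat.mod_mod _ _)
  · rw [min_eq_right h, D2_eM_congr (Nat.mod_mod _ _), D2_eM_refl hn hk]

end

end Pool.Agent.H574R2.D3
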