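import Pool.Agent.H574R2.D3.D3pre
import Pool.Agent.H574R2.D3.A1
import Pool.Agent.H574R2.D3.C2
import Pool.Agent.H574R2.D3.D1
import Pool.Agent.H574R2.D3.D2

/-!
# p-adic size of the determinant
-/

open Polynomial Pool.Agent.H337R2

namespace Pool.Agent.H574R2.D3

/-- Leibniz formula and the ultrametric inequality -/
theorem D3_A3 : D3St_A3 := by
  classical
  intro p _ N M r c hr hc h
  rw [Matrix.det_apply]
  refine padicNorm.sum_le' (fun σ _ => ?_) (mul_nonneg (Finset.prod_nonneg fun i _ => hr i)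
    (Finset.prod_nonneg fun i _ => hc i))
  have hs : padicNorm p (Equiv.Perm.sign σ • ∏ i, M (σ i) i) = ∏ i, padicNorm p (M (σ i) i) := by
    have h1 : padicNorm p (∏ i, M (σ i) i) = ∏ i, padicNorm p (M (σ i) i) := by
      refine Finset.induction_on (Finset.univ : Finset (Fin N)) ?_ ?_
      · simp
      · intro a s ha ih
        rw [Finset.prod_insert ha, Finset.prod_insert ha, padicNorm.mul, ih]
    rcases Int.units_eq_one_or (Equiv.Perm.sign σ) with hσ | hσ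
    · rw [hσ, one_smul, h1]
    · rw [hσ, Units.neg_smul, one_smul, padicNorm.neg, h1]
  rw [hs]
  calc ∏ i, padicNorm p (M (σ i) i) ≤ ∏ i : Fin N, (r (σ i) * c i) :=
        Finset.prod_le_prod (fun i _ => padicNorm.nonneg _) (fun i _ => h (σ i) i)
    _ = (∏ i : Fin N, r (σ i)) * ∏ i : Fin N, c i := Finset.prod_mul_distrib
    _ = (∏ i : Fin N, r i) * ∏ i : Fin N, c i := by
        congr 1
        exact Equiv.prod_comp σ (fun i : Fin N => r i)
    _ = _ := by rw [Finset.prod_range, Finset.prod_range]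

/-- p-adic bound, version I -/
theorem D3_det_padic {n p : ℕ} [Fact p.Prime] (hn : 1 ≤ n) (hp2 : 6 * n < p ^ 2) (q : ℕ) (α β : ℕ → ℚ)
    (hα : UInt q α) (hβ : UInt q β) (hβ3 : ∀ i < 3, β i = 0) (m : ℕ) (a : ℤ) (S : Finset ℕ) (hS : S ⊆ Kset n p)
    (h : ∀ k ∈ sM n, kap n p k ∈ S ∨
      (padicNorm p (cM n) ≤ (p : ℚ) ^ (a - 3) ∧ k < 2 * n + p ∧
        ∀ k' ∈ sM n, k' ≠ k → ¬ (p : ℤ) ∣ (k' : ℤ) - k)) :
    padicNorm p ((q : ℚ) ^ (2 * m) * MD (AL n α) (BL n β) m) ≤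
      (p : ℚ) ^ ((m : ℤ) * (2 * a - 3) + ∑ κ ∈ S, T3 (eM n p κ - a)) :=
  D3_det_padic_of A1_MD_monic D3_A3
    C2_xa C2_xb (fun S hS c μ m => D1_greedy S hS c μ m) D1_split D2_eM_kap
    hn hp2 q α β hα hβ hβ3 m a S h

/-- large primes -/
theorem D3_large {n p : ℕ} [Fact p.Prime] (hn : 1 ≤ n) (hp2 : 6 * n < p ^ 2) (hp : 2 * n < p) (q : ℕ) (α β : ℕ → ℚ)
    (hα : UInt q α) (hβ : UInt q β) (hβ3 : ∀ i < 3, β i = 0) (m : ℕ) :
    padicNorm p ((q : ℚ) ^ (2 * m) * MD (AL n α) (BL n β) m) ≤ 1 :=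
  D3_large_of A1_MD_monic D3_A3
    C2_xa C2_xb hn hp2 hp q α β hα hβ hβ3 m

end Pool.Agent.H574R2.D3
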