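import Mathlib

/-! Task A3 (helper933): p-adic bound for determinants with row and column factors. -/

namespace Pool.Agent.H574R2.D3

theorem A3_padic_det (p : ℕ) [Fact p.Prime] (N : ℕ) (M : Matrix (Fin N) (Fin N) ℚ) (r c : ℕ → ℚ)
    (hr : ∀ i, 0 ≤ r i) (hc : ∀ i, 0 ≤ c i) (h : ∀ i j : Fin N, padicNorm p (M i j) ≤ r i * c j) :
    padicNorm p M.det ≤ (∏ i ∈ Finset.range N, r i) * ∏ j ∈ Finset.range N, c j := by
  rw [Matrix.det_apply]
  refine padicNorm.sum_le' (fun σ _ => ?_)
    (mul_nonneg (Finset.prod_nonneg fun i _ => hr i) (Finset.prod_nonneg fun i _ => hc i))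
  have hs : padicNorm p (Equiv.Perm.sign σ • ∏ i, M (σ i) i) = ∏ i, padicNorm p (M (σ i) i) := by
    have h1 : padicNorm p (∏ i, M (σ i) i) = ∏ i, padicNorm p (M (σ i) i) := by
      classical
      refine Finset.induction_on (Finset.univ : Finset (Fin N)) ?_ ?_
      · simp
      · intro a s ha ih
        rw [Finset.prod_insert ha, Finset.prod_insert ha, padicNorm.mul, ih]
    rcases Int.units_eq_one_or (Equiv.Perm.sign σ) with hσ | hσ
    · rw [hσ, one_smul, h1]
    · rw [hσ, Units.neg_smul, one_smul, padicNorm.neg, h1]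
  rw [hs]
  calc ∏ i, padicNorm p (M (σ i) i) ≤ ∏ i, (r (σ i : Fin N) * c i) :=
        Finset.prod_le_prod (fun i _ => padicNorm.nonneg _) fun i _ => h _ _
    _ = (∏ i, r (σ i : Fin N)) * ∏ i : Fin N, c i := Finset.prod_mul_distrib
    _ = (∏ i : Fin N, r i) * ∏ i : Fin N, c i := by
        rw [Equiv.prod_comp σ (fun i : Fin N => r i)]
    _ = (∏ i ∈ Finset.range N, r i) * ∏ j ∈ Finset.range N, c j := by
        rw [Finset.prod_range, Finset.prod_range]

end Pool.Agent.H574R2.D3
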