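import Pool.Agent.H337R2.Med
import Pool.Agent.H337R2.Cx3

/-!
# Three Q-linearly independent numbers among `1, ζ(3), ζ(5), ..., ζ(19)`: definitions

`R(t) = ((2n)!)^18 (2t+6n) ∏_{m=0}^{2n-1} (t+m) ∏_{m=4n+1}^{6n} (t+m) / ∏_{k=2n}^{4n} (t+k)^20`,
`x(t) = (t+3n)^2`. With `v = t + 3n`: poles `|v| ≤ n`, zeros `n < |v| ≤ 3n`.
The numerator is multiplied by `x^36 Q(x)`.
-/

open Polynomial Pool.Agent.H337R2

namespace Pool.Agent.H574R2.D3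

noncomputable section

/-- the poles are at `-k`, `2n ≤ k ≤ 4n` -/
abbrev sM (n : ℕ) : Finset ℕ := Finset.Icc (2 * n) (4 * n)

/-- all poles have order 20 -/
abbrev mM : ℕ → ℕ := fun _ => 20

/-- `(2n)!^18` -/
def cM (n : ℕ) : ℚ := ((2 * n).factorial : ℚ) ^ 18

/-- the zeros -/
def ZM (n : ℕ) : ℚ[X] :=
  (∏ m ∈ Finset.range (2 * n), (X + C (m : ℚ))) * ∏ m ∈ Finset.Icc (4 * n + 1) (6 * n), (X + C (m : ℚ))

/-- numerator -/
def PM (n : ℕ) : ℚ[X] := C (cM n) * (2 * X + C ((6 * n : ℕ) : ℚ)) * ZM n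

/-- `x(t) = (t + 3n)^2` -/
def xM (n : ℕ) : ℚ[X] := (X + C ((3 * n : ℕ) : ℚ)) ^ 2

/-- `x^36 Q(x)` as a polynomial in `t` -/
def EM (n : ℕ) (Q : ℚ[X]) : ℚ[X] := (X ^ 36 * Q).comp (xM n)

/-- coefficient of `ζ(i)` -/
def rho (n : ℕ) (P : ℚ[X]) (i : ℕ) : ℚ := ∑ k ∈ sM n, pa (sM n) mM P k i

/-- the linear form with `ζ(i)` replaced by `α i` -/
def xa (n : ℕ) (α : ℕ → ℚ) (P : ℚ[X]) : ℚ :=
  ∑ i ∈ Finset.Icc 1 20, (rho n P i * α i - ∑ k ∈ sM n, pa (sM n) mM P k i * hs i (k - 2 * n))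

/-- the linear form in the coefficients -/
def xb (n : ℕ) (β : ℕ → ℚ) (P : ℚ[X]) : ℚ := ∑ i ∈ Finset.Icc 1 20, rho n P i * β i

lemma pa_add (s : Finset ℕ) (μ : ℕ → ℕ) (P Q : ℚ[X]) (k i : ℕ) :
    pa s μ (P + Q) k i = pa s μ P k i + pa s μ Q k i := by
  unfold pa
  split_ifs
  · unfold pfc; rw [map_add, add_mul, map_add]
  · simp

lemma pa_C_mul (s : Finset ℕ) (μ : ℕ → ℕ) (c : ℚ) (P : ℚ[X]) (k i : ℕ) :
    pa s μ (C c * P) k i = c * pa s μ P k i := by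
  unfold pa
  split_ifs
  · unfold pfc; rw [(TS (-(k : ℚ))).map_mul, TS_C, mul_assoc, PowerSeries.coeff_C_mul]
  · simp

lemma rho_add (n : ℕ) (P Q : ℚ[X]) (i : ℕ) : rho n (P + Q) i = rho n P i + rho n Q i := by
  unfold rho
  rw [← Finset.sum_add_distrib]
  exact Finset.sum_congr rfl fun k _ => pa_add _ _ _ _ _ _

lemma rho_C_mul (n : ℕ) (c : ℚ) (P : ℚ[X]) (i : ℕ) : rho n (C c * P) i = c * rho n P i := by
  unfold rho
  rw [Finset.mul_sum]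
  exact Finset.sum_congr rfl fun k _ => pa_C_mul _ _ _ _ _ _

lemma xa_add (n : ℕ) (α : ℕ → ℚ) (P Q : ℚ[X]) : xa n α (P + Q) = xa n α P + xa n α Q := by
  unfold xa
  rw [← Finset.sum_add_distrib]
  apply Finset.sum_congr rfl
  intro i _
  simp only [rho_add, pa_add, add_mul, Finset.sum_add_distrib]
  ring

lemma xa_C_mul (n : ℕ) (α : ℕ → ℚ) (c : ℚ) (P : ℚ[X]) : xa n α (C c * P) = c * xa n α P := by
  unfold xa
  rw [Finset.mul_sum]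
  apply Finset.sum_congr rfl
  intro i _
  simp only [rho_C_mul, pa_C_mul, mul_sub, Finset.mul_sum]
  congr 1
  · ring
  · exact Finset.sum_congr rfl fun k _ => by ring

lemma xb_add (n : ℕ) (β : ℕ → ℚ) (P Q : ℚ[X]) : xb n β (P + Q) = xb n β P + xb n β Q := by
  unfold xb
  rw [← Finset.sum_add_distrib]
  exact Finset.sum_congr rfl fun i _ => by rw [rho_add, add_mul]

lemma xb_C_mul (n : ℕ) (β : ℕ → ℚ) (c : ℚ) (P : ℚ[X]) : xb n β (C c * P) = c * xb n β P := by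
  unfold xb
  rw [Finset.mul_sum]
  exact Finset.sum_congr rfl fun i _ => by rw [rho_C_mul, mul_assoc]

lemma EM_add (n : ℕ) (P Q : ℚ[X]) : EM n (P + Q) = EM n P + EM n Q := by
  unfold EM
  rw [mul_add, Polynomial.add_comp]

lemma EM_C_mul (n : ℕ) (c : ℚ) (P : ℚ[X]) : EM n (C c * P) = C c * EM n P := by
  unfold EM
  rw [mul_left_comm, Polynomial.mul_comp, Polynomial.C_comp]

/-- the functional `A` -/
def AL (n : ℕ) (α : ℕ → ℚ) : ℚ[X] →ₗ[ℚ] ℚ where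
  toFun Q := xa n α (PM n * EM n Q)
  map_add' P Q := by rw [EM_add, mul_add, xa_add]
  map_smul' c P := by
    rw [RingHom.id_apply, Polynomial.smul_eq_C_mul, EM_C_mul, mul_left_comm, xa_C_mul, smul_eq_mul]

/-- the functional `B` -/
def BL (n : ℕ) (β : ℕ → ℚ) : ℚ[X] →ₗ[ℚ] ℚ where
  toFun Q := xb n β (PM n * EM n Q)
  map_add' P Q := by rw [EM_add, mul_add, xb_add]
  map_smul' c P := by
    rw [RingHom.id_apply, Polynomial.smul_eq_C_mul, EM_C_mul, mul_left_comm, xb_C_mul, smul_eq_mul]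

lemma AL_apply (n : ℕ) (α : ℕ → ℚ) (Q : ℚ[X]) : AL n α Q = xa n α (PM n * EM n Q) := rfl

lemma BL_apply (n : ℕ) (β : ℕ → ℚ) (Q : ℚ[X]) : BL n β Q = xb n β (PM n * EM n Q) := rfl

/-- the mixed Hankel determinant, of size `2m` -/
def MD (A B : ℚ[X] →ₗ[ℚ] ℚ) (m : ℕ) : ℚ :=
  (Matrix.of fun i j : Fin (2 * m) =>
    if j.1 < m then A (X ^ (i.1 + j.1)) else B (X ^ (i.1 + (j.1 - m)))).det

/-- the determinant of size `8n-16` -/
def DD (n : ℕ) (α β : ℕ → ℚ) : ℚ := MD (AL n α) (BL n β) (4 * n - 8)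

/-- `q` is a common denominator of the `u i` -/
def UInt (q : ℕ) (u : ℕ → ℚ) : Prop := 0 < q ∧ ∀ i, ∃ z : ℤ, (q : ℚ) * u i = z

/-- number of poles congruent to `-k`.. (`k' ≡ k`) -/
def Np (n p k : ℕ) : ℕ := cnt p (2 * n) (4 * n) k

/-- number of zeros congruent to `k` -/
def Zp (n p k : ℕ) : ℕ := cnt p 0 (2 * n - 1) k + cnt p (4 * n + 1) (6 * n) k

/-- the exponent `e_p(k)` -/
def eM (n p k : ℕ) : ℤ := 20 * (Np n p k : ℤ) - Zp n p k - 18 * ((2 * n / p : ℕ) : ℤ)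

/-- `y(y+1)/2` for `y > 0`, and `0` otherwise -/
def T1 (y : ℤ) : ℤ := if 0 < y then y * (y + 1) / 2 else 0

/-- `⌊(y+1)²/3⌋` for `y > 0`, and `0` otherwise -/
def T3 (y : ℤ) : ℤ := if 0 < y then (y + 1) ^ 2 / 3 else 0

/-- representative of the class pair of `k` (for `k ≤ 6 n`) -/
def kap (n p k : ℕ) : ℕ := min (k % p) ((6 * n - k) % p)

/-- the set of class pairs -/
def Kset (n p : ℕ) : Finset ℕ := (Finset.range p).filter fun r => r ≤ (6 * n - r) % p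

/-- the class pairs with two poles (`n < p < 2n`) -/
def Kfull (n p : ℕ) : Finset ℕ := (Finset.Icc (2 * n + p) (4 * n)).image (kap n p)

/-- tents -/
def tn (a j p : ℕ) : ℝ := ((a - j * p : ℕ) : ℝ)

/-- exponent for `n/50 < p ≤ n` -/
def EA (n p : ℕ) : ℝ :=
  130 * n - 144 * (n * ((2 * n / p : ℕ) : ℝ)) - 24 * (n ^ 2 / p) + p / 6 +
    ∑ j ∈ Finset.Icc 1 300, (161 * tn (2 * n) j p - 14 * tn (4 * n) j p + 1 / 3 * tn (6 * n) j p)

/-- exponent for `n < p < 4n/3` -/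
def EB (n p : ℕ) : ℝ := 136 * n - 90 * p + 1 / 2 * tn (6 * n) 5 p

/-- exponent for `4n/3 < p < 2n` -/
def EC (n p : ℕ) : ℝ := 300 * n - 216 * p

/-- the exponent -/
def EW (n p : ℕ) : ℝ := if p ≤ n then EA n p else if 3 * p < 4 * n then EB n p else EC n p

/-- primes between `lo n` and `hi n` -/
def PS (lo hi : ℝ) (n : ℕ) : Finset ℕ := by
  classical exact (Finset.range (17 * n)).filter (fun p : ℕ => p.Prime ∧ lo * n < p ∧ (p : ℝ) < hi * n)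

/-- `∫_{lo}^{hi} (α - j y)_+ dy` -/
def It (α j : ℕ) (lo hi : ℚ) : ℚ :=
  let c := max lo (min hi ((α : ℚ) / j))
  α * (c - lo) - j * (c ^ 2 - lo ^ 2) / 2

/-- limit of the floor sums (`J` terms) -/
def Ifl (α J : ℕ) (lo hi : ℚ) : ℚ := ∑ j ∈ Finset.Icc 1 J, (max lo (min hi ((α : ℚ) / j)) - lo)

/-- rational part of the limit for `n/50 < p < n` -/
def LA : ℚ := 130 * (1 - 1 / 50) - 144 * Ifl 2 100 (1 / 50) 1 + (1 - (1 / 50) ^ 2) / 12 +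
  ∑ j ∈ Finset.Icc 1 300, (161 * It 2 j (1 / 50) 1 - 14 * It 4 j (1 / 50) 1 + 1 / 3 * It 6 j (1 / 50) 1)

def LB : ℚ := 136 * (1 / 3) - 90 * ((4 / 3) ^ 2 - 1) / 2 + 1 / 2 * It 6 5 1 (4 / 3)

def LC : ℚ := 300 * (2 / 3) - 216 * (2 ^ 2 - (4 / 3) ^ 2) / 2

def LU : ℚ := ∑ j ∈ Finset.Icc 1 800, (1 / 2 * It 16 j (1 / 50) 16 + It 8 j (1 / 50) 16)

/-- polynomials with zeros (in `v`) at `0, ±1, ±2, ...` -/
def CP (i : ℕ) : ℚ[X] := ∏ l ∈ Finset.range i, (X - C ((l : ℚ) ^ 2))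

/-- polynomials with zeros at `(3n+1)^2, (3n+2)^2, ...` -/
def PF (n i : ℕ) : ℚ[X] := ∏ l ∈ Finset.range i, (X - C (((3 * n + 1 + l : ℕ) : ℚ) ^ 2))

/-- the polynomials `(x - n²/20)^i` -/
def PB2 (n i : ℕ) : ℚ[X] := (X - C ((n : ℚ) ^ 2 / 20)) ^ i

/-- the value `R(v) v^72` at an integer `v > 3n` -/
def wv (n v : ℕ) : ℝ :=
  ((2 * n).factorial : ℝ) ^ 18 * (2 * v) * ((v + 3 * n).factorial / (v + n).factorial) *
    ((v - n - 1).factorial / (v - 3 * n - 1).factorial) *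
    ((v - n - 1).factorial / (v + n).factorial) ^ 20 * (v : ℝ) ^ 72

/-- `wv n v * v^(8n-14) * P_j(v²)²` -/
def gv (n j v : ℕ) : ℝ := wv n v * (v : ℝ) ^ (8 * n - 14) * (((PF n j).eval ((v : ℚ) ^ 2) : ℚ) : ℝ) ^ 2

/-- the constants `H_b` -/
def Hb : ℕ → ℚ
  | 0 => 14 / 1000
  | 1 => 43 / 1000
  | 2 => 98 / 1000
  | 3 => 193 / 1000
  | 4 => 342 / 1000
  | 5 => 567 / 1000
  | 6 => 898 / 1000
  | _ => 1381 / 1000

/-- the main part of `R` at the pole `0` -/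
def R0 (n : ℕ) : ℝ := ((2 * n).factorial : ℝ) ^ 18 * ((3 * n).factorial / n.factorial) ^ 2 / (n.factorial : ℝ) ^ 40

/-- `n Λ(i/n)`, `Λ` piecewise linear -/
def LamN (n i : ℕ) : ℝ :=
  if i ≤ n then -(5991 / 1000) * i
  else if i ≤ 2 * n then -(5991 / 1000) * n - 5797 / 1000 * (i - n)
  else if i ≤ 3 * n then -(11788 / 1000) * n - 3020 / 1000 * (i - 2 * n)
  else -(14808 / 1000) * n - 2388 / 1000 * (i - 3 * n)

/-- node polynomial `x - x(-r)` -/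
def XN (n r : ℕ) : ℚ[X] := X - C (((3 * n : ℕ) : ℚ) - r) ^ 2

/-- local power series at the pole `j` (non-vanishing, `n = 2p`) -/
def ser (j e : ℕ) : PowerSeries ℚ :=
  (∏ i ∈ ({0, 1, 2, 3, 8, 9, 10, 11} : Finset ℕ), (PowerSeries.X + PowerSeries.C ((i : ℚ) - j))) *
  (∏ b ∈ (Finset.Icc 4 7).erase j, iv ((b : ℚ) - j) ^ 20) * (PowerSeries.X + PowerSeries.C (-(j : ℚ))) ^ e

/-- local functional `A` on monomials -/
def Fm (e : ℕ) : ℚ :=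
  - ∑ j ∈ Finset.Icc 4 7, ∑ i ∈ Finset.Icc 1 20,
    PowerSeries.coeff (20 - i) (ser j e) * (hs i (j - 4) + (-1) ^ (i + 1) * hs i (7 - j))

/-- local functional `B` on monomials -/
def Bm (i0 e : ℕ) : ℚ := 2 * ∑ j ∈ Finset.Icc 4 7, PowerSeries.coeff (20 - i0) (ser j e)

/-- the other class pairs, with multiplicity `c` -/
def OT (p r c : ℕ) : ℚ[X] := ∏ r' ∈ (Finset.Icc 1 ((p - 1) / 2)).erase r, XN (2 * p) r' ^ c

end

end Pool.Agent.H574R2.D3
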