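import Pool.Agent.H574R2.D3.Defs

/-! Task A2: nonvanishing of the mixed Hankel determinant from a mixed Gram determinant. -/

open Polynomial Pool.Agent.H337R2

namespace Pool.Agent.H574R2.D3

noncomputable section

lemma A2aux_expand (m : ℕ) (P : ℚ[X]) (h : P.natDegree < m) (L : ℚ[X] →ₗ[ℚ] ℚ) (Q : ℚ[X]) :
    L (Q * P) = ∑ k ∈ Finset.range m, P.coeff k * L (Q * X ^ k) := by
  conv_lhs => rw [P.as_sum_range' m h, Finset.mul_sum, map_sum]
  apply Finset.sum_congr rfl
  intro k _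
  rw [← Polynomial.C_mul_X_pow_eq_monomial, ← Polynomial.smul_eq_C_mul, mul_smul_comm, map_smul,
    smul_eq_mul]

lemma A2aux_expand' (m : ℕ) (P : ℚ[X]) (h : P.natDegree < m) (L : ℚ[X] →ₗ[ℚ] ℚ) (Q : ℚ[X]) :
    L (P * Q) = ∑ k ∈ Finset.range m, P.coeff k * L (X ^ k * Q) := by
  rw [mul_comm, A2aux_expand m P h L Q]
  apply Finset.sum_congr rfl
  intro k _
  rw [mul_comm Q]

/-- the coefficient matrix of the columns -/
def A2aux_V {R C : Type} (m : ℕ) (e : R ≃ C ⊕ C) (P : C → ℚ[X]) : Matrix (Fin (2 * m)) R ℚ :=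
  Matrix.of fun j s => Sum.elim (fun c => if j.1 < m then (P c).coeff j.1 else 0)
    (fun c => if j.1 < m then 0 else (P c).coeff (j.1 - m)) (e s)

lemma A2aux_W (A B : ℚ[X] →ₗ[ℚ] ℚ) (m : ℕ) {R C : Type} (e : R ≃ C ⊕ C)
    (P : C → ℚ[X]) (hP : ∀ c, (P c).natDegree < m) (i : Fin (2 * m)) (s : R) :
    ((Matrix.of fun i j : Fin (2 * m) =>
      if j.1 < m then A (X ^ (i.1 + j.1)) else B (X ^ (i.1 + (j.1 - m)))) * A2aux_V m e P) i s =
      Sum.elim (fun c => A (X ^ i.1 * P c)) (fun c => B (X ^ i.1 * P c)) (e s) := by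
  rw [Matrix.mul_apply]
  unfold A2aux_V
  simp only [Matrix.of_apply]
  rcases e s with c | c
  · simp only [Sum.elim_inl]
    rw [A2aux_expand m (P c) (hP c) A, Fin.sum_univ_eq_sum_range (fun j =>
      (if j < m then A (X ^ (i.1 + j)) else B (X ^ (i.1 + (j - m)))) *
        (if j < m then (P c).coeff j else 0)) (2 * m), show Finset.range (2 * m) = Finset.range (m + m) by rw [two_mul],
      Finset.sum_range_add]
    have h2 : ∑ x ∈ Finset.range m, (if m + x < m then A (X ^ (i.1 + (m + x))) else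
        B (X ^ (i.1 + (m + x - m)))) * (if m + x < m then (P c).coeff (m + x) else 0) = 0 := by
      apply Finset.sum_eq_zero
      intro x _
      rw [if_neg (by omega), if_neg (by omega), mul_zero]
    rw [h2, add_zero]
    apply Finset.sum_congr rfl
    intro j hj
    rw [Finset.mem_range] at hj
    rw [if_pos hj, if_pos hj, ← pow_add]
    ring
  · simp only [Sum.elim_inr]
    rw [A2aux_expand m (P c) (hP c) B, Fin.sum_univ_eq_sum_range (fun j =>
      (if j < m then A (X ^ (i.1 + j)) else B (X ^ (i.1 + (j - m)))) *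
        (if j < m then 0 else (P c).coeff (j - m))) (2 * m), show Finset.range (2 * m) = Finset.range (m + m) by rw [two_mul],
      Finset.sum_range_add]
    have h2 : ∑ x ∈ Finset.range m, (if x < m then A (X ^ (i.1 + x)) else
        B (X ^ (i.1 + (x - m)))) * (if x < m then 0 else (P c).coeff (x - m)) = 0 := by
      apply Finset.sum_eq_zero
      intro x hx
      rw [Finset.mem_range] at hx
      rw [if_pos hx, if_pos hx, mul_zero]
    rw [h2, zero_add]
    apply Finset.sum_congr rfl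
    intro j hj
    rw [if_neg (by omega), if_neg (by omega), ← pow_add, Nat.add_sub_cancel_left]
    ring

lemma A2aux_fac (A B : ℚ[X] →ₗ[ℚ] ℚ) (m : ℕ) {R C : Type} (e : R ≃ C ⊕ C)
    (Q : R → ℚ[X]) (P : C → ℚ[X]) (hQ : ∀ r, (Q r).natDegree < 2 * m)
    (hP : ∀ c, (P c).natDegree < m) :
    (Matrix.of fun r s : R => Sum.elim (fun c => A (Q r * P c)) (fun c => B (Q r * P c)) (e s)) =
      (Matrix.of fun (r : R) (i : Fin (2 * m)) => (Q r).coeff i.1) *
      ((Matrix.of fun i j : Fin (2 * m) =>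
        if j.1 < m then A (X ^ (i.1 + j.1)) else B (X ^ (i.1 + (j.1 - m)))) * A2aux_V m e P) := by
  ext r s
  rw [Matrix.mul_apply]
  have h1 : ∀ i : Fin (2 * m), (Matrix.of fun (r : R) (i : Fin (2 * m)) => (Q r).coeff i.1) r i *
      ((Matrix.of fun i j : Fin (2 * m) =>
        if j.1 < m then A (X ^ (i.1 + j.1)) else B (X ^ (i.1 + (j.1 - m)))) * A2aux_V m e P) i s =
      (fun i : ℕ => (Q r).coeff i *
        Sum.elim (fun c => A (X ^ i * P c)) (fun c => B (X ^ i * P c)) (e s)) i.1 := by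
    intro i
    rw [A2aux_W A B m e P hP i s, Matrix.of_apply]
  rw [Finset.sum_congr rfl (fun i _ => h1 i), Fin.sum_univ_eq_sum_range (fun i : ℕ => (Q r).coeff i *
        Sum.elim (fun c => A (X ^ i * P c)) (fun c => B (X ^ i * P c)) (e s)) (2 * m),
    Matrix.of_apply]
  rcases e s with c | c
  · simp only [Sum.elim_inl]
    exact A2aux_expand' (2 * m) (Q r) (hQ r) A (P c)
  · simp only [Sum.elim_inr]
    exact A2aux_expand' (2 * m) (Q r) (hQ r) B (P c)

theorem A2_MD_ne (A B : ℚ[X] →ₗ[ℚ] ℚ) (m : ℕ) {R C : Type} [Fintype R] [DecidableEq R] [Fintype C]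
    [DecidableEq C] (e : R ≃ C ⊕ C) (hR : Fintype.card R = 2 * m) (hC : Fintype.card C = m)
    (Q : R → ℚ[X]) (P : C → ℚ[X]) (hQ : ∀ r, (Q r).natDegree < 2 * m) (hP : ∀ c, (P c).natDegree < m)
    (h : (Matrix.of fun r s : R => Sum.elim (fun c => A (Q r * P c)) (fun c => B (Q r * P c)) (e s)).det ≠ 0) :
    MD A B m ≠ 0 := by
  intro h0
  apply h
  unfold MD at h0
  have eR : R ≃ Fin (2 * m) := Fintype.equivFinOfCardEq hR
  rw [← Matrix.det_submatrix_equiv_self eR.symm, A2aux_fac A B m e Q P hQ hP, ← Matrix.mul_assoc,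
    Matrix.submatrix_mul _ _ eR.symm (Equiv.refl (Fin (2 * m))) eR.symm (Equiv.refl _).bijective,
    Matrix.submatrix_mul _ _ eR.symm (Equiv.refl (Fin (2 * m))) (Equiv.refl (Fin (2 * m)))
      (Equiv.refl _).bijective, Matrix.det_mul, Matrix.det_mul, Matrix.det_submatrix_equiv_self,
    h0, mul_zero, zero_mul]

end

end Pool.Agent.H574R2.D3
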