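import Pool.Agent.H574R2.D3.Defs

/-!
# A7: the archimedean determinant bound
-/

open Polynomial Pool.Agent.H337R2

namespace Pool.Agent.H574R2.D3

section A7

/-- degree attached to an index -/
def A7_deg (m : ℕ) : Fin m ⊕ Fin m → ℕ := Sum.elim (fun i => i.1) (fun i => m + i.1)

/-- reindexing -/
def A7_e (m : ℕ) : Fin m ⊕ Fin m ≃ Fin (2 * m) :=
  finSumFinEquiv.trans (finCongr (two_mul m).symm)

lemma A7_e_val (m : ℕ) (i : Fin m ⊕ Fin m) : (A7_e m i).1 = A7_deg m i := by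
  cases i <;> simp [A7_e, A7_deg, add_comm]

lemma A7_deg_lt (m : ℕ) (i : Fin m ⊕ Fin m) : A7_deg m i < 2 * m := by
  rw [← A7_e_val]; exact (A7_e m i).2

lemma A7_coefdet (n : ℕ) (Q : ℕ → ℚ[X]) (hQ : ∀ i < n, (Q i).Monic ∧ (Q i).natDegree = i) :
    (Matrix.of fun i k : Fin n => (Q i.1).coeff k.1).det = 1 := by
  rw [Matrix.det_of_isLowerTriangular]
  · apply Finset.prod_eq_one
    intro i _
    have h := hQ i.1 i.2
    rw [Matrix.of_apply]
    conv_lhs => rw [← h.2]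
    rw [h.2]
    have := h.1.coeff_natDegree
    rwa [h.2] at this
  · intro i j hij
    rw [Matrix.of_apply]
    apply Polynomial.coeff_eq_zero_of_natDegree_lt
    rw [(hQ i.1 i.2).2]
    exact hij

lemma A7_expand (n : ℕ) (Q : ℚ[X]) (hQ : Q.natDegree < n) :
    Q = ∑ k : Fin n, Q.coeff k.1 • (X ^ k.1 : ℚ[X]) := by
  conv_lhs => rw [Q.as_sum_range_C_mul_X_pow' hQ]
  rw [Finset.sum_range]
  exact Finset.sum_congr rfl fun k _ => by rw [Polynomial.smul_eq_C_mul]

lemma A7_expand' (m : ℕ) (Q : ℚ[X]) (hQ : Q.natDegree < 2 * m) :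
    Q = ∑ k : Fin m ⊕ Fin m, Q.coeff (A7_deg m k) • (X ^ (A7_deg m k) : ℚ[X]) := by
  conv_lhs => rw [A7_expand (2 * m) Q hQ]
  rw [← Equiv.sum_comp (A7_e m)]
  exact Finset.sum_congr rfl fun k _ => by rw [A7_e_val]

/-- row change -/
lemma A7_rows (m : ℕ) (L : Fin m ⊕ Fin m → (ℚ[X] →ₗ[ℚ] ℚ)) (Q : ℕ → ℚ[X])
    (hQ : ∀ i < 2 * m, (Q i).Monic ∧ (Q i).natDegree = i) :
    (Matrix.of fun j i : Fin m ⊕ Fin m => L j (Q (A7_deg m i))).det
      = (Matrix.of fun j i : Fin m ⊕ Fin m => L j (X ^ (A7_deg m i))).det := by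
  have h1 : (Matrix.of fun j i : Fin m ⊕ Fin m => L j (Q (A7_deg m i)))
      = (Matrix.of fun j i : Fin m ⊕ Fin m => L j (X ^ (A7_deg m i))) *
        (Matrix.of fun k i : Fin m ⊕ Fin m => (Q (A7_deg m i)).coeff (A7_deg m k)) := by
    ext j i
    rw [Matrix.mul_apply]
    simp only [Matrix.of_apply]
    have hi := A7_deg_lt m i
    conv_lhs => rw [A7_expand' m (Q (A7_deg m i)) (by rw [(hQ _ hi).2]; exact hi)]
    rw [map_sum]
    refine Finset.sum_congr rfl fun k _ => ?_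
    rw [map_smul, smul_eq_mul, mul_comm]
  have h2 : (Matrix.of fun k i : Fin m ⊕ Fin m => (Q (A7_deg m i)).coeff (A7_deg m k)).det = 1 := by
    have h3 : (Matrix.of fun k i : Fin m ⊕ Fin m => (Q (A7_deg m i)).coeff (A7_deg m k))
        = ((Matrix.of fun i k : Fin (2 * m) => (Q i.1).coeff k.1).transpose).submatrix (A7_e m) (A7_e m) := by
      ext k i
      simp only [Matrix.of_apply, Matrix.submatrix_apply, Matrix.transpose_apply, A7_e_val]
    rw [h3, Matrix.det_submatrix_equiv_self, Matrix.det_transpose, A7_coefdet _ _ hQ]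
  rw [h1, Matrix.det_mul, h2, mul_one]

/-- `MD` as a real determinant, with rows and columns exchanged -/
lemma A7_MD (m : ℕ) (A B : ℚ[X] →ₗ[ℚ] ℚ) (θ : ℝ) (P P' : ℕ → ℚ[X])
    (hP : ∀ i < m, (P i).Monic ∧ (P i).natDegree = i)
    (hP' : ∀ i < m, (P' i).Monic ∧ (P' i).natDegree = i) :
    (Matrix.of (Sum.elim
      (fun (j : Fin m) (i : Fin m ⊕ Fin m) =>
        ((A (X ^ (A7_deg m i) * P j.1) : ℚ) : ℝ) + θ * ((B (X ^ (A7_deg m i) * P j.1) : ℚ) : ℝ))
      (fun (j : Fin m) (i : Fin m ⊕ Fin m) => ((B (X ^ (A7_deg m i) * P' j.1) : ℚ) : ℝ)))).det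
      = ((MD A B m : ℚ) : ℝ) := by
  -- the matrix of MD
  have hMD : ((MD A B m : ℚ) : ℝ) = (Matrix.of (Sum.elim
      (fun (j : Fin m) (i : Fin m ⊕ Fin m) => ((A (X ^ (A7_deg m i + j.1)) : ℚ) : ℝ))
      (fun (j : Fin m) (i : Fin m ⊕ Fin m) => ((B (X ^ (A7_deg m i + j.1)) : ℚ) : ℝ)))).det := by
    unfold MD
    rw [← Matrix.det_submatrix_equiv_self (A7_e m), ← Matrix.det_transpose]
    rw [show ((Matrix.det _ : ℚ) : ℝ) = (algebraMap ℚ ℝ) (Matrix.det _) from rfl, RingHom.map_det]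
    congr 1
    ext j i
    cases j with
    | inl j =>
      simp only [RingHom.mapMatrix_apply, Matrix.map_apply, Matrix.transpose_apply,
        Matrix.submatrix_apply, Matrix.of_apply, A7_e_val, Sum.elim_inl]
      rw [if_pos (by simp [A7_deg])]
      simp [A7_deg]
    | inr j =>
      simp only [RingHom.mapMatrix_apply, Matrix.map_apply, Matrix.transpose_apply,
        Matrix.submatrix_apply, Matrix.of_apply, A7_e_val, Sum.elim_inr]
      rw [if_neg (by simp [A7_deg])]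
      simp [A7_deg]
  have hU : (Matrix.of (Sum.elim
      (fun (j : Fin m) (i : Fin m ⊕ Fin m) =>
        ((A (X ^ (A7_deg m i) * P j.1) : ℚ) : ℝ) + θ * ((B (X ^ (A7_deg m i) * P j.1) : ℚ) : ℝ))
      (fun (j : Fin m) (i : Fin m ⊕ Fin m) => ((B (X ^ (A7_deg m i) * P' j.1) : ℚ) : ℝ))))
      = Matrix.fromBlocks ((Matrix.of fun i k : Fin m => (P i.1).coeff k.1).map (algebraMap ℚ ℝ))
          (θ • (Matrix.of fun i k : Fin m => (P i.1).coeff k.1).map (algebraMap ℚ ℝ)) 0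
          ((Matrix.of fun i k : Fin m => (P' i.1).coeff k.1).map (algebraMap ℚ ℝ)) *
        (Matrix.of (Sum.elim
      (fun (j : Fin m) (i : Fin m ⊕ Fin m) => ((A (X ^ (A7_deg m i + j.1)) : ℚ) : ℝ))
      (fun (j : Fin m) (i : Fin m ⊕ Fin m) => ((B (X ^ (A7_deg m i + j.1)) : ℚ) : ℝ)))) := by
    have key : ∀ (G : ℚ[X] →ₗ[ℚ] ℚ) (R : ℚ[X]) (d : ℕ), R.natDegree < m →
        ((G (X ^ d * R) : ℚ) : ℝ) = ∑ k : Fin m, ((R.coeff k.1 : ℚ) : ℝ) * ((G (X ^ (d + k.1)) : ℚ) : ℝ) := by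
      intro G R d hR
      conv_lhs => rw [A7_expand m R hR]
      rw [Finset.mul_sum, map_sum]
      push_cast
      refine Finset.sum_congr rfl fun k _ => ?_
      rw [mul_smul_comm, ← pow_add, map_smul, smul_eq_mul]
      push_cast
      ring
    ext j i
    rw [Matrix.mul_apply, Fintype.sum_sum_type]
    cases j with
    | inl j =>
      simp only [Matrix.of_apply, Sum.elim_inl, Sum.elim_inr, Matrix.fromBlocks_apply₁₁,
        Matrix.fromBlocks_apply₁₂, Matrix.map_apply, Matrix.smul_apply, smul_eq_mul]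
      rw [key A _ _ (by rw [(hP _ j.2).2]; exact j.2), key B _ _ (by rw [(hP _ j.2).2]; exact j.2),
        Finset.mul_sum]
      simp only [eq_ratCast, mul_assoc]
    | inr j =>
      simp only [Matrix.of_apply, Sum.elim_inl, Sum.elim_inr, Matrix.fromBlocks_apply₂₁,
        Matrix.fromBlocks_apply₂₂, Matrix.map_apply, Matrix.zero_apply, zero_mul,
        Finset.sum_const_zero, zero_add]
      rw [key B _ _ (by rw [(hP' _ j.2).2]; exact j.2)]
      simp only [eq_ratCast]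
  rw [hU, Matrix.det_mul, Matrix.det_fromBlocks_zero₂₁, hMD]
  have h1 : ((Matrix.of fun i k : Fin m => (P i.1).coeff k.1).map (algebraMap ℚ ℝ)).det = 1 := by
    rw [← RingHom.mapMatrix_apply, ← RingHom.map_det, A7_coefdet m P hP, map_one]
  have h2 : ((Matrix.of fun i k : Fin m => (P' i.1).coeff k.1).map (algebraMap ℚ ℝ)).det = 1 := by
    rw [← RingHom.mapMatrix_apply, ← RingHom.map_det, A7_coefdet m P' hP', map_one]
  rw [h1, h2, one_mul, one_mul]

/-- multilinear expansion in the first `m` rows -/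
lemma A7_multi (m N : ℕ) (u : Fin m → ℕ → ℝ) (g : ℕ → Fin m ⊕ Fin m → ℝ) (h : Fin m → Fin m ⊕ Fin m → ℝ) :
    (Matrix.of (Sum.elim (fun (j : Fin m) (i : Fin m ⊕ Fin m) => ∑ t ∈ Finset.range N, u j t * g t i) h)).det
      = ∑ v ∈ Fintype.piFinset (fun _ : Fin m => Finset.range N),
        (∏ j, u j (v j)) * (Matrix.of (Sum.elim (fun (j : Fin m) => g (v j)) h)).det := by
  let f : MultilinearMap ℝ (fun _ : Fin m ⊕ Fin m => (Fin m ⊕ Fin m → ℝ)) ℝ :=
    (Matrix.detRowAlternating : (Fin m ⊕ Fin m → ℝ) [⋀^Fin m ⊕ Fin m]→ₗ[ℝ] ℝ).toMultilinearMap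
  have hf : ∀ a b : Fin m → Fin m ⊕ Fin m → ℝ, (Matrix.of (Sum.elim a b)).det = f.currySum a b := by
    intro a b
    rfl
  rw [hf]
  have h1 : (fun (j : Fin m) (i : Fin m ⊕ Fin m) => ∑ t ∈ Finset.range N, u j t * g t i)
      = fun j : Fin m => ∑ t ∈ Finset.range N, u j t • g t := by
    funext j i
    rw [Finset.sum_apply]
    rfl
  rw [h1, MultilinearMap.map_sum_finset, MultilinearMap.sum_apply]
  refine Finset.sum_congr rfl fun v _ => ?_
  rw [hf, MultilinearMap.map_smul_univ]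
  rfl

/-- the determinants of the expansion -/
lemma A7_split (m : ℕ) (B : ℚ[X] →ₗ[ℚ] ℚ) (P P' : ℕ → ℚ[X])
    (hP : ∀ i < m, (P i).Monic ∧ (P i).natDegree = i)
    (hP' : ∀ i < m, (P' i).Monic ∧ (P' i).natDegree = i) (y : Fin m → ℚ) :
    (Matrix.of (Sum.elim
      (fun (j : Fin m) (i : Fin m ⊕ Fin m) => (y j) ^ (A7_deg m i))
      (fun (j : Fin m) (i : Fin m ⊕ Fin m) => B (X ^ (A7_deg m i) * P' j.1)))).det
      = (Matrix.of fun j i : Fin m => (P i.1).eval (y j)).det *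
        (Matrix.of fun j i : Fin m => B ((∏ k, (X - C (y k))) * (P' i.1 * P' j.1))).det := by
  classical
  let Pi : ℚ[X] := ∏ k : Fin m, (X - C (y k))
  have hPim : Pi.Monic := monic_prod_of_monic _ _ fun k _ => monic_X_sub_C _
  have hPid : Pi.natDegree = m := by
    show (∏ k : Fin m, (X - C (y k))).natDegree = m
    rw [natDegree_prod_of_monic _ _ fun k _ => monic_X_sub_C _]
    simp
  let Q : ℕ → ℚ[X] := fun i => if i < m then P i else Pi * P' (i - m)
  have hQ : ∀ i < 2 * m, (Q i).Monic ∧ (Q i).natDegree = i := by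
    intro i hi
    by_cases h : i < m
    · simp only [Q, if_pos h]; exact hP i h
    · simp only [Q, if_neg h]
      have h2 := hP' (i - m) (by omega)
      refine ⟨hPim.mul h2.1, ?_⟩
      rw [hPim.natDegree_mul h2.1, hPid, h2.2]
      omega
  let L : Fin m ⊕ Fin m → (ℚ[X] →ₗ[ℚ] ℚ) :=
    Sum.elim (fun j => Polynomial.leval (y j)) (fun j => B ∘ₗ LinearMap.mulRight ℚ (P' j.1))
  have h1 := A7_rows m L Q hQ
  have h2 : (Matrix.of fun j i : Fin m ⊕ Fin m => L j (X ^ (A7_deg m i)))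
      = (Matrix.of (Sum.elim
      (fun (j : Fin m) (i : Fin m ⊕ Fin m) => (y j) ^ (A7_deg m i))
      (fun (j : Fin m) (i : Fin m ⊕ Fin m) => B (X ^ (A7_deg m i) * P' j.1)))) := by
    ext j i
    cases j with
    | inl j => simp [L, Polynomial.leval_apply]
    | inr j => simp [L]
  have h3 : (Matrix.of fun j i : Fin m ⊕ Fin m => L j (Q (A7_deg m i)))
      = Matrix.fromBlocks (Matrix.of fun j i : Fin m => (P i.1).eval (y j)) 0
        (Matrix.of fun j i : Fin m => B (P i.1 * P' j.1))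
        (Matrix.of fun j i : Fin m => B ((∏ k, (X - C (y k))) * (P' i.1 * P' j.1))) := by
    ext j i
    have hi1 : ∀ i : Fin m, Q (A7_deg m (Sum.inl i)) = P i.1 := by
      intro i; simp [Q, A7_deg]
    have hi2 : ∀ i : Fin m, Q (A7_deg m (Sum.inr i)) = Pi * P' i.1 := by
      intro i; simp [Q, A7_deg]
    cases j with
    | inl j =>
      cases i with
      | inl i =>
        rw [Matrix.fromBlocks_apply₁₁]
        simp only [Matrix.of_apply, hi1, L, Sum.elim_inl, Polynomial.leval_apply]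
      | inr i =>
        rw [Matrix.fromBlocks_apply₁₂]
        simp only [Matrix.of_apply, hi2, L, Sum.elim_inl, Polynomial.leval_apply, Matrix.zero_apply,
          Polynomial.eval_mul]
        have : Pi.eval (y j) = 0 := by
          show (∏ k : Fin m, (X - C (y k))).eval (y j) = 0
          rw [Polynomial.eval_prod]
          exact Finset.prod_eq_zero (Finset.mem_univ j) (by simp)
        rw [this, zero_mul]
    | inr j =>
      cases i with
      | inl i =>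
        rw [Matrix.fromBlocks_apply₂₁]
        simp only [Matrix.of_apply, hi1, L, Sum.elim_inr, LinearMap.comp_apply, LinearMap.mulRight_apply]
      | inr i =>
        rw [Matrix.fromBlocks_apply₂₂]
        simp only [Matrix.of_apply, hi2, L, Sum.elim_inr, LinearMap.comp_apply, LinearMap.mulRight_apply,
          mul_assoc, Pi]
  rw [h2, h3, Matrix.det_fromBlocks_zero₁₂] at h1
  exact h1.symm

lemma A7_leibniz (m : ℕ) (G : Fin m → Fin m → ℝ) :
    |(Matrix.of G).det| ≤ ∑ σ : Equiv.Perm (Fin m), ∏ j, |G j (σ j)| := by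
  rw [← Matrix.det_transpose, Matrix.det_apply]
  refine (Finset.abs_sum_le_sum_abs _ _).trans (Finset.sum_le_sum fun σ _ => ?_)
  rw [Units.smul_def, zsmul_eq_mul, abs_mul, Finset.abs_prod]
  have h : |((Equiv.Perm.sign σ : ℤ) : ℝ)| = 1 := by
    rcases Int.units_eq_one_or (Equiv.Perm.sign σ) with h | h <;> simp [h]
  rw [h, one_mul]
  exact le_of_eq (Finset.prod_congr rfl fun j _ => by simp [Matrix.transpose_apply])

lemma A7_detH (m : ℕ) (H : Fin m → Fin m → ℝ) (c : ℝ) (T : ℕ → ℝ)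
    (hH : ∀ i j : Fin m, |H i j| ≤ c * (T j.1 * T i.1)) :
    |(Matrix.of H).det| ≤ (m.factorial : ℝ) * c ^ m * ∏ i ∈ Finset.range m, T i ^ 2 := by
  refine (A7_leibniz m H).trans ?_
  have h1 : ∀ σ : Equiv.Perm (Fin m), ∏ j, |H j (σ j)| ≤ c ^ m * ∏ i ∈ Finset.range m, T i ^ 2 := by
    intro σ
    refine (Finset.prod_le_prod (fun j _ => abs_nonneg _) fun j _ => hH j (σ j)).trans ?_
    rw [Finset.prod_mul_distrib, Finset.prod_mul_distrib, Finset.prod_const, Finset.card_univ,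
      Fintype.card_fin, Equiv.prod_comp σ (fun j : Fin m => T j.1), Finset.prod_range, ← pow_two,
      ← Finset.prod_pow]
  refine (Finset.sum_le_sum fun σ _ => h1 σ).trans ?_
  rw [Finset.sum_const, Finset.card_univ, Fintype.card_perm, Fintype.card_fin, nsmul_eq_mul, mul_assoc]

/-- the bound for the partial sums -/
lemma A7_partial (m : ℕ) (B : ℚ[X] →ₗ[ℚ] ℚ) (x : ℕ → ℚ) (w : ℕ → ℝ) (hw : ∀ t, 0 ≤ w t)
    (P P' : ℕ → ℚ[X])
    (hP : ∀ i < m, (P i).Monic ∧ (P i).natDegree = i)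
    (hP' : ∀ i < m, (P' i).Monic ∧ (P' i).natDegree = i)
    (S T c a : ℕ → ℝ) (hS0 : ∀ i, 0 ≤ S i) (hc0 : ∀ t, 0 ≤ c t)
    (ha0 : ∀ t, 0 ≤ a t) (ha : Summable a) (K : ℝ) (hK : ∑' t, a t ≤ K)
    (hS : ∀ t, ∀ i < m, ∀ j < m,
      w t * c t ^ m * (|(((P i).eval (x t) : ℚ) : ℝ)| * |(((P j).eval (x t) : ℚ) : ℝ)|) ≤ a t * (S i * S j))
    (hT : ∀ v : Fin m → ℕ, ∀ i < m, ∀ j < m,
      |((B ((∏ k, (X - C (x (v k)))) * (P' i * P' j)) : ℚ) : ℝ)| ≤ (∏ k, c (v k)) * (T i * T j))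
    (N : ℕ) :
    |(Matrix.of (Sum.elim
      (fun (j : Fin m) (i : Fin m ⊕ Fin m) => ∑ t ∈ Finset.range N,
        (w t * (((P j.1).eval (x t) : ℚ) : ℝ)) * (((x t) ^ (A7_deg m i) : ℚ) : ℝ))
      (fun (j : Fin m) (i : Fin m ⊕ Fin m) => ((B (X ^ (A7_deg m i) * P' j.1) : ℚ) : ℝ)))).det|
      ≤ (m.factorial : ℝ) ^ 2 * K ^ m *
      ((∏ i ∈ Finset.range m, S i ^ 2) * ∏ i ∈ Finset.range m, T i ^ 2) := by
  classical
  have hK0 : 0 ≤ K := (tsum_nonneg ha0).trans hK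
  rw [A7_multi m N (fun j t => w t * (((P j.1).eval (x t) : ℚ) : ℝ))
    (fun t i => (((x t) ^ (A7_deg m i) : ℚ) : ℝ))]
  refine (Finset.abs_sum_le_sum_abs _ _).trans ?_
  -- the determinants
  have hE : ∀ v : Fin m → ℕ, (Matrix.of (Sum.elim
      (fun (j : Fin m) (i : Fin m ⊕ Fin m) => (((x (v j)) ^ (A7_deg m i) : ℚ) : ℝ))
      (fun (j : Fin m) (i : Fin m ⊕ Fin m) => ((B (X ^ (A7_deg m i) * P' j.1) : ℚ) : ℝ)))).det
      = (Matrix.of fun j i : Fin m => (((P i.1).eval (x (v j)) : ℚ) : ℝ)).det *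
        (Matrix.of fun j i : Fin m =>
          ((B ((∏ k, (X - C (x (v k)))) * (P' i.1 * P' j.1)) : ℚ) : ℝ)).det := by
    intro v
    have h1 := congrArg (algebraMap ℚ ℝ) (A7_split m B P P' hP hP' (fun j => x (v j)))
    rw [map_mul, RingHom.map_det, RingHom.map_det, RingHom.map_det] at h1
    have e1 : (algebraMap ℚ ℝ).mapMatrix (Matrix.of (Sum.elim
      (fun (j : Fin m) (i : Fin m ⊕ Fin m) => (x (v j)) ^ (A7_deg m i))
      (fun (j : Fin m) (i : Fin m ⊕ Fin m) => B (X ^ (A7_deg m i) * P' j.1))))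
      = (Matrix.of (Sum.elim
      (fun (j : Fin m) (i : Fin m ⊕ Fin m) => (((x (v j)) ^ (A7_deg m i) : ℚ) : ℝ))
      (fun (j : Fin m) (i : Fin m ⊕ Fin m) => ((B (X ^ (A7_deg m i) * P' j.1) : ℚ) : ℝ)))) := by
      ext j i
      cases j <;> rfl
    rw [e1] at h1
    exact h1
  have hcv : ∀ v : Fin m → ℕ, 0 ≤ ∏ k, c (v k) := fun v => Finset.prod_nonneg fun k _ => hc0 _
  have hTT : 0 ≤ ∏ i ∈ Finset.range m, T i ^ 2 := Finset.prod_nonneg fun i _ => sq_nonneg _
  have hSS : 0 ≤ ∏ i ∈ Finset.range m, S i ^ 2 := Finset.prod_nonneg fun i _ => sq_nonneg _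
  have hbd : ∀ v : Fin m → ℕ,
      |(∏ j : Fin m, w (v j) * (((P j.1).eval (x (v j)) : ℚ) : ℝ)) * (Matrix.of (Sum.elim
      (fun (j : Fin m) (i : Fin m ⊕ Fin m) => (((x (v j)) ^ (A7_deg m i) : ℚ) : ℝ))
      (fun (j : Fin m) (i : Fin m ⊕ Fin m) => ((B (X ^ (A7_deg m i) * P' j.1) : ℚ) : ℝ)))).det|
      ≤ ∑ σ : Equiv.Perm (Fin m), (∏ j : Fin m, a (v j) * (S j.1 * S (σ j).1)) *
        ((m.factorial : ℝ) * ∏ i ∈ Finset.range m, T i ^ 2) := by
    intro v
    rw [hE v, abs_mul, abs_mul, Finset.abs_prod]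
    have h1 := A7_leibniz m (fun j i => (((P i.1).eval (x (v j)) : ℚ) : ℝ))
    have h2 := A7_detH m (fun j i => ((B ((∏ k, (X - C (x (v k)))) * (P' i.1 * P' j.1)) : ℚ) : ℝ))
      (∏ k, c (v k)) T (fun i j => hT v j.1 j.2 i.1 i.2)
    have h0 : 0 ≤ ∏ j : Fin m, |w (v j) * (((P j.1).eval (x (v j)) : ℚ) : ℝ)| :=
      Finset.prod_nonneg fun j _ => abs_nonneg _
    calc (∏ j : Fin m, |w (v j) * (((P j.1).eval (x (v j)) : ℚ) : ℝ)|) *
          (|(Matrix.of fun j i : Fin m => (((P i.1).eval (x (v j)) : ℚ) : ℝ)).det| *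
            |(Matrix.of fun j i : Fin m =>
              ((B ((∏ k, (X - C (x (v k)))) * (P' i.1 * P' j.1)) : ℚ) : ℝ)).det|)
        ≤ (∏ j : Fin m, |w (v j) * (((P j.1).eval (x (v j)) : ℚ) : ℝ)|) *
          ((∑ σ : Equiv.Perm (Fin m), ∏ j : Fin m, |(((P (σ j).1).eval (x (v j)) : ℚ) : ℝ)|) *
            ((m.factorial : ℝ) * (∏ k, c (v k)) ^ m * ∏ i ∈ Finset.range m, T i ^ 2)) := by
          refine mul_le_mul_of_nonneg_left ?_ h0
          exact mul_le_mul h1 h2 (abs_nonneg _) (Finset.sum_nonneg fun σ _ =>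
            Finset.prod_nonneg fun j _ => abs_nonneg _)
      _ = ∑ σ : Equiv.Perm (Fin m), (∏ j : Fin m, (w (v j) * c (v j) ^ m *
            (|(((P j.1).eval (x (v j)) : ℚ) : ℝ)| * |(((P (σ j).1).eval (x (v j)) : ℚ) : ℝ)|))) *
            ((m.factorial : ℝ) * ∏ i ∈ Finset.range m, T i ^ 2) := by
          rw [Finset.sum_mul, Finset.mul_sum]
          refine Finset.sum_congr rfl fun σ _ => ?_
          rw [Finset.prod_mul_distrib, Finset.prod_mul_distrib, Finset.prod_mul_distrib,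
            Finset.prod_pow Finset.univ m (fun j : Fin m => c (v j))]
          have h3 : (∏ j : Fin m, |w (v j) * (((P j.1).eval (x (v j)) : ℚ) : ℝ)|)
              = (∏ j : Fin m, w (v j)) * ∏ j : Fin m, |(((P j.1).eval (x (v j)) : ℚ) : ℝ)| := by
            rw [← Finset.prod_mul_distrib]
            exact Finset.prod_congr rfl fun j _ => by rw [abs_mul, abs_of_nonneg (hw _)]
          rw [h3]
          ring
      _ ≤ _ := by
          refine Finset.sum_le_sum fun σ _ => ?_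
          refine mul_le_mul_of_nonneg_right ?_ (by positivity)
          refine Finset.prod_le_prod (fun j _ => ?_) fun j _ => hS _ _ j.2 _ (σ j).2
          exact mul_nonneg (mul_nonneg (hw _) (pow_nonneg (hc0 _) _)) (by positivity)
  refine (Finset.sum_le_sum fun v _ => hbd v).trans ?_
  rw [Finset.sum_comm]
  have hsig : ∀ σ : Equiv.Perm (Fin m),
      ∑ v ∈ Fintype.piFinset (fun _ : Fin m => Finset.range N),
        (∏ j : Fin m, a (v j) * (S j.1 * S (σ j).1)) *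
        ((m.factorial : ℝ) * ∏ i ∈ Finset.range m, T i ^ 2)
      ≤ K ^ m * (∏ i ∈ Finset.range m, S i ^ 2) *
        ((m.factorial : ℝ) * ∏ i ∈ Finset.range m, T i ^ 2) := by
    intro σ
    rw [← Finset.sum_mul]
    refine mul_le_mul_of_nonneg_right ?_ (by positivity)
    rw [← Finset.prod_univ_sum (fun _ : Fin m => Finset.range N)
      (fun (j : Fin m) (t : ℕ) => a t * (S j.1 * S (σ j).1))]
    have h4 : ∀ j : Fin m, ∑ t ∈ Finset.range N, a t * (S j.1 * S (σ j).1) ≤ K * (S j.1 * S (σ j).1) := by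
      intro j
      rw [← Finset.sum_mul]
      refine mul_le_mul_of_nonneg_right ?_ (mul_nonneg (hS0 _) (hS0 _))
      exact (ha.sum_le_tsum _ fun t _ => ha0 t).trans hK
    refine (Finset.prod_le_prod (fun j _ => Finset.sum_nonneg fun t _ =>
      mul_nonneg (ha0 _) (mul_nonneg (hS0 _) (hS0 _))) fun j _ => h4 j).trans ?_
    rw [Finset.prod_mul_distrib, Finset.prod_mul_distrib, Finset.prod_const, Finset.card_univ,
      Fintype.card_fin, Equiv.prod_comp σ (fun j : Fin m => S j.1), ← pow_two, ← Finset.prod_pow,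
      Finset.prod_range]
  refine (Finset.sum_le_sum fun σ _ => hsig σ).trans ?_
  rw [Finset.sum_const, Finset.card_univ, Fintype.card_perm, Fintype.card_fin, nsmul_eq_mul]
  apply le_of_eq
  ring

theorem A7_det_bound (m : ℕ) (A B : ℚ[X] →ₗ[ℚ] ℚ) (θ : ℝ) (x : ℕ → ℚ) (w : ℕ → ℝ) (hw : ∀ t, 0 ≤ w t)
    (hF : ∀ P : ℚ[X], P.natDegree ≤ 3 * m →
      HasSum (fun t => w t * ((P.eval (x t) : ℚ) : ℝ)) (((A P : ℚ) : ℝ) + θ * ((B P : ℚ) : ℝ)))
    (P P' : ℕ → ℚ[X])
    (hP : ∀ i < m, (P i).Monic ∧ (P i).natDegree = i)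
    (hP' : ∀ i < m, (P' i).Monic ∧ (P' i).natDegree = i)
    (S T c a : ℕ → ℝ) (hS0 : ∀ i, 0 ≤ S i) (hT0 : ∀ i, 0 ≤ T i) (hc0 : ∀ t, 0 ≤ c t)
    (ha0 : ∀ t, 0 ≤ a t) (ha : Summable a) (K : ℝ) (hK : ∑' t, a t ≤ K)
    (hS : ∀ t, ∀ i < m, ∀ j < m,
      w t * c t ^ m * (|(((P i).eval (x t) : ℚ) : ℝ)| * |(((P j).eval (x t) : ℚ) : ℝ)|) ≤ a t * (S i * S j))
    (hT : ∀ v : Fin m → ℕ, ∀ i < m, ∀ j < m,
      |((B ((∏ k, (X - C (x (v k)))) * (P' i * P' j)) : ℚ) : ℝ)| ≤ (∏ k, c (v k)) * (T i * T j)) :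
    |((MD A B m : ℚ) : ℝ)| ≤ (m.factorial : ℝ) ^ 2 * K ^ m *
      ((∏ i ∈ Finset.range m, S i ^ 2) * ∏ i ∈ Finset.range m, T i ^ 2) := by
  have hlim : Filter.Tendsto (fun N : ℕ => |(Matrix.of (Sum.elim
      (fun (j : Fin m) (i : Fin m ⊕ Fin m) => ∑ t ∈ Finset.range N,
        (w t * (((P j.1).eval (x t) : ℚ) : ℝ)) * (((x t) ^ (A7_deg m i) : ℚ) : ℝ))
      (fun (j : Fin m) (i : Fin m ⊕ Fin m) => ((B (X ^ (A7_deg m i) * P' j.1) : ℚ) : ℝ)))).det|)
      Filter.atTop (nhds |((MD A B m : ℚ) : ℝ)|) := by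
    apply Filter.Tendsto.abs
    rw [← A7_MD m A B θ P P' hP hP']
    have hcont : Continuous (fun M : Matrix (Fin m ⊕ Fin m) (Fin m ⊕ Fin m) ℝ => M.det) :=
      Continuous.matrix_det continuous_id
    refine (hcont.tendsto _).comp ?_
    refine tendsto_pi_nhds.2 fun j => tendsto_pi_nhds.2 fun i => ?_
    cases j with
    | inl j =>
      simp only [Matrix.of_apply, Sum.elim_inl]
      have hdeg : (X ^ (A7_deg m i) * P j.1).natDegree ≤ 3 * m := by
        refine natDegree_mul_le.trans ?_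
        rw [natDegree_X_pow, (hP j.1 j.2).2]
        have := A7_deg_lt m i
        have := j.2
        omega
      have h1 := (hF _ hdeg).tendsto_sum_nat
      refine h1.congr fun N => Finset.sum_congr rfl fun t _ => ?_
      rw [eval_mul, eval_pow, eval_X]
      push_cast
      ring
    | inr j =>
      simp only [Matrix.of_apply, Sum.elim_inr]
      exact tendsto_const_nhds
  exact le_of_tendsto' hlim fun N =>
    A7_partial m B x w hw P P' hP hP' S T c a hS0 hc0 ha0 ha K hK hS hT N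

end A7

end Pool.Agent.H574R2.D3
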