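import Pool.Agent.H574R2.D3.Defs

/-! Task E1: `E1_Kset_sum`, `E2_PP`, `E2_ZZ` (helper189). -/

open Polynomial Pool.Agent.H337R2

namespace Pool.Agent.H574R2.D3

set_option linter.unusedVariables false

noncomputable section

theorem E1_Kset_sum {n p : ℕ} (hp : p.Prime) (hp2 : p ≠ 2) (hpn : p < 6 * n) (f : ℕ → ℤ) (M : ℤ) (hM : 0 ≤ M)
    (hf : ∀ r < p, f r = f ((6 * n - r) % p)) (hfM : ∀ r < p, f r ≤ M) :
    2 * ∑ r ∈ Kset n p, f r ≤ ∑ r ∈ Finset.range p, f r + M := by
  classical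
  set g : ℕ → ℕ := fun r => (6 * n - r) % p with hg
  have hadd : ∀ r < p, (r + g r) % p = (6 * n) % p := by
    intro r hr
    simp only [hg]
    rw [Nat.add_mod_mod]
    congr 1
    omega
  have hglt : ∀ r, g r < p := fun r => Nat.mod_lt _ hp.pos
  have hgg : ∀ r < p, g (g r) = r := by
    intro r hr
    have h1 := hadd r hr
    have h2 := hadd (g r) (hglt r)
    have h3 : (g r + g (g r)) ≡ (g r + r) [MOD p] := by
      unfold Nat.ModEq
      rw [h2, ← h1, add_comm]
    have h4 := Nat.ModEq.add_left_cancel' (g r) h3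
    exact h4.eq_of_lt_of_lt (hglt _) hr
  have h1 : ∑ r ∈ Finset.range p, f r = ∑ r ∈ (Finset.range p).filter (fun r => r ≤ g r), f r +
      ∑ r ∈ (Finset.range p).filter (fun r => ¬ r ≤ g r), f r :=
    (Finset.sum_filter_add_sum_filter_not _ _ _).symm
  have h2 : ∑ r ∈ (Finset.range p).filter (fun r => ¬ r ≤ g r), f r =
      ∑ r ∈ (Finset.range p).filter (fun r => r < g r), f r := by
    apply Finset.sum_bij' (fun r _ => g r) (fun r _ => g r)
    · intro r hr
      rw [Finset.mem_filter, Finset.mem_range] at hr ⊢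
      refine ⟨hglt r, ?_⟩
      rw [hgg r hr.1]
      omega
    · intro r hr
      rw [Finset.mem_filter, Finset.mem_range] at hr ⊢
      refine ⟨hglt r, ?_⟩
      rw [hgg r hr.1]
      omega
    · intro r hr
      rw [Finset.mem_filter, Finset.mem_range] at hr
      exact hgg r hr.1
    · intro r hr
      rw [Finset.mem_filter, Finset.mem_range] at hr
      exact hgg r hr.1
    · intro r hr
      rw [Finset.mem_filter, Finset.mem_range] at hr
      exact hf r hr.1
  have h3 : ∑ r ∈ (Finset.range p).filter (fun r => r ≤ g r), f r =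
      ∑ r ∈ (Finset.range p).filter (fun r => r < g r), f r +
      ∑ r ∈ (Finset.range p).filter (fun r => r = g r), f r := by
    rw [← Finset.sum_union]
    · apply Finset.sum_congr _ (fun _ _ => rfl)
      ext r
      simp only [Finset.mem_filter, Finset.mem_union, Finset.mem_range]
      omega
    · rw [Finset.disjoint_left]
      intro r hr hr'
      rw [Finset.mem_filter] at hr hr'
      omega
  have h4 : ((Finset.range p).filter (fun r => r = g r)).card ≤ 1 := by
    rw [Finset.card_le_one]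
    intro a ha b hb
    rw [Finset.mem_filter, Finset.mem_range] at ha hb
    have ha2 := hadd a ha.1
    rw [← ha.2] at ha2
    have hb2 := hadd b hb.1
    rw [← hb.2] at hb2
    have h5 : (2 * a) ≡ (2 * b) [MOD p] := by
      unfold Nat.ModEq
      rw [two_mul, two_mul, ha2, hb2]
    have hcop : Nat.gcd p 2 = 1 := (Nat.coprime_primes hp Nat.prime_two).2 hp2
    have h6 : a ≡ b [MOD p] := Nat.ModEq.cancel_left_of_coprime hcop h5
    exact h6.eq_of_lt_of_lt ha.1 hb.1
  have h5 : ∑ r ∈ (Finset.range p).filter (fun r => r = g r), f r ≤ M := by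
    calc ∑ r ∈ (Finset.range p).filter (fun r => r = g r), f r
        ≤ ∑ _r ∈ (Finset.range p).filter (fun r => r = g r), M := by
          apply Finset.sum_le_sum
          intro r hr
          rw [Finset.mem_filter, Finset.mem_range] at hr
          exact hfM r hr.1
      _ = (((Finset.range p).filter (fun r => r = g r)).card : ℤ) * M := by
          rw [Finset.sum_const, nsmul_eq_mul]
      _ ≤ 1 * M := mul_le_mul_of_nonneg_right (by exact_mod_cast h4) hM
      _ = M := one_mul M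
  have hK : Kset n p = (Finset.range p).filter (fun r => r ≤ g r) := rfl
  rw [hK, h1, h2, h3]
  linarith

/-- pairs in the same residue class -/
lemma E1_pairs_le (p A B A' B' : ℕ) :
    ∑ r ∈ Finset.range p, cnt p A B r * cnt p A' B' r ≤
      ((Finset.Icc A B ×ˢ Finset.Icc A' B').filter fun x : ℕ × ℕ => (p : ℤ) ∣ (x.1 : ℤ) - x.2).card := by
  classical
  set S := (Finset.Icc A B ×ˢ Finset.Icc A' B').filter fun x : ℕ × ℕ => (p : ℤ) ∣ (x.1 : ℤ) - x.2
    with hS
  set T : ℕ → Finset (ℕ × ℕ) := fun r =>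
    (Finset.Icc A B).filter (fun m : ℕ => (p : ℤ) ∣ (m : ℤ) - r) ×ˢ
      (Finset.Icc A' B').filter (fun m : ℕ => (p : ℤ) ∣ (m : ℤ) - r) with hT
  have h1 : ∑ r ∈ Finset.range p, cnt p A B r * cnt p A' B' r = ∑ r ∈ Finset.range p, (T r).card := by
    refine Finset.sum_congr rfl fun r _ => ?_
    rw [hT]
    simp only
    rw [Finset.card_product]
    rfl
  rw [h1, ← Finset.card_biUnion]
  · apply Finset.card_le_card
    intro x hx
    rw [Finset.mem_biUnion] at hx
    obtain ⟨r, _, hx⟩ := hx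
    rw [hT] at hx
    simp only at hx
    rw [Finset.mem_product, Finset.mem_filter, Finset.mem_filter] at hx
    rw [hS, Finset.mem_filter, Finset.mem_product]
    refine ⟨⟨hx.1.1, hx.2.1⟩, ?_⟩
    have : (x.1 : ℤ) - x.2 = ((x.1 : ℤ) - r) - ((x.2 : ℤ) - r) := by ring
    rw [this]
    exact Int.dvd_sub hx.1.2 hx.2.2
  · intro r hr s hs hrs
    rw [Function.onFun, Finset.disjoint_left]
    intro x hx hx'
    rw [hT] at hx hx'
    simp only at hx hx'
    rw [Finset.mem_product, Finset.mem_filter, Finset.mem_filter] at hx hx'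
    apply hrs
    have hr' := Finset.mem_range.1 (Finset.mem_coe.1 hr)
    have hs' := Finset.mem_range.1 (Finset.mem_coe.1 hs)
    have h2 : (p : ℤ) ∣ (s : ℤ) - r := by
      have : (s : ℤ) - r = ((x.1 : ℤ) - r) - ((x.1 : ℤ) - s) := by ring
      rw [this]
      exact Int.dvd_sub hx.1.2 hx'.1.2
    have h3 : |(s : ℤ) - r| < p := by rw [abs_lt]; constructor <;> omega
    have h4 := Int.eq_zero_of_abs_lt_dvd h2 h3
    omega

lemma E1_self {p : ℕ} (hp0 : 0 < p) (A L : ℕ) (hL : L < 300 * p) :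
    ((∑ r ∈ Finset.range p, cnt p A (A + L) r ^ 2 : ℕ) : ℝ) ≤
      (L + 1) + 2 * ∑ j ∈ Finset.Icc 1 300, tn (L + 1) j p := by
  have hJ : ∀ j : ℕ, 1 ≤ j → j < 300 → j ∈ Finset.Icc 1 300 := fun j h1 h2 => Finset.mem_Icc.2 ⟨h1, h2.le⟩
  generalize Finset.Icc 1 300 = K at hJ ⊢
  have h1 : ∑ r ∈ Finset.range p, cnt p A (A + L) r ^ 2 ≤
      ((Finset.Icc A (A + L) ×ˢ Finset.Icc A (A + L)).filter
        fun x : ℕ × ℕ => (p : ℤ) ∣ (x.1 : ℤ) - x.2).card := by
    refine le_trans (le_of_eq ?_) (E1_pairs_le p A (A + L) A (A + L))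
    exact Finset.sum_congr rfl fun r _ => by rw [sq]
  refine le_trans (Nat.cast_le.2 h1) ?_
  have hsub : ((Finset.Icc A (A + L) ×ˢ Finset.Icc A (A + L)).filter
        fun x : ℕ × ℕ => (p : ℤ) ∣ (x.1 : ℤ) - x.2) ⊆
      (Finset.Icc A (A + L)).image (fun y => (y, y)) ∪
        ((K.biUnion fun j => (Finset.Ico A (A + (L + 1 - j * p))).image fun y => (y, y + j * p)) ∪
         (K.biUnion fun j => (Finset.Ico A (A + (L + 1 - j * p))).image fun y => (y + j * p, y))) := by
    rintro ⟨x, y⟩ hx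
    rw [Finset.mem_filter, Finset.mem_product, Finset.mem_Icc, Finset.mem_Icc] at hx
    obtain ⟨⟨⟨hx1, hx2⟩, hy1, hy2⟩, q, hq⟩ := hx
    simp only at hx1 hx2 hy1 hy2 hq
    rw [Finset.mem_union, Finset.mem_union]
    rcases lt_trichotomy q 0 with h | h | h
    · right; left
      obtain ⟨j, rfl⟩ : ∃ j : ℕ, q = -(j : ℤ) := ⟨q.natAbs, by omega⟩
      have hj1 : 1 ≤ j := by omega
      have hy : y = x + j * p := by
        zify; linarith
      have hjL : j * p ≤ L := by omega
      have hj2 : j < 300 := by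
        by_contra hcon
        push Not at hcon
        have : 300 * p ≤ j * p := Nat.mul_le_mul_right _ hcon
        omega
      rw [Finset.mem_biUnion]
      refine ⟨j, hJ j hj1 hj2, ?_⟩
      rw [Finset.mem_image]
      exact ⟨x, Finset.mem_Ico.2 ⟨hx1, by omega⟩, by rw [hy]⟩
    · left
      rw [Finset.mem_image]
      refine ⟨x, Finset.mem_Icc.2 ⟨hx1, hx2⟩, ?_⟩
      rw [h] at hq
      have : x = y := by omega
      rw [this]
    · right; right
      obtain ⟨j, rfl⟩ : ∃ j : ℕ, q = (j : ℤ) := ⟨q.natAbs, by omega⟩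
      have hj1 : 1 ≤ j := by omega
      have hy : x = y + j * p := by
        zify; linarith
      have hjL : j * p ≤ L := by omega
      have hj2 : j < 300 := by
        by_contra hcon
        push Not at hcon
        have : 300 * p ≤ j * p := Nat.mul_le_mul_right _ hcon
        omega
      rw [Finset.mem_biUnion]
      refine ⟨j, hJ j hj1 hj2, ?_⟩
      rw [Finset.mem_image]
      exact ⟨y, Finset.mem_Ico.2 ⟨hy1, by omega⟩, by rw [hy]⟩
  have hb : ∀ f : ℕ → ℕ → ℕ × ℕ,
      ((K.biUnion fun j => (Finset.Ico A (A + (L + 1 - j * p))).image (f j)).card : ℝ) ≤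
        ∑ j ∈ K, tn (L + 1) j p := by
    intro f
    have e1 : (K.biUnion fun j => (Finset.Ico A (A + (L + 1 - j * p))).image (f j)).card ≤
        ∑ j ∈ K, (L + 1 - j * p) := by
      refine Finset.card_biUnion_le.trans (Finset.sum_le_sum fun j _ => ?_)
      refine Finset.card_image_le.trans ?_
      rw [Nat.card_Ico]; omega
    have e2 : ((∑ j ∈ K, (L + 1 - j * p) : ℕ) : ℝ) = ∑ j ∈ K, tn (L + 1) j p := by
      rw [Nat.cast_sum]
      rfl
    rw [← e2]
    exact_mod_cast e1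
  have hc := Finset.card_le_card hsub
  have hc2 := hc.trans ((Finset.card_union_le _ _).trans
    (Nat.add_le_add_left (Finset.card_union_le _ _) _))
  have hd : ((Finset.Icc A (A + L)).image (fun y => (y, y))).card ≤ L + 1 := by
    refine Finset.card_image_le.trans ?_
    rw [Nat.card_Icc]; omega
  have b1 := hb fun j y => (y, y + j * p)
  have b2 := hb fun j y => (y + j * p, y)
  have hc3 : (((Finset.Icc A (A + L) ×ˢ Finset.Icc A (A + L)).filter
        fun x : ℕ × ℕ => (p : ℤ) ∣ (x.1 : ℤ) - x.2).card : ℝ) ≤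
      (((Finset.Icc A (A + L)).image (fun y => (y, y))).card : ℝ) +
      (((K.biUnion fun j => (Finset.Ico A (A + (L + 1 - j * p))).image fun y => (y, y + j * p)).card : ℝ) +
      ((K.biUnion fun j => (Finset.Ico A (A + (L + 1 - j * p))).image fun y => (y + j * p, y)).card : ℝ)) := by
    exact_mod_cast hc2
  have hd' : (((Finset.Icc A (A + L)).image (fun y => (y, y))).card : ℝ) ≤ (L : ℝ) + 1 := by
    exact_mod_cast hd
  linarith

lemma E1_cross {n p : ℕ} (hp0 : 0 < p) (hpn : n < 50 * p) :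
    ((∑ r ∈ Finset.range p, cnt p 0 (2 * n - 1) r * cnt p (4 * n + 1) (6 * n) r : ℕ) : ℝ) ≤
      ∑ j ∈ Finset.Icc 1 300, (tn (6 * n) j p - 2 * tn (4 * n) j p + tn (2 * n) j p + 1) := by
  have hJ : ∀ j : ℕ, 1 ≤ j → j < 300 → j ∈ Finset.Icc 1 300 := fun j h1 h2 => Finset.mem_Icc.2 ⟨h1, h2.le⟩
  generalize Finset.Icc 1 300 = K at hJ ⊢
  refine le_trans (Nat.cast_le.2 (E1_pairs_le p 0 (2 * n - 1) (4 * n + 1) (6 * n))) ?_
  have hsub : ((Finset.Icc 0 (2 * n - 1) ×ˢ Finset.Icc (4 * n + 1) (6 * n)).filter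
        fun x : ℕ × ℕ => (p : ℤ) ∣ (x.1 : ℤ) - x.2) ⊆
      K.biUnion fun j => ((Finset.Icc 0 (2 * n - 1)).filter
        (fun y => 4 * n + 1 ≤ y + j * p ∧ y + j * p ≤ 6 * n)).image fun y => (y, y + j * p) := by
    rintro ⟨x, y⟩ hx
    rw [Finset.mem_filter, Finset.mem_product, Finset.mem_Icc, Finset.mem_Icc] at hx
    obtain ⟨⟨⟨hx1, hx2⟩, hy1, hy2⟩, q, hq⟩ := hx
    simp only at hx1 hx2 hy1 hy2 hq
    have hq0 : q < 0 := by
      by_contra hcon
      push Not at hcon
      have : 0 ≤ (p : ℤ) * q := by positivity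
      omega
    obtain ⟨j, rfl⟩ : ∃ j : ℕ, q = -(j : ℤ) := ⟨q.natAbs, by omega⟩
    have hj1 : 1 ≤ j := by omega
    have hy : y = x + j * p := by
      zify; linarith
    have hjL : j * p ≤ 6 * n := by omega
    have hj2 : j < 300 := by
      by_contra hcon
      push Not at hcon
      have : 300 * p ≤ j * p := Nat.mul_le_mul_right _ hcon
      omega
    rw [Finset.mem_biUnion]
    refine ⟨j, hJ j hj1 hj2, ?_⟩
    rw [Finset.mem_image]
    refine ⟨x, ?_, by rw [hy]⟩
    rw [Finset.mem_filter, Finset.mem_Icc]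
    exact ⟨⟨hx1, hx2⟩, by omega, by omega⟩
  have hc := Finset.card_le_card hsub
  have e1 : (K.biUnion fun j => ((Finset.Icc 0 (2 * n - 1)).filter
        (fun y => 4 * n + 1 ≤ y + j * p ∧ y + j * p ≤ 6 * n)).image fun y => (y, y + j * p)).card ≤
      ∑ j ∈ K, (min (2 * n) (6 * n + 1 - j * p) - (4 * n + 1 - j * p)) := by
    refine Finset.card_biUnion_le.trans (Finset.sum_le_sum fun j _ => ?_)
    refine Finset.card_image_le.trans ?_
    have : (Finset.Icc 0 (2 * n - 1)).filter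
        (fun y => 4 * n + 1 ≤ y + j * p ∧ y + j * p ≤ 6 * n) ⊆
        Finset.Ico (4 * n + 1 - j * p) (max (4 * n + 1 - j * p) (min (2 * n) (6 * n + 1 - j * p))) := by
      intro y hy
      rw [Finset.mem_filter, Finset.mem_Icc] at hy
      rw [Finset.mem_Ico]
      by_cases hn0 : n = 0
      · subst hn0
        omega
      · constructor
        · omega
        · apply lt_of_lt_of_le _ (le_max_right _ _)
          rw [lt_min_iff]
          omega
    refine (Finset.card_le_card this).trans ?_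
    rw [Nat.card_Ico]
    omega
  have e2 : ((∑ j ∈ K, (min (2 * n) (6 * n + 1 - j * p) - (4 * n + 1 - j * p)) : ℕ) : ℝ) ≤
      ∑ j ∈ K, (tn (6 * n) j p - 2 * tn (4 * n) j p + tn (2 * n) j p + 1) := by
    rw [Nat.cast_sum]
    refine Finset.sum_le_sum fun j _ => ?_
    unfold tn
    have h : (min (2 * n) (6 * n + 1 - j * p) - (4 * n + 1 - j * p)) + 2 * (4 * n - j * p) ≤
        (6 * n - j * p) + (2 * n - j * p) + 1 := by
      generalize j * p = d
      omega
    have h' : ((min (2 * n) (6 * n + 1 - j * p) - (4 * n + 1 - j * p) : ℕ) : ℝ) +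
        2 * ((4 * n - j * p : ℕ) : ℝ) ≤ ((6 * n - j * p : ℕ) : ℝ) + ((2 * n - j * p : ℕ) : ℝ) + 1 := by
      exact_mod_cast h
    linarith
  refine le_trans ?_ e2
  exact_mod_cast hc.trans e1

/-- poles-poles -/
theorem E2_PP {n p : ℕ} (hn : 1 ≤ n) (hp : p.Prime) (hpn : n < 50 * p) :
    ((∑ r ∈ Finset.range p, Np n p r ^ 2 : ℕ) : ℝ) ≤
      2 * n + 2 * ∑ j ∈ Finset.Icc 1 300, tn (2 * n) j p + 1000 := by
  have h := E1_self hp.pos (2 * n) (2 * n) (by omega)
  have h2 : ∑ r ∈ Finset.range p, Np n p r ^ 2 = ∑ r ∈ Finset.range p, cnt p (2 * n) (2 * n + 2 * n) r ^ 2 := by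
    apply Finset.sum_congr rfl
    intro r _
    unfold Np
    rw [show 2 * n + 2 * n = 4 * n by ring]
  rw [h2]
  have h3 : ∑ j ∈ Finset.Icc 1 300, tn (2 * n + 1) j p ≤ ∑ j ∈ Finset.Icc 1 300, (tn (2 * n) j p + 1) := by
    apply Finset.sum_le_sum
    intro j _
    unfold tn
    have : 2 * n + 1 - j * p ≤ (2 * n - j * p) + 1 := by omega
    exact_mod_cast this
  have h4 : ∑ j ∈ Finset.Icc 1 300, (tn (2 * n) j p + 1) = ∑ j ∈ Finset.Icc 1 300, tn (2 * n) j p + 300 := by
    rw [Finset.sum_add_distrib, Finset.sum_const, Nat.card_Icc]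
    norm_num
  rw [h4] at h3
  push_cast at h ⊢
  linarith

/-- zeros-zeros -/
theorem E2_ZZ {n p : ℕ} (hn : 1 ≤ n) (hp : p.Prime) (hpn : n < 50 * p) :
    ((∑ r ∈ Finset.range p, Zp n p r ^ 2 : ℕ) : ℝ) ≤
      4 * n + 4 * ∑ j ∈ Finset.Icc 1 300, tn (2 * n) j p +
        2 * ∑ j ∈ Finset.Icc 1 300, (tn (6 * n) j p - 2 * tn (4 * n) j p + tn (2 * n) j p) + 2000 := by
  have h1 := E1_self hp.pos 0 (2 * n - 1) (by omega)
  have h2 := E1_self hp.pos (4 * n + 1) (2 * n - 1) (by omega)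
  have h3 := E1_cross (n := n) hp.pos hpn
  rw [show 0 + (2 * n - 1) = 2 * n - 1 by omega] at h1
  rw [show 4 * n + 1 + (2 * n - 1) = 6 * n by omega] at h2
  rw [show 2 * n - 1 + 1 = 2 * n by omega] at h1 h2
  have h4 : ∑ r ∈ Finset.range p, Zp n p r ^ 2 = ∑ r ∈ Finset.range p, cnt p 0 (2 * n - 1) r ^ 2 +
      ∑ r ∈ Finset.range p, cnt p (4 * n + 1) (6 * n) r ^ 2 +
      2 * ∑ r ∈ Finset.range p, cnt p 0 (2 * n - 1) r * cnt p (4 * n + 1) (6 * n) r := by
    rw [Finset.mul_sum, ← Finset.sum_add_distrib, ← Finset.sum_add_distrib]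
    apply Finset.sum_congr rfl
    intro r _
    unfold Zp
    ring
  have h5 : ∑ j ∈ Finset.Icc 1 300, (tn (6 * n) j p - 2 * tn (4 * n) j p + tn (2 * n) j p + 1) =
      ∑ j ∈ Finset.Icc 1 300, (tn (6 * n) j p - 2 * tn (4 * n) j p + tn (2 * n) j p) + 300 := by
    rw [Finset.sum_add_distrib (g := fun _ => (1 : ℝ)), Finset.sum_const, Nat.card_Icc]
    norm_num
  have h6 : ((2 * n - 1 : ℕ) : ℝ) + 1 = 2 * n := by
    rw [Nat.cast_sub (by omega)]
    push_cast
    ring
  rw [h5] at h3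
  rw [h6] at h1 h2
  rw [h4]
  push_cast at h1 h2 h3 ⊢
  linarith

end

end Pool.Agent.H574R2.D3
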