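import Pool.Agent.H574R2.D3.D2
import Pool.Agent.H336R2.HD.E3Base

/-! Task E3B. -/

open Polynomial Pool.Agent.H337R2

namespace Pool.Agent.H574R2.D3

noncomputable section

lemma e3b_kap_shift {n p k : ℕ} (h : k + p ≤ 6 * n) : kap n p (k + p) = kap n p k := by
  unfold kap
  rw [Nat.add_mod_right]
  have h1 : 6 * n - k = (6 * n - (k + p)) + p := by omega
  rw [h1, Nat.add_mod_right]

lemma e3b_kap_refl {n p k : ℕ} (h1 : p ≤ k) (h2 : k ≤ 6 * n) :
    kap n p (6 * n + p - k) = kap n p k := by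
  unfold kap
  have h3 : 6 * n + p - k = (6 * n - k) + p := by omega
  have h4 : 6 * n - (6 * n + p - k) = k - p := by omega
  rw [h4, h3, Nat.add_mod_right]
  have h5 : (k - p) % p = k % p := (Nat.mod_eq_sub_mod h1).symm
  rw [h5, min_comm]

/-- the hypothesis of `D3_det_padic` for `n < p < 2n` -/
theorem E3_good {n p : ℕ} (hn : 7 ≤ n) (hp : p.Prime) (h1 : n < p) (h2 : p < 2 * n) :
    Kfull n p ⊆ Kset n p ∧ ∀ k ∈ sM n, kap n p k ∈ Kfull n p ∨
      (k < 2 * n + p ∧ ∀ k' ∈ sM n, k' ≠ k → ¬ (p : ℤ) ∣ (k' : ℤ) - k) := by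
  have hp0 : 0 < p := hp.pos
  constructor
  · intro κ hκ
    unfold Kfull at hκ
    obtain ⟨k, hk, rfl⟩ := Finset.mem_image.1 hκ
    rw [Finset.mem_Icc] at hk
    exact D2_kap_mem hp0 (by omega)
  · intro k hk
    rw [Finset.mem_Icc] at hk
    by_cases ha : 2 * n + p ≤ k
    · left
      exact Finset.mem_image.2 ⟨k, Finset.mem_Icc.2 ⟨ha, hk.2⟩, rfl⟩
    · by_cases hb : k + p ≤ 4 * n
      · left
        refine Finset.mem_image.2 ⟨k + p, Finset.mem_Icc.2 ⟨by omega, hb⟩, ?_⟩
        exact e3b_kap_shift (by omega)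
      · right
        refine ⟨by omega, ?_⟩
        intro k' hk' hne hdvd
        rw [Finset.mem_Icc] at hk'
        have h3 : (k' : ℤ) - k = 0 := by
          apply Int.eq_zero_of_abs_lt_dvd hdvd
          rw [abs_lt]
          constructor <;> omega
        omega

lemma e3b_T3_mono {a b : ℤ} (h : a ≤ b) : T3 a ≤ T3 b := by
  unfold T3
  split_ifs with h1 h2 h2
  · exact Int.ediv_le_ediv (by norm_num) (by nlinarith)
  · omega
  · positivity
  · exact le_refl _

lemma e3b_T3_nonneg (a : ℤ) : 0 ≤ T3 a := by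
  unfold T3
  split_ifs
  · positivity
  · exact le_refl _

lemma e3b_Np_le {n p : ℕ} (hp : 0 < p) (h1 : n < p) (k : ℕ) : ((Np n p k : ℕ) : ℤ) ≤ 2 := by
  have h := Pool.Agent.H336R2.HD.E3_cnt_le p (2 * n) (4 * n) k hp (by omega)
  have h2 : (((4 * n : ℕ) : ℤ) - ((2 * n : ℕ) : ℤ) + 1) / (p : ℤ) < 2 := by
    apply Int.ediv_lt_of_lt_mul (by exact_mod_cast hp)
    push_cast
    omega
  unfold Np
  omega

open Classical in
/-- lower bound for the number of zeros -/
lemma e3b_Zp_ge {n p k : ℕ} (h1 : n < p) (h2 : p < 2 * n) (hk1 : 2 * n + p ≤ k) (hk2 : k ≤ 4 * n) :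
    2 + (if 3 * p ≤ k then 1 else 0) + (if k ≤ 6 * n - 2 * p then 1 else 0) ≤ Zp n p k := by
  have hA : 1 + (if 3 * p ≤ k then 1 else 0) ≤ cnt p 0 (2 * n - 1) k := by
    unfold cnt
    split_ifs with h
    · have hsub : ({k - 2 * p, k - 3 * p} : Finset ℕ) ⊆
          (Finset.Icc 0 (2 * n - 1)).filter (fun m : ℕ => (p : ℤ) ∣ (m : ℤ) - k) := by
        intro m hm
        rw [Finset.mem_insert, Finset.mem_singleton] at hm
        rw [Finset.mem_filter, Finset.mem_Icc]
        rcases hm with rfl | rfl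
        · refine ⟨by omega, ⟨-2, ?_⟩⟩
          have : ((k - 2 * p : ℕ) : ℤ) = k - 2 * p := by omega
          rw [this]
          ring
        · refine ⟨by omega, ⟨-3, ?_⟩⟩
          have : ((k - 3 * p : ℕ) : ℤ) = k - 3 * p := by omega
          rw [this]
          ring
      have hc := Finset.card_le_card hsub
      rw [Finset.card_pair (by omega)] at hc
      exact hc
    · have hsub : ({k - 2 * p} : Finset ℕ) ⊆
          (Finset.Icc 0 (2 * n - 1)).filter (fun m : ℕ => (p : ℤ) ∣ (m : ℤ) - k) := by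
        intro m hm
        rw [Finset.mem_singleton] at hm
        rw [Finset.mem_filter, Finset.mem_Icc]
        subst hm
        refine ⟨by omega, ⟨-2, ?_⟩⟩
        have : ((k - 2 * p : ℕ) : ℤ) = k - 2 * p := by omega
        rw [this]
        ring
      have hc := Finset.card_le_card hsub
      rw [Finset.card_singleton] at hc
      exact hc
  have hB : 1 + (if k ≤ 6 * n - 2 * p then 1 else 0) ≤ cnt p (4 * n + 1) (6 * n) k := by
    unfold cnt
    split_ifs with h
    · have hsub : ({k + p, k + 2 * p} : Finset ℕ) ⊆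
          (Finset.Icc (4 * n + 1) (6 * n)).filter (fun m : ℕ => (p : ℤ) ∣ (m : ℤ) - k) := by
        intro m hm
        rw [Finset.mem_insert, Finset.mem_singleton] at hm
        rw [Finset.mem_filter, Finset.mem_Icc]
        rcases hm with rfl | rfl
        · refine ⟨by omega, ⟨1, ?_⟩⟩
          push_cast
          ring
        · refine ⟨by omega, ⟨2, ?_⟩⟩
          push_cast
          ring
      have hc := Finset.card_le_card hsub
      rw [Finset.card_pair (by omega)] at hc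
      exact hc
    · have hsub : ({k + p} : Finset ℕ) ⊆
          (Finset.Icc (4 * n + 1) (6 * n)).filter (fun m : ℕ => (p : ℤ) ∣ (m : ℤ) - k) := by
        intro m hm
        rw [Finset.mem_singleton] at hm
        rw [Finset.mem_filter, Finset.mem_Icc]
        subst hm
        refine ⟨by omega, ⟨1, ?_⟩⟩
        push_cast
        ring
      have hc := Finset.card_le_card hsub
      rw [Finset.card_singleton] at hc
      exact hc
  unfold Zp
  omega

/-- sums over the class pairs with two poles -/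
lemma e3b_sum_le {n p : ℕ} (h2 : p < 2 * n) (f : ℕ → ℤ) (hf : ∀ κ, 0 ≤ f κ) :
    ∑ κ ∈ Kfull n p, f κ ≤ ∑ k ∈ Finset.Icc (2 * n + p) ((6 * n + p) / 2), f (kap n p k) := by
  classical
  have h1 : Kfull n p ⊆ (Finset.Icc (2 * n + p) ((6 * n + p) / 2)).image (kap n p) := by
    intro κ hκ
    unfold Kfull at hκ
    obtain ⟨k, hk, rfl⟩ := Finset.mem_image.1 hκ
    rw [Finset.mem_Icc] at hk
    by_cases h : k ≤ (6 * n + p) / 2
    · exact Finset.mem_image.2 ⟨k, Finset.mem_Icc.2 ⟨hk.1, h⟩, rfl⟩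
    · exact Finset.mem_image.2 ⟨6 * n + p - k, Finset.mem_Icc.2 ⟨by omega, by omega⟩,
        e3b_kap_refl (by omega) (by omega)⟩
  refine (Finset.sum_le_sum_of_subset_of_nonneg h1 (fun _ _ _ => hf _)).trans ?_
  have key : ∀ s : Finset ℕ, ∑ κ ∈ s.image (kap n p), f κ ≤ ∑ k ∈ s, f (kap n p k) := by
    intro s
    induction s using Finset.induction_on with
    | empty => simp
    | insert a s ha ih =>
      rw [Finset.image_insert, Finset.sum_insert ha]
      by_cases h : kap n p a ∈ s.image (kap n p)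
      · rw [Finset.insert_eq_of_mem h]
        have := hf (kap n p a)
        linarith
      · rw [Finset.sum_insert h]
        linarith
  exact key _

lemma e3b_eM {n p k : ℕ} (h1 : n < p) (h2 : p < 2 * n) (hk1 : 2 * n + p ≤ k) (hk2 : k ≤ 4 * n) :
    eM n p (kap n p k) ≤ 22 - Zp n p k := by
  have hp0 : 0 < p := by omega
  rw [D2_eM_kap (by omega) hp0 (by omega)]
  unfold eM
  have h3 := e3b_Np_le hp0 h1 k
  have h4 : 2 * n / p = 1 := by
    rw [Nat.div_eq_iff hp0]
    omega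
  rw [h4]
  push_cast
  linarith

theorem E3_B : ∃ K0 : ℝ, ∀ n p : ℕ, p.Prime → 7 ≤ n → n < p → 3 * p < 4 * n →
    ((((4 * n - 8 : ℕ) : ℤ) * (-21) + ∑ κ ∈ Kfull n p, T3 (eM n p κ + 9) : ℤ) : ℝ) ≤ EB n p + K0 := by
  refine ⟨1000, ?_⟩
  intro n p hp hn h1 h3
  have hp0 : 0 < p := hp.pos
  have h2 : p < 2 * n := by omega
  have hsum := e3b_sum_le (n := n) (p := p) h2 (fun κ => T3 (eM n p κ + 9))
    (fun κ => e3b_T3_nonneg _)
  set I : Finset ℕ := Finset.Icc (2 * n + p) ((6 * n + p) / 2) with hI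
  have hterm : ∀ k ∈ I, T3 (eM n p (kap n p k) + 9) ≤
      300 - 20 * (if k ≤ 6 * n - 2 * p then 1 else 0)
        - 19 * (if 3 * p ≤ k ∧ k ≤ 6 * n - 2 * p then 1 else 0) := by
    intro k hk
    rw [hI, Finset.mem_Icc] at hk
    have hz := e3b_Zp_ge h1 h2 hk.1 (by omega : k ≤ 4 * n)
    have he := e3b_eM h1 h2 hk.1 (by omega : k ≤ 4 * n)
    have hz' : ((2 + (if 3 * p ≤ k then 1 else 0) + (if k ≤ 6 * n - 2 * p then 1 else 0) : ℕ) : ℤ) ≤
        (Zp n p k : ℤ) := by exact_mod_cast hz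
    have t29 : T3 29 = 300 := by decide
    have t28 : T3 28 = 280 := by decide
    have t27 : T3 27 = 261 := by decide
    by_cases ha : 3 * p ≤ k <;> by_cases hb : k ≤ 6 * n - 2 * p
    · simp only [ha, hb, if_true, and_self] at hz' ⊢
      have := e3b_T3_mono (a := eM n p (kap n p k) + 9) (b := 27) (by push_cast at hz'; linarith)
      rw [t27] at this
      linarith
    · simp only [ha, hb, if_true, if_false, and_false] at hz' ⊢
      have := e3b_T3_mono (a := eM n p (kap n p k) + 9) (b := 29) (by push_cast at hz'; linarith)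
      rw [t29] at this
      linarith
    · simp only [ha, hb, if_true, if_false, false_and] at hz' ⊢
      have := e3b_T3_mono (a := eM n p (kap n p k) + 9) (b := 28) (by push_cast at hz'; linarith)
      rw [t28] at this
      linarith
    · simp only [ha, hb, if_false, and_false] at hz' ⊢
      have := e3b_T3_mono (a := eM n p (kap n p k) + 9) (b := 29) (by push_cast at hz'; linarith)
      rw [t29] at this
      linarith
  have hsum2 := Finset.sum_le_sum hterm
  rw [Finset.sum_sub_distrib, Finset.sum_sub_distrib, ← Finset.mul_sum, ← Finset.mul_sum,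
    Finset.sum_boole, Finset.sum_boole, Finset.sum_const, nsmul_eq_mul] at hsum2
  have hcI : I.card = (6 * n + p) / 2 + 1 - (2 * n + p) := by rw [hI, Nat.card_Icc]
  have hcB : min ((6 * n + p) / 2) (6 * n - 2 * p) + 1 - (2 * n + p) ≤
      (I.filter (fun k => k ≤ 6 * n - 2 * p)).card := by
    rw [← Nat.card_Icc]
    apply Finset.card_le_card
    intro k hk
    rw [Finset.mem_Icc, le_min_iff] at hk
    rw [Finset.mem_filter, hI, Finset.mem_Icc]
    exact ⟨⟨hk.1, hk.2.1⟩, hk.2.2⟩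
  have hcAB : min ((6 * n + p) / 2) (6 * n - 2 * p) + 1 - 3 * p ≤
      (I.filter (fun k => 3 * p ≤ k ∧ k ≤ 6 * n - 2 * p)).card := by
    rw [← Nat.card_Icc]
    apply Finset.card_le_card
    intro k hk
    rw [Finset.mem_Icc, le_min_iff] at hk
    rw [Finset.mem_filter, hI, Finset.mem_Icc]
    exact ⟨⟨by omega, hk.2.1⟩, hk.1, hk.2.2⟩
  set cI := I.card
  set cB := (I.filter (fun k => k ≤ 6 * n - 2 * p)).card
  set cAB := (I.filter (fun k => 3 * p ≤ k ∧ k ≤ 6 * n - 2 * p)).card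
  have hfin : 2 * (∑ κ ∈ Kfull n p, T3 (eM n p κ + 9)) ≤
      440 * (n : ℤ) - 180 * p + ((6 * n - 5 * p : ℕ) : ℤ) + 700 := by
    have e1 : ∑ κ ∈ Kfull n p, T3 (eM n p κ + 9) ≤ (cI : ℤ) * 300 - 20 * cB - 19 * cAB := by
      linarith
    have e2 : 2 * ((cI : ℤ) * 300 - 20 * cB - 19 * cAB) ≤
        440 * (n : ℤ) - 180 * p + ((6 * n - 5 * p : ℕ) : ℤ) + 700 := by
      by_cases h56 : 5 * p ≤ 6 * n
      · rw [min_eq_left (by omega)] at hcB hcAB
        omega
      · rw [min_eq_right (by omega)] at hcB hcAB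
        omega
    linarith
  have h8 : (((4 * n - 8 : ℕ) : ℤ)) = 4 * n - 8 := by omega
  rw [h8]
  have hfinZ : 2 * ((4 * (n : ℤ) - 8) * (-21) + ∑ κ ∈ Kfull n p, T3 (eM n p κ + 9)) ≤
      272 * n - 180 * p + ((6 * n - 5 * p : ℕ) : ℤ) + 1036 := by linarith
  have hfinR : 2 * (((4 * (n : ℤ) - 8) * (-21) + ∑ κ ∈ Kfull n p, T3 (eM n p κ + 9) : ℤ) : ℝ) ≤
      272 * n - 180 * p + ((6 * n - 5 * p : ℕ) : ℝ) + 1036 := by exact_mod_cast hfinZ
  unfold EB tn
  linarith

theorem E3_C : ∃ K0 : ℝ, ∀ n p : ℕ, p.Prime → 7 ≤ n → 4 * n ≤ 3 * p → p < 2 * n →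
    ((((4 * n - 8 : ℕ) : ℤ) * (-33) + ∑ κ ∈ Kfull n p, T3 (eM n p κ + 15) : ℤ) : ℝ) ≤ EC n p + K0 := by
  refine ⟨1000, ?_⟩
  intro n p hp hn h3 h2
  have hp0 : 0 < p := hp.pos
  have h1 : n < p := by omega
  have hsum := e3b_sum_le (n := n) (p := p) h2 (fun κ => T3 (eM n p κ + 15))
    (fun κ => e3b_T3_nonneg _)
  set I : Finset ℕ := Finset.Icc (2 * n + p) ((6 * n + p) / 2) with hI
  have hterm : ∀ k ∈ I, T3 (eM n p (kap n p k) + 15) ≤ 432 := by
    intro k hk
    rw [hI, Finset.mem_Icc] at hk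
    have hz := e3b_Zp_ge h1 h2 hk.1 (by omega : k ≤ 4 * n)
    have he := e3b_eM h1 h2 hk.1 (by omega : k ≤ 4 * n)
    have hz' : (2 : ℤ) ≤ (Zp n p k : ℤ) := by
      have : 2 ≤ Zp n p k := by omega
      exact_mod_cast this
    have t35 : T3 35 = 432 := by decide
    have := e3b_T3_mono (a := eM n p (kap n p k) + 15) (b := 35) (by linarith)
    rw [t35] at this
    exact this
  have hsum2 := Finset.sum_le_sum hterm
  rw [Finset.sum_const, nsmul_eq_mul] at hsum2
  have hcI : I.card = (6 * n + p) / 2 + 1 - (2 * n + p) := by rw [hI, Nat.card_Icc]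
  have h8 : (((4 * n - 8 : ℕ) : ℤ)) = 4 * n - 8 := by omega
  rw [h8]
  have e1 : ∑ κ ∈ Kfull n p, T3 (eM n p κ + 15) ≤ (I.card : ℤ) * 432 := by linarith
  have hfinZ : ((4 * (n : ℤ) - 8) * (-33) + ∑ κ ∈ Kfull n p, T3 (eM n p κ + 15)) ≤
      300 * n - 216 * p + 1000 := by
    have e2 : (I.card : ℤ) * 432 ≤ 432 * n - 216 * p + 432 := by
      rw [hcI]
      omega
    linarith
  have hfinR : (((4 * (n : ℤ) - 8) * (-33) + ∑ κ ∈ Kfull n p, T3 (eM n p κ + 15) : ℤ) : ℝ) ≤
      300 * n - 216 * p + 1000 := by exact_mod_cast hfinZ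
  unfold EC
  linarith

end

end Pool.Agent.H574R2.D3
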