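import Pool.Agent.H574R2.D3.Defs

/-! Task E4 (helper423): p-adic size of the determinant, all primes `p > n/50`;
version with the results D2, D3, E3 as hypotheses. -/

open Polynomial Pool.Agent.H337R2

namespace Pool.Agent.H574R2.D3

noncomputable section

theorem E4_cM_norm {n p : ℕ} [Fact p.Prime] (h1 : n < p) (h2 : p < 2 * n) :
    padicNorm p (cM n) = (p : ℚ) ^ (-18 : ℤ) := by
  have hp : p.Prime := Fact.out
  have h3 : 2 * n < p ^ 2 := by nlinarith [hp.two_le]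
  have h4 : 2 * n / p = 1 := by
    rw [Nat.div_eq_iff hp.pos]
    omega
  unfold cM
  rw [padicNorm_pow', norm_factorial h3, h4, ← zpow_natCast, ← zpow_mul]
  norm_num

/-- the statement of `D3_det_padic` -/
def D3S : Prop := ∀ (n p : ℕ) [Fact p.Prime], 1 ≤ n → 6 * n < p ^ 2 → ∀ (q : ℕ) (α β : ℕ → ℚ),
    UInt q α → UInt q β → (∀ i < 3, β i = 0) → ∀ (m : ℕ) (a : ℤ) (S : Finset ℕ), S ⊆ Kset n p →
    (∀ k ∈ sM n, kap n p k ∈ S ∨
      (padicNorm p (cM n) ≤ (p : ℚ) ^ (a - 3) ∧ k < 2 * n + p ∧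
        ∀ k' ∈ sM n, k' ≠ k → ¬ (p : ℤ) ∣ (k' : ℤ) - k)) →
    padicNorm p ((q : ℚ) ^ (2 * m) * MD (AL n α) (BL n β) m) ≤
      (p : ℚ) ^ ((m : ℤ) * (2 * a - 3) + ∑ κ ∈ S, T3 (eM n p κ - a))

/-- the statement of `D3_large` -/
def D3L : Prop := ∀ (n p : ℕ) [Fact p.Prime], 1 ≤ n → 6 * n < p ^ 2 → 2 * n < p → ∀ (q : ℕ) (α β : ℕ → ℚ),
    UInt q α → UInt q β → (∀ i < 3, β i = 0) → ∀ (m : ℕ),
    padicNorm p ((q : ℚ) ^ (2 * m) * MD (AL n α) (BL n β) m) ≤ 1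

theorem E4_to_rpow {p : ℕ} (hp : 1 ≤ p) {x : ℚ} {z : ℤ} {E : ℝ} (h : x ≤ (p : ℚ) ^ z)
    (hz : (z : ℝ) ≤ E) : (x : ℝ) ≤ (p : ℝ) ^ E := by
  have hp1 : (1 : ℝ) ≤ (p : ℝ) := by exact_mod_cast hp
  have h1 : (x : ℝ) ≤ (((p : ℚ) ^ z : ℚ) : ℝ) := by exact_mod_cast h
  refine h1.trans ?_
  rw [Rat.cast_zpow, Rat.cast_natCast, ← Real.rpow_intCast]
  exact Real.rpow_le_rpow_of_exponent_le hp1 hz

theorem E4_of (hD3 : D3S) (hD3L : D3L)
    (hD2 : ∀ {n p k : ℕ}, 0 < p → k ≤ 6 * n → kap n p k ∈ Kset n p)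
    (hA : ∃ K0 : ℝ, ∀ n p : ℕ, p.Prime → 7 ≤ n → n < 50 * p → p ≤ n → 16 * n < p ^ 2 → ∀ a : ℤ,
      a = ((12 * n / p : ℕ) : ℤ) + 1 - 18 * ((2 * n / p : ℕ) : ℤ) →
      ((((4 * n - 8 : ℕ) : ℤ) * (2 * a - 3) + ∑ κ ∈ Kset n p, T3 (eM n p κ - a) : ℤ) : ℝ) ≤
        EA n p + K0)
    (hG : ∀ {n p : ℕ}, 7 ≤ n → p.Prime → n < p → p < 2 * n →
      Kfull n p ⊆ Kset n p ∧ ∀ k ∈ sM n, kap n p k ∈ Kfull n p ∨
        (k < 2 * n + p ∧ ∀ k' ∈ sM n, k' ≠ k → ¬ (p : ℤ) ∣ (k' : ℤ) - k))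
    (hB : ∃ K0 : ℝ, ∀ n p : ℕ, p.Prime → 7 ≤ n → n < p → 3 * p < 4 * n →
      ((((4 * n - 8 : ℕ) : ℤ) * (-21) + ∑ κ ∈ Kfull n p, T3 (eM n p κ + 9) : ℤ) : ℝ) ≤ EB n p + K0)
    (hC : ∃ K0 : ℝ, ∀ n p : ℕ, p.Prime → 7 ≤ n → 4 * n ≤ 3 * p → p < 2 * n →
      ((((4 * n - 8 : ℕ) : ℤ) * (-33) + ∑ κ ∈ Kfull n p, T3 (eM n p κ + 15) : ℤ) : ℝ) ≤
        EC n p + K0) :
    ∃ K0 : ℝ, 0 ≤ K0 ∧ ∀ n : ℕ, 7 ≤ n → ∀ p : ℕ, p.Prime → n < 50 * p → 16 * n < p ^ 2 →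
    ∀ (q : ℕ) (α β : ℕ → ℚ), UInt q α → UInt q β → (∀ i < 3, β i = 0) →
    ((padicNorm p ((q : ℚ) ^ (8 * n - 16) * DD n α β) : ℚ) : ℝ) ≤
      if p < 2 * n then (p : ℝ) ^ (EW n p + K0) else 1 := by
  obtain ⟨KA, hKA⟩ := hA
  obtain ⟨KB, hKB⟩ := hB
  obtain ⟨KC, hKC⟩ := hC
  refine ⟨max (max KA KB) (max KC 0), (le_max_right KC 0).trans (le_max_right _ _), ?_⟩
  intro n hn p hp hnp hp2 q α β hα hβ hβ3
  have : Fact p.Prime := ⟨hp⟩
  have hp1 : 1 ≤ p := hp.one_lt.le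
  have hpQ : (1 : ℚ) ≤ (p : ℚ) := by exact_mod_cast hp1
  have hm : 8 * n - 16 = 2 * (4 * n - 8) := by omega
  rw [hm]
  unfold DD
  by_cases h2 : p < 2 * n
  · rw [if_pos h2]
    by_cases h1 : p ≤ n
    · have h3 := hD3 n p (by omega) (by omega) q α β hα hβ hβ3 (4 * n - 8)
        (((12 * n / p : ℕ) : ℤ) + 1 - 18 * ((2 * n / p : ℕ) : ℤ)) (Kset n p) subset_rfl
        (fun k hk => Or.inl (hD2 hp.pos (by rw [Finset.mem_Icc] at hk; omega)))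
      refine E4_to_rpow hp1 h3 ?_
      refine (hKA n p hp hn hnp h1 hp2 _ rfl).trans ?_
      rw [EW, if_pos h1]
      have : KA ≤ max (max KA KB) (max KC 0) := (le_max_left KA KB).trans (le_max_left _ _)
      linarith
    · push Not at h1
      obtain ⟨hsub, hgood⟩ := hG hn hp h1 h2
      have hc := E4_cM_norm (n := n) (p := p) h1 h2
      by_cases h4 : 3 * p < 4 * n
      · have h3 := hD3 n p (by omega) (by omega) q α β hα hβ hβ3 (4 * n - 8) (-9) (Kfull n p) hsub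
          (fun k hk => (hgood k hk).imp id fun h => ⟨by
            rw [hc]; exact zpow_le_zpow_right₀ hpQ (by norm_num), h⟩)
        refine E4_to_rpow hp1 h3 ?_
        have h5 := hKB n p hp hn h1 h4
        have e : ((4 * n - 8 : ℕ) : ℤ) * (2 * (-9) - 3) + ∑ κ ∈ Kfull n p, T3 (eM n p κ - -9) =
            ((4 * n - 8 : ℕ) : ℤ) * (-21) + ∑ κ ∈ Kfull n p, T3 (eM n p κ + 9) := by
          norm_num
        rw [e]
        refine h5.trans ?_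
        rw [EW, if_neg (by omega), if_pos h4]
        have : KB ≤ max (max KA KB) (max KC 0) := (le_max_right KA KB).trans (le_max_left _ _)
        linarith
      · have h3 := hD3 n p (by omega) (by omega) q α β hα hβ hβ3 (4 * n - 8) (-15) (Kfull n p) hsub
          (fun k hk => (hgood k hk).imp id fun h => ⟨by
            rw [hc]; exact zpow_le_zpow_right₀ hpQ (by norm_num), h⟩)
        refine E4_to_rpow hp1 h3 ?_
        have h5 := hKC n p hp hn (by omega) h2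
        have e : ((4 * n - 8 : ℕ) : ℤ) * (2 * (-15) - 3) + ∑ κ ∈ Kfull n p, T3 (eM n p κ - -15) =
            ((4 * n - 8 : ℕ) : ℤ) * (-33) + ∑ κ ∈ Kfull n p, T3 (eM n p κ + 15) := by
          norm_num
        rw [e]
        refine h5.trans ?_
        rw [EW, if_neg (by omega), if_neg h4]
        have : KC ≤ max (max KA KB) (max KC 0) := (le_max_left KC 0).trans (le_max_right _ _)
        linarith
  · rw [if_neg h2]
    have h6 : 2 * n < p := by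
      rcases lt_or_eq_of_le (not_lt.mp h2) with h | h
      · exact h
      · exfalso
        have h7 : 2 ∣ p := ⟨n, h.symm⟩
        have h8 := (Nat.prime_dvd_prime_iff_eq Nat.prime_two hp).1 h7
        omega
    have h3 := hD3L n p (by omega) (by omega) h6 q α β hα hβ hβ3 (4 * n - 8)
    exact_mod_cast h3

end

end Pool.Agent.H574R2.D3
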