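import Pool.Agent.H574R2.D3.Defs

/-!
# Linear combinations of the prime sums

The statements `F2_A`, `F2_B`, `F2_C`, `F2_U` from the elementary limits `F1_tent`, `F1_const`, `F1_id`, `F1_inv`,
`F1_floor` (taken here as hypotheses).
-/

open Filter Topology

namespace Pool.Agent.H574R2.D3

noncomputable section

/-- the statement of `F1_tent` -/
def F1T : Prop := ∀ (α j : ℕ) (_ : 1 ≤ j) (lo hi : ℚ) (_ : 0 < lo) (_ : lo ≤ hi) (_ : hi ≤ 16),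
    Tendsto (fun n : ℕ => (∑ p ∈ PS lo hi n, tn (α * n) j p * Real.log p) / (n : ℝ) ^ 2) atTop
      (𝓝 ((It α j lo hi : ℚ) : ℝ))

/-- the statement of `F1_const` -/
def F1C : Prop := ∀ (lo hi : ℚ) (_ : 0 < lo) (_ : lo ≤ hi) (_ : hi ≤ 16),
    Tendsto (fun n : ℕ => (∑ p ∈ PS lo hi n, (n : ℝ) * Real.log p) / (n : ℝ) ^ 2) atTop
      (𝓝 (((hi - lo : ℚ)) : ℝ))

/-- the statement of `F1_id` -/
def F1I : Prop := ∀ (lo hi : ℚ) (_ : 0 < lo) (_ : lo ≤ hi) (_ : hi ≤ 16),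
    Tendsto (fun n : ℕ => (∑ p ∈ PS lo hi n, (p : ℝ) * Real.log p) / (n : ℝ) ^ 2) atTop
      (𝓝 ((((hi ^ 2 - lo ^ 2) / 2 : ℚ)) : ℝ))

/-- the statement of `F1_inv` -/
def F1V : Prop := ∀ (lo hi : ℚ) (_ : 0 < lo) (_ : lo ≤ hi) (_ : hi ≤ 16),
    Tendsto (fun n : ℕ => (∑ p ∈ PS lo hi n, ((n : ℝ) ^ 2 / p) * Real.log p) / (n : ℝ) ^ 2) atTop
      (𝓝 (Real.log ((hi : ℚ) : ℝ) - Real.log ((lo : ℚ) : ℝ)))

/-- the statement of `F1_floor` -/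
def F1F : Prop := ∀ (α J : ℕ) (lo hi : ℚ) (_ : 0 < lo) (_ : lo ≤ hi) (_ : hi ≤ 16) (_ : α ≤ 16)
    (_ : (α : ℚ) ≤ J * lo),
    Tendsto (fun n : ℕ => (∑ p ∈ PS lo hi n, ((n : ℝ) * ((α * n / p : ℕ) : ℝ)) * Real.log p) / (n : ℝ) ^ 2) atTop
      (𝓝 ((Ifl α J lo hi : ℚ) : ℝ))

/-- `lim (∑ f n p log p) / n² = L` -/
def Lm (s : ℕ → Finset ℕ) (f : ℕ → ℕ → ℝ) (L : ℝ) : Prop :=
  Tendsto (fun n : ℕ => (∑ p ∈ s n, f n p * Real.log p) / (n : ℝ) ^ 2) atTop (𝓝 L)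

lemma Lm.add {s : ℕ → Finset ℕ} {f g : ℕ → ℕ → ℝ} {L M : ℝ} (hf : Lm s f L) (hg : Lm s g M) :
    Lm s (fun n p => f n p + g n p) (L + M) := by
  have h := Tendsto.add hf hg
  refine h.congr fun n => ?_
  rw [← add_div, ← Finset.sum_add_distrib]
  congr 1
  exact Finset.sum_congr rfl fun p _ => by ring

lemma Lm.sub {s : ℕ → Finset ℕ} {f g : ℕ → ℕ → ℝ} {L M : ℝ} (hf : Lm s f L) (hg : Lm s g M) :
    Lm s (fun n p => f n p - g n p) (L - M) := by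
  have h := Tendsto.sub hf hg
  refine h.congr fun n => ?_
  rw [← sub_div, ← Finset.sum_sub_distrib]
  congr 1
  exact Finset.sum_congr rfl fun p _ => by ring

lemma Lm.mul {s : ℕ → Finset ℕ} {f : ℕ → ℕ → ℝ} {L : ℝ} (c : ℝ) (hf : Lm s f L) :
    Lm s (fun n p => c * f n p) (c * L) := by
  have h := Tendsto.const_mul c hf
  refine h.congr fun n => ?_
  rw [← mul_div_assoc, Finset.mul_sum]
  congr 1
  exact Finset.sum_congr rfl fun p _ => by ring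

lemma Lm.div {s : ℕ → Finset ℕ} {f : ℕ → ℕ → ℝ} {L : ℝ} (c : ℝ) (hf : Lm s f L) :
    Lm s (fun n p => f n p / c) (L / c) := by
  have h := Lm.mul (c⁻¹) hf
  have e1 : (fun n p => c⁻¹ * f n p) = (fun n p => f n p / c) := by
    funext n p; rw [div_eq_inv_mul]
  have e2 : c⁻¹ * L = L / c := by rw [div_eq_inv_mul]
  rw [e1, e2] at h
  exact h

lemma Lm.sum {s : ℕ → Finset ℕ} (I : Finset ℕ) {f : ℕ → ℕ → ℕ → ℝ} {L : ℕ → ℝ}
    (h : ∀ j ∈ I, Lm s (f j) (L j)) :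
    Lm s (fun n p => ∑ j ∈ I, f j n p) (∑ j ∈ I, L j) := by
  have h := tendsto_finsetSum I h
  refine h.congr fun n => ?_
  rw [← Finset.sum_div, Finset.sum_comm]
  congr 1
  exact Finset.sum_congr rfl fun p _ => by rw [Finset.sum_mul]

lemma Lm.of_eq {s t : ℕ → Finset ℕ} {f g : ℕ → ℕ → ℝ} {L M : ℝ} (hf : Lm s f L) (hs : s = t)
    (hfg : ∀ n p, f n p = g n p) (hL : L = M) : Lm t g M := by
  subst hs; subst hL
  have : f = g := funext fun n => funext fun p => hfg n p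
  subst this
  exact hf

theorem F2_A_of (hT : F1T) (hC : F1C) (hI : F1I) (hV : F1V) (hF : F1F) :
    Tendsto (fun n : ℕ => (∑ p ∈ PS (1 / 50) 1 n, EA n p * Real.log p) / (n : ℝ) ^ 2) atTop
    (𝓝 ((LA : ℝ) - 24 * Real.log 50)) := by
  have T : ∀ α j : ℕ, j ∈ Finset.Icc 1 300 →
      Lm (PS ((1 / 50 : ℚ) : ℝ) ((1 : ℚ) : ℝ)) (fun n p => tn (α * n) j p)
      ((It α j (1 / 50) 1 : ℚ) : ℝ) := fun α j hj =>
    hT α j (Finset.mem_Icc.mp hj).1 (1 / 50) 1 (by norm_num) (by norm_num) (by norm_num)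
  have F : Lm (PS ((1 / 50 : ℚ) : ℝ) ((1 : ℚ) : ℝ)) (fun n p => (n : ℝ) * ((2 * n / p : ℕ) : ℝ))
      ((Ifl 2 100 (1 / 50) 1 : ℚ) : ℝ) :=
    hF 2 100 (1 / 50) 1 (by norm_num) (by norm_num) (by norm_num) (by norm_num) (by norm_num)
  have K : Lm (PS ((1 / 50 : ℚ) : ℝ) ((1 : ℚ) : ℝ)) (fun n _ => (n : ℝ)) (((1 - 1 / 50 : ℚ)) : ℝ) :=
    hC (1 / 50) 1 (by norm_num) (by norm_num) (by norm_num)
  have I : Lm (PS ((1 / 50 : ℚ) : ℝ) ((1 : ℚ) : ℝ)) (fun _ p => (p : ℝ))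
      ((((1 ^ 2 - (1 / 50) ^ 2) / 2 : ℚ)) : ℝ) :=
    hI (1 / 50) 1 (by norm_num) (by norm_num) (by norm_num)
  have V : Lm (PS ((1 / 50 : ℚ) : ℝ) ((1 : ℚ) : ℝ)) (fun n p => (n : ℝ) ^ 2 / p)
      (Real.log ((1 : ℚ) : ℝ) - Real.log ((1 / 50 : ℚ) : ℝ)) :=
    hV (1 / 50) 1 (by norm_num) (by norm_num) (by norm_num)
  have SX := Lm.sum (Finset.Icc 1 300) (fun j hj =>
    ((((T 2 j hj).mul 161).sub ((T 4 j hj).mul 14)).add ((T 6 j hj).mul (1 / 3))))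
  have H := ((((K.mul 130).sub (F.mul 144)).sub (V.mul 24)).add (I.div 6)).add SX
  refine Lm.of_eq H ?_ ?_ ?_
  · push_cast; rfl
  · intro n p
    unfold EA
    ring
  · have h50 : Real.log ((1 : ℚ) : ℝ) - Real.log ((1 / 50 : ℚ) : ℝ) = Real.log 50 := by
      push_cast
      rw [Real.log_one, one_div, Real.log_inv]
      ring
    rw [h50]
    unfold LA
    push_cast
    ring

theorem F2_B_of (hT : F1T) (hC : F1C) (hI : F1I) :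
    Tendsto (fun n : ℕ => (∑ p ∈ PS 1 (4 / 3) n, EB n p * Real.log p) / (n : ℝ) ^ 2) atTop
    (𝓝 (LB : ℝ)) := by
  have T : Lm (PS ((1 : ℚ) : ℝ) ((4 / 3 : ℚ) : ℝ)) (fun n p => tn (6 * n) 5 p)
      ((It 6 5 1 (4 / 3) : ℚ) : ℝ) :=
    hT 6 5 (by norm_num) 1 (4 / 3) (by norm_num) (by norm_num) (by norm_num)
  have K : Lm (PS ((1 : ℚ) : ℝ) ((4 / 3 : ℚ) : ℝ)) (fun n _ => (n : ℝ)) (((4 / 3 - 1 : ℚ)) : ℝ) :=
    hC 1 (4 / 3) (by norm_num) (by norm_num) (by norm_num)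
  have I : Lm (PS ((1 : ℚ) : ℝ) ((4 / 3 : ℚ) : ℝ)) (fun _ p => (p : ℝ))
      (((((4 / 3) ^ 2 - 1 ^ 2) / 2 : ℚ)) : ℝ) :=
    hI 1 (4 / 3) (by norm_num) (by norm_num) (by norm_num)
  have H := ((K.mul 136).sub (I.mul 90)).add (T.mul (1 / 2))
  refine Lm.of_eq H ?_ ?_ ?_
  · push_cast; rfl
  · intro n p
    unfold EB
    ring
  · unfold LB
    push_cast
    ring

theorem F2_C_of (hC : F1C) (hI : F1I) :
    Tendsto (fun n : ℕ => (∑ p ∈ PS (4 / 3) 2 n, EC n p * Real.log p) / (n : ℝ) ^ 2) atTop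
    (𝓝 (LC : ℝ)) := by
  have K : Lm (PS ((4 / 3 : ℚ) : ℝ) ((2 : ℚ) : ℝ)) (fun n _ => (n : ℝ)) (((2 - 4 / 3 : ℚ)) : ℝ) :=
    hC (4 / 3) 2 (by norm_num) (by norm_num) (by norm_num)
  have I : Lm (PS ((4 / 3 : ℚ) : ℝ) ((2 : ℚ) : ℝ)) (fun _ p => (p : ℝ))
      ((((2 ^ 2 - (4 / 3) ^ 2) / 2 : ℚ)) : ℝ) :=
    hI (4 / 3) 2 (by norm_num) (by norm_num) (by norm_num)
  have H := (K.mul 300).sub (I.mul 216)
  refine Lm.of_eq H ?_ ?_ ?_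
  · push_cast; rfl
  · intro n p
    unfold EC
    ring
  · unfold LC
    push_cast
    ring

theorem F2_U_of (hT : F1T) :
    Tendsto (fun n : ℕ => (∑ p ∈ PS (1 / 50) 16 n,
      (∑ j ∈ Finset.Icc 1 800, (1 / 2 * tn (16 * n) j p + tn (8 * n) j p)) * Real.log p) / (n : ℝ) ^ 2)
    atTop (𝓝 (LU : ℝ)) := by
  have T : ∀ α j : ℕ, j ∈ Finset.Icc 1 800 →
      Lm (PS ((1 / 50 : ℚ) : ℝ) ((16 : ℚ) : ℝ)) (fun n p => tn (α * n) j p)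
      ((It α j (1 / 50) 16 : ℚ) : ℝ) := fun α j hj =>
    hT α j (Finset.mem_Icc.mp hj).1 (1 / 50) 16 (by norm_num) (by norm_num) (by norm_num)
  have H := Lm.sum (Finset.Icc 1 800) (fun j hj => ((T 16 j hj).mul (1 / 2)).add (T 8 j hj))
  refine Lm.of_eq H ?_ ?_ ?_
  · push_cast; rfl
  · intro n p
    rfl
  · unfold LU
    push_cast
    rfl

end

end Pool.Agent.H574R2.D3
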