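import Pool.Agent.H574R2.D3.Defs

/-! Task F3 (helper457): the numerical value of the four limits, by kernel evaluation, and the final
numerical inequality. -/

open Polynomial Pool.Agent.H337R2

namespace Pool.Agent.H574R2.D3

noncomputable section

theorem F3_numeric : LA + LB + LC + LU ≤ 28669 / 100 := by
  decide +kernel

theorem F3_final : -1368 * Real.log 2 + 378 * Real.log 3 - 98 * Real.log 5 + 154 * Real.log 7
    - 45649 / 1000 + 144 + 16 / 5 + 28669 / 100 < -2 := by
  have h2 := Real.log_two_gt_d9
  have h3 : 12 * Real.log 3 ≤ 19 * Real.log 2 + 7153 / 524288 := by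
    have e : (12 : ℝ) * Real.log 3 = 19 * Real.log 2 + Real.log (531441 / 524288) := by
      have e1 : (12 : ℝ) * Real.log 3 = Real.log (3 ^ 12) := by rw [Real.log_pow]; norm_num
      have e2 : (19 : ℝ) * Real.log 2 = Real.log (2 ^ 19) := by rw [Real.log_pow]; norm_num
      rw [e1, e2, ← Real.log_mul (by norm_num) (by norm_num)]
      norm_num
    have := Real.log_le_sub_one_of_pos (show (0 : ℝ) < 531441 / 524288 by norm_num)
    rw [e]
    linarith
  have h7 : 5 * Real.log 7 ≤ 14 * Real.log 2 + 423 / 16384 := by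
    have e : (5 : ℝ) * Real.log 7 = 14 * Real.log 2 + Real.log (16807 / 16384) := by
      have e1 : (5 : ℝ) * Real.log 7 = Real.log (7 ^ 5) := by rw [Real.log_pow]; norm_num
      have e2 : (14 : ℝ) * Real.log 2 = Real.log (2 ^ 14) := by rw [Real.log_pow]; norm_num
      rw [e1, e2, ← Real.log_mul (by norm_num) (by norm_num)]
      norm_num
    have := Real.log_le_sub_one_of_pos (show (0 : ℝ) < 16807 / 16384 by norm_num)
    rw [e]
    linarith
  have h5 : 7 * Real.log 2 - 3 / 125 ≤ 3 * Real.log 5 := by
    have e : (7 : ℝ) * Real.log 2 = 3 * Real.log 5 + Real.log (128 / 125) := by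
      have e1 : (7 : ℝ) * Real.log 2 = Real.log (2 ^ 7) := by rw [Real.log_pow]; norm_num
      have e2 : (3 : ℝ) * Real.log 5 = Real.log (5 ^ 3) := by rw [Real.log_pow]; norm_num
      rw [e1, e2, ← Real.log_mul (by norm_num) (by norm_num)]
      norm_num
    have := Real.log_le_sub_one_of_pos (show (0 : ℝ) < 128 / 125 by norm_num)
    rw [e]
    linarith
  linarith

end

end Pool.Agent.H574R2.D3
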