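import Pool.Agent.H574R2.D3.Defs

open Polynomial Pool.Agent.H337R2

namespace Pool.Agent.H574R2.D3

/-- product form of `PF` at `v ^ 2` -/
theorem G1r_PF (n j v : ℕ) : ((((PF n j).eval ((v : ℚ) ^ 2) : ℚ)) : ℝ) =
    ∏ l ∈ Finset.range j, ((v : ℝ) ^ 2 - (3 * n + 1 + l) ^ 2) := by
  unfold PF
  rw [Polynomial.eval_prod]
  push_cast
  refine Finset.prod_congr rfl fun l _ => ?_
  simp only [Polynomial.eval_sub, Polynomial.eval_X, Polynomial.eval_C]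
  push_cast
  ring

theorem G1r_PFratio (n v : ℝ) (j : ℕ) :
    (∏ l ∈ Finset.range j, ((v + 1) ^ 2 - (3 * n + 1 + l) ^ 2)) * ((v - 3 * n - j) * (v + 3 * n + 1)) =
    (∏ l ∈ Finset.range j, (v ^ 2 - (3 * n + 1 + l) ^ 2)) * ((v - 3 * n) * (v + 3 * n + 1 + j)) := by
  induction j with
  | zero => simp
  | succ j ih =>
    rw [Finset.prod_range_succ, Finset.prod_range_succ]
    push_cast
    linear_combination ((v + 3 * n + 2 + j) * (v - 3 * n - j - 1)) * ih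

theorem G1r_wv {n v : ℕ} (hv : 3 * n + 1 ≤ v) :
    wv n (v + 1) * ((v : ℝ) ^ 73 * (v + n + 1) ^ 21 * ((v : ℝ) - 3 * n)) =
    wv n v * (((v : ℝ) + 1) ^ 73 * (v + 3 * n + 1) * ((v : ℝ) - n) ^ 21) := by
  obtain ⟨w, rfl⟩ := Nat.exists_eq_add_of_le hv
  unfold wv
  have e1 : 3 * n + 1 + w + 1 + 3 * n = (3 * n + 1 + w + 3 * n) + 1 := by ring
  have e2 : 3 * n + 1 + w + 1 + n = (3 * n + 1 + w + n) + 1 := by ring
  have e3 : 3 * n + 1 + w + 1 - n - 1 = (2 * n + w) + 1 := by omega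
  have e4 : 3 * n + 1 + w + 1 - 3 * n - 1 = w + 1 := by omega
  have e5 : 3 * n + 1 + w - n - 1 = 2 * n + w := by omega
  have e6 : 3 * n + 1 + w - 3 * n - 1 = w := by omega
  rw [e1, e2, e3, e4, e5, e6]
  simp only [Nat.factorial_succ]
  have hA : ((3 * n + 1 + w + 3 * n).factorial : ℝ) ≠ 0 := by exact_mod_cast Nat.factorial_ne_zero _
  have hB : ((3 * n + 1 + w + n).factorial : ℝ) ≠ 0 := by exact_mod_cast Nat.factorial_ne_zero _
  have hC : ((2 * n + w).factorial : ℝ) ≠ 0 := by exact_mod_cast Nat.factorial_ne_zero _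
  have hD : (w.factorial : ℝ) ≠ 0 := by exact_mod_cast Nat.factorial_ne_zero _
  generalize ((3 * n + 1 + w + 3 * n).factorial) = A at *
  generalize ((3 * n + 1 + w + n).factorial) = B at *
  generalize ((2 * n + w).factorial) = C' at *
  generalize (w.factorial) = D at *
  generalize (((2 * n).factorial : ℝ) ^ 18) = E at *
  push_cast
  have h1 : (3 * (n : ℝ) + 1 + w + n + 1) ≠ 0 := by positivity
  have h2 : ((w : ℝ) + 1) ≠ 0 := by positivity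
  field_simp
  ring

private theorem G1r_alg (W1 W0 V0 V1 P0 P1 a a' b b' c d x y : ℝ) (hc : c ≠ 0) (hd : d ≠ 0)
    (hw : W1 * (a * b * c) = W0 * (a' * d * b')) (hP : P1 * (x * d) = P0 * (c * y)) :
    W1 * V1 * P1 ^ 2 * (a * V0 * d * b * x ^ 2) = W0 * V0 * P0 ^ 2 * (a' * V1 * c * b' * y ^ 2) := by
  apply mul_right_cancel₀ (mul_ne_zero hc hd)
  have h1 : W1 * V1 * P1 ^ 2 * (a * V0 * d * b * x ^ 2) * (c * d) =
      (W1 * (a * b * c)) * (P1 * (x * d)) ^ 2 * (V0 * V1) := by ring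
  rw [h1, hw, hP]
  ring

theorem G1_ratio {n j v : ℕ} (hn : 2 ≤ n) (hv : 3 * n + 1 + j ≤ v) :
    gv n j (v + 1) * ((v : ℝ) ^ (8 * n + 59) * (v + 3 * n + 1) * (v + n + 1) ^ 21 * ((v : ℝ) - 3 * n - j) ^ 2) =
    gv n j v * (((v : ℝ) + 1) ^ (8 * n + 59) * (v - 3 * n) * ((v : ℝ) - n) ^ 21 * ((v : ℝ) + 3 * n + j + 1) ^ 2) := by
  have hv1 : 3 * n + 1 ≤ v := by omega
  have hv' : (3 * (n : ℝ) + 1) ≤ v := by exact_mod_cast hv1
  have hn0 : (0 : ℝ) ≤ n := Nat.cast_nonneg n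
  have hw := G1r_wv hv1
  have hP := G1r_PFratio n v j
  have hc : ((v : ℝ) - 3 * n) ≠ 0 := by
    have : 0 < (v : ℝ) - 3 * n := by linarith
    exact this.ne'
  have hd : ((v : ℝ) + 3 * n + 1) ≠ 0 := by positivity
  have hP' : (∏ l ∈ Finset.range j, (((v + 1 : ℕ) : ℝ) ^ 2 - (3 * n + 1 + l) ^ 2)) *
      (((v : ℝ) - 3 * n - j) * (v + 3 * n + 1)) =
      (∏ l ∈ Finset.range j, ((v : ℝ) ^ 2 - (3 * n + 1 + l) ^ 2)) *
      (((v : ℝ) - 3 * n) * ((v : ℝ) + 3 * n + j + 1)) := by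
    rw [Nat.cast_succ, hP]
    congr 2
    ring
  have e : 8 * n + 59 = 73 + (8 * n - 14) := by omega
  unfold gv
  rw [G1r_PF, G1r_PF, e, pow_add, pow_add, Nat.cast_succ] 
  rw [Nat.cast_succ] at hP'
  exact G1r_alg _ _ _ _ _ _ _ _ _ _ _ _ _ _ hc hd hw hP'

/-- numerical certificate -/
theorem G1_cert (b : ℕ) (hb : b ≤ 7) (z τ : ℚ) (hz : z = 3 + (b + 1) / 2) (hτ : τ = z + Hb b) :
    (τ + z) ^ 2 * (τ - 3) * (τ - 1) ^ 17 < (τ - z) ^ 2 * (τ + 3) * (τ + 1) ^ 17 := by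
  subst hτ; subst hz
  interval_cases b <;> norm_num [Hb]

end Pool.Agent.H574R2.D3
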