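import Pool.Agent.H574R2.D3.Defs

/-!
# Task G1s: the supremum of `gv`
-/

open Polynomial Pool.Agent.H337R2

namespace Pool.Agent.H574R2.D3

noncomputable section

namespace G1s

/-- the statement of `G1_ratio` -/
def Ratio : Prop := ∀ {n j v : ℕ}, 2 ≤ n → 3 * n + 1 + j ≤ v →
    gv n j (v + 1) * ((v : ℝ) ^ (8 * n + 59) * (v + 3 * n + 1) * (v + n + 1) ^ 21 * ((v : ℝ) - 3 * n - j) ^ 2) =
    gv n j v * (((v : ℝ) + 1) ^ (8 * n + 59) * (v - 3 * n) * ((v : ℝ) - n) ^ 21 * ((v : ℝ) + 3 * n + j + 1) ^ 2)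

/-- the statement of `G1_cert` -/
def Cert : Prop := ∀ (b : ℕ) (_ : b ≤ 7) (z τ : ℚ) (_ : z = 3 + (b + 1) / 2) (_ : τ = z + Hb b),
    (τ + z) ^ 2 * (τ - 3) * (τ - 1) ^ 17 < (τ - z) ^ 2 * (τ + 3) * (τ + 1) ^ 17

/-- step (i) -/
lemma pow_le (n v : ℕ) (h : n < v) :
    (((v : ℝ) + 1) / v) ^ (2 * n + 1) ≤ ((v : ℝ) + n + 1) / ((v : ℝ) - n) := by
  induction n with
  | zero => simp
  | succ n ih =>
    have hv : n < v := by omega
    have ih' := ih hv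
    have hv0 : (0 : ℝ) < v := by exact_mod_cast (by omega : 0 < v)
    have h1 : ((n : ℝ) + 1) < v := by exact_mod_cast h
    have h2 : (0 : ℝ) < (v : ℝ) - n := by linarith
    have h3 : (0 : ℝ) < (v : ℝ) - (n + 1) := by linarith
    have hn0 : (0 : ℝ) ≤ n := Nat.cast_nonneg n
    have e : 2 * (n + 1) + 1 = (2 * n + 1) + 2 := by ring
    rw [e, pow_add]
    push_cast
    calc (((v : ℝ) + 1) / v) ^ (2 * n + 1) * (((v : ℝ) + 1) / v) ^ 2
        ≤ ((v : ℝ) + n + 1) / ((v : ℝ) - n) * (((v : ℝ) + 1) / v) ^ 2 := by gcongr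
      _ ≤ ((v : ℝ) + (n + 1) + 1) / ((v : ℝ) - (n + 1)) := by
          rw [div_pow, div_mul_div_comm, div_le_div_iff₀ (by positivity) h3]
          nlinarith [mul_pos h2 h3, mul_pos hv0 hv0, sq_nonneg ((n : ℝ) + 1),
            mul_nonneg (sq_nonneg ((n : ℝ) + 1)) (by positivity : (0:ℝ) ≤ 2 * v + 1)]

/-- product bound -/
lemma prod_max_le (X : ℝ) (hX : 0 ≤ X) (k : ℕ) :
    (∏ i ∈ Finset.range k, max 1 (X / ((i : ℝ) + 1))) ≤ Real.exp X := by
  have key : (∏ i ∈ Finset.range k, max 1 (X / ((i : ℝ) + 1))) ≤ Real.exp X ∧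
      ((k : ℝ) ≤ X → (∏ i ∈ Finset.range k, max 1 (X / ((i : ℝ) + 1))) = X ^ k / (k.factorial : ℝ)) := by
    induction k with
    | zero => simp [Real.one_le_exp hX]
    | succ k ih =>
      obtain ⟨ih1, ih2⟩ := ih
      by_cases hk : ((k + 1 : ℕ) : ℝ) ≤ X
      · have hk' : (k : ℝ) ≤ X := by push_cast at hk; linarith
        have hk1 : (0 : ℝ) < (k : ℝ) + 1 := by positivity
        have e : (∏ i ∈ Finset.range (k + 1), max 1 (X / ((i : ℝ) + 1))) = X ^ (k + 1) / ((k + 1).factorial : ℝ) := by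
          rw [Finset.prod_range_succ, ih2 hk', max_eq_right, Nat.factorial_succ]
          · push_cast
            have : ((k.factorial : ℕ) : ℝ) ≠ 0 := by exact_mod_cast Nat.factorial_ne_zero k
            rw [div_mul_div_comm, pow_succ, mul_comm ((k.factorial : ℕ) : ℝ)]
          · rw [le_div_iff₀ hk1]; push_cast at hk; linarith
        refine ⟨?_, fun _ => e⟩
        rw [e]
        exact Real.pow_div_factorial_le_exp X hX (k + 1)
      · refine ⟨?_, fun h => absurd h hk⟩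
        rw [Finset.prod_range_succ, max_eq_left, mul_one]
        · exact ih1
        · have hk1 : (0 : ℝ) < (k : ℝ) + 1 := by positivity
          rw [div_le_iff₀ hk1]; push_cast at hk; linarith
  exact key.1

/-- `Θ(y) ≤ y τ Θ(1/τ)` -/
lemma theta_le (z τ y : ℝ) (hz : 7 / 2 ≤ z) (hτ : z < τ) (hy : 0 < y) (hyτ : y * τ ≤ 1) :
    2 * (Real.log (1 + z * y) - Real.log (1 - z * y)) - (Real.log (1 + 3 * y) - Real.log (1 - 3 * y)) -
      17 * (Real.log (1 + y) - Real.log (1 - y)) ≤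
    y * τ * (2 * (Real.log (1 + z * (1 / τ)) - Real.log (1 - z * (1 / τ))) -
      (Real.log (1 + 3 * (1 / τ)) - Real.log (1 - 3 * (1 / τ))) -
      17 * (Real.log (1 + (1 / τ)) - Real.log (1 - (1 / τ)))) := by
  have hτ0 : 0 < τ := by linarith
  have hy1 : y ≤ 1 / τ := by rw [le_div_iff₀ hτ0]; exact hyτ
  have hs0 : 0 < 1 / τ := by positivity
  have habs : ∀ a s : ℝ, 0 < a → a ≤ z → 0 < s → s ≤ 1 / τ → |a * s| < 1 := by
    intro a s ha haz hs hs1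
    rw [abs_of_pos (by positivity)]
    calc a * s ≤ z * (1 / τ) := by gcongr
      _ < 1 := by rw [mul_one_div, div_lt_one hτ0]; exact hτ
  have H : ∀ s : ℝ, 0 < s → s ≤ 1 / τ → HasSum (fun k : ℕ => (2 : ℝ) * (1 / (2 * (k : ℝ) + 1)) *
      (2 * z ^ (2 * k + 1) - 3 ^ (2 * k + 1) - 17) * s ^ (2 * k + 1))
      (2 * (Real.log (1 + z * s) - Real.log (1 - z * s)) - (Real.log (1 + 3 * s) - Real.log (1 - 3 * s)) -
      17 * (Real.log (1 + s) - Real.log (1 - s))) := by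
    intro s hs hs1
    have a1 := Real.hasSum_log_sub_log_of_abs_lt_one (habs z s (by linarith) le_rfl hs hs1)
    have a2 := Real.hasSum_log_sub_log_of_abs_lt_one (habs 3 s (by norm_num) (by linarith) hs hs1)
    have a3 := Real.hasSum_log_sub_log_of_abs_lt_one (habs 1 s (by norm_num) (by linarith) hs hs1)
    rw [one_mul] at a3
    have := ((a1.mul_left 2).sub a2).sub (a3.mul_left 17)
    have e : (fun k : ℕ => (2 : ℝ) * (1 / (2 * (k : ℝ) + 1)) *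
      (2 * z ^ (2 * k + 1) - 3 ^ (2 * k + 1) - 17) * s ^ (2 * k + 1)) = (fun b : ℕ =>
      2 * (2 * (1 / (2 * (b : ℝ) + 1)) * (z * s) ^ (2 * b + 1)) - 2 * (1 / (2 * (b : ℝ) + 1)) * (3 * s) ^ (2 * b + 1) -
        17 * (2 * (1 / (2 * (b : ℝ) + 1)) * s ^ (2 * b + 1))) := by
      funext k
      rw [mul_pow, mul_pow]
      ring
    rw [e]
    exact this
  refine hasSum_le ?_ (H y hy hy1) ((H (1 / τ) hs0 le_rfl).mul_left (y * τ))
  intro k
  rcases Nat.eq_zero_or_pos k with rfl | hk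
  · apply le_of_eq
    simp
    field_simp
  · have hc : 0 ≤ 2 * z ^ (2 * k + 1) - 3 ^ (2 * k + 1) - 17 := by
      have h3 : (3 : ℝ) ^ (2 * k + 1) ≤ z ^ (2 * k + 1) := by gcongr; linarith
      have h4 : (17 : ℝ) ≤ z ^ (2 * k + 1) := by
        calc (17 : ℝ) ≤ 3 ^ 3 := by norm_num
          _ ≤ 3 ^ (2 * k + 1) := by
              apply pow_le_pow_right₀ (by norm_num); omega
          _ ≤ z ^ (2 * k + 1) := h3
      linarith
    have hpow : y ^ (2 * k + 1) ≤ y * τ * (1 / τ) ^ (2 * k + 1) := by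
      rw [pow_succ' y, pow_succ' (1 / τ)]
      have : y * τ * (1 / τ * (1 / τ) ^ (2 * k)) = y * (1 / τ) ^ (2 * k) := by
        field_simp
      rw [this]
      gcongr
    have hk0 : 0 ≤ (2 : ℝ) * (1 / (2 * (k : ℝ) + 1)) * (2 * z ^ (2 * k + 1) - 3 ^ (2 * k + 1) - 17) := by
      positivity
    calc (2 : ℝ) * (1 / (2 * (k : ℝ) + 1)) * (2 * z ^ (2 * k + 1) - 3 ^ (2 * k + 1) - 17) * y ^ (2 * k + 1)
        ≤ (2 : ℝ) * (1 / (2 * (k : ℝ) + 1)) * (2 * z ^ (2 * k + 1) - 3 ^ (2 * k + 1) - 17) *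
          (y * τ * (1 / τ) ^ (2 * k + 1)) := by gcongr
      _ = _ := by ring

/-- the limit of the ratio -/
def EE (z y : ℝ) : ℝ := ((1 + z * y) / (1 - z * y)) ^ 2 * ((1 - 3 * y) / (1 + 3 * y)) * ((1 - y) / (1 + y)) ^ 17

lemma log_EE (z y : ℝ) (hz : 7 / 2 ≤ z) (hy : 0 < y) (hzy : z * y < 1) :
    0 < EE z y ∧ Real.log (EE z y) =
    2 * (Real.log (1 + z * y) - Real.log (1 - z * y)) - (Real.log (1 + 3 * y) - Real.log (1 - 3 * y)) -
      17 * (Real.log (1 + y) - Real.log (1 - y)) := by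
  have h3 : 3 * y < 1 := by nlinarith
  have h1 : y < 1 := by nlinarith
  have a1 : 0 < 1 + z * y := by positivity
  have a2 : 0 < 1 - z * y := by linarith
  have a3 : 0 < 1 + 3 * y := by positivity
  have a4 : 0 < 1 - 3 * y := by linarith
  have a5 : 0 < 1 + y := by positivity
  have a6 : 0 < 1 - y := by linarith
  refine ⟨by unfold EE; positivity, ?_⟩
  unfold EE
  rw [Real.log_mul (by positivity) (by positivity), Real.log_mul (by positivity) (by positivity),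
    Real.log_pow, Real.log_pow, Real.log_div a1.ne' a2.ne', Real.log_div a4.ne' a3.ne',
    Real.log_div a6.ne' a5.ne']
  push_cast
  ring

lemma frac1 (v n τ a : ℝ) (ha : 0 < a) (haτ : a < τ) (hn : 0 < n) (hv : a * n ≤ v) (h : v ≤ τ * n) :
    (v - a * n) / (v + a * n + 1) ≤ (τ - a) / (τ + a) := by
  have h1 : 0 < a * n := by positivity
  rw [div_le_div_iff₀ (by linarith) (by linarith)]
  nlinarith [mul_le_mul_of_nonneg_left h ha.le]

lemma frac2 (v y a : ℝ) (ha : 0 < a) (hy : 0 < y) (hv : 0 < v) (hay : a * y < 1) :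
    (v - a * (y * v)) / (v + a * (y * v) + 1) ≤ (1 - a * y) / (1 + a * y) := by
  rw [div_le_div_iff₀ (by positivity) (by positivity)]
  nlinarith

/-- small `v` -/
lemma regionA (z H : ℝ) (hz : 7 / 2 ≤ z) (hH : 0 < H)
    (hc : (z + H + z) ^ 2 * (z + H - 3) * (z + H - 1) ^ 17 < H ^ 2 * (z + H + 3) * (z + H + 1) ^ 17) :
    ∀ᶠ n : ℕ in Filter.atTop, ∀ j v : ℕ, 3 * n + 1 + j ≤ v → (3 * n + j : ℝ) ≤ z * n →
      (v : ℝ) ≤ (z + H) * n →
      (((v : ℝ) + 1) / v) ^ 55 * (((v : ℝ) - 3 * n) / (v + 3 * n + 1)) * (((v : ℝ) - n) / (v + n + 1)) ^ 17 *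
        ((v : ℝ) + 3 * n + j + 1) ^ 2 ≤ (H * n) ^ 2 := by
  set τ := z + H with hτ
  have hτ3 : 3 < τ := by linarith
  let f : ℝ → ℝ := fun ε => (1 + ε) ^ 55 * ((τ - 3) / (τ + 3)) * ((τ - 1) / (τ + 1)) ^ 17 * (τ + z + ε) ^ 2
  have hf0 : f 0 < H ^ 2 := by
    simp only [f]
    have h1 : 0 < τ + 3 := by linarith
    have h2 : 0 < (τ + 1) ^ 17 := by positivity
    have : (1 + (0 : ℝ)) ^ 55 * ((τ - 3) / (τ + 3)) * ((τ - 1) / (τ + 1)) ^ 17 * (τ + z + 0) ^ 2 =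
      ((τ + z) ^ 2 * (τ - 3) * (τ - 1) ^ 17) / ((τ + 3) * (τ + 1) ^ 17) := by
      rw [div_pow]
      field_simp
      ring
    rw [this, div_lt_iff₀ (by positivity), ← mul_assoc]
    exact hc
  clear hc
  have hcont : Continuous f := by
    simp only [f]
    fun_prop
  have h1 : ∀ᶠ ε in nhds (0 : ℝ), f ε < H ^ 2 := (hcont.tendsto 0).eventually (gt_mem_nhds hf0)
  have h2 : Filter.Tendsto (fun n : ℕ => (1 : ℝ) / n) Filter.atTop (nhds 0) := tendsto_one_div_atTop_nhds_zero_nat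
  filter_upwards [h2.eventually h1, Filter.eventually_ge_atTop 1] with n hn hn1 j v hv hj hvτ
  have hn0 : (0 : ℝ) < n := by exact_mod_cast hn1
  have hvn : (3 : ℝ) * n + 1 + j ≤ v := by exact_mod_cast hv
  have hj0 : (0 : ℝ) ≤ j := Nat.cast_nonneg j
  have hv0 : (0 : ℝ) < v := by linarith
  have b1 : ((v : ℝ) + 1) / v ≤ 1 + 1 / n := by
    rw [add_div, div_self hv0.ne']
    gcongr
    linarith
  have b2 : ((v : ℝ) - 3 * n) / (v + 3 * n + 1) ≤ (τ - 3) / (τ + 3) :=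
    frac1 v n τ 3 (by norm_num) hτ3 hn0 (by linarith) hvτ
  have b3 : ((v : ℝ) - n) / (v + n + 1) ≤ (τ - 1) / (τ + 1) := by
    have := frac1 v n τ 1 (by norm_num) (by linarith) hn0 (by linarith) hvτ
    rwa [one_mul] at this
  have b4 : (v : ℝ) + 3 * n + j + 1 ≤ n * (τ + z + 1 / n) := by
    have : (n : ℝ) * (τ + z + 1 / n) = τ * n + z * n + 1 := by field_simp
    rw [this]; linarith
  have p2 : 0 ≤ ((v : ℝ) - 3 * n) / (v + 3 * n + 1) := div_nonneg (by linarith) (by positivity)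
  have p3 : 0 ≤ ((v : ℝ) - n) / (v + n + 1) := div_nonneg (by linarith) (by positivity)
  have q2 : 0 ≤ (τ - 3) / (τ + 3) := div_nonneg (by linarith) (by linarith)
  have q3 : 0 ≤ (τ - 1) / (τ + 1) := div_nonneg (by linarith) (by linarith)
  calc (((v : ℝ) + 1) / v) ^ 55 * (((v : ℝ) - 3 * n) / (v + 3 * n + 1)) * (((v : ℝ) - n) / (v + n + 1)) ^ 17 *
        ((v : ℝ) + 3 * n + j + 1) ^ 2
      ≤ (1 + 1 / (n : ℝ)) ^ 55 * ((τ - 3) / (τ + 3)) * ((τ - 1) / (τ + 1)) ^ 17 * (n * (τ + z + 1 / n)) ^ 2 := by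
        gcongr
    _ = n ^ 2 * f (1 / n) := by
        have hgen : ∀ A B C D m : ℝ, A * B * C * (m * D) ^ 2 = m ^ 2 * (A * B * C * D ^ 2) := by
          intros; ring
        exact hgen _ _ _ _ _
    _ ≤ n ^ 2 * H ^ 2 := by gcongr
    _ = (H * n) ^ 2 := by ring

/-- large `v` -/
lemma regionB (z H : ℝ) (hz : 7 / 2 ≤ z) (hH : 0 < H)
    (hc : (z + H + z) ^ 2 * (z + H - 3) * (z + H - 1) ^ 17 < H ^ 2 * (z + H + 3) * (z + H + 1) ^ 17) :
    ∀ᶠ n : ℕ in Filter.atTop, ∀ j v : ℕ, 3 * n + 1 + j ≤ v → (3 * n + j : ℝ) ≤ z * n →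
      (z + H) * n ≤ (v : ℝ) →
      (((v : ℝ) + 1) / v) ^ 55 * (((v : ℝ) - 3 * n) / (v + 3 * n + 1)) * (((v : ℝ) - n) / (v + n + 1)) ^ 17 *
        ((v : ℝ) + 3 * n + j + 1) ^ 2 ≤ ((v : ℝ) - 3 * n - j) ^ 2 := by
  set τ := z + H with hτ
  have hτ3 : 3 < τ := by linarith
  have hτ0 : 0 < τ := by linarith
  have hzτ : z * (1 / τ) < 1 := by rw [mul_one_div, div_lt_one hτ0]; linarith
  obtain ⟨e0, e1⟩ := log_EE z (1 / τ) hz (by positivity) hzτ
  have hEτ : EE z (1 / τ) < 1 := by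
    have : EE z (1 / τ) = ((τ + z) ^ 2 * (τ - 3) * (τ - 1) ^ 17) / (H ^ 2 * (τ + 3) * (τ + 1) ^ 17) := by
      unfold EE
      have h1 : (1 + z * (1 / τ)) / (1 - z * (1 / τ)) = (τ + z) / H := by
        have : H = τ - z := by rw [hτ]; ring
        rw [this]
        have h4 : τ - z ≠ 0 := by rw [← this]; exact hH.ne'
        have h5 : 1 - z * (1 / τ) ≠ 0 := by linarith
        rw [div_eq_div_iff h5 h4]
        field_simp
      have h2 : (1 - 3 * (1 / τ)) / (1 + 3 * (1 / τ)) = (τ - 3) / (τ + 3) := by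
        have h5 : 1 + 3 * (1 / τ) ≠ 0 := by positivity
        rw [div_eq_div_iff h5 (by positivity)]
        field_simp
      have h3 : (1 - (1 / τ)) / (1 + (1 / τ)) = (τ - 1) / (τ + 1) := by
        have h5 : 1 + (1 / τ) ≠ 0 := by positivity
        rw [div_eq_div_iff h5 (by positivity)]
        field_simp
      rw [h1, h2, h3, div_pow, div_pow]
      field_simp
    rw [this, div_lt_one (by positivity)]
    exact hc
  clear hc
  have hlog : Real.log (EE z (1 / τ)) < 0 := Real.log_neg e0 hEτ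
  set L := Real.log (EE z (1 / τ)) with hL
  have h2 : ∀ᶠ n : ℕ in Filter.atTop, 57 / (τ * (-L)) ≤ (n : ℝ) :=
    tendsto_natCast_atTop_atTop.eventually_ge_atTop _
  filter_upwards [h2, Filter.eventually_ge_atTop 1] with n hn hn1 j v hv hj hvτ
  have hn0 : (0 : ℝ) < n := by exact_mod_cast hn1
  have hvn : (3 : ℝ) * n + 1 + j ≤ v := by exact_mod_cast hv
  have hj0 : (0 : ℝ) ≤ j := Nat.cast_nonneg j
  have hv0 : (0 : ℝ) < v := by linarith
  set y : ℝ := n / v with hy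
  have hy0 : 0 < y := by positivity
  have hyv : y * v = n := by rw [hy]; field_simp
  have hyτ : y * τ ≤ 1 := by
    rw [hy, div_mul_eq_mul_div, div_le_one hv0]; linarith
  have hzy : z * y < 1 := by
    have : z * y < τ * y := by gcongr; linarith
    linarith
  have h3y : 3 * y < 1 := by nlinarith
  have h1y : y < 1 := by linarith
  obtain ⟨f0, f1⟩ := log_EE z y hz hy0 hzy
  have hth := theta_le z τ y hz (by linarith) hy0 hyτ
  rw [← f1, ← e1] at hth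
  have b1 : ((v : ℝ) + 1) / v ≤ Real.exp (1 / v) := by
    rw [add_div, div_self hv0.ne']
    linarith [Real.add_one_le_exp (1 / (v : ℝ))]
  have b2 : ((v : ℝ) - 3 * n) / (v + 3 * n + 1) ≤ (1 - 3 * y) / (1 + 3 * y) := by
    have := frac2 v y 3 (by norm_num) hy0 hv0 h3y
    rwa [hyv] at this
  have b3 : ((v : ℝ) - n) / (v + n + 1) ≤ (1 - y) / (1 + y) := by
    have := frac2 v y 1 (by norm_num) hy0 hv0 (by linarith)
    rwa [hyv, one_mul, one_mul] at this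
  have b4 : (v : ℝ) + 3 * n + j + 1 ≤ v * (1 + z * y) * Real.exp (1 / v) := by
    have h5 : 1 + 1 / (v : ℝ) ≤ Real.exp (1 / v) := by linarith [Real.add_one_le_exp (1 / (v : ℝ))]
    calc (v : ℝ) + 3 * n + j + 1 ≤ v * (1 + z * y) * (1 + 1 / v) := by
          have : v * (1 + z * y) * (1 + 1 / v) = v + z * (y * v) + 1 + z * y := by field_simp; ring
          rw [this, hyv]
          nlinarith [mul_pos (by linarith : (0:ℝ) < z) hy0]
      _ ≤ v * (1 + z * y) * Real.exp (1 / v) := by gcongr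
  have b5 : v * (1 - z * y) ≤ (v : ℝ) - 3 * n - j := by
    have : v * (1 - z * y) = v - z * (y * v) := by ring
    rw [this, hyv]; linarith
  have p2 : 0 ≤ ((v : ℝ) - 3 * n) / (v + 3 * n + 1) := div_nonneg (by linarith) (by positivity)
  have p3 : 0 ≤ ((v : ℝ) - n) / (v + n + 1) := div_nonneg (by linarith) (by positivity)
  have q2 : 0 ≤ (1 - 3 * y) / (1 + 3 * y) := div_nonneg (by linarith) (by linarith)
  have q3 : 0 ≤ (1 - y) / (1 + y) := div_nonneg (by linarith) (by linarith)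
  have hle : Real.exp (57 / v) * EE z y ≤ 1 := by
    have : EE z y = Real.exp (Real.log (EE z y)) := (Real.exp_log f0).symm
    rw [this, ← Real.exp_add, Real.exp_le_one_iff]
    have h6 : 57 ≤ n * (τ * (-L)) := by
      rwa [div_le_iff₀ (mul_pos hτ0 (neg_pos.2 hlog))] at hn
    have h7 : 57 / (v : ℝ) + y * τ * L ≤ 0 := by
      have : 57 / (v : ℝ) + y * τ * L = (57 - n * (τ * (-L))) / v := by
        rw [hy]; field_simp; ring
      rw [this]
      exact div_nonpos_of_nonpos_of_nonneg (by linarith only [h6]) hv0.le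
    linarith only [h7, hth]
  have hz1 : 0 < 1 - z * y := by linarith
  calc (((v : ℝ) + 1) / v) ^ 55 * (((v : ℝ) - 3 * n) / (v + 3 * n + 1)) * (((v : ℝ) - n) / (v + n + 1)) ^ 17 *
        ((v : ℝ) + 3 * n + j + 1) ^ 2
      ≤ (Real.exp (1 / v)) ^ 55 * ((1 - 3 * y) / (1 + 3 * y)) * ((1 - y) / (1 + y)) ^ 17 *
        (v * (1 + z * y) * Real.exp (1 / v)) ^ 2 := by
        gcongr
    _ = (Real.exp (57 / v) * EE z y) * (v * (1 - z * y)) ^ 2 := by
        have e57 : Real.exp (57 / (v : ℝ)) = Real.exp (1 / v) ^ 57 := by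
          rw [← Real.exp_nat_mul]; congr 1; push_cast; ring
        rw [e57]
        unfold EE
        have hgen : ∀ E a b w p q : ℝ, q ≠ 0 →
            E ^ 55 * a * b * (w * p * E) ^ 2 = (E ^ 57 * ((p / q) ^ 2 * a * b)) * (w * q) ^ 2 := by
          intro E a b w p q hq
          rw [div_pow]
          field_simp
        exact hgen _ _ _ _ _ _ hz1.ne'
    _ ≤ 1 * (v * (1 - z * y)) ^ 2 := by gcongr
    _ ≤ ((v : ℝ) - 3 * n - j) ^ 2 := by
        rw [one_mul]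
        gcongr

/-- combination -/
lemma region (z H : ℝ) (hz : 7 / 2 ≤ z) (hH : 0 < H)
    (hc : (z + H + z) ^ 2 * (z + H - 3) * (z + H - 1) ^ 17 < H ^ 2 * (z + H + 3) * (z + H + 1) ^ 17) :
    ∀ᶠ n : ℕ in Filter.atTop, ∀ j v : ℕ, 3 * n + 1 + j ≤ v → (3 * n + j : ℝ) ≤ z * n →
      (((v : ℝ) + 1) / v) ^ 55 * (((v : ℝ) - 3 * n) / (v + 3 * n + 1)) * (((v : ℝ) - n) / (v + n + 1)) ^ 17 *
        ((v : ℝ) + 3 * n + j + 1) ^ 2 ≤
      (((v : ℝ) - 3 * n - j) * max 1 (H * n / ((v : ℝ) - 3 * n - j))) ^ 2 := by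
  filter_upwards [regionA z H hz hH hc, regionB z H hz hH hc] with n hA hB j v hv hj
  have hvn : (3 : ℝ) * n + 1 + j ≤ v := by exact_mod_cast hv
  have hu : (0 : ℝ) < (v : ℝ) - 3 * n - j := by linarith
  rcases le_total ((v : ℝ)) ((z + H) * n) with h | h
  · refine (hA j v hv hj h).trans ?_
    apply pow_le_pow_left₀ (by positivity)
    calc H * n = ((v : ℝ) - 3 * n - j) * (H * n / ((v : ℝ) - 3 * n - j)) := by
          rw [mul_div_assoc', mul_div_cancel_left₀ _ hu.ne']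
      _ ≤ _ := by gcongr; exact le_max_right _ _
  · refine (hB j v hv hj h).trans ?_
    apply pow_le_pow_left₀ hu.le
    calc ((v : ℝ) - 3 * n - j) = ((v : ℝ) - 3 * n - j) * 1 := by ring
      _ ≤ _ := by gcongr; exact le_max_left _ _

lemma gv_nonneg (n j v : ℕ) : 0 ≤ gv n j v := by
  unfold gv wv
  positivity

lemma gv_zero (n j v : ℕ) (h1 : 3 * n + 1 ≤ v) (h2 : v < 3 * n + 1 + j) : gv n j v = 0 := by
  unfold gv
  have : (PF n j).eval ((v : ℚ) ^ 2) = 0 := by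
    unfold PF
    rw [Polynomial.eval_prod]
    apply Finset.prod_eq_zero (i := v - (3 * n + 1)) (by rw [Finset.mem_range]; omega)
    rw [Polynomial.eval_sub, Polynomial.eval_X, Polynomial.eval_C]
    have : 3 * n + 1 + (v - (3 * n + 1)) = v := by omega
    rw [this]; simp
  rw [this]; simp

/-- one step -/
lemma step (hR : Ratio) (H : ℝ) {n j v : ℕ} (hn : 2 ≤ n) (hv : 3 * n + 1 + j ≤ v)
    (h : (((v : ℝ) + 1) / v) ^ 55 * (((v : ℝ) - 3 * n) / (v + 3 * n + 1)) * (((v : ℝ) - n) / (v + n + 1)) ^ 17 *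
        ((v : ℝ) + 3 * n + j + 1) ^ 2 ≤
      (((v : ℝ) - 3 * n - j) * max 1 (H * n / ((v : ℝ) - 3 * n - j))) ^ 2) :
    gv n j (v + 1) ≤ gv n j v * (max 1 (H * n / ((v : ℝ) - 3 * n - j))) ^ 2 := by
  have hvn : (3 : ℝ) * n + 1 + j ≤ v := by exact_mod_cast hv
  have hj0 : (0 : ℝ) ≤ j := Nat.cast_nonneg j
  have hn0 : (0 : ℝ) < n := by exact_mod_cast (by omega : 0 < n)
  have hv0 : (0 : ℝ) < v := by linarith only [hvn, hj0, hn0]
  have hu : (0 : ℝ) < (v : ℝ) - 3 * n - j := by linarith only [hvn, hj0, hn0]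
  set M := max 1 (H * n / ((v : ℝ) - 3 * n - j)) with hM
  have hA : 0 < (v : ℝ) ^ (8 * n + 59) * (v + 3 * n + 1) * (v + n + 1) ^ 21 * ((v : ℝ) - 3 * n - j) ^ 2 := by
    positivity
  have hr := hR (j := j) hn hv
  have hvn' : (0 : ℝ) < (v : ℝ) - n := by linarith only [hvn, hj0, hn0]
  have hv3 : (0 : ℝ) < (v : ℝ) - 3 * n := by linarith only [hvn, hj0, hn0]
  have h4 := pow_le n v (by omega)
  have h5 : ((((v : ℝ) + 1) / v) ^ (2 * n + 1) * (((v : ℝ) - n) / (v + n + 1))) ^ 4 ≤ 1 := by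
    apply pow_le_one₀ (by positivity)
    calc (((v : ℝ) + 1) / v) ^ (2 * n + 1) * (((v : ℝ) - n) / (v + n + 1))
        ≤ ((v : ℝ) + n + 1) / ((v : ℝ) - n) * (((v : ℝ) - n) / (v + n + 1)) := by gcongr
      _ = 1 := by field_simp
  have hB : (((v : ℝ) + 1) ^ (8 * n + 59) * (v - 3 * n) * ((v : ℝ) - n) ^ 21 * ((v : ℝ) + 3 * n + j + 1) ^ 2) ≤
      ((v : ℝ) ^ (8 * n + 59) * (v + 3 * n + 1) * (v + n + 1) ^ 21 * ((v : ℝ) - 3 * n - j) ^ 2) * M ^ 2 := by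
    have e1 : 8 * n + 59 = 4 * (2 * n + 1) + 55 := by ring
    have hL : (((v : ℝ) + 1) ^ (8 * n + 59) * (v - 3 * n) * ((v : ℝ) - n) ^ 21 * ((v : ℝ) + 3 * n + j + 1) ^ 2) =
      ((v : ℝ) ^ (8 * n + 59) * (v + 3 * n + 1) * (v + n + 1) ^ 21) *
      (((((v : ℝ) + 1) / v) ^ (2 * n + 1) * (((v : ℝ) - n) / (v + n + 1))) ^ 4 *
      ((((v : ℝ) + 1) / v) ^ 55 * (((v : ℝ) - 3 * n) / (v + 3 * n + 1)) * (((v : ℝ) - n) / (v + n + 1)) ^ 17 *
        ((v : ℝ) + 3 * n + j + 1) ^ 2)) := by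
      have e2 : (((v : ℝ) + 1)) ^ (8 * n + 59) = (v : ℝ) ^ (8 * n + 59) *
          (((((v : ℝ) + 1) / v) ^ (2 * n + 1)) ^ 4 * (((v : ℝ) + 1) / v) ^ 55) := by
        rw [← pow_mul, ← pow_add, mul_comm (2 * n + 1) 4, ← e1, ← mul_pow]
        congr 1
        field_simp
      have e3 : ((v : ℝ) - n) ^ 21 = (v + n + 1) ^ 21 * ((((v : ℝ) - n) / (v + n + 1)) ^ 4 *
          (((v : ℝ) - n) / (v + n + 1)) ^ 17) := by
        rw [← pow_add, ← mul_pow]
        congr 1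
        field_simp
      have e4 : ((v : ℝ) - 3 * n) = (v + 3 * n + 1) * (((v : ℝ) - 3 * n) / (v + 3 * n + 1)) := by
        field_simp
      have hgen : ∀ V P1 P Q q W r R17 S : ℝ, V * (P1 ^ 4 * P) * (Q * q) * (W * (r ^ 4 * R17)) * S =
          V * Q * W * ((P1 * r) ^ 4 * (P * q * R17 * S)) := by intros; ring
      have hg := hgen ((v : ℝ) ^ (8 * n + 59)) ((((v : ℝ) + 1) / v) ^ (2 * n + 1)) ((((v : ℝ) + 1) / v) ^ 55)
        (v + 3 * n + 1) (((v : ℝ) - 3 * n) / (v + 3 * n + 1)) (((v : ℝ) + n + 1) ^ 21) (((v : ℝ) - n) / (v + n + 1))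
        ((((v : ℝ) - n) / (v + n + 1)) ^ 17) (((v : ℝ) + 3 * n + j + 1) ^ 2)
      rw [← e2, ← e3, ← e4] at hg
      exact hg
    rw [hL]
    calc ((v : ℝ) ^ (8 * n + 59) * (v + 3 * n + 1) * (v + n + 1) ^ 21) *
      (((((v : ℝ) + 1) / v) ^ (2 * n + 1) * (((v : ℝ) - n) / (v + n + 1))) ^ 4 *
      ((((v : ℝ) + 1) / v) ^ 55 * (((v : ℝ) - 3 * n) / (v + 3 * n + 1)) * (((v : ℝ) - n) / (v + n + 1)) ^ 17 *
        ((v : ℝ) + 3 * n + j + 1) ^ 2)) ≤
        ((v : ℝ) ^ (8 * n + 59) * (v + 3 * n + 1) * (v + n + 1) ^ 21) *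
        (1 * (((v : ℝ) - 3 * n - j) * M) ^ 2) := by
          gcongr
      _ = _ := by
          have hgen : ∀ A B C D E : ℝ, A * B * C * (1 * (D * E) ^ 2) = A * B * C * D ^ 2 * E ^ 2 := by
            intros; ring
          exact hgen _ _ _ _ _
  have h6 : gv n j (v + 1) * ((v : ℝ) ^ (8 * n + 59) * (v + 3 * n + 1) * (v + n + 1) ^ 21 * ((v : ℝ) - 3 * n - j) ^ 2) ≤
      (gv n j v * M ^ 2) *
      ((v : ℝ) ^ (8 * n + 59) * (v + 3 * n + 1) * (v + n + 1) ^ 21 * ((v : ℝ) - 3 * n - j) ^ 2) := by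
    rw [hr]
    have := mul_le_mul_of_nonneg_left hB (gv_nonneg n j v)
    refine this.trans (le_of_eq ?_)
    have hgen : ∀ G A M : ℝ, G * (A * M) = G * M * A := by intros; ring
    exact hgen _ _ _
  exact le_of_mul_le_mul_right h6 hA

theorem sup_of (hR : Ratio) (hC : Cert) : ∃ N0 : ℕ, ∀ n : ℕ, N0 ≤ n → ∀ j < 4 * n - 8, ∀ v : ℕ, 3 * n + 1 ≤ v →
    gv n j v ≤ gv n j (3 * n + 1 + j) * Real.exp (2 * (Hb (2 * j / n) : ℝ) * n) := by
  have hHb : ∀ b : ℕ, 0 < Hb b := by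
    intro b
    unfold Hb
    split <;> norm_num
  have key : ∀ᶠ n : ℕ in Filter.atTop, ∀ b ∈ Finset.range 8, ∀ j v : ℕ, 3 * n + 1 + j ≤ v →
      (3 * n + j : ℝ) ≤ (3 + ((b : ℝ) + 1) / 2) * n →
      (((v : ℝ) + 1) / v) ^ 55 * (((v : ℝ) - 3 * n) / (v + 3 * n + 1)) * (((v : ℝ) - n) / (v + n + 1)) ^ 17 *
        ((v : ℝ) + 3 * n + j + 1) ^ 2 ≤
      (((v : ℝ) - 3 * n - j) * max 1 ((Hb b : ℝ) * n / ((v : ℝ) - 3 * n - j))) ^ 2 := by
    rw [Filter.eventually_all_finset]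
    intro b hb
    rw [Finset.mem_range] at hb
    have hc := hC b (by omega) _ _ rfl rfl
    have hc' : (((3 + ((b : ℚ) + 1) / 2 + Hb b + (3 + ((b : ℚ) + 1) / 2)) ^ 2 * (3 + ((b : ℚ) + 1) / 2 + Hb b - 3) *
      (3 + ((b : ℚ) + 1) / 2 + Hb b - 1) ^ 17 : ℚ) : ℝ) < (((3 + ((b : ℚ) + 1) / 2 + Hb b - (3 + ((b : ℚ) + 1) / 2)) ^ 2 * (3 + ((b : ℚ) + 1) / 2 + Hb b + 3) *
      (3 + ((b : ℚ) + 1) / 2 + Hb b + 1) ^ 17 : ℚ) : ℝ) := by
      exact_mod_cast hc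
    push_cast at hc'
    refine region (3 + ((b : ℝ) + 1) / 2) (Hb b : ℝ) ?_ (by exact_mod_cast hHb b) ?_
    · have : (0 : ℝ) ≤ b := Nat.cast_nonneg b
      linarith
    · convert hc' using 3
      ring
  obtain ⟨N1, hN1⟩ := Filter.eventually_atTop.1 key
  refine ⟨max N1 2, fun n hn j hj v hv => ?_⟩
  have hn2 : 2 ≤ n := le_trans (le_max_right _ _) hn
  have hn1 := hN1 n (le_trans (le_max_left _ _) hn)
  set b := 2 * j / n with hb
  have hb8 : b < 8 := by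
    rw [hb, Nat.div_lt_iff_lt_mul (by omega)]; omega
  have hjb : 2 * j < (b + 1) * n := by
    have h1 := Nat.div_add_mod (2 * j) n
    have h2 := Nat.mod_lt (2 * j) (by omega : 0 < n)
    rw [← hb] at h1
    nlinarith
  have hjz : (3 * n + j : ℝ) ≤ (3 + ((b : ℝ) + 1) / 2) * n := by
    have : (2 : ℝ) * j < (b + 1) * n := by exact_mod_cast hjb
    linarith
  have hH0 : (0 : ℝ) < (Hb b : ℝ) := by exact_mod_cast hHb b
  rcases lt_or_ge v (3 * n + 1 + j) with hlt | hge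
  · rw [gv_zero n j v hv hlt]
    have := gv_nonneg n j (3 * n + 1 + j)
    positivity
  · obtain ⟨k, rfl⟩ := Nat.exists_eq_add_of_le hge
    have hk : gv n j (3 * n + 1 + j + k) ≤ gv n j (3 * n + 1 + j) *
        (∏ i ∈ Finset.range k, max 1 ((Hb b : ℝ) * n / ((i : ℝ) + 1))) ^ 2 := by
      clear hge hv
      induction k with
      | zero => simp
      | succ k ih =>
        have hs := step hR (Hb b : ℝ) hn2 (by omega : 3 * n + 1 + j ≤ 3 * n + 1 + j + k)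
          (hn1 b (Finset.mem_range.2 hb8) j (3 * n + 1 + j + k) (by omega) hjz)
        have e1 : (((3 * n + 1 + j + k : ℕ) : ℝ) - 3 * n - j) = (k : ℝ) + 1 := by push_cast; ring
        rw [e1] at hs
        rw [Finset.prod_range_succ, mul_pow, ← mul_assoc]
        calc gv n j (3 * n + 1 + j + (k + 1)) = gv n j (3 * n + 1 + j + k + 1) := by rw [add_assoc _ k 1]
          _ ≤ _ := hs
          _ ≤ _ := by gcongr
    refine hk.trans ?_
    have hn0 : (0 : ℝ) ≤ n := Nat.cast_nonneg n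
    have hp := prod_max_le ((Hb b : ℝ) * n) (by positivity) k
    have e2 : Real.exp (2 * (Hb b : ℝ) * n) = Real.exp ((Hb b : ℝ) * n) ^ 2 := by
      rw [← Real.exp_nat_mul]; congr 1; push_cast; ring
    rw [e2]
    have h0 := gv_nonneg n j (3 * n + 1 + j)
    gcongr

lemma cert (b : ℕ) (hb : b ≤ 7) (z τ : ℚ) (hz : z = 3 + (b + 1) / 2) (hτ : τ = z + Hb b) :
    (τ + z) ^ 2 * (τ - 3) * (τ - 1) ^ 17 < (τ - z) ^ 2 * (τ + 3) * (τ + 1) ^ 17 := by
  subst hτ hz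
  interval_cases b <;> norm_num [Hb]

lemma PF_ratio (n j v : ℕ) :
    (PF n j).eval (((v + 1 : ℕ) : ℚ) ^ 2) * (((v : ℚ) - 3 * n - j) * (v + 3 * n + 1)) =
      (PF n j).eval ((v : ℚ) ^ 2) * (((v : ℚ) - 3 * n) * (v + 3 * n + 1 + j)) := by
  induction j with
  | zero => simp [PF]
  | succ j ih =>
    have e : PF n (j + 1) = PF n j * (X - C (((3 * n + 1 + j : ℕ) : ℚ) ^ 2)) := by
      unfold PF; rw [Finset.prod_range_succ]
    rw [e]
    simp only [eval_mul, eval_sub, eval_X, eval_C]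
    push_cast at ih ⊢
    linear_combination (((v : ℚ) + 3 * n + 2 + j) * (v - 3 * n - j - 1)) * ih

lemma gv_eq (n j m : ℕ) (hn : 2 ≤ n) : gv n j (3 * n + 1 + m) =
    ((2 * n).factorial : ℝ) ^ 18 * 2 * ((3 * n + 1 + m : ℕ) : ℝ) ^ (8 * n + 59) *
      (((6 * n + 1 + m).factorial : ℝ) / (4 * n + 1 + m).factorial) *
      (((2 * n + m).factorial : ℝ) / m.factorial) *
      (((2 * n + m).factorial : ℝ) / (4 * n + 1 + m).factorial) ^ 20 *
      (((PF n j).eval (((3 * n + 1 + m : ℕ) : ℚ) ^ 2) : ℚ) : ℝ) ^ 2 := by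
  unfold gv wv
  have e1 : 3 * n + 1 + m + 3 * n = 6 * n + 1 + m := by ring
  have e2 : 3 * n + 1 + m + n = 4 * n + 1 + m := by ring
  have e3 : 3 * n + 1 + m - n - 1 = 2 * n + m := by omega
  have e4 : 3 * n + 1 + m - 3 * n - 1 = m := by omega
  rw [e1, e2, e3, e4]
  have e5 : 8 * n + 59 = 1 + 72 + (8 * n - 14) := by omega
  rw [e5, pow_add, pow_add, pow_one]
  ring

lemma ratio {n j v : ℕ} (hn : 2 ≤ n) (hv : 3 * n + 1 + j ≤ v) :
    gv n j (v + 1) * ((v : ℝ) ^ (8 * n + 59) * (v + 3 * n + 1) * (v + n + 1) ^ 21 * ((v : ℝ) - 3 * n - j) ^ 2) =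
    gv n j v * (((v : ℝ) + 1) ^ (8 * n + 59) * (v - 3 * n) * ((v : ℝ) - n) ^ 21 * ((v : ℝ) + 3 * n + j + 1) ^ 2) := by
  obtain ⟨m, rfl⟩ : ∃ m, v = 3 * n + 1 + m := ⟨v - (3 * n + 1), by omega⟩
  have hP := PF_ratio n j (3 * n + 1 + m)
  have hP' : (((PF n j).eval (((3 * n + 1 + m + 1 : ℕ) : ℚ) ^ 2) : ℚ) : ℝ) *
      ((((3 * n + 1 + m : ℕ) : ℝ) - 3 * n - j) * (((3 * n + 1 + m : ℕ) : ℝ) + 3 * n + 1)) =
      (((PF n j).eval (((3 * n + 1 + m : ℕ) : ℚ) ^ 2) : ℚ) : ℝ) *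
      ((((3 * n + 1 + m : ℕ) : ℝ) - 3 * n) * (((3 * n + 1 + m : ℕ) : ℝ) + 3 * n + 1 + j)) := by
    exact_mod_cast congrArg (fun q : ℚ => (q : ℝ)) hP
  have e0 : 3 * n + 1 + m + 1 = 3 * n + 1 + (m + 1) := by ring
  rw [e0] at hP' ⊢
  rw [gv_eq n j (m + 1) hn, gv_eq n j m hn]
  have e1 : 6 * n + 1 + (m + 1) = (6 * n + 1 + m) + 1 := by ring
  have e2 : 4 * n + 1 + (m + 1) = (4 * n + 1 + m) + 1 := by ring
  have e3 : 2 * n + (m + 1) = (2 * n + m) + 1 := by ring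
  rw [e1, e2, e3, Nat.factorial_succ, Nat.factorial_succ, Nat.factorial_succ, Nat.factorial_succ]
  generalize (((PF n j).eval (((3 * n + 1 + (m + 1) : ℕ) : ℚ) ^ 2) : ℚ) : ℝ) = P1 at hP' ⊢
  generalize (((PF n j).eval (((3 * n + 1 + m : ℕ) : ℚ) ^ 2) : ℚ) : ℝ) = P0 at hP' ⊢
  have f1 : (((6 * n + 1 + m).factorial : ℕ) : ℝ) ≠ 0 := by exact_mod_cast Nat.factorial_ne_zero _
  have f2 : (((4 * n + 1 + m).factorial : ℕ) : ℝ) ≠ 0 := by exact_mod_cast Nat.factorial_ne_zero _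
  have f3 : (((2 * n + m).factorial : ℕ) : ℝ) ≠ 0 := by exact_mod_cast Nat.factorial_ne_zero _
  have f4 : ((m.factorial : ℕ) : ℝ) ≠ 0 := by exact_mod_cast Nat.factorial_ne_zero _
  generalize (((2 * n).factorial : ℕ) : ℝ) = F0
  have hw : (((3 * n + 1 + (m + 1) : ℕ) : ℝ)) = ((3 * n + 1 + m : ℕ) : ℝ) + 1 := by push_cast; ring
  rw [hw]
  have g1 : (((6 * n + 1 + m + 1 : ℕ) * (6 * n + 1 + m).factorial : ℕ) : ℝ) =
    (((3 * n + 1 + m : ℕ) : ℝ) + 3 * n + 1) * (((6 * n + 1 + m).factorial : ℕ) : ℝ) := by push_cast; ring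
  have g2 : (((4 * n + 1 + m + 1 : ℕ) * (4 * n + 1 + m).factorial : ℕ) : ℝ) =
    (((3 * n + 1 + m : ℕ) : ℝ) + n + 1) * (((4 * n + 1 + m).factorial : ℕ) : ℝ) := by push_cast; ring
  have g3 : (((2 * n + m + 1 : ℕ) * (2 * n + m).factorial : ℕ) : ℝ) =
    (((3 * n + 1 + m : ℕ) : ℝ) - n) * (((2 * n + m).factorial : ℕ) : ℝ) := by push_cast; ring
  have g4 : (((m + 1 : ℕ) * m.factorial : ℕ) : ℝ) =
    (((3 * n + 1 + m : ℕ) : ℝ) - 3 * n) * ((m.factorial : ℕ) : ℝ) := by push_cast; ring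
  rw [g1, g2, g3, g4]
  have k1 : ((3 * n + 1 + m : ℕ) : ℝ) + n + 1 ≠ 0 := by positivity
  have k2 : ((3 * n + 1 + m : ℕ) : ℝ) - 3 * n ≠ 0 := by
    have : ((3 * n + 1 + m : ℕ) : ℝ) - 3 * n = m + 1 := by push_cast; ring
    rw [this]; positivity
  have k3 : ((3 * n + 1 + m : ℕ) : ℝ) + 3 * n + 1 ≠ 0 := by positivity
  generalize ((3 * n + 1 + m : ℕ) : ℝ) = V at *
  generalize (((6 * n + 1 + m).factorial : ℕ) : ℝ) = F1 at *
  generalize (((4 * n + 1 + m).factorial : ℕ) : ℝ) = F2 at *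
  generalize (((2 * n + m).factorial : ℕ) : ℝ) = F3 at *
  generalize ((m.factorial : ℕ) : ℝ) = F4 at *
  have hP2 : P1 ^ 2 * (V - 3 * n - j) ^ 2 * (V + 3 * n + 1) ^ 2 = P0 ^ 2 * (V - 3 * n) ^ 2 * (V + 3 * n + 1 + j) ^ 2 := by
    have := congrArg (fun x => x ^ 2) hP'
    simp only [mul_pow] at this
    linarith
  have hL : V + 3 * n + 1 + j = V + 3 * n + j + 1 := by ring
  rw [hL] at hP2
  generalize V - 3 * n - j = J at *
  generalize V + 3 * n + j + 1 = L at *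
  generalize V + 3 * n + 1 = K3 at *
  generalize V - 3 * n = K2 at *
  generalize V + n + 1 = K1 at *
  generalize V - n = K0 at *
  generalize (V + 1) ^ (8 * n + 59) = V1 at *
  generalize V ^ (8 * n + 59) = V0 at *
  rw [div_pow, div_pow, mul_pow, mul_pow]
  field_simp
  linear_combination (F0 ^ 18 * V1 * K0 ^ 21 * V0) * hP2

end G1s

theorem G1_sup : ∃ N0 : ℕ, ∀ n : ℕ, N0 ≤ n → ∀ j < 4 * n - 8, ∀ v : ℕ, 3 * n + 1 ≤ v →
    gv n j v ≤ gv n j (3 * n + 1 + j) * Real.exp (2 * (Hb (2 * j / n) : ℝ) * n) :=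
  G1s.sup_of (fun {_ _ _} hn hv => G1s.ratio hn hv) (fun b hb z τ hz hτ => G1s.cert b hb z τ hz hτ)

end

end Pool.Agent.H574R2.D3
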