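import Pool.Agent.H336R2.HD.F6

/-! Task G2f: asymptotics of sums of logarithms of factorials. -/

open Filter Topology Pool.Agent.H336R2.HD

namespace Pool.Agent.H574R2.D3

noncomputable section

/-- `L2(x) = ∫_0^x (y log y - y)` -/
def L2 (x : ℝ) : ℝ := x ^ 2 / 2 * Real.log x - 3 / 4 * x ^ 2

lemma G2f_fac_upper (N : ℕ) (hN : 1 ≤ N) :
    Real.log (N.factorial : ℝ) ≤ (N : ℝ) * Real.log N - N + Real.log N + 1 := by
  induction N, hN using Nat.le_induction with
  | base => simp
  | succ N hN ih =>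
    have hN0 : (0 : ℝ) < N := by exact_mod_cast hN
    have h1 : (0 : ℝ) < N.factorial := by exact_mod_cast N.factorial_pos
    rw [Nat.factorial_succ]
    push_cast
    rw [Real.log_mul (by positivity) h1.ne']
    have h2 : 1 / ((N : ℝ) + 1) ≤ Real.log (((N : ℝ) + 1) / N) := by
      have h := Real.one_sub_inv_le_log_of_pos (show 0 < ((N : ℝ) + 1) / N by positivity)
      rw [inv_div] at h
      have e : 1 - (N : ℝ) / (N + 1) = 1 / ((N : ℝ) + 1) := by field_simp; ring
      rwa [e] at h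
    rw [Real.log_div (by positivity) hN0.ne', div_le_iff₀ (by positivity)] at h2
    nlinarith [ih, h2]

lemma G2f_fac (N : ℕ) :
    |Real.log (N.factorial : ℝ) - ((N : ℝ) * Real.log N - N)| ≤ 1 + Real.log N := by
  rcases Nat.eq_zero_or_pos N with h | h
  · subst h
    simp
  · have h1 := F6_log_fact N h
    have h2 := G2f_fac_upper N h
    have h3 : 0 ≤ Real.log N := Real.log_natCast_nonneg N
    rw [abs_le]
    constructor <;> linarith

lemma G2f_lip' {x y : ℝ} (hx : 1 ≤ x) (hy : x ≤ y) :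
    |(y * Real.log y - y) - (x * Real.log x - x)| ≤ (y - x) * Real.log y := by
  have hx0 : 0 < x := by linarith
  have hy0 : 0 < y := by linarith
  have h1 := F6_mono hx hy
  rw [abs_of_nonneg (by linarith)]
  have h2 : Real.log (y / x) ≤ y / x - 1 := Real.log_le_sub_one_of_pos (by positivity)
  rw [Real.log_div hy0.ne' hx0.ne'] at h2
  have h3 : x * (Real.log y - Real.log x) ≤ x * (y / x - 1) := mul_le_mul_of_nonneg_left h2 hx0.le
  have h4 : x * (y / x - 1) = y - x := by field_simp
  nlinarith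

lemma G2f_lip {x y M : ℝ} (hx : 1 ≤ x) (hy : 1 ≤ y) (hxM : x ≤ M) (hyM : y ≤ M) :
    |(y * Real.log y - y) - (x * Real.log x - x)| ≤ |y - x| * Real.log M := by
  rcases le_total x y with h | h
  · refine (G2f_lip' hx h).trans ?_
    rw [abs_of_nonneg (by linarith)]
    exact mul_le_mul_of_nonneg_left (Real.log_le_log (by linarith) hyM) (by linarith)
  · rw [abs_sub_comm, abs_sub_comm y x]
    refine (G2f_lip' hy h).trans ?_
    rw [abs_of_nonneg (by linarith)]
    exact mul_le_mul_of_nonneg_left (Real.log_le_log (by linarith) hxM) (by linarith)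

lemma G2f_mvt {u v : ℝ} (hu : 1 ≤ u) (huv : u < v) :
    ∃ ξ, u < ξ ∧ ξ < v ∧ L2 v - L2 u = (v - u) * (ξ * Real.log ξ - ξ) := by
  have hc : ContinuousOn F6_F (Set.Icc u v) := fun x hx =>
    (F6_deriv (by linarith [hx.1])).continuousAt.continuousWithinAt
  obtain ⟨c, hc1, hc2⟩ := exists_hasDerivAt_eq_slope F6_F (fun x => x * Real.log x - x) huv hc
    (fun x hx => F6_deriv (by linarith [hx.1]))
  refine ⟨c, hc1.1, hc1.2, ?_⟩
  have e : ∀ x, L2 x = F6_F x := fun x => rfl
  rw [e, e, hc2]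
  have : v - u ≠ 0 := by linarith
  field_simp

/-- one term -/
lemma G2f_term (y : ℝ) (b N : ℕ) (e M : ℝ) (hb : 1 ≤ b) (hy : 0 ≤ y) (he : 0 ≤ e)
    (hN : (N : ℝ) = y + e) (hM : y + b + e + 1 ≤ M) :
    |b * Real.log (N.factorial : ℝ) - (L2 (y + b + 1) - L2 (y + 1))| ≤
      b * ((b + e + 4) * (1 + Real.log M)) := by
  have hb' : (1 : ℝ) ≤ b := by exact_mod_cast hb
  obtain ⟨ξ, h1, h2, h3⟩ := G2f_mvt (u := y + 1) (v := y + b + 1) (by linarith) (by linarith)
  have e1 : y + b + 1 - (y + 1) = (b : ℝ) := by ring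
  rw [h3, e1, ← mul_sub, abs_mul, abs_of_pos (by linarith : (0 : ℝ) < b)]
  apply mul_le_mul_of_nonneg_left _ (by linarith)
  have hM1 : 1 ≤ M := by linarith
  have hlM : 0 ≤ Real.log M := Real.log_nonneg hM1
  have hNM : (N : ℝ) ≤ M := by linarith
  have h4 := G2f_fac N
  have h5 : Real.log N ≤ Real.log M := by
    rcases Nat.eq_zero_or_pos N with h | h
    · subst h; simpa using hlM
    · exact Real.log_le_log (by exact_mod_cast h) hNM
  have h6 : |((N : ℝ) * Real.log N - N) - (ξ * Real.log ξ - ξ)| ≤ 1 + (b + e + 1) * Real.log M := by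
    rcases Nat.eq_zero_or_pos N with h | h
    · have hNz : (N : ℝ) = 0 := by rw [h]; simp
      have hy0 : y = 0 := by linarith
      have he0 : e = 0 := by linarith
      rw [hNz]
      have h7 := G2f_lip (x := ξ) (y := 1) (M := M) (by linarith) le_rfl (by linarith) hM1
      rw [Real.log_one] at h7
      have h8 : |(0 : ℝ) * Real.log 0 - 0 - (ξ * Real.log ξ - ξ)| ≤
          1 + |(1 : ℝ) * 0 - 1 - (ξ * Real.log ξ - ξ)| := by
        have : (0 : ℝ) * Real.log 0 - 0 - (ξ * Real.log ξ - ξ) =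
          1 + ((1 : ℝ) * 0 - 1 - (ξ * Real.log ξ - ξ)) := by ring
        rw [this]
        refine (abs_add_le _ _).trans ?_
        simp
      refine h8.trans ?_
      have h9 : |1 - ξ| ≤ b + e + 1 := by
        rw [abs_le]
        constructor <;> linarith
      have h10 : |1 - ξ| * Real.log M ≤ (b + e + 1) * Real.log M :=
        mul_le_mul_of_nonneg_right h9 hlM
      linarith
    · have h7 := G2f_lip (x := ξ) (y := (N : ℝ)) (M := M) (by linarith) (by exact_mod_cast h)
        (by linarith) hNM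
      refine h7.trans ?_
      have h9 : |(N : ℝ) - ξ| ≤ b + e + 1 := by
        rw [abs_le, hN]
        constructor <;> linarith
      have h10 : |(N : ℝ) - ξ| * Real.log M ≤ (b + e + 1) * Real.log M :=
        mul_le_mul_of_nonneg_right h9 hlM
      linarith
  have e2 : Real.log (N.factorial : ℝ) - (ξ * Real.log ξ - ξ) =
    (Real.log (N.factorial : ℝ) - ((N : ℝ) * Real.log N - N)) +
      (((N : ℝ) * Real.log N - N) - (ξ * Real.log ξ - ξ)) := by ring
  rw [e2]
  refine (abs_add_le _ _).trans ?_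
  nlinarith [h4, h5, h6, hlM, he]

lemma G2f_L2_cont : Continuous L2 := by
  have h : L2 = fun x => x / 2 * (x * Real.log x) - 3 / 4 * x ^ 2 := by
    funext x
    unfold L2
    ring
  rw [h]
  exact ((continuous_id.div_const 2).mul Real.continuous_mul_log).sub
    (continuous_const.mul (continuous_pow 2))

lemma G2f_lim (α δ : ℝ) (hα : 0 ≤ α) (hδ : 0 < α ∨ 0 < δ) :
    Tendsto (fun n : ℕ => L2 (α * n + δ) / (n : ℝ) ^ 2 - α ^ 2 / 2 * Real.log n) atTop
      (𝓝 (L2 α)) := by
  have hinv : Tendsto (fun n : ℕ => δ / (n : ℝ)) atTop (𝓝 0) :=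
    tendsto_const_div_atTop_nhds_zero_nat δ
  have hlog : Tendsto (fun n : ℕ => Real.log (n : ℝ) / n) atTop (𝓝 0) := by
    have := Real.isLittleO_log_id_atTop.tendsto_div_nhds_zero
    exact (this.comp tendsto_natCast_atTop_atTop)
  have h1 : Tendsto (fun n : ℕ => L2 (α + δ / n)) atTop (𝓝 (L2 α)) := by
    have h : Tendsto (fun n : ℕ => α + δ / (n : ℝ)) atTop (𝓝 (α + 0)) := hinv.const_add α
    rw [add_zero] at h
    exact (G2f_L2_cont.tendsto α).comp h
  have h2 : Tendsto (fun n : ℕ => (α * δ + δ / 2 * (δ / n)) * (Real.log (n : ℝ) / n)) atTop (𝓝 0) := by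
    have h : Tendsto (fun n : ℕ => α * δ + δ / 2 * (δ / (n : ℝ))) atTop (𝓝 (α * δ + δ / 2 * 0)) :=
      (hinv.const_mul (δ / 2)).const_add (α * δ)
    simpa using h.mul hlog
  have h3 := h1.add h2
  rw [add_zero] at h3
  refine h3.congr' ?_
  have hev : ∀ᶠ n : ℕ in atTop, 0 < α + δ / (n : ℝ) := by
    rcases hδ with h | h
    · have hh : Tendsto (fun n : ℕ => α + δ / (n : ℝ)) atTop (𝓝 (α + 0)) := hinv.const_add α
      rw [add_zero] at hh
      exact hh.eventually (lt_mem_nhds h)
    · filter_upwards [eventually_ge_atTop 1] with n hn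
      have : (0 : ℝ) < n := by exact_mod_cast hn
      positivity
  filter_upwards [hev, eventually_ge_atTop 1] with n hn1 hn2
  have hn0 : (0 : ℝ) < n := by exact_mod_cast hn2
  have e1 : α * n + δ = n * (α + δ / n) := by field_simp
  unfold L2
  rw [e1, Real.log_mul hn0.ne' hn1.ne']
  field_simp
  ring

lemma G2f_tele (b : ℕ) (y : ℝ) (k : ℕ) :
    ∑ j ∈ Finset.range k, (L2 (y + b * j + b + 1) - L2 (y + b * j + 1)) =
      L2 (y + b * k + 1) - L2 (y + 1) := by
  have h := Finset.sum_range_sub (fun j : ℕ => L2 (y + b * j + 1)) k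
  simp only [Nat.cast_zero, mul_zero, add_zero] at h
  rw [← h]
  apply Finset.sum_congr rfl
  intro j _
  congr 2
  push_cast
  ring

theorem G2_superfac (a b e c c' : ℕ) (hb : 1 ≤ b) (hc : 1 ≤ c) :
    Tendsto (fun n : ℕ => (∑ j ∈ Finset.range (c * n - c'), Real.log ((a * n + b * j + e).factorial : ℝ)) / (n : ℝ) ^ 2
      - (a * c + b * (c : ℝ) ^ 2 / 2) * Real.log n) atTop
      (𝓝 ((L2 (a + b * c) - L2 a) / b)) := by
  have hb' : (1 : ℝ) ≤ b := by exact_mod_cast hb
  have hc' : (1 : ℝ) ≤ c := by exact_mod_cast hc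
  have ha' : (0 : ℝ) ≤ a := by positivity
  have he' : (0 : ℝ) ≤ e := by positivity
  -- main terms
  have m1 := G2f_lim ((a : ℝ) + b * c) (1 - b * c') (by positivity) (Or.inl (by nlinarith))
  have m2 := G2f_lim (a : ℝ) 1 ha' (Or.inr one_pos)
  have m3 := (m1.sub m2).div_const (b : ℝ)
  -- error term
  set K : ℝ := a + b * c + b + e + 1 with hK
  have hK1 : 1 ≤ K := by
    have : (0 : ℝ) ≤ b * c := by positivity
    linarith
  have hlog : Tendsto (fun n : ℕ => Real.log (n : ℝ) / n) atTop (𝓝 0) := by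
    have := Real.isLittleO_log_id_atTop.tendsto_div_nhds_zero
    exact (this.comp tendsto_natCast_atTop_atTop)
  have herr : Tendsto (fun n : ℕ => c * (b + e + 4) * ((1 + Real.log K) / n + Real.log n / n)) atTop
      (𝓝 0) := by
    have h1 : Tendsto (fun n : ℕ => (1 + Real.log K) / (n : ℝ)) atTop (𝓝 0) :=
      tendsto_const_div_atTop_nhds_zero_nat _
    simpa using (h1.add hlog).const_mul ((c : ℝ) * (b + e + 4))
  have hdiff : Tendsto (fun n : ℕ => ((∑ j ∈ Finset.range (c * n - c'),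
      Real.log ((a * n + b * j + e).factorial : ℝ)) / (n : ℝ) ^ 2
      - (a * c + b * (c : ℝ) ^ 2 / 2) * Real.log n) -
      ((L2 (((a : ℝ) + b * c) * n + (1 - b * c')) / (n : ℝ) ^ 2 - ((a : ℝ) + b * c) ^ 2 / 2 * Real.log n) -
        (L2 (a * n + 1) / (n : ℝ) ^ 2 - (a : ℝ) ^ 2 / 2 * Real.log n)) / b) atTop (𝓝 0) := by
    refine squeeze_zero_norm' ?_ herr
    filter_upwards [eventually_ge_atTop 1, eventually_ge_atTop c'] with n hn hn2
    have hn0 : (1 : ℝ) ≤ n := by exact_mod_cast hn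
    have hnp : (0 : ℝ) < n := by linarith
    have hle : c' ≤ c * n := hn2.trans (Nat.le_mul_of_pos_left n hc)
    have hcast : ((c * n - c' : ℕ) : ℝ) = c * n - c' := by
      push_cast [Nat.cast_sub hle]
      ring
    have htele := G2f_tele b (a * n) (c * n - c')
    rw [hcast] at htele
    have hterm : ∀ j ∈ Finset.range (c * n - c'),
        |b * Real.log ((a * n + b * j + e).factorial : ℝ) -
          (L2 ((a : ℝ) * n + b * j + b + 1) - L2 ((a : ℝ) * n + b * j + 1))| ≤
        b * ((b + e + 4) * (1 + Real.log (K * n))) := by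
      intro j hj
      have hj' : (j : ℝ) + 1 ≤ c * n := by
        have : j + 1 ≤ c * n := by
          have := Finset.mem_range.1 hj
          omega
        exact_mod_cast this
      refine G2f_term ((a : ℝ) * n + b * j) b (a * n + b * j + e) e (K * n) hb (by positivity) he'
        (by push_cast; ring) ?_
      rw [hK]
      have h1 : (b : ℝ) * (j + 1) ≤ b * (c * n) := mul_le_mul_of_nonneg_left hj' (by linarith)
      have h2 : (0 : ℝ) ≤ (b : ℝ) * (n - 1) := mul_nonneg (by linarith) (by linarith)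
      have h3 : (0 : ℝ) ≤ (e : ℝ) * (n - 1) := mul_nonneg he' (by linarith)
      nlinarith
    have hsum := (Finset.abs_sum_le_sum_abs (fun j : ℕ => b * Real.log ((a * n + b * j + e).factorial : ℝ) -
          (L2 ((a : ℝ) * n + b * j + b + 1) - L2 ((a : ℝ) * n + b * j + 1)))
        (Finset.range (c * n - c'))).trans (Finset.sum_le_sum hterm)
    rw [Finset.sum_sub_distrib, ← Finset.mul_sum, htele, Finset.sum_const, Finset.card_range,
      nsmul_eq_mul, hcast] at hsum
    have e1 : (a : ℝ) * n + b * (c * n - c') + 1 = ((a : ℝ) + b * c) * n + (1 - b * c') := by ring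
    rw [e1] at hsum
    set S := ∑ j ∈ Finset.range (c * n - c'), Real.log ((a * n + b * j + e).factorial : ℝ) with hS
    have e2 : (S / (n : ℝ) ^ 2 - (a * c + b * (c : ℝ) ^ 2 / 2) * Real.log n) -
      ((L2 (((a : ℝ) + b * c) * n + (1 - b * c')) / (n : ℝ) ^ 2 - ((a : ℝ) + b * c) ^ 2 / 2 * Real.log n) -
        (L2 (a * n + 1) / (n : ℝ) ^ 2 - (a : ℝ) ^ 2 / 2 * Real.log n)) / b =
      (b * S - (L2 (((a : ℝ) + b * c) * n + (1 - b * c')) - L2 (a * n + 1))) / (b * (n : ℝ) ^ 2) := by
      field_simp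
      ring
    rw [e2, Real.norm_eq_abs, abs_div, abs_of_pos (by positivity : (0 : ℝ) < b * (n : ℝ) ^ 2),
      div_le_iff₀ (by positivity)]
    refine hsum.trans ?_
    rw [Real.log_mul (by linarith) hnp.ne']
    have hlK : 0 ≤ Real.log K := Real.log_nonneg hK1
    have hln : 0 ≤ Real.log (n : ℝ) := Real.log_nonneg hn0
    have h5 : (c : ℝ) * n - c' ≤ c * n := by
      have : (0 : ℝ) ≤ c' := by positivity
      linarith
    have h6 : 0 ≤ (b : ℝ) * ((b + e + 4) * (1 + (Real.log K + Real.log n))) := by positivity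
    refine (mul_le_mul_of_nonneg_right h5 h6).trans (le_of_eq ?_)
    field_simp
    ring
  have hfin := hdiff.add m3
  simp only [sub_add_cancel, zero_add] at hfin
  exact hfin

end

end Pool.Agent.H574R2.D3
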