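import Pool.Agent.H574R2.D3.Defs
import Pool.Agent.H337R2.Stir
import Pool.Agent.H574R2.D3.G2f

/-! Task G2: asymptotics of the sum of `log gv n j (3n+1+j)`. -/

open Polynomial Pool.Agent.H337R2 Filter Topology

namespace Pool.Agent.H574R2.D3

noncomputable section

lemma G2_fac_low (N : ℕ) : (N : ℝ) * Real.log N - N ≤ Real.log (N.factorial : ℝ) := by
  rcases Nat.eq_zero_or_pos N with rfl | hN
  · simp
  have h := Real.pow_div_factorial_le_exp (N : ℝ) (by positivity) N
  have h1 : (0 : ℝ) < N.factorial := by exact_mod_cast N.factorial_pos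
  have hN0 : (0 : ℝ) < N := by exact_mod_cast hN
  rw [div_le_iff₀ h1] at h
  have h2 := Real.log_le_log (by positivity) h
  rw [Real.log_pow, Real.log_mul (Real.exp_pos _).ne' h1.ne', Real.log_exp] at h2
  linarith

lemma G2_fac_up (N : ℕ) :
    Real.log (N.factorial : ℝ) ≤ (N : ℝ) * Real.log N - N + 1 + Real.log (N + 1) := by
  have h := fac_up N
  have h1 : (0 : ℝ) < N.factorial := by exact_mod_cast N.factorial_pos
  have h2 := Real.log_le_log (by positivity) h
  rw [Real.log_mul h1.ne' (Real.exp_pos _).ne', Real.log_exp,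
    Real.log_mul (by positivity) (Real.exp_pos _).ne',
    Real.log_mul (Real.exp_pos _).ne' (by positivity), Real.log_exp, Real.log_exp] at h2
  unfold xl at h2
  linarith

lemma G2_logn : Tendsto (fun n : ℕ => Real.log n / n) atTop (𝓝 0) := by
  have h : Tendsto (fun x : ℝ => Real.log x / x) atTop (𝓝 0) := by
    have := Real.isLittleO_log_id_atTop.tendsto_div_nhds_zero
    simpa using this
  exact h.comp tendsto_natCast_atTop_atTop

lemma G2_inv : Tendsto (fun n : ℕ => (1 : ℝ) / n) atTop (𝓝 0) := tendsto_one_div_atTop_nhds_zero_nat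

lemma G2_lim (c e : ℕ) (hc : 1 ≤ c) :
    Tendsto (fun n : ℕ => Real.log ((c * n - e).factorial : ℝ) / n - c * Real.log n) atTop
      (𝓝 (c * Real.log c - c)) := by
  have hc0 : (0 : ℝ) < c := by exact_mod_cast hc
  have hr : Tendsto (fun n : ℕ => (c : ℝ) - e * (1 / n)) atTop (𝓝 c) := by
    have := (G2_inv.const_mul (e : ℝ)).const_sub (c : ℝ)
    simpa using this
  have hlog : Tendsto (fun n : ℕ => Real.log ((c : ℝ) - e * (1 / n))) atTop (𝓝 (Real.log c)) :=
    (Real.continuousAt_log hc0.ne').tendsto.comp hr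
  have hL : Tendsto (fun n : ℕ => ((c : ℝ) - e * (1 / n)) * (Real.log ((c : ℝ) - e * (1 / n)) - 1) -
      e * (Real.log n / n)) atTop (𝓝 (c * Real.log c - c)) := by
    have := (hr.mul (hlog.sub_const 1)).sub (G2_logn.const_mul (e : ℝ))
    refine this.congr' (Eventually.of_forall fun _ => rfl) |>.trans ?_
    rw [mul_zero, sub_zero, mul_sub, mul_one]
  have hU : Tendsto (fun n : ℕ => (((c : ℝ) - e * (1 / n)) * (Real.log ((c : ℝ) - e * (1 / n)) - 1) -
      e * (Real.log n / n)) + ((1 + Real.log (c + 1)) * (1 / n) + Real.log n / n)) atTop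
      (𝓝 (c * Real.log c - c)) := by
    have := hL.add ((G2_inv.const_mul (1 + Real.log (c + 1))).add G2_logn)
    simpa using this
  refine tendsto_of_tendsto_of_tendsto_of_le_of_le' hL hU ?_ ?_
  all_goals
    filter_upwards [eventually_gt_atTop e, eventually_ge_atTop 1] with n hn hn1
    have hn0 : (0 : ℝ) < n := by exact_mod_cast hn1
    have hle : e ≤ c * n := by nlinarith
    have hlt : e < c * n := by nlinarith
    have hcast : ((c * n - e : ℕ) : ℝ) = c * n - e := by
      rw [Nat.cast_sub hle]; push_cast; ring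
    have hN0 : (0 : ℝ) < (c : ℝ) * n - e := by
      have : (e : ℝ) < c * n := by exact_mod_cast hlt
      linarith
    have hr0 : (c : ℝ) - e * (1 / n) = (c * n - e) / n := by field_simp
    have hlogr : Real.log ((c : ℝ) - e * (1 / n)) = Real.log (c * n - e) - Real.log n := by
      rw [hr0, Real.log_div hN0.ne' hn0.ne']
  · have h := G2_fac_low (c * n - e)
    rw [hcast] at h
    rw [hlogr, le_sub_iff_add_le, le_div_iff₀ hn0]
    refine le_trans (le_of_eq ?_) h
    field_simp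
    ring
  · have h := G2_fac_up (c * n - e)
    rw [hcast] at h
    have h2 : Real.log ((c : ℝ) * n - e + 1) ≤ Real.log (c + 1) + Real.log n := by
      rw [← Real.log_mul (by positivity) hn0.ne']
      apply Real.log_le_log (by linarith)
      have h3 : (1 : ℝ) ≤ n := by exact_mod_cast hn1
      have h4 : (0 : ℝ) ≤ e := Nat.cast_nonneg e
      nlinarith
    rw [hlogr, sub_le_iff_le_add, div_le_iff₀ hn0]
    refine h.trans ?_
    have h5 : ((((c : ℝ) - e * (1 / n)) * (Real.log (c * n - e) - Real.log n - 1) -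
      e * (Real.log n / n)) + ((1 + Real.log (c + 1)) * (1 / n) + Real.log n / n) + c * Real.log n) * n
      = (c * n - e) * Real.log (c * n - e) - (c * n - e) + 1 + (Real.log (c + 1) + Real.log n) := by
      field_simp
      ring
    rw [h5]
    linarith

lemma G2_sum_log (A M : ℕ) : ∑ j ∈ Finset.range M, Real.log ((A + 1 + j : ℕ) : ℝ) =
    Real.log ((A + M).factorial : ℝ) - Real.log (A.factorial : ℝ) := by
  induction M with
  | zero => simp
  | succ M ih =>
    rw [Finset.sum_range_succ, ih, ← Nat.add_assoc, Nat.factorial_succ, Nat.cast_mul,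
      Real.log_mul (by positivity) (by positivity)]
    have : A + 1 + M = A + M + 1 := by ring
    rw [this]
    ring

lemma G2_PF (n j : ℕ) : (PF n j).eval (((3 * n + 1 + j : ℕ) : ℚ) ^ 2) * ((6 * n + 1 + j).factorial : ℚ) =
    (j.factorial : ℚ) * ((6 * n + 1 + 2 * j).factorial : ℚ) := by
  unfold PF
  rw [eval_prod]
  simp only [eval_sub, eval_X, eval_C]
  have h1 : ∏ l ∈ Finset.range j, (((3 * n + 1 + j : ℕ) : ℚ) ^ 2 - ((3 * n + 1 + l : ℕ) : ℚ) ^ 2) =
      (∏ l ∈ Finset.range j, ((j : ℚ) - l)) * ∏ l ∈ Finset.range j, ((6 * n + 1 + j + 1 + l : ℕ) : ℚ) := by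
    rw [← Finset.prod_mul_distrib]
    refine Finset.prod_congr rfl fun l _ => ?_
    push_cast
    ring
  have h2 : ∏ l ∈ Finset.range j, ((j : ℚ) - l) = (j.factorial : ℚ) := by
    rw [← Finset.prod_range_reflect, ← Finset.prod_range_add_one_eq_factorial]
    push_cast
    refine Finset.prod_congr rfl fun l hl => ?_
    rw [Finset.mem_range] at hl
    have : ((j - 1 - l : ℕ) : ℚ) = (j : ℚ) - 1 - l := by
      rw [Nat.cast_sub (by omega), Nat.cast_sub (by omega)]
      push_cast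
      ring
    rw [this]
    ring
  have h3 : (∏ l ∈ Finset.range j, ((6 * n + 1 + j + 1 + l : ℕ) : ℚ)) * ((6 * n + 1 + j).factorial : ℚ) =
      ((6 * n + 1 + 2 * j).factorial : ℚ) := by
    rw [← Nat.cast_prod, ← Nat.ascFactorial_eq_prod_range, ← Nat.cast_mul, mul_comm,
      Nat.factorial_mul_ascFactorial]
    congr 2
    ring
  rw [h1, h2, mul_assoc, h3]

lemma G2_log_gv {n : ℕ} (hn : 2 ≤ n) (j : ℕ) : Real.log (gv n j (3 * n + 1 + j)) =
    18 * Real.log ((2 * n).factorial : ℝ) + Real.log 2 +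
    (8 * n + 59) * Real.log ((3 * n + 1 + j : ℕ) : ℝ) - Real.log ((6 * n + 1 * j + 1).factorial : ℝ) -
    21 * Real.log ((4 * n + 1 * j + 1).factorial : ℝ) + 21 * Real.log ((2 * n + 1 * j + 0).factorial : ℝ) +
    Real.log ((0 * n + 1 * j + 0).factorial : ℝ) + 2 * Real.log ((6 * n + 2 * j + 1).factorial : ℝ) := by
  have hP := G2_PF n j
  have hP' : (((PF n j).eval (((3 * n + 1 + j : ℕ) : ℚ) ^ 2) : ℚ) : ℝ) =
      (j.factorial : ℝ) * ((6 * n + 1 + 2 * j).factorial : ℝ) / ((6 * n + 1 + j).factorial : ℝ) := by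
    have h0 : ((6 * n + 1 + j).factorial : ℝ) ≠ 0 := by positivity
    rw [eq_div_iff h0]
    exact_mod_cast congrArg (fun q : ℚ => (q : ℝ)) hP
  unfold gv wv
  rw [hP']
  have e1 : 3 * n + 1 + j + 3 * n = 6 * n + 1 * j + 1 := by ring
  have e2 : 3 * n + 1 + j + n = 4 * n + 1 * j + 1 := by ring
  have e3 : 3 * n + 1 + j - n - 1 = 2 * n + 1 * j + 0 := by omega
  have e4 : 3 * n + 1 + j - 3 * n - 1 = 0 * n + 1 * j + 0 := by omega
  have e5 : 6 * n + 1 + 2 * j = 6 * n + 2 * j + 1 := by ring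
  have e6 : 6 * n + 1 + j = 6 * n + 1 * j + 1 := by ring
  have e7 : j.factorial = (0 * n + 1 * j + 0).factorial := by simp
  rw [e1, e2, e3, e4, e5, e6, e7]
  set v := 3 * n + 1 + j with hv
  have hv0 : ((v : ℕ) : ℝ) ≠ 0 := by rw [hv]; positivity
  have f1 : ((2 * n).factorial : ℝ) ≠ 0 := by positivity
  have f2 : ((6 * n + 1 * j + 1).factorial : ℝ) ≠ 0 := by positivity
  have f3 : ((4 * n + 1 * j + 1).factorial : ℝ) ≠ 0 := by positivity
  have f4 : ((2 * n + 1 * j + 0).factorial : ℝ) ≠ 0 := by positivity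
  have f5 : ((0 * n + 1 * j + 0).factorial : ℝ) ≠ 0 := by positivity
  have f6 : ((6 * n + 2 * j + 1).factorial : ℝ) ≠ 0 := by positivity
  rw [Real.log_mul (by positivity) (by positivity), Real.log_mul (by positivity) (by positivity),
    Real.log_mul (by positivity) (by positivity), Real.log_mul (by positivity) (by positivity),
    Real.log_mul (by positivity) (by positivity), Real.log_mul (by positivity) (by positivity),
    Real.log_mul (by positivity) (by positivity),
    Real.log_pow, Real.log_pow, Real.log_pow, Real.log_pow, Real.log_pow,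
    Real.log_mul (by norm_num) hv0, Real.log_div f2 f3, Real.log_div f4 f5, Real.log_div f4 f3,
    Real.log_div (by positivity) f2, Real.log_mul f5 f6]
  have h14 : ((8 * n - 14 : ℕ) : ℝ) = 8 * n - 14 := by
    rw [Nat.cast_sub (by omega)]
    push_cast
    ring
  rw [h14]
  push_cast
  ring

theorem G2_sum : ∀ ε : ℝ, 0 < ε → ∀ᶠ n : ℕ in atTop,
    ∑ j ∈ Finset.range (4 * n - 8), Real.log (gv n j (3 * n + 1 + j)) ≤
      64 * (n : ℝ) ^ 2 * Real.log n +
      (-1136 * Real.log 2 + 354 * Real.log 3 - 50 * Real.log 5 + 154 * Real.log 7 - 8 + ε) * (n : ℝ) ^ 2 := by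
  intro ε hε
  have s1 := G2_superfac 6 1 1 4 8 le_rfl (by norm_num)
  have s2 := G2_superfac 4 1 1 4 8 le_rfl (by norm_num)
  have s3 := G2_superfac 2 1 0 4 8 le_rfl (by norm_num)
  have s4 := G2_superfac 0 1 0 4 8 le_rfl (by norm_num)
  have s5 := G2_superfac 6 2 1 4 8 (by norm_num) (by norm_num)
  have l2 := G2_lim 2 0 (by norm_num)
  have l3 := G2_lim 3 0 (by norm_num)
  have l7 := G2_lim 7 8 (by norm_num)
  have lg := l7.sub l3
  -- the first term
  have t1 : Tendsto (fun n : ℕ => (72 - 144 * (1 / (n : ℝ))) *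
      (Real.log ((2 * n - 0).factorial : ℝ) / n - (2 : ℕ) * Real.log n) - 288 * (Real.log n / n)) atTop
      (𝓝 (72 * ((2 : ℕ) * Real.log (2 : ℕ) - (2 : ℕ)))) := by
    have := (((G2_inv.const_mul 144).const_sub 72).mul l2).sub (G2_logn.const_mul 288)
    simpa using this
  have t2 : Tendsto (fun n : ℕ => (4 * (1 / (n : ℝ)) - 8 * (1 / (n : ℝ)) * (1 / n)) * Real.log 2) atTop (𝓝 0) := by
    have := (((G2_inv.const_mul 4).sub ((G2_inv.const_mul 8).mul G2_inv)).mul_const (Real.log 2))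
    simpa using this
  have t3 : Tendsto (fun n : ℕ => (8 + 59 * (1 / (n : ℝ))) *
      ((Real.log ((7 * n - 8).factorial : ℝ) / n - (7 : ℕ) * Real.log n) -
        (Real.log ((3 * n - 0).factorial : ℝ) / n - (3 : ℕ) * Real.log n)) + 236 * (Real.log n / n)) atTop
      (𝓝 (8 * (((7 : ℕ) * Real.log (7 : ℕ) - (7 : ℕ)) - ((3 : ℕ) * Real.log (3 : ℕ) - (3 : ℕ))))) := by
    have := (((G2_inv.const_mul 59).const_add 8).mul lg).add (G2_logn.const_mul 236)
    simpa using this
  have T := (((((((t1.add t2).add t3).sub s1).sub (s2.const_mul 21)).add (s3.const_mul 21)).add s4).add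
    (s5.const_mul 2))
  have hval : 72 * ((2 : ℕ) * Real.log (2 : ℕ) - (2 : ℕ)) + 0 +
      8 * (((7 : ℕ) * Real.log (7 : ℕ) - (7 : ℕ)) - ((3 : ℕ) * Real.log (3 : ℕ) - (3 : ℕ))) -
      (L2 ((6 : ℕ) + (1 : ℕ) * (4 : ℕ)) - L2 (6 : ℕ)) / (1 : ℕ) -
      21 * ((L2 ((4 : ℕ) + (1 : ℕ) * (4 : ℕ)) - L2 (4 : ℕ)) / (1 : ℕ)) +
      21 * ((L2 ((2 : ℕ) + (1 : ℕ) * (4 : ℕ)) - L2 (2 : ℕ)) / (1 : ℕ)) +
      (L2 ((0 : ℕ) + (1 : ℕ) * (4 : ℕ)) - L2 (0 : ℕ)) / (1 : ℕ) +
      2 * ((L2 ((6 : ℕ) + (2 : ℕ) * (4 : ℕ)) - L2 (6 : ℕ)) / (2 : ℕ)) =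
      -1136 * Real.log 2 + 354 * Real.log 3 - 50 * Real.log 5 + 154 * Real.log 7 - 8 := by
    unfold L2
    have l4 : Real.log 4 = 2 * Real.log 2 := by
      rw [show (4 : ℝ) = 2 ^ 2 by norm_num, Real.log_pow]; norm_num
    have l8 : Real.log 8 = 3 * Real.log 2 := by
      rw [show (8 : ℝ) = 2 ^ 3 by norm_num, Real.log_pow]; norm_num
    have l6 : Real.log 6 = Real.log 2 + Real.log 3 := by
      rw [show (6 : ℝ) = 2 * 3 by norm_num, Real.log_mul (by norm_num) (by norm_num)]
    have l10 : Real.log 10 = Real.log 2 + Real.log 5 := by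
      rw [show (10 : ℝ) = 2 * 5 by norm_num, Real.log_mul (by norm_num) (by norm_num)]
    have l14 : Real.log 14 = Real.log 2 + Real.log 7 := by
      rw [show (14 : ℝ) = 2 * 7 by norm_num, Real.log_mul (by norm_num) (by norm_num)]
    norm_num
    rw [l4, l8, l6, l10, l14]
    ring
  rw [hval] at T
  have hev := T.eventually (gt_mem_nhds (show
    -1136 * Real.log 2 + 354 * Real.log 3 - 50 * Real.log 5 + 154 * Real.log 7 - 8 <
    -1136 * Real.log 2 + 354 * Real.log 3 - 50 * Real.log 5 + 154 * Real.log 7 - 8 + ε by linarith))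
  filter_upwards [hev, eventually_ge_atTop 2] with n hev hn
  have hn0 : (0 : ℝ) < n := by
    have : (2 : ℝ) ≤ n := by exact_mod_cast hn
    linarith
  have h48 : ((4 * n - 8 : ℕ) : ℝ) = 4 * n - 8 := by
    rw [Nat.cast_sub (by omega)]
    push_cast
    ring
  have hsum : ∑ j ∈ Finset.range (4 * n - 8), Real.log (gv n j (3 * n + 1 + j)) =
      (4 * n - 8) * (18 * Real.log ((2 * n).factorial : ℝ) + Real.log 2) +
      (8 * n + 59) * (Real.log ((7 * n - 8).factorial : ℝ) - Real.log ((3 * n).factorial : ℝ)) -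
      (∑ j ∈ Finset.range (4 * n - 8), Real.log ((6 * n + 1 * j + 1).factorial : ℝ)) -
      21 * (∑ j ∈ Finset.range (4 * n - 8), Real.log ((4 * n + 1 * j + 1).factorial : ℝ)) +
      21 * (∑ j ∈ Finset.range (4 * n - 8), Real.log ((2 * n + 1 * j + 0).factorial : ℝ)) +
      (∑ j ∈ Finset.range (4 * n - 8), Real.log ((0 * n + 1 * j + 0).factorial : ℝ)) +
      2 * (∑ j ∈ Finset.range (4 * n - 8), Real.log ((6 * n + 2 * j + 1).factorial : ℝ)) := by
    rw [Finset.sum_congr rfl fun j _ => G2_log_gv hn j]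
    have h78 : 7 * n - 8 = 3 * n + (4 * n - 8) := by omega
    rw [h78, ← G2_sum_log]
    simp only [Finset.sum_add_distrib, Finset.sum_sub_distrib, ← Finset.mul_sum, Finset.sum_const,
      Finset.card_range, nsmul_eq_mul, h48]
    ring
  rw [hsum]
  have hev' := mul_lt_mul_of_pos_right hev (show (0 : ℝ) < (n : ℝ) ^ 2 by positivity)
  refine le_of_lt (lt_of_eq_of_lt ?_ (add_lt_add_right hev' (64 * (n : ℝ) ^ 2 * Real.log n)))
  simp only [Nat.sub_zero]
  set A1 := ∑ j ∈ Finset.range (4 * n - 8), Real.log ((6 * n + 1 * j + 1).factorial : ℝ)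
  set A2 := ∑ j ∈ Finset.range (4 * n - 8), Real.log ((4 * n + 1 * j + 1).factorial : ℝ)
  set A3 := ∑ j ∈ Finset.range (4 * n - 8), Real.log ((2 * n + 1 * j + 0).factorial : ℝ)
  set A4 := ∑ j ∈ Finset.range (4 * n - 8), Real.log ((0 * n + 1 * j + 0).factorial : ℝ)
  set A5 := ∑ j ∈ Finset.range (4 * n - 8), Real.log ((6 * n + 2 * j + 1).factorial : ℝ)
  push_cast
  field_simp
  ring

end

end Pool.Agent.H574R2.D3
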