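import Pool.Agent.H574R2.D3.Defs

/-!
# Shared definitions for the `G3` tasks: `T2` and `nrm`, with the basic calculus of `nrm`
-/

open Polynomial Pool.Agent.H337R2

namespace Pool.Agent.H574R2.D3

noncomputable section

/-- the bound `T_i²` -/
def T2 (K : ℝ) (n i : ℕ) : ℝ := Real.exp K * (n : ℝ) ^ 200 * R0 n * (n : ℝ) ^ (4 * i) * Real.exp (LamN n i)

/-- truncated norm -/
def nrm (f : PowerSeries ℚ) : ℚ := ∑ j ∈ Finset.range 21, |PowerSeries.coeff j f| / 2 ^ j

lemma nrm_nonneg (f : PowerSeries ℚ) : 0 ≤ nrm f := Finset.sum_nonneg fun j _ => by positivity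

lemma nrm_neg (f : PowerSeries ℚ) : nrm (-f) = nrm f := by
  unfold nrm
  exact Finset.sum_congr rfl fun j _ => by rw [map_neg, abs_neg]

lemma nrm_add (f g : PowerSeries ℚ) : nrm (f + g) ≤ nrm f + nrm g := by
  unfold nrm
  rw [← Finset.sum_add_distrib]
  apply Finset.sum_le_sum
  intro j _
  rw [map_add, ← add_div]
  gcongr
  exact abs_add_le _ _

lemma nrm_sub (f g : PowerSeries ℚ) : nrm (f - g) ≤ nrm f + nrm g := by
  rw [sub_eq_add_neg, ← nrm_neg g]
  exact nrm_add _ _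

lemma nrm_sum {ι : Type*} (s : Finset ι) (f : ι → PowerSeries ℚ) :
    nrm (∑ i ∈ s, f i) ≤ ∑ i ∈ s, nrm (f i) := by
  classical
  induction s using Finset.induction_on with
  | empty => simp [nrm]
  | insert a s ha ih =>
    rw [Finset.sum_insert ha, Finset.sum_insert ha]
    exact (nrm_add _ _).trans (by linarith)

lemma nrm_mul (f g : PowerSeries ℚ) : nrm (f * g) ≤ nrm f * nrm g := by
  unfold nrm
  have h1 : ∀ j ∈ Finset.range 21, |PowerSeries.coeff j (f * g)| / 2 ^ j ≤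
      ∑ p ∈ Finset.HasAntidiagonal.antidiagonal j, (|PowerSeries.coeff p.1 f| / 2 ^ p.1) * (|PowerSeries.coeff p.2 g| / 2 ^ p.2) := by
    intro j _
    rw [PowerSeries.coeff_mul, div_le_iff₀ (by positivity), Finset.sum_mul]
    refine (Finset.abs_sum_le_sum_abs _ _).trans (Finset.sum_le_sum fun p hp => ?_)
    rw [Finset.HasAntidiagonal.mem_antidiagonal] at hp
    rw [← hp, abs_mul, pow_add]
    apply le_of_eq
    field_simp
  refine (Finset.sum_le_sum h1).trans ?_
  rw [Finset.sum_mul_sum, ← Finset.sum_product']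
  have h2 : ∀ j ∈ Finset.range 21, Finset.HasAntidiagonal.antidiagonal j =
      (((Finset.range 21 ×ˢ Finset.range 21).filter fun p => p.1 + p.2 ∈ Finset.range 21).filter
        fun p => p.1 + p.2 = j) := by
    intro j hj
    ext ⟨a, b⟩
    rw [Finset.mem_range] at hj
    simp only [Finset.HasAntidiagonal.mem_antidiagonal, Finset.mem_filter, Finset.mem_product, Finset.mem_range]
    omega
  rw [Finset.sum_congr rfl fun j hj => by rw [h2 j hj]]
  rw [Finset.sum_fiberwise_of_maps_to (t := Finset.range 21) (g := fun p : ℕ × ℕ => p.1 + p.2)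
    (fun p hp => (Finset.mem_filter.1 hp).2)]
  refine Finset.sum_le_sum_of_subset_of_nonneg (Finset.filter_subset _ _) ?_
  intro p _ _
  positivity

lemma nrm_C (a : ℚ) : nrm (PowerSeries.C a) = |a| := by
  unfold nrm
  rw [Finset.sum_eq_single 0]
  · simp
  · intro j _ hj
    rw [PowerSeries.coeff_C, if_neg hj]
    simp
  · intro h
    exact absurd (Finset.mem_range.2 (by norm_num)) h

lemma nrm_one : nrm 1 = 1 := by
  have h := nrm_C 1
  rw [map_one, abs_one] at h
  exact h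

lemma nrm_C_mul (a : ℚ) (f : PowerSeries ℚ) : nrm (PowerSeries.C a * f) = |a| * nrm f := by
  unfold nrm
  rw [Finset.mul_sum]
  refine Finset.sum_congr rfl fun j _ => ?_
  rw [PowerSeries.coeff_C_mul, abs_mul, mul_div_assoc]

lemma nrm_pow (f : PowerSeries ℚ) (m : ℕ) : nrm (f ^ m) ≤ nrm f ^ m := by
  induction m with
  | zero => rw [pow_zero, pow_zero, nrm_one]
  | succ m ih =>
    rw [pow_succ, pow_succ]
    exact (nrm_mul _ _).trans (mul_le_mul_of_nonneg_right ih (nrm_nonneg _))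

lemma nrm_prod {ι : Type*} (s : Finset ι) (f : ι → PowerSeries ℚ) :
    nrm (∏ i ∈ s, f i) ≤ ∏ i ∈ s, nrm (f i) := by
  classical
  induction s using Finset.induction_on with
  | empty => rw [Finset.prod_empty, Finset.prod_empty, nrm_one]
  | insert a s ha ih =>
    rw [Finset.prod_insert ha, Finset.prod_insert ha]
    exact (nrm_mul _ _).trans (mul_le_mul_of_nonneg_left ih (nrm_nonneg _))

lemma nrm_X : nrm PowerSeries.X = 1 / 2 := by
  unfold nrm
  rw [Finset.sum_eq_single 1]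
  · simp
  · intro j _ hj
    rw [PowerSeries.coeff_X, if_neg hj]
    simp
  · intro h
    exact absurd (Finset.mem_range.2 (by norm_num)) h

lemma nrm_X_add_C (a : ℚ) : nrm (PowerSeries.X + PowerSeries.C a) ≤ |a| + 1 / 2 := by
  refine (nrm_add _ _).trans ?_
  rw [nrm_X, nrm_C]
  linarith

lemma nrm_TS_lin (c a : ℚ) : nrm (TS c (X + C a)) ≤ |c + a| + 1 / 2 := by
  rw [TS_lin]
  exact nrm_X_add_C _

lemma nrm_iv {a : ℚ} (ha : 1 / 2 < |a|) : nrm (iv a) ≤ 1 / (|a| - 1 / 2) := by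
  have h0 : 0 < |a| := by linarith
  unfold nrm
  have h1 : ∀ j ∈ Finset.range 21, |PowerSeries.coeff j (iv a)| / 2 ^ j = 1 / |a| * (1 / (2 * |a|)) ^ j := by
    intro j _
    unfold iv
    rw [PowerSeries.coeff_mk, abs_div, abs_pow, abs_pow, abs_neg, abs_one, one_pow, div_pow, one_pow, mul_pow,
      pow_succ]
    field_simp
  rw [Finset.sum_congr rfl h1, ← Finset.mul_sum]
  have h2 : 1 / (2 * |a|) < 1 := by
    rw [div_lt_one (by positivity)]
    linarith
  have h3 := geom_sum_eq (ne_of_lt h2) 21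
  rw [h3]
  have h4 : (1 / |a| : ℚ) * (((1 / (2 * |a|)) ^ 21 - 1) / (1 / (2 * |a|) - 1)) =
      (1 - (1 / (2 * |a|)) ^ 21) * (1 / (|a| - 1 / 2)) := by
    have h5 : 1 / (2 * |a|) - 1 ≠ 0 := by linarith
    have h6 : |a| - 1 / 2 ≠ 0 := by linarith
    have h7 : (1 / |a| : ℚ) / (1 / (2 * |a|) - 1) = -(1 / (|a| - 1 / 2)) := by
      have h8 : 2 * |a| - 1 ≠ 0 := by
        intro h
        apply h6
        linarith
      have h9 : (1 : ℚ) / (2 * |a|) - 1 = -((2 * |a| - 1) / (2 * |a|)) := by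
        field_simp
        ring
      rw [h9, show |a| - 1 / 2 = (2 * |a| - 1) / 2 by ring, div_neg, neg_inj]
      generalize 2 * |a| - 1 = u at *
      field_simp
    calc (1 / |a| : ℚ) * (((1 / (2 * |a|)) ^ 21 - 1) / (1 / (2 * |a|) - 1))
        = ((1 / (2 * |a|)) ^ 21 - 1) * ((1 / |a| : ℚ) / (1 / (2 * |a|) - 1)) := by ring
      _ = (1 - (1 / (2 * |a|)) ^ 21) * (1 / (|a| - 1 / 2)) := by rw [h7]; ring
  rw [h4]
  have h8 : (0 : ℚ) ≤ 1 / (|a| - 1 / 2) := by
    apply one_div_nonneg.2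
    linarith
  have h9 : (0 : ℚ) ≤ (1 / (2 * |a|)) ^ 21 := by positivity
  nlinarith

lemma coeff_le_nrm (f : PowerSeries ℚ) {j : ℕ} (hj : j ≤ 20) :
    |PowerSeries.coeff j f| ≤ 2 ^ 20 * nrm f := by
  have h1 : |PowerSeries.coeff j f| / 2 ^ j ≤ nrm f :=
    Finset.single_le_sum (f := fun j => |PowerSeries.coeff j f| / 2 ^ j) (fun i _ => by positivity)
      (Finset.mem_range.2 (by omega))
  rw [div_le_iff₀ (by positivity)] at h1
  refine h1.trans ?_
  rw [mul_comm]
  exact mul_le_mul_of_nonneg_right (pow_le_pow_right₀ (by norm_num) hj) (nrm_nonneg _)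

end

end Pool.Agent.H574R2.D3
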