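import Pool.Agent.H574R2.D3.Defs
import Pool.Agent.H574R2.D3.G3d

open Polynomial Pool.Agent.H337R2

namespace Pool.Agent.H574R2.D3

noncomputable section

lemma G3E_sq (κ a : ℚ) :
    nrm ((PowerSeries.X + PowerSeries.C κ) ^ 2 - PowerSeries.C a) ≤ 1 / 4 + |κ| + |κ ^ 2 - a| := by
  have h1 : (PowerSeries.X + PowerSeries.C κ) ^ 2 - PowerSeries.C a =
      (PowerSeries.X ^ 2 + PowerSeries.C (2 * κ) * PowerSeries.X) + PowerSeries.C (κ ^ 2 - a) := by
    rw [map_sub, map_pow, map_mul]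
    have h2 : (PowerSeries.C (2 : ℚ)) = (2 : PowerSeries ℚ) := map_ofNat _ 2
    rw [h2]
    ring
  rw [h1]
  refine (nrm_add _ _).trans ?_
  rw [nrm_C]
  have h3 := nrm_add (PowerSeries.X ^ 2 : PowerSeries ℚ) (PowerSeries.C (2 * κ) * PowerSeries.X)
  have h4 := nrm_pow (PowerSeries.X : PowerSeries ℚ) 2
  rw [nrm_X] at h4
  rw [nrm_C_mul, nrm_X, abs_mul, abs_two] at h3
  have h5 : (1 / 2 : ℚ) ^ 2 = 1 / 4 := by norm_num
  linarith

lemma G3E_node (n k : ℕ) (a : ℚ) :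
    TS (-(k : ℚ)) ((X - C a).comp (xM n)) =
      (PowerSeries.X + PowerSeries.C (-(k : ℚ) + ((3 * n : ℕ) : ℚ))) ^ 2 - PowerSeries.C a := by
  unfold xM
  rw [Polynomial.sub_comp, Polynomial.X_comp, Polynomial.C_comp, map_sub, map_pow, TS_lin, TS_C]

lemma G3E_x36 (f : PowerSeries ℚ) (c : ℚ) (hf : nrm f ≤ c) (N M : ℕ) :
    nrm ((f ^ N) ^ M) ≤ c ^ (N * M) := by
  rw [← pow_mul]
  exact (nrm_pow _ _).trans (pow_le_pow_left₀ (nrm_nonneg _) hf _)

lemma G3E_comb (f g h : PowerSeries ℚ) (a b c : ℚ) (ha : nrm f ≤ a) (hb : nrm g ≤ b)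
    (hc : nrm h ≤ c) (ha0 : 0 ≤ a) (hb0 : 0 ≤ b) : nrm (f * (g * h)) ≤ a * b * c := by
  calc nrm (f * (g * h)) ≤ nrm f * nrm (g * h) := nrm_mul _ _
    _ ≤ nrm f * (nrm g * nrm h) := mul_le_mul_of_nonneg_left (nrm_mul _ _) (nrm_nonneg _)
    _ ≤ a * (b * c) := mul_le_mul ha (mul_le_mul hb hc (nrm_nonneg _) hb0)
          (mul_nonneg (nrm_nonneg _) (nrm_nonneg _)) ha0
    _ = a * b * c := (mul_assoc _ _ _).symm

lemma G3E_kap {n : ℕ} {k : ℕ} (hk : k ∈ sM n) :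
    |(-(k : ℚ) + ((3 * n : ℕ) : ℚ))| ≤ n ∧
      |(-(k : ℚ) + ((3 * n : ℕ) : ℚ))| ≤ (-(k : ℚ) + ((3 * n : ℕ) : ℚ)) ^ 2 := by
  rw [sM, Finset.mem_Icc] at hk
  constructor
  · rw [abs_le]
    have h1 : ((2 * n : ℕ) : ℚ) ≤ k := by exact_mod_cast hk.1
    have h2 : (k : ℚ) ≤ ((4 * n : ℕ) : ℚ) := by exact_mod_cast hk.2
    push_cast at h1 h2 ⊢
    constructor <;> linarith
  · have h1 : (-(k : ℚ) + ((3 * n : ℕ) : ℚ)) = ((-(k : ℤ) + ((3 * n : ℕ) : ℤ) : ℤ) : ℚ) := by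
      push_cast; ring
    rw [h1, ← sq_abs]
    generalize (-(k : ℤ) + ((3 * n : ℕ) : ℤ)) = z
    have h2 : |z| ≤ |z| ^ 2 := by
      rcases eq_or_ne z 0 with h | h
      · rw [h]; norm_num
      · have : 1 ≤ |z| := Int.one_le_abs h
        nlinarith
    exact_mod_cast h2

lemma G3E_b1 {n : ℕ} {k : ℕ} (hk : k ∈ sM n) : nrm (TS (-(k : ℚ)) (xM n ^ 36)) ≤ ((n : ℚ) + 1) ^ 72 := by
  have hx : TS (-(k : ℚ)) (xM n) =
      (PowerSeries.X + PowerSeries.C (-(k : ℚ) + ((3 * n : ℕ) : ℚ))) ^ 2 := by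
    unfold xM
    rw [map_pow, TS_lin]
  rw [map_pow, hx]
  have h := G3E_x36 (PowerSeries.X + PowerSeries.C (-(k : ℚ) + ((3 * n : ℕ) : ℚ))) ((n : ℚ) + 1) (by
    have := nrm_X_add_C (-(k : ℚ) + ((3 * n : ℕ) : ℚ))
    have h2 := (G3E_kap hk).1
    linarith) 2 36
  exact h

lemma G3E_b2 {n : ℕ} {k : ℕ} (hk : k ∈ sM n) (m : ℕ) (v : Fin m → ℕ) (hv : ∀ l, n ≤ v l) :
    nrm (TS (-(k : ℚ)) ((∏ l, (X - C ((v l : ℚ) ^ 2))).comp (xM n))) ≤
      ∏ l, ((v l : ℚ) ^ 2 + 1) := by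
  obtain ⟨hκn, hκi⟩ := G3E_kap hk
  rw [Polynomial.prod_comp, map_prod]
  refine (nrm_prod _ _).trans ?_
  apply Finset.prod_le_prod
  · intro l _
    exact nrm_nonneg _
  · intro l _
    rw [G3E_node]
    refine (G3E_sq _ _).trans ?_
    have hv1 : (n : ℚ) ≤ v l := by exact_mod_cast hv l
    have hn0 : (0 : ℚ) ≤ n := Nat.cast_nonneg n
    have hv2 : (n : ℚ) ^ 2 ≤ (v l : ℚ) ^ 2 := pow_le_pow_left₀ hn0 hv1 2
    have hκ2 : (-(k : ℚ) + ((3 * n : ℕ) : ℚ)) ^ 2 ≤ (n : ℚ) ^ 2 := by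
      rw [← sq_abs (-(k : ℚ) + ((3 * n : ℕ) : ℚ))]
      exact pow_le_pow_left₀ (abs_nonneg _) hκn 2
    rw [abs_of_nonpos (a := (-(k : ℚ) + ((3 * n : ℕ) : ℚ)) ^ 2 - (v l : ℚ) ^ 2) (by linarith)]
    linarith

lemma G3E_b3 {n : ℕ} {k : ℕ} (hk : k ∈ sM n) (i : ℕ) :
    nrm (TS (-(k : ℚ)) ((PB2 n i).comp (xM n))) ≤
      (|((k : ℚ) - 3 * n) ^ 2 - (n : ℚ) ^ 2 / 20| + n + 1) ^ i := by
  obtain ⟨hκn, hκi⟩ := G3E_kap hk
  unfold PB2
  rw [Polynomial.pow_comp, map_pow]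
  refine (nrm_pow _ _).trans ?_
  apply pow_le_pow_left₀ (nrm_nonneg _)
  rw [G3E_node]
  refine (G3E_sq _ _).trans ?_
  have h4 : (-(k : ℚ) + ((3 * n : ℕ) : ℚ)) ^ 2 = ((k : ℚ) - 3 * n) ^ 2 := by push_cast; ring
  rw [h4]
  linarith

theorem G3_E {n : ℕ} (hn : 2 ≤ n) {k : ℕ} (hk : k ∈ sM n) (m : ℕ) (v : Fin m → ℕ) (hv : ∀ l, n ≤ v l) (i : ℕ) :
    nrm (TS (-(k : ℚ)) (EM n ((∏ l, (X - C ((v l : ℚ) ^ 2))) * PB2 n i))) ≤
      ((n : ℚ) + 1) ^ 72 * (∏ l, ((v l : ℚ) ^ 2 + 1)) *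
        (|((k : ℚ) - 3 * n) ^ 2 - (n : ℚ) ^ 2 / 20| + n + 1) ^ i := by
  unfold EM
  rw [Polynomial.mul_comp, Polynomial.mul_comp, Polynomial.X_pow_comp, map_mul, map_mul]
  exact G3E_comb _ _ _ _ _ _ (G3E_b1 hk) (G3E_b2 hk m v hv) (G3E_b3 hk i)
    (pow_nonneg (add_nonneg (Nat.cast_nonneg n) zero_le_one) 72)
    (Finset.prod_nonneg fun _ _ => add_nonneg (sq_nonneg _) zero_le_one)

/-! ### the levels -/

lemma G3E_log (t c : ℝ) (r : ℕ) (hc0 : c ≤ 0) (hc : -1 ≤ c)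
    (h : t ≤ ((∑ m ∈ Finset.range 9, c ^ m / m.factorial) - |c| ^ 9 * (10 / (362880 * 9))) ^ r)
    (h0 : 0 ≤ (∑ m ∈ Finset.range 9, c ^ m / m.factorial) - |c| ^ 9 * (10 / (362880 * 9))) (ht : 0 < t) :
    Real.log t ≤ r * c := by
  have h1 := Real.exp_bound (x := c) (by rw [abs_le]; constructor <;> linarith) (n := 9) (by norm_num)
  rw [abs_le] at h1
  have h2 : (((9 : ℕ).succ : ℝ) / (((9 : ℕ).factorial : ℝ) * (9 : ℕ))) = 10 / (362880 * 9) := by
    norm_num [Nat.factorial]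
  rw [h2] at h1
  have h3 : (∑ m ∈ Finset.range 9, c ^ m / m.factorial) - |c| ^ 9 * (10 / (362880 * 9)) ≤ Real.exp c := by
    linarith [h1.1]
  have h4 : t ≤ Real.exp (r * c) := by
    rw [Real.exp_nat_mul]
    exact h.trans (pow_le_pow_left₀ h0 h3 r)
  exact (Real.log_le_iff_le_exp ht).2 h4

lemma G3E_log20 : Real.log (1 / 20) ≤ -(29955 / 10000) := by
  have h := G3E_log (1 / 20) (-(29955 / 40000)) 4 (by norm_num) (by norm_num)
    (by norm_num [Finset.sum_range_succ, Nat.factorial, abs_of_neg])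
    (by norm_num [Finset.sum_range_succ, Nat.factorial, abs_of_neg]) (by norm_num)
  refine h.trans (le_of_eq ?_)
  norm_num

lemma G3E_log1 : Real.log (924 / 10000) ≤ -2 := by
  have h := G3E_log (924 / 10000) (-1) 2 (by norm_num) (by norm_num)
    (by norm_num [Finset.sum_range_succ, Nat.factorial, abs_of_neg])
    (by norm_num [Finset.sum_range_succ, Nat.factorial, abs_of_neg]) (by norm_num)
  refine h.trans (le_of_eq ?_)
  norm_num

lemma G3E_log2 : Real.log (18 / 100) ≤ -(17147 / 10000) := by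
  have h := G3E_log (18 / 100) (-(17147 / 20000)) 2 (by norm_num) (by norm_num)
    (by norm_num [Finset.sum_range_succ, Nat.factorial, abs_of_neg])
    (by norm_num [Finset.sum_range_succ, Nat.factorial, abs_of_neg]) (by norm_num)
  refine h.trans (le_of_eq ?_)
  norm_num

lemma G3E_log3 : Real.log (2635 / 10000) ≤ -(13336 / 10000) := by
  have h := G3E_log (2635 / 10000) (-(13336 / 20000)) 2 (by norm_num) (by norm_num)
    (by norm_num [Finset.sum_range_succ, Nat.factorial, abs_of_neg])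
    (by norm_num [Finset.sum_range_succ, Nat.factorial, abs_of_neg]) (by norm_num)
  refine h.trans (le_of_eq ?_)
  norm_num

lemma G3E_log4 : Real.log (3435 / 10000) ≤ -(10685 / 10000) := by
  have h := G3E_log (3435 / 10000) (-(10685 / 20000)) 2 (by norm_num) (by norm_num)
    (by norm_num [Finset.sum_range_succ, Nat.factorial, abs_of_neg])
    (by norm_num [Finset.sum_range_succ, Nat.factorial, abs_of_neg]) (by norm_num)
  refine h.trans (le_of_eq ?_)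
  norm_num

/-- tangent bound for the logarithm -/
lemma G3E_tan (y t : ℝ) (hy : 0 < y) (ht : 0 < t) : Real.log y ≤ Real.log t - 1 + y / t := by
  have h1 := Real.log_le_sub_one_of_pos (div_pos hy ht)
  rw [Real.log_div hy.ne' ht.ne'] at h1
  linarith

/-- one node of the interpolation, `x > 1/20` -/
lemma G3E_node_gt (N x L t c Λ : ℝ) (j : ℝ) (hN : 2 ≤ N) (hj : 0 ≤ j) (ht : 0 < t)
    (hL : L ≤ Real.log t - 1 + (x - 1 / 20 + 2 / N) / t) (hc : Real.log t ≤ c)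
    (hq : ∀ x : ℝ, -(62 / 3 * x + 10 / 3 * x ^ 2) + 2 * j * (c - 1 + (x - 1 / 20) / t) ≤ -Λ) :
    -(N * (62 / 3 * x + 10 / 3 * x ^ 2)) + 2 * (j * N) * L ≤ -Λ * N + 4 * j / t := by
  have h1 : 2 * (j * N) * L ≤ 2 * (j * N) * (c - 1 + (x - 1 / 20) / t + 2 / N / t) := by
    apply mul_le_mul_of_nonneg_left _ (by positivity)
    have : (x - 1 / 20 + 2 / N) / t = (x - 1 / 20) / t + 2 / N / t := by ring
    linarith
  have h2 := mul_le_mul_of_nonneg_left (hq x) (by linarith : (0 : ℝ) ≤ N)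
  have h3 : 2 * (j * N) * (2 / N / t) = 4 * j / t := by
    field_simp
    ring
  nlinarith [h1, h2, h3]

lemma G3E_node_le (N x L Λ j : ℝ) (hN : 2 ≤ N) (hj : 0 ≤ j) (hx : 0 ≤ x)
    (hL : L ≤ -(29955 / 10000) + 40 / N) (hΛ : Λ ≤ 5991 / 1000 * j) :
    -(N * (62 / 3 * x + 10 / 3 * x ^ 2)) + 2 * (j * N) * L ≤ -Λ * N + 80 * j := by
  have h1 : 2 * (j * N) * L ≤ 2 * (j * N) * (-(29955 / 10000) + 40 / N) :=
    mul_le_mul_of_nonneg_left hL (by positivity)
  have h2 : 2 * (j * N) * (40 / N) = 80 * j := by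
    field_simp
    ring
  have h3 : 0 ≤ N * (62 / 3 * x + 10 / 3 * x ^ 2) := by positivity
  have h4 : Λ * N ≤ 5991 / 1000 * j * N := mul_le_mul_of_nonneg_right hΛ (by linarith)
  nlinarith [h1, h2, h3, h4]

lemma G3E_interp (A L N i a Ga Gb lam K : ℝ) (h0 : A + 2 * (a * N) * L ≤ Ga + K)
    (h1 : A + 2 * ((a + 1) * N) * L ≤ Gb + K) (hl0 : 0 ≤ lam) (hl1 : lam ≤ 1)
    (hi : i = a * N + lam * N) : A + 2 * i * L ≤ (1 - lam) * Ga + lam * Gb + K := by
  have e : A + 2 * i * L = (1 - lam) * (A + 2 * (a * N) * L) + lam * (A + 2 * ((a + 1) * N) * L) := by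
    rw [hi]; ring
  rw [e]
  have h2 := mul_le_mul_of_nonneg_left h0 (by linarith : 0 ≤ 1 - lam)
  have h3 := mul_le_mul_of_nonneg_left h1 hl0
  linarith

/-- all nodes -/
lemma G3E_nodes (N x : ℝ) (hN : 2 ≤ N) (hx0 : 0 ≤ x) (L : ℝ)
    (hL : L = Real.log (|x - 1 / 20| + 2 / N)) :
    (-(N * (62 / 3 * x + 10 / 3 * x ^ 2)) + 2 * (1 * N) * L ≤ -(5991 / 1000) * N + 320) ∧
    (-(N * (62 / 3 * x + 10 / 3 * x ^ 2)) + 2 * (2 * N) * L ≤ -(11788 / 1000) * N + 320) ∧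
    (-(N * (62 / 3 * x + 10 / 3 * x ^ 2)) + 2 * (3 * N) * L ≤ -(14808 / 1000) * N + 320) ∧
    (-(N * (62 / 3 * x + 10 / 3 * x ^ 2)) + 2 * (4 * N) * L ≤ -(17196 / 1000) * N + 320) := by
  have hN0 : 0 < N := by linarith
  have hd : 0 < 2 / N := by positivity
  rcases le_or_gt x (1 / 20) with hx | hx
  · have hL2 : L ≤ -(29955 / 10000) + 40 / N := by
      have h1 := G3E_tan (|x - 1 / 20| + 2 / N) (1 / 20) (by positivity) (by norm_num)
      have h2 : |x - 1 / 20| ≤ 1 / 20 := by rw [abs_le]; constructor <;> linarith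
      have h3 := G3E_log20
      have h4 : (|x - 1 / 20| + 2 / N) / (1 / 20) ≤ 1 + 40 / N := by
        have : (|x - 1 / 20| + 2 / N) / (1 / 20) = 20 * |x - 1 / 20| + 40 / N := by ring
        rw [this]; linarith
      rw [hL]
      linarith
    have g1 := G3E_node_le N x L (5991 / 1000) 1 hN (by norm_num) hx0 hL2 (by norm_num)
    have g2 := G3E_node_le N x L (11788 / 1000) 2 hN (by norm_num) hx0 hL2 (by norm_num)
    have g3 := G3E_node_le N x L (14808 / 1000) 3 hN (by norm_num) hx0 hL2 (by norm_num)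
    have g4 := G3E_node_le N x L (17196 / 1000) 4 hN (by norm_num) hx0 hL2 (by norm_num)
    refine ⟨?_, ?_, ?_, ?_⟩ <;> linarith
  · have habs : |x - 1 / 20| = x - 1 / 20 := abs_of_pos (by linarith)
    have hy : 0 < x - 1 / 20 + 2 / N := by linarith
    rw [habs] at hL
    have hT : ∀ t : ℝ, 0 < t → L ≤ Real.log t - 1 + (x - 1 / 20 + 2 / N) / t := by
      intro t ht
      rw [hL]
      exact G3E_tan _ t hy ht
    have g1 := G3E_node_gt N x L (924 / 10000) (-2) (5991 / 1000) 1 hN (by norm_num) (by norm_num)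
      (hT _ (by norm_num)) G3E_log1 (by intro x; nlinarith [sq_nonneg (x - 147 / 1000)])
    have g2 := G3E_node_gt N x L (18 / 100) (-(17147 / 10000)) (11788 / 1000) 2 hN (by norm_num) (by norm_num)
      (hT _ (by norm_num)) G3E_log2 (by intro x; nlinarith [sq_nonneg (x - 7 / 30)])
    have g3 := G3E_node_gt N x L (2635 / 10000) (-(13336 / 10000)) (14808 / 1000) 3 hN (by norm_num) (by norm_num)
      (hT _ (by norm_num)) G3E_log3 (by intro x; nlinarith [sq_nonneg (x - 31556 / 100000)])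
    have g4 := G3E_node_gt N x L (3435 / 10000) (-(10685 / 10000)) (17196 / 1000) 4 hN (by norm_num) (by norm_num)
      (hT _ (by norm_num)) G3E_log4 (by intro x; nlinarith [sq_nonneg (x - 39345 / 100000)])
    refine ⟨?_, ?_, ?_, ?_⟩
    · refine g1.trans ?_; norm_num
    · refine g2.trans ?_; norm_num
    · refine g3.trans ?_; norm_num
    · refine g4.trans ?_; norm_num

/-- the levels of the `B`-part -/
theorem G3_level : ∃ K : ℝ, ∀ n : ℕ, 2 ≤ n → ∀ κ : ℝ, |κ| ≤ n → ∀ i : ℕ, i ≤ 4 * n →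
    -((62 / 3) * κ ^ 2 / n + (10 / 3) * κ ^ 4 / n ^ 3) +
      2 * i * Real.log (|κ ^ 2 - (n : ℝ) ^ 2 / 20| + n + 1) ≤ 4 * i * Real.log n + LamN n i + K := by
  refine ⟨320, ?_⟩
  intro n hn κ _ i hi
  have hN2 : (2 : ℝ) ≤ n := by exact_mod_cast hn
  set N : ℝ := (n : ℝ) with hN
  have hN0 : 0 < N := by linarith
  set x : ℝ := κ ^ 2 / N ^ 2 with hx
  have hx0 : 0 ≤ x := by rw [hx]; positivity
  have hκ : κ ^ 2 = N ^ 2 * x := by rw [hx]; field_simp
  set L : ℝ := Real.log (|x - 1 / 20| + 2 / N) with hL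
  have hlog : Real.log (|κ ^ 2 - N ^ 2 / 20| + N + 1) ≤ 2 * Real.log N + L := by
    have h1 : |κ ^ 2 - N ^ 2 / 20| + N + 1 ≤ N ^ 2 * (|x - 1 / 20| + 2 / N) := by
      have h2 : κ ^ 2 - N ^ 2 / 20 = N ^ 2 * (x - 1 / 20) := by rw [hκ]; ring
      rw [h2, abs_mul, abs_of_pos (by positivity : 0 < N ^ 2), mul_add]
      have h3 : N ^ 2 * (2 / N) = 2 * N := by field_simp
      rw [h3]
      linarith
    have h4 : 0 < |x - 1 / 20| + 2 / N := by positivity
    calc Real.log (|κ ^ 2 - N ^ 2 / 20| + N + 1) ≤ Real.log (N ^ 2 * (|x - 1 / 20| + 2 / N)) :=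
          Real.log_le_log (by positivity) h1
      _ = 2 * Real.log N + L := by
          rw [Real.log_mul (by positivity) h4.ne', Real.log_pow]
          push_cast
          ring
  obtain ⟨g1, g2, g3, g4⟩ := G3E_nodes N x hN2 hx0 L hL
  set A : ℝ := -(N * (62 / 3 * x + 10 / 3 * x ^ 2)) with hA
  have hA0 : A ≤ 0 := by rw [hA]; have : 0 ≤ N * (62 / 3 * x + 10 / 3 * x ^ 2) := by positivity
                         linarith
  have hA1 : -((62 / 3) * κ ^ 2 / N + (10 / 3) * κ ^ 4 / N ^ 3) = A := by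
    have h4 : κ ^ 4 = (N ^ 2 * x) ^ 2 := by rw [← hκ]; ring
    rw [h4, hκ, hA]
    field_simp
    try ring
  rw [hA1]
  have hmain : A + 2 * i * L ≤ LamN n i + 320 := by
    unfold LamN
    split_ifs with c1 c2 c3
    · have ci : (i : ℝ) ≤ N := by rw [hN]; exact_mod_cast c1
      have h := G3E_interp A L N i 0 0 (-(5991 / 1000) * N) (i / N) 320 (by linarith)
        (by rw [zero_add]; linarith) (by positivity) (by rw [div_le_one hN0]; exact ci) (by field_simp; ring)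
      refine h.trans (le_of_eq ?_)
      field_simp
      try ring
    · have ci : (i : ℝ) ≤ 2 * N := by rw [hN]; exact_mod_cast c2
      have ci' : N ≤ (i : ℝ) := by rw [hN]; exact_mod_cast (by omega : n ≤ i)
      have h := G3E_interp A L N i 1 (-(5991 / 1000) * N) (-(11788 / 1000) * N) (i / N - 1) 320 (by linarith)
        (by norm_num; linarith) (by rw [sub_nonneg, one_le_div hN0]; exact ci')
        (by rw [sub_le_iff_le_add, div_le_iff₀ hN0]; linarith) (by field_simp; ring)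
      refine h.trans (le_of_eq ?_)
      rw [← hN]
      field_simp
      ring
    · have ci : (i : ℝ) ≤ 3 * N := by rw [hN]; exact_mod_cast c3
      have ci' : 2 * N ≤ (i : ℝ) := by rw [hN]; exact_mod_cast (by omega : 2 * n ≤ i)
      have h := G3E_interp A L N i 2 (-(11788 / 1000) * N) (-(14808 / 1000) * N) (i / N - 2) 320 (by linarith)
        (by norm_num; linarith) (by rw [sub_nonneg, le_div_iff₀ hN0]; exact ci')
        (by rw [sub_le_iff_le_add, div_le_iff₀ hN0]; linarith) (by field_simp; ring)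
      refine h.trans (le_of_eq ?_)
      rw [← hN]
      field_simp
      ring
    · have ci : (i : ℝ) ≤ 4 * N := by rw [hN]; exact_mod_cast hi
      have ci' : 3 * N ≤ (i : ℝ) := by rw [hN]; exact_mod_cast (by omega : 3 * n ≤ i)
      have h := G3E_interp A L N i 3 (-(14808 / 1000) * N) (-(17196 / 1000) * N) (i / N - 3) 320 (by linarith)
        (by norm_num; linarith) (by rw [sub_nonneg, le_div_iff₀ hN0]; exact ci')
        (by rw [sub_le_iff_le_add, div_le_iff₀ hN0]; linarith) (by field_simp; ring)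
      refine h.trans (le_of_eq ?_)
      rw [← hN]
      field_simp
      ring
  have h5 : 2 * (i : ℝ) * Real.log (|κ ^ 2 - N ^ 2 / 20| + N + 1) ≤ 2 * i * (2 * Real.log N + L) :=
    mul_le_mul_of_nonneg_left hlog (by positivity)
  nlinarith [h5, hmain]

end

end Pool.Agent.H574R2.D3
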