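import Pool.Agent.H574R2.D3.G3d

/-! `G3_E`: the size of the extra factor at a pole. -/

open Polynomial Pool.Agent.H337R2

namespace Pool.Agent.H574R2.D3

noncomputable section

theorem G3Emod_TS (n k : ℕ) : TS (-(k : ℚ)) (xM n) =
    (PowerSeries.X + PowerSeries.C ((3 * n : ℚ) - k)) ^ 2 := by
  unfold xM
  rw [map_pow, TS_lin]
  congr 2
  push_cast
  ring_nf

theorem G3Emod_sub (n k : ℕ) (a : ℚ) : nrm (TS (-(k : ℚ)) (xM n - C a)) ≤
    |((k : ℚ) - 3 * n) ^ 2 - a| + |(k : ℚ) - 3 * n| + 1 / 4 := by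
  rw [map_sub, G3Emod_TS, TS_C]
  have e : (PowerSeries.X + PowerSeries.C ((3 * n : ℚ) - k)) ^ 2 - PowerSeries.C a =
      PowerSeries.X * PowerSeries.X +
        (PowerSeries.C (2 * ((3 * n : ℚ) - k)) * PowerSeries.X +
        PowerSeries.C (((k : ℚ) - 3 * n) ^ 2 - a)) := by
    have h0 : ((k : ℚ) - 3 * n) ^ 2 = ((3 * n : ℚ) - k) ^ 2 := by ring
    rw [h0]
    generalize ((3 * n : ℚ) - k) = b
    rw [map_sub, map_mul, map_pow, map_ofNat]
    ring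
  rw [e]
  refine (nrm_add _ _).trans ?_
  have h1 : nrm (PowerSeries.X * PowerSeries.X) ≤ 1 / 4 := by
    refine (nrm_mul _ _).trans ?_
    rw [nrm_X]; norm_num
  have h2 : nrm (PowerSeries.C (2 * ((3 * n : ℚ) - k)) * PowerSeries.X +
        PowerSeries.C (((k : ℚ) - 3 * n) ^ 2 - a)) ≤ |(k : ℚ) - 3 * n| +
          |((k : ℚ) - 3 * n) ^ 2 - a| := by
    refine (nrm_add _ _).trans ?_
    rw [nrm_C_mul, nrm_X, nrm_C, abs_mul, abs_sub_comm (3 * n : ℚ) k]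
    have : |(2 : ℚ)| = 2 := by norm_num
    rw [this]
    linarith
  linarith

theorem G3_E {n : ℕ} (hn : 2 ≤ n) {k : ℕ} (hk : k ∈ sM n) (m : ℕ) (v : Fin m → ℕ) (hv : ∀ l, n ≤ v l) (i : ℕ) :
    nrm (TS (-(k : ℚ)) (EM n ((∏ l, (X - C ((v l : ℚ) ^ 2))) * PB2 n i))) ≤
      ((n : ℚ) + 1) ^ 72 * (∏ l, ((v l : ℚ) ^ 2 + 1)) *
        (|((k : ℚ) - 3 * n) ^ 2 - (n : ℚ) ^ 2 / 20| + n + 1) ^ i := by
  have hn2 : (2 : ℚ) ≤ n := by exact_mod_cast hn
  have hκ : |(k : ℚ) - 3 * n| ≤ n := by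
    rw [Finset.mem_Icc] at hk
    have c1 : (2 : ℚ) * n ≤ k := by exact_mod_cast hk.1
    have c2 : (k : ℚ) ≤ 4 * n := by exact_mod_cast hk.2
    rw [abs_le]; constructor <;> linarith
  have e : EM n ((∏ l, (X - C ((v l : ℚ) ^ 2))) * PB2 n i) =
      xM n ^ 36 * ((∏ l, (xM n - C ((v l : ℚ) ^ 2))) * (xM n - C ((n : ℚ) ^ 2 / 20)) ^ i) := by
    unfold EM PB2
    rw [Polynomial.mul_comp, Polynomial.mul_comp, Polynomial.prod_comp, Polynomial.pow_comp,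
      Polynomial.pow_comp, Polynomial.sub_comp, Polynomial.X_comp, Polynomial.C_comp]
    simp only [Polynomial.sub_comp, Polynomial.X_comp, Polynomial.C_comp]
  rw [e, map_mul, map_mul, map_pow, map_prod, map_pow]
  have a0 : nrm (TS (-(k : ℚ)) (xM n)) ≤ ((n : ℚ) + 1) ^ 2 := by
    rw [G3Emod_TS]
    refine (nrm_pow _ _).trans ?_
    refine pow_le_pow_left₀ (nrm_nonneg _) ?_ 2
    refine (nrm_X_add_C _).trans ?_
    rw [abs_sub_comm]
    linarith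
  have a1 : nrm (TS (-(k : ℚ)) (xM n) ^ 36) ≤ ((n : ℚ) + 1) ^ 72 := by
    refine (nrm_pow _ _).trans ?_
    calc nrm (TS (-(k : ℚ)) (xM n)) ^ 36 ≤ (((n : ℚ) + 1) ^ 2) ^ 36 :=
          pow_le_pow_left₀ (nrm_nonneg _) a0 36
      _ = _ := by rw [← pow_mul]
  have a2 : nrm (∏ l, TS (-(k : ℚ)) (xM n - C ((v l : ℚ) ^ 2))) ≤
      ∏ l, ((v l : ℚ) ^ 2 + 1) := by
    refine (nrm_prod _ _).trans ?_
    refine Finset.prod_le_prod (fun l _ => nrm_nonneg _) fun l _ => ?_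
    refine (G3Emod_sub n k _).trans ?_
    have hvl : (n : ℚ) ≤ v l := by exact_mod_cast hv l
    -- integrality of `k - 3 n`
    have hint : |(k : ℚ) - 3 * n| ≤ ((k : ℚ) - 3 * n) ^ 2 := by
      have h1 : |(k : ℤ) - 3 * n| ≤ ((k : ℤ) - 3 * n) ^ 2 := by
        rcases eq_or_ne ((k : ℤ) - 3 * n) 0 with h | h
        · rw [h]; norm_num
        · have h2 : 1 ≤ |(k : ℤ) - 3 * n| := Int.one_le_abs h
          rw [← sq_abs]
          nlinarith
      have := (Int.cast_le (R := ℚ)).2 h1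
      push_cast at this
      exact this
    have hsq : ((k : ℚ) - 3 * n) ^ 2 ≤ (v l : ℚ) ^ 2 := by
      rw [← sq_abs]
      exact pow_le_pow_left₀ (abs_nonneg _) (hκ.trans hvl) 2
    rw [abs_of_nonpos (by linarith)]
    linarith
  have a3 : nrm (TS (-(k : ℚ)) (xM n - C ((n : ℚ) ^ 2 / 20)) ^ i) ≤
      (|((k : ℚ) - 3 * n) ^ 2 - (n : ℚ) ^ 2 / 20| + n + 1) ^ i := by
    refine (nrm_pow _ _).trans (pow_le_pow_left₀ (nrm_nonneg _) ?_ i)
    refine (G3Emod_sub n k _).trans ?_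
    linarith
  refine (nrm_mul _ _).trans ?_
  rw [mul_assoc]
  refine mul_le_mul a1 ((nrm_mul _ _).trans ?_) (nrm_nonneg _) (by positivity)
  exact mul_le_mul a2 a3 (nrm_nonneg _) (Finset.prod_nonneg fun l _ => by positivity)

end

end Pool.Agent.H574R2.D3
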