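import Pool.Agent.H574R2.D3.G3d

/-! `G3_level`: the levels of the `B`-part. -/

open Polynomial Pool.Agent.H337R2

namespace Pool.Agent.H574R2.D3

noncomputable section

theorem G3lev_ser (x : ℝ) (hx : |x| < 1) (N : ℕ) :
    Real.log (1 - x) ≤ |x| ^ (N + 1) / (1 - |x|) - ∑ i ∈ Finset.range N, x ^ (i + 1) / (i + 1) := by
  have h := Real.abs_log_sub_add_sum_range_le hx N
  have := (abs_le.1 h).2
  linarith

theorem G3lev_log20 : Real.log (1 / 20) ≤ -(29956 / 10000) := by
  have h := G3lev_ser (1 / 5) (by rw [abs_of_pos] <;> norm_num) 6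
  have e : (1 / 20 : ℝ) = (1 - 1 / 5) / 2 ^ 4 := by norm_num
  rw [e, Real.log_div (by norm_num) (by norm_num), Real.log_pow]
  rw [abs_of_pos (by norm_num : (0 : ℝ) < 1 / 5)] at h
  simp only [Finset.sum_range_succ, Finset.sum_range_zero] at h
  norm_num at h
  have := Real.log_two_gt_d9
  push_cast
  norm_num
  linarith

theorem G3lev_log10 : Real.log (1 / 10) ≤ -2 := by
  have e : Real.log (1 / 10) ≤ Real.log ((2 ^ 3)⁻¹) :=
    Real.log_le_log (by norm_num) (by norm_num)
  rw [Real.log_inv, Real.log_pow] at e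
  have := Real.log_two_gt_d9
  push_cast at e
  linarith

theorem G3lev_log18 : Real.log (18 / 100) ≤ -(17147 / 10000) := by
  have h := G3lev_ser (28 / 100) (by rw [abs_of_pos] <;> norm_num) 8
  have e : (18 / 100 : ℝ) = (1 - 28 / 100) / 2 ^ 2 := by norm_num
  rw [e, Real.log_div (by norm_num) (by norm_num), Real.log_pow]
  rw [abs_of_pos (by norm_num : (0 : ℝ) < 28 / 100)] at h
  simp only [Finset.sum_range_succ, Finset.sum_range_zero] at h
  norm_num at h
  have := Real.log_two_gt_d9
  push_cast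
  norm_num
  linarith

theorem G3lev_log2635 : Real.log (2635 / 10000) ≤ -(133365 / 100000) := by
  have h := G3lev_ser (-(54 / 1000)) (by rw [abs_neg, abs_of_pos] <;> norm_num) 4
  have e : (2635 / 10000 : ℝ) = (1 - -(54 / 1000)) / 2 ^ 2 := by norm_num
  rw [e, Real.log_div (by norm_num) (by norm_num), Real.log_pow]
  rw [abs_neg, abs_of_pos (by norm_num : (0 : ℝ) < 54 / 1000)] at h
  simp only [Finset.sum_range_succ, Finset.sum_range_zero] at h
  norm_num at h
  have := Real.log_two_gt_d9
  push_cast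
  norm_num
  linarith

theorem G3lev_log3435 : Real.log (3435 / 10000) ≤ -(10685 / 10000) := by
  have h := G3lev_ser (313 / 1000) (by rw [abs_of_pos] <;> norm_num) 9
  have e : (3435 / 10000 : ℝ) = (1 - 313 / 1000) / 2 ^ 1 := by norm_num
  rw [e, Real.log_div (by norm_num) (by norm_num), Real.log_pow]
  rw [abs_of_pos (by norm_num : (0 : ℝ) < 313 / 1000)] at h
  simp only [Finset.sum_range_succ, Finset.sum_range_zero] at h
  norm_num at h
  have := Real.log_two_gt_d9
  push_cast
  norm_num
  linarith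

/-- the constants `Λ(s)` -/
def G3lev_L : ℕ → ℝ
  | 0 => 0
  | 1 => -(5991 / 1000)
  | 2 => -(11788 / 1000)
  | 3 => -(14808 / 1000)
  | _ => -(17196 / 1000)

/-- tangent bound of the logarithm -/
theorem G3lev_tan {z t : ℝ} (hz : 0 < z) (ht : 0 < t) :
    Real.log z ≤ Real.log t + (z - t) / t := by
  have h := Real.log_le_sub_one_of_pos (div_pos hz ht)
  rw [Real.log_div hz.ne' ht.ne'] at h
  have e : (z - t) / t = z / t - 1 := by field_simp
  rw [e]; linarith

/-- the levels at the knots -/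
theorem G3lev_knot {n x z : ℝ} (hn : 0 < n) (hx0 : 0 ≤ x) (hz : 0 < z)
    (hzx : z ≤ |x - 1 / 20| + 2 / n) (s : ℕ) (hs : s ≤ 4) :
    -(n * (62 / 3 * x + 10 / 3 * x ^ 2)) + 2 * (s * n) * Real.log z ≤ n * G3lev_L s + 320 := by
  have hnn : n * (2 / n) = 2 := by field_simp
  have step : ∀ t : ℝ, 0 < t → (s : ℝ) / t ≤ 80 → ∀ c : ℝ, Real.log t ≤ c →
      -(62 / 3 * x + 10 / 3 * x ^ 2) + 2 * s * (c + (|x - 1 / 20| - t) / t) ≤ G3lev_L s →
      -(n * (62 / 3 * x + 10 / 3 * x ^ 2)) + 2 * (s * n) * Real.log z ≤ n * G3lev_L s + 320 := by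
    intro t ht hst c hc h
    have h1 := G3lev_tan hz ht
    have h2 : Real.log z ≤ c + (|x - 1 / 20| + 2 / n - t) / t := by
      have : (z - t) / t ≤ (|x - 1 / 20| + 2 / n - t) / t := by gcongr
      linarith
    have h3 : 2 * (s * n) * Real.log z ≤ 2 * (s * n) * (c + (|x - 1 / 20| + 2 / n - t) / t) :=
      mul_le_mul_of_nonneg_left h2 (by positivity)
    have e : 2 * (s * n) * (c + (|x - 1 / 20| + 2 / n - t) / t) =
        n * (2 * s * (c + (|x - 1 / 20| - t) / t)) + 2 * (n * (2 / n)) * (s / t) := by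
      field_simp
      ring
    rw [hnn] at e
    have h4 := mul_le_mul_of_nonneg_left h hn.le
    nlinarith
  rcases le_or_gt x (1 / 20) with hx | hx
  · refine step (1 / 20) (by norm_num) ?_ _ G3lev_log20 ?_
    · have : (s : ℝ) ≤ 4 := by exact_mod_cast hs
      rw [div_le_iff₀ (by norm_num)]; linarith
    · rw [abs_of_nonpos (by linarith)]
      interval_cases s <;> simp only [G3lev_L] <;> push_cast <;> nlinarith
  · have hab : |x - 1 / 20| = x - 1 / 20 := abs_of_pos (by linarith)
    interval_cases s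
    · refine step 1 (by norm_num) (by norm_num) 0 (by simp) ?_
      simp only [G3lev_L]; push_cast; nlinarith
    · refine step (1 / 10) (by norm_num) (by norm_num) _ G3lev_log10 ?_
      rw [hab]; simp only [G3lev_L]; push_cast; nlinarith
    · refine step (18 / 100) (by norm_num) (by norm_num) _ G3lev_log18 ?_
      rw [hab]; simp only [G3lev_L]; push_cast
      nlinarith [sq_nonneg (x - 3 / 20 * (400 / 18 - 62 / 3))]
    · refine step (2635 / 10000) (by norm_num) (by norm_num) _ G3lev_log2635 ?_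
      rw [hab]; simp only [G3lev_L]; push_cast
      nlinarith [sq_nonneg (x - 3 / 20 * (60000 / 2635 - 62 / 3))]
    · refine step (3435 / 10000) (by norm_num) (by norm_num) _ G3lev_log3435 ?_
      rw [hab]; simp only [G3lev_L]; push_cast
      nlinarith [sq_nonneg (x - 3 / 20 * (80000 / 3435 - 62 / 3))]

theorem G3_level : ∃ K : ℝ, ∀ n : ℕ, 2 ≤ n → ∀ κ : ℝ, |κ| ≤ n → ∀ i : ℕ, i ≤ 4 * n →
    -((62 / 3) * κ ^ 2 / n + (10 / 3) * κ ^ 4 / n ^ 3) +
      2 * i * Real.log (|κ ^ 2 - (n : ℝ) ^ 2 / 20| + n + 1) ≤ 4 * i * Real.log n + LamN n i + K := by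
  refine ⟨320, ?_⟩
  intro n hn κ hκ i hi
  have hn0 : (0 : ℝ) < n := by
    have : 0 < n := by omega
    exact_mod_cast this
  have hn1 : (1 : ℝ) ≤ n := by
    have : 1 ≤ n := by omega
    exact_mod_cast this
  set x : ℝ := κ ^ 2 / (n : ℝ) ^ 2 with hx
  have hx0 : 0 ≤ x := by positivity
  set y : ℝ := |κ ^ 2 - (n : ℝ) ^ 2 / 20| + n + 1 with hy
  have hy0 : 0 < y := by positivity
  set z : ℝ := y / (n : ℝ) ^ 2 with hz
  have hz0 : 0 < z := by positivity
  have hzx : z ≤ |x - 1 / 20| + 2 / n := by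
    rw [hz, div_le_iff₀ (by positivity), hy]
    have e1 : (|x - 1 / 20| + 2 / n) * (n : ℝ) ^ 2 = |x - 1 / 20| * (n : ℝ) ^ 2 + 2 * n := by
      field_simp
    have e2 : |x - 1 / 20| * (n : ℝ) ^ 2 = |κ ^ 2 - (n : ℝ) ^ 2 / 20| := by
      rw [← abs_of_nonneg (sq_nonneg (n : ℝ)), ← abs_mul, abs_of_nonneg (sq_nonneg (n : ℝ)), hx]
      congr 1
      field_simp
    rw [e1, e2]
    linarith
  have hlog : Real.log y = 2 * Real.log n + Real.log z := by
    have : y = (n : ℝ) ^ 2 * z := by rw [hz]; field_simp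
    rw [this, Real.log_mul (by positivity) hz0.ne', Real.log_pow]
    push_cast; ring
  have hA : (62 / 3) * κ ^ 2 / n + (10 / 3) * κ ^ 4 / n ^ 3 =
      n * (62 / 3 * x + 10 / 3 * x ^ 2) := by
    rw [hx]; field_simp
  rw [hA, hlog]
  have D0 := G3lev_knot hn0 hx0 hz0 hzx 0 (by norm_num)
  have D1 := G3lev_knot hn0 hx0 hz0 hzx 1 (by norm_num)
  have D2 := G3lev_knot hn0 hx0 hz0 hzx 2 (by norm_num)
  have D3 := G3lev_knot hn0 hx0 hz0 hzx 3 (by norm_num)
  have D4 := G3lev_knot hn0 hx0 hz0 hzx 4 (by norm_num)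
  simp only [G3lev_L] at D0 D1 D2 D3 D4
  push_cast at D0 D1 D2 D3 D4
  set A : ℝ := (n : ℝ) * (62 / 3 * x + 10 / 3 * x ^ 2) with hAdef
  set l : ℝ := Real.log z with hl
  -- interpolation between two knots
  have interp : ∀ (s a b c : ℝ), s * n ≤ i → (i : ℝ) ≤ (s + 1) * n →
      -A + 2 * (s * n) * l ≤ n * a + 320 → -A + 2 * ((s + 1) * n) * l ≤ n * b + 320 →
      c * n = ((s + 1) * n - i) * a + (i - s * n) * b → -A + 2 * i * l ≤ c * n + 320 := by
    intro s a b c h1 h2 h3 h4 h5
    have k1 := mul_le_mul_of_nonneg_left h3 (sub_nonneg.2 h2)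
    have k2 := mul_le_mul_of_nonneg_left h4 (sub_nonneg.2 h1)
    have k3 : (n : ℝ) * (-A + 2 * i * l) ≤ n * (c * n + 320) := by
      have e1 : (n : ℝ) * (-A + 2 * i * l) = ((s + 1) * n - i) * (-A + 2 * (s * n) * l) +
          (i - s * n) * (-A + 2 * ((s + 1) * n) * l) := by ring
      have e2 : (n : ℝ) * (c * n + 320) = ((s + 1) * n - i) * (n * a + 320) +
          (i - s * n) * (n * b + 320) := by rw [h5]; ring
      rw [e1, e2]
      exact add_le_add k1 k2
    exact le_of_mul_le_mul_left k3 hn0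
  have goal' : -A + 2 * i * l ≤ LamN n i + 320 := by
    unfold LamN
    by_cases c1 : i ≤ n
    · rw [if_pos c1]
      have hi1 : (i : ℝ) ≤ n := by exact_mod_cast c1
      have := interp 0 0 (-(5991 / 1000)) (-(5991 / 1000) * i / n) (by simp) (by linarith)
        (by linarith) (by linarith) (by field_simp; ring)
      have e : -(5991 / 1000) * (i : ℝ) / n * n = -(5991 / 1000) * i := by field_simp
      rw [e] at this
      exact this
    · rw [if_neg c1]
      have hi1 : (n : ℝ) ≤ i := by exact_mod_cast (not_le.1 c1).le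
      by_cases c2 : i ≤ 2 * n
      · rw [if_pos c2]
        have hi2 : (i : ℝ) ≤ 2 * n := by exact_mod_cast c2
        have := interp 1 (-(5991 / 1000)) (-(11788 / 1000))
          ((-(5991 / 1000) * n - 5797 / 1000 * (i - n)) / n) (by linarith) (by linarith)
          (by linarith) (by linarith) (by field_simp; ring)
        have e : (-(5991 / 1000) * n - 5797 / 1000 * ((i : ℝ) - n)) / n * n =
          -(5991 / 1000) * n - 5797 / 1000 * (i - n) := by field_simp
        rw [e] at this
        exact this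
      · rw [if_neg c2]
        have hi2 : 2 * (n : ℝ) ≤ i := by exact_mod_cast (not_le.1 c2).le
        by_cases c3 : i ≤ 3 * n
        · rw [if_pos c3]
          have hi3 : (i : ℝ) ≤ 3 * n := by exact_mod_cast c3
          have := interp 2 (-(11788 / 1000)) (-(14808 / 1000))
            ((-(11788 / 1000) * n - 3020 / 1000 * (i - 2 * n)) / n) (by linarith) (by linarith)
            (by linarith) (by linarith) (by field_simp; ring)
          have e : (-(11788 / 1000) * n - 3020 / 1000 * ((i : ℝ) - 2 * n)) / n * n =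
            -(11788 / 1000) * n - 3020 / 1000 * (i - 2 * n) := by field_simp
          rw [e] at this
          exact this
        · rw [if_neg c3]
          have hi3 : 3 * (n : ℝ) ≤ i := by exact_mod_cast (not_le.1 c3).le
          have hi4 : (i : ℝ) ≤ 4 * n := by exact_mod_cast hi
          have := interp 3 (-(14808 / 1000)) (-(17196 / 1000))
            ((-(14808 / 1000) * n - 2388 / 1000 * (i - 3 * n)) / n) (by linarith) (by linarith)
            (by linarith) (by linarith) (by field_simp; ring)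
          have e : (-(14808 / 1000) * n - 2388 / 1000 * ((i : ℝ) - 3 * n)) / n * n =
            -(14808 / 1000) * n - 2388 / 1000 * (i - 3 * n) := by field_simp
          rw [e] at this
          exact this
  have e : 2 * (i : ℝ) * (2 * Real.log n + l) = 4 * i * Real.log n + 2 * i * l := by ring
  rw [e]
  linarith

end

end Pool.Agent.H574R2.D3
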