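import Pool.Agent.H574R2.D3.G3d

/-!
# `G3p`: the size of the partial fraction coefficients
-/

open Polynomial Pool.Agent.H337R2

namespace Pool.Agent.H574R2.D3

/-- `exp(2y + 2y³/3) ≤ (1+y)/(1-y)` -/
lemma g3p_log (y : ℝ) (h0 : 0 ≤ y) (h1 : y < 1) :
    Real.exp (2 * y + 2 / 3 * y ^ 3) ≤ (1 + y) / (1 - y) := by
  have h := Real.hasSum_log_sub_log_of_abs_lt_one (x := y) (by rw [abs_of_nonneg h0]; exact h1)
  have h2 := sum_le_hasSum (Finset.range 2) (fun i _ => by positivity) h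
  have hp : 0 < (1 + y) / (1 - y) := div_pos (by linarith) (by linarith)
  rw [← Real.le_log_iff_exp_le hp, Real.log_div (by linarith) (by linarith)]
  refine le_trans (le_of_eq ?_) h2
  rw [Finset.sum_range_succ, Finset.sum_range_one]
  norm_num

lemma g3p_A (n : ℕ) : ∀ κ : ℕ, κ ≤ n →
    (n.factorial : ℝ) ^ 2 * Real.exp (2 * κ ^ 2 / (2 * n + 1) + 2 / 3 * (2 * κ ^ 4 - κ ^ 2) / (2 * n + 1) ^ 3) ≤
      ((n + κ).factorial : ℝ) * (n - κ).factorial := by
  intro κ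
  induction κ with
  | zero =>
    intro _
    apply le_of_eq
    simp
    ring
  | succ κ ih =>
    intro h
    have ih' := ih (by omega)
    obtain ⟨d, hd⟩ : ∃ d, n - κ = d + 1 := ⟨n - κ - 1, by omega⟩
    have hd' : n - (κ + 1) = d := by omega
    have hn : (n : ℝ) = κ + d + 1 := by
      have : n = κ + d + 1 := by omega
      rw [this]; push_cast; ring
    rw [hd, Nat.factorial_succ] at ih'
    rw [hd', ← add_assoc, Nat.factorial_succ]
    have hN : (0 : ℝ) < 2 * n + 1 := by positivity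
    have hy1 : (2 * (κ : ℝ) + 1) / (2 * n + 1) < 1 := by
      rw [div_lt_one hN, hn]
      have : (0 : ℝ) ≤ d := Nat.cast_nonneg _
      linarith
    have hl := g3p_log ((2 * (κ : ℝ) + 1) / (2 * n + 1)) (by positivity) hy1
    have hexp : (2 * ((κ + 1 : ℕ) : ℝ) ^ 2 / (2 * n + 1) +
        2 / 3 * (2 * ((κ + 1 : ℕ) : ℝ) ^ 4 - ((κ + 1 : ℕ) : ℝ) ^ 2) / (2 * n + 1) ^ 3) =
        (2 * (κ : ℝ) ^ 2 / (2 * n + 1) + 2 / 3 * (2 * (κ : ℝ) ^ 4 - (κ : ℝ) ^ 2) / (2 * n + 1) ^ 3) +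
        (2 * ((2 * (κ : ℝ) + 1) / (2 * n + 1)) + 2 / 3 * ((2 * (κ : ℝ) + 1) / (2 * n + 1)) ^ 3) := by
      push_cast
      field_simp
      ring
    rw [hexp, Real.exp_add, ← mul_assoc]
    have hr : (1 + (2 * (κ : ℝ) + 1) / (2 * n + 1)) / (1 - (2 * (κ : ℝ) + 1) / (2 * n + 1)) =
        (n + κ + 1) / (d + 1) := by
      have e1 : 1 + (2 * (κ : ℝ) + 1) / (2 * n + 1) = 2 * (n + κ + 1) / (2 * n + 1) := by
        field_simp
        ring
      have e2 : 1 - (2 * (κ : ℝ) + 1) / (2 * n + 1) = 2 * (d + 1) / (2 * n + 1) := by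
        rw [eq_div_iff hN.ne', sub_mul, div_mul_cancel₀ _ hN.ne', hn]
        ring
      rw [e1, e2]
      have : (d : ℝ) + 1 ≠ 0 := by positivity
      field_simp
    rw [hr] at hl
    calc _ ≤ (((n + κ).factorial : ℝ) * (((d + 1) * d.factorial : ℕ) : ℝ)) * ((n + κ + 1) / (d + 1)) := by
          apply mul_le_mul ih' hl (Real.exp_pos _).le (by positivity)
      _ = _ := by
          push_cast
          have : (d : ℝ) + 1 ≠ 0 := by positivity
          field_simp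

lemma g3p_B (n κ : ℕ) (h : κ ≤ n) : ∀ N : ℕ, n ≤ N →
    ((N + κ).factorial : ℝ) * (N - κ).factorial * (n.factorial : ℝ) ^ 2 *
      Real.exp ((κ : ℝ) ^ 2 * (1 / (n + 1) - 1 / (N + 1))) ≤
      (N.factorial : ℝ) ^ 2 * (((n + κ).factorial : ℝ) * (n - κ).factorial) := by
  intro N hN
  induction N, hN using Nat.le_induction with
  | base =>
    apply le_of_eq
    simp
    ring
  | succ N hN ih =>
    have e1 : N + 1 + κ = (N + κ) + 1 := by ring
    have e2 : N + 1 - κ = (N - κ) + 1 := by omega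
    rw [e1, e2, Nat.factorial_succ, Nat.factorial_succ, Nat.factorial_succ]
    have hc : ((N - κ : ℕ) : ℝ) = N - κ := by rw [Nat.cast_sub (by omega)]
    have hexp : (κ : ℝ) ^ 2 * (1 / (n + 1) - 1 / (((N + 1 : ℕ) : ℝ) + 1)) =
        (κ : ℝ) ^ 2 * (1 / (n + 1) - 1 / (N + 1)) + (κ : ℝ) ^ 2 / ((N + 1) * (N + 2)) := by
      push_cast
      field_simp
      ring
    rw [hexp, Real.exp_add]
    have hκ : (κ : ℝ) ≤ N := by exact_mod_cast h.trans hN
    have hκ0 : (0 : ℝ) ≤ κ := Nat.cast_nonneg _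
    have key : ((N : ℝ) + κ + 1) * (N - κ + 1) * Real.exp ((κ : ℝ) ^ 2 / ((N + 1) * (N + 2))) ≤ (N + 1) ^ 2 := by
      have h1 : Real.exp ((κ : ℝ) ^ 2 / ((N + 1) * (N + 2))) ≤ Real.exp ((κ : ℝ) ^ 2 / (N + 1) ^ 2) := by
        apply Real.exp_le_exp.2
        apply div_le_div_of_nonneg_left (by positivity) (by positivity)
        nlinarith
      have h2 : 1 - (κ : ℝ) ^ 2 / (N + 1) ^ 2 ≤ Real.exp (-((κ : ℝ) ^ 2 / (N + 1) ^ 2)) := by
        have := Real.add_one_le_exp (-((κ : ℝ) ^ 2 / (N + 1) ^ 2))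
        linarith
      have h3 : ((N : ℝ) + κ + 1) * (N - κ + 1) = (N + 1) ^ 2 * (1 - (κ : ℝ) ^ 2 / (N + 1) ^ 2) := by
        field_simp
        ring
      have h4 : (0 : ℝ) ≤ ((N : ℝ) + κ + 1) * (N - κ + 1) := by
        apply mul_nonneg <;> linarith
      calc _ ≤ ((N : ℝ) + κ + 1) * (N - κ + 1) * Real.exp ((κ : ℝ) ^ 2 / (N + 1) ^ 2) :=
            mul_le_mul_of_nonneg_left h1 h4
        _ = (N + 1) ^ 2 * (1 - (κ : ℝ) ^ 2 / (N + 1) ^ 2) * Real.exp ((κ : ℝ) ^ 2 / (N + 1) ^ 2) := by rw [h3]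
        _ ≤ (N + 1) ^ 2 * Real.exp (-((κ : ℝ) ^ 2 / (N + 1) ^ 2)) * Real.exp ((κ : ℝ) ^ 2 / (N + 1) ^ 2) := by
            apply mul_le_mul_of_nonneg_right _ (Real.exp_pos _).le
            exact mul_le_mul_of_nonneg_left h2 (by positivity)
        _ = (N + 1) ^ 2 := by
            rw [mul_assoc, ← Real.exp_add, neg_add_cancel, Real.exp_zero, mul_one]
    push_cast
    rw [hc]
    calc _ = (((N + κ).factorial : ℝ) * (N - κ).factorial * (n.factorial : ℝ) ^ 2 *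
      Real.exp ((κ : ℝ) ^ 2 * (1 / (n + 1) - 1 / (N + 1)))) * (((N : ℝ) + κ + 1) * (N - κ + 1) *
        Real.exp ((κ : ℝ) ^ 2 / ((N + 1) * (N + 2)))) := by ring
      _ ≤ ((N.factorial : ℝ) ^ 2 * (((n + κ).factorial : ℝ) * (n - κ).factorial)) * (N + 1) ^ 2 := by
          apply mul_le_mul ih key _ (by positivity)
          apply mul_nonneg _ (Real.exp_pos _).le
          apply mul_nonneg <;> linarith
      _ = _ := by ring

lemma g3p_e1 (n x : ℝ) (hn : 2 ≤ n) (h0 : 0 ≤ x) (hx : x ≤ n) :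
    x ^ 2 / n + x ^ 4 / (6 * n ^ 3) ≤
      (2 * x ^ 2 / (2 * n + 1) + 2 / 3 * (2 * x ^ 4 - x ^ 2) / (2 * n + 1) ^ 3) + 2 := by
  have hn0 : 0 < n := by linarith
  have hx2 : x ^ 2 ≤ n ^ 2 := pow_le_pow_left₀ h0 hx 2
  have hx4 : x ^ 4 ≤ n ^ 4 := pow_le_pow_left₀ h0 hx 4
  have h1 : x ^ 2 / n - 2 * x ^ 2 / (2 * n + 1) ≤ 1 / 2 := by
    have e : x ^ 2 / n - 2 * x ^ 2 / (2 * n + 1) = x ^ 2 / (n * (2 * n + 1)) := by
      field_simp
      ring
    rw [e, div_le_iff₀ (by positivity)]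
    nlinarith
  have h2 : x ^ 4 / (6 * n ^ 3) - 4 / 3 * x ^ 4 / (2 * n + 1) ^ 3 ≤ 1 / 2 := by
    have e : x ^ 4 / (6 * n ^ 3) - 4 / 3 * x ^ 4 / (2 * n + 1) ^ 3 =
        x ^ 4 * (12 * n ^ 2 + 6 * n + 1) / (6 * n ^ 3 * (2 * n + 1) ^ 3) := by
      field_simp
      ring
    rw [e, div_le_iff₀ (by positivity)]
    have h3 : x ^ 4 * (12 * n ^ 2 + 6 * n + 1) ≤ n ^ 4 * (12 * n ^ 2 + 6 * n + 1) :=
      mul_le_mul_of_nonneg_right hx4 (by positivity)
    refine h3.trans ?_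
    have e2 : 1 / 2 * (6 * n ^ 3 * (2 * n + 1) ^ 3) - n ^ 4 * (12 * n ^ 2 + 6 * n + 1) =
      n ^ 3 * (12 * n ^ 3 + 30 * n ^ 2 + 17 * n + 3) := by ring
    have e3 : 0 ≤ n ^ 3 * (12 * n ^ 3 + 30 * n ^ 2 + 17 * n + 3) := by positivity
    linarith
  have h3 : 2 / 3 * x ^ 2 / (2 * n + 1) ^ 3 ≤ 1 := by
    rw [div_le_one (by positivity)]
    nlinarith [pow_pos hn0 3, pow_pos hn0 2]
  have e : 2 / 3 * (2 * x ^ 4 - x ^ 2) / (2 * n + 1) ^ 3 =
      4 / 3 * x ^ 4 / (2 * n + 1) ^ 3 - 2 / 3 * x ^ 2 / (2 * n + 1) ^ 3 := by ring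
  rw [e]
  linarith

lemma g3p_e2 (n x : ℝ) (hn : 2 ≤ n) (h0 : 0 ≤ x) (hx : x ≤ n) :
    2 / 3 * x ^ 2 / n ≤ x ^ 2 * (1 / (n + 1) - 1 / (3 * n + 1)) + 1 := by
  have hn0 : 0 < n := by linarith
  have hx2 : x ^ 2 ≤ n ^ 2 := pow_le_pow_left₀ h0 hx 2
  have e : 2 / 3 * x ^ 2 / n - x ^ 2 * (1 / (n + 1) - 1 / (3 * n + 1)) =
      x ^ 2 * (8 * n + 2) / (3 * n * (n + 1) * (3 * n + 1)) := by
    field_simp
    ring
  have h1 : x ^ 2 * (8 * n + 2) / (3 * n * (n + 1) * (3 * n + 1)) ≤ 1 := by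
    rw [div_le_one (by positivity)]
    have h3 : x ^ 2 * (8 * n + 2) ≤ n ^ 2 * (8 * n + 2) := mul_le_mul_of_nonneg_right hx2 (by positivity)
    refine h3.trans ?_
    nlinarith [pow_pos hn0 3, pow_pos hn0 2]
  linarith

lemma g3p_main (n κ : ℕ) (hn : 2 ≤ n) (h : κ ≤ n) :
    ((3 * n + κ).factorial : ℝ) * (3 * n - κ).factorial / (((n + κ).factorial : ℝ) * (n - κ).factorial) *
      (1 / (((n + κ).factorial : ℝ) * (n - κ).factorial)) ^ 20 ≤
    Real.exp 41 * (((3 * n).factorial / n.factorial) ^ 2 / (n.factorial : ℝ) ^ 40 *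
      Real.exp (-((62 / 3) * (κ : ℝ) ^ 2 / n + (10 / 3) * (κ : ℝ) ^ 4 / n ^ 3))) := by
  have hn' : (2 : ℝ) ≤ n := by exact_mod_cast hn
  have hn0 : (0 : ℝ) < n := by linarith
  have hκ : (κ : ℝ) ≤ n := by exact_mod_cast h
  have hκ0 : (0 : ℝ) ≤ κ := Nat.cast_nonneg _
  have hA := g3p_A n κ h
  have hB := g3p_B n κ h (3 * n) (by omega)
  have e1 := g3p_e1 n κ hn' hκ0 hκ
  have e2 := g3p_e2 n κ hn' hκ0 hκ
  have hF1 : 0 < ((n + κ).factorial : ℝ) * (n - κ).factorial := by positivity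
  have ha : 0 < (n.factorial : ℝ) := by positivity
  set F1 : ℝ := ((n + κ).factorial : ℝ) * (n - κ).factorial with hF1d
  set F2 : ℝ := ((3 * n + κ).factorial : ℝ) * (3 * n - κ).factorial with hF2d
  set a : ℝ := (n.factorial : ℝ) with had
  set b : ℝ := ((3 * n).factorial : ℝ) with hbd
  push_cast at hB
  set β : ℝ := (κ : ℝ) ^ 2 / n + (κ : ℝ) ^ 4 / (6 * n ^ 3) with hβ
  have hA2 : a ^ 2 * Real.exp (β - 2) ≤ F1 :=
    le_trans (mul_le_mul_of_nonneg_left (Real.exp_le_exp.2 (by linarith)) (by positivity)) hA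
  have hA3 : 1 / F1 ≤ Real.exp (2 - β) / a ^ 2 := by
    rw [div_le_div_iff₀ hF1 (by positivity), one_mul]
    calc a ^ 2 = Real.exp (2 - β) * (a ^ 2 * Real.exp (β - 2)) := by
          rw [mul_left_comm, ← Real.exp_add, show 2 - β + (β - 2) = 0 by ring, Real.exp_zero, mul_one]
      _ ≤ Real.exp (2 - β) * F1 := mul_le_mul_of_nonneg_left hA2 (Real.exp_pos _).le
  have hA4 : (1 / F1) ^ 20 ≤ Real.exp (40 - 20 * β) / a ^ 40 := by
    refine (pow_le_pow_left₀ (by positivity) hA3 20).trans (le_of_eq ?_)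
    rw [div_pow, ← Real.exp_nat_mul, ← pow_mul]
    congr 2
    push_cast
    ring
  have hB2 : F2 * a ^ 2 * Real.exp (2 / 3 * (κ : ℝ) ^ 2 / n - 1) ≤ b ^ 2 * F1 :=
    le_trans (mul_le_mul_of_nonneg_left (Real.exp_le_exp.2 (by linarith)) (by positivity)) hB
  have hB3 : F2 / F1 ≤ (b / a) ^ 2 * Real.exp (1 - 2 / 3 * (κ : ℝ) ^ 2 / n) := by
    rw [div_le_iff₀ hF1, div_pow]
    have hE : F2 = (F2 * a ^ 2 * Real.exp (2 / 3 * (κ : ℝ) ^ 2 / n - 1)) *
        (Real.exp (1 - 2 / 3 * (κ : ℝ) ^ 2 / n) / a ^ 2) := by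
      have hE1 : Real.exp (2 / 3 * (κ : ℝ) ^ 2 / n - 1) * Real.exp (1 - 2 / 3 * (κ : ℝ) ^ 2 / n) = 1 := by
        rw [← Real.exp_add, show 2 / 3 * (κ : ℝ) ^ 2 / n - 1 + (1 - 2 / 3 * (κ : ℝ) ^ 2 / n) = 0 by ring,
          Real.exp_zero]
      rw [mul_div_assoc', mul_assoc (F2 * a ^ 2), hE1, mul_one, mul_div_assoc, div_self (by positivity),
        mul_one]
    calc F2 = (F2 * a ^ 2 * Real.exp (2 / 3 * (κ : ℝ) ^ 2 / n - 1)) *
        (Real.exp (1 - 2 / 3 * (κ : ℝ) ^ 2 / n) / a ^ 2) := hE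
      _ ≤ (b ^ 2 * F1) * (Real.exp (1 - 2 / 3 * (κ : ℝ) ^ 2 / n) / a ^ 2) :=
          mul_le_mul_of_nonneg_right hB2 (by positivity)
      _ = _ := by ring
  calc F2 / F1 * (1 / F1) ^ 20 ≤ ((b / a) ^ 2 * Real.exp (1 - 2 / 3 * (κ : ℝ) ^ 2 / n)) *
        (Real.exp (40 - 20 * β) / a ^ 40) := mul_le_mul hB3 hA4 (by positivity) (by positivity)
    _ = (b / a) ^ 2 / a ^ 40 * (Real.exp (1 - 2 / 3 * (κ : ℝ) ^ 2 / n) * Real.exp (40 - 20 * β)) := by ring
    _ = (b / a) ^ 2 / a ^ 40 * (Real.exp 41 *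
        Real.exp (-((62 / 3) * (κ : ℝ) ^ 2 / n + (10 / 3) * (κ : ℝ) ^ 4 / n ^ 3))) := by
        rw [← Real.exp_add, ← Real.exp_add, hβ]
        congr 2
        field_simp
        ring
    _ = _ := by ring

lemma g3p_P (u r : ℕ) : ∏ l ∈ Finset.range r, ((u : ℚ) + 1 + l + 1 / 2) ≤
    (u + r + 1) * ((u + r).factorial / u.factorial) := by
  induction r with
  | zero =>
    have : (u.factorial : ℚ) ≠ 0 := by positivity
    simp [this]
  | succ r ih =>
    rw [Finset.prod_range_succ]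
    refine (mul_le_mul_of_nonneg_right ih (by positivity)).trans ?_
    rw [← add_assoc, Nat.factorial_succ]
    push_cast
    have h1 : (0 : ℚ) ≤ (u + r + 1) * ((u + r).factorial / u.factorial) := by positivity
    calc _ ≤ ((u : ℚ) + r + 1) * ((u + r).factorial / u.factorial) * (u + r + 1 + 1) :=
          mul_le_mul_of_nonneg_left (by linarith) h1
      _ = _ := by ring

lemma g3p_Q (N : ℕ) : ∏ l ∈ Finset.range N, (1 / ((l : ℚ) + 1 / 2)) ≤ 2 * (N + 1) / N.factorial := by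
  induction N with
  | zero => simp
  | succ N ih =>
    rw [Finset.prod_range_succ]
    refine (mul_le_mul_of_nonneg_right ih (by positivity)).trans ?_
    rw [Nat.factorial_succ]
    push_cast
    have h0 : (0 : ℚ) ≤ N := Nat.cast_nonneg _
    have hf : (0 : ℚ) < N.factorial := by positivity
    rw [div_mul_div_comm, mul_one, div_le_div_iff₀ (by positivity) (by positivity)]
    have h1 : ((N : ℚ) + 1) * (N + 1) ≤ (N + 1 + 1) * (N + 1 / 2) := by nlinarith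
    calc 2 * ((N : ℚ) + 1) * ((N + 1) * N.factorial) = 2 * N.factorial * (((N : ℚ) + 1) * (N + 1)) := by ring
      _ ≤ 2 * N.factorial * ((N + 1 + 1) * (N + 1 / 2)) := mul_le_mul_of_nonneg_left h1 (by positivity)
      _ = _ := by ring

lemma g3p_Z {n k : ℕ} (hk : k ∈ sM n) : nrm (TS (-(k : ℚ)) (ZM n)) ≤
    (4 * n + 1) ^ 2 * (((k.factorial : ℚ) * (6 * n - k).factorial) /
      (((k - 2 * n).factorial : ℚ) * (4 * n - k).factorial)) := by
  obtain ⟨hk1, hk2⟩ := Finset.mem_Icc.1 hk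
  unfold ZM
  rw [map_mul, map_prod, map_prod]
  refine (nrm_mul _ _).trans ?_
  have h1 : nrm (∏ m ∈ Finset.range (2 * n), TS (-(k : ℚ)) (X + C (m : ℚ))) ≤
      (4 * n + 1) * ((k.factorial : ℚ) / (k - 2 * n).factorial) := by
    refine (nrm_prod _ _).trans ?_
    rw [← Finset.prod_range_reflect]
    have h2 := g3p_P (k - 2 * n) (2 * n)
    have h3 : k - 2 * n + 2 * n = k := by omega
    rw [h3] at h2
    refine le_trans (Finset.prod_le_prod (fun _ _ => nrm_nonneg _) ?_) (h2.trans ?_)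
    · intro l hl
      rw [Finset.mem_range] at hl
      refine (nrm_TS_lin _ _).trans (le_of_eq ?_)
      have h4 : ((2 * n - 1 - l : ℕ) : ℚ) = 2 * n - 1 - l := by
        rw [Nat.cast_sub (by omega), Nat.cast_sub (by omega)]
        push_cast
        ring
      have h5 : ((k - 2 * n : ℕ) : ℚ) = k - 2 * n := by
        rw [Nat.cast_sub (by omega)]
        push_cast
        ring
      rw [h4, h5]
      have h6 : (l : ℚ) + 1 ≤ 2 * n := by exact_mod_cast (by omega : l + 1 ≤ 2 * n)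
      have h7 : (2 : ℚ) * n ≤ k := by exact_mod_cast hk1
      rw [abs_of_nonpos (by linarith [Nat.cast_nonneg (α := ℚ) l])]
      ring
    · apply mul_le_mul_of_nonneg_right _ (by positivity)
      have h5 : ((k - 2 * n : ℕ) : ℚ) = k - 2 * n := by
        rw [Nat.cast_sub (by omega)]
        push_cast
        ring
      rw [h5]
      have h7 : (k : ℚ) ≤ 4 * n := by exact_mod_cast hk2
      push_cast
      linarith
  have h2 : nrm (∏ m ∈ Finset.Icc (4 * n + 1) (6 * n), TS (-(k : ℚ)) (X + C (m : ℚ))) ≤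
      (4 * n + 1) * (((6 * n - k).factorial : ℚ) / (4 * n - k).factorial) := by
    refine (nrm_prod _ _).trans ?_
    have e0 : Finset.Icc (4 * n + 1) (6 * n) = Finset.Ico (4 * n + 1) (6 * n + 1) := by
      ext x
      simp only [Finset.mem_Icc, Finset.mem_Ico]
      omega
    rw [e0, Finset.prod_Ico_eq_prod_range]
    have e1 : 6 * n + 1 - (4 * n + 1) = 2 * n := by omega
    rw [e1]
    have h2 := g3p_P (4 * n - k) (2 * n)
    have h3 : 4 * n - k + 2 * n = 6 * n - k := by omega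
    rw [h3] at h2
    have h5 : ((4 * n - k : ℕ) : ℚ) = 4 * n - k := by
      rw [Nat.cast_sub (by omega)]
      push_cast
      ring
    have h7 : (k : ℚ) ≤ 4 * n := by exact_mod_cast hk2
    have h8 : (2 : ℚ) * n ≤ k := by exact_mod_cast hk1
    refine le_trans (Finset.prod_le_prod (fun _ _ => nrm_nonneg _) ?_) (h2.trans ?_)
    · intro l hl
      refine (nrm_TS_lin _ _).trans (le_of_eq ?_)
      rw [h5]
      push_cast
      rw [abs_of_nonneg (by linarith [Nat.cast_nonneg (α := ℚ) l])]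
      ring
    · apply mul_le_mul_of_nonneg_right _ (by positivity)
      rw [h5]
      push_cast
      linarith
  calc _ ≤ ((4 * n + 1) * ((k.factorial : ℚ) / (k - 2 * n).factorial)) *
      ((4 * n + 1) * (((6 * n - k).factorial : ℚ) / (4 * n - k).factorial)) :=
        mul_le_mul h1 h2 (nrm_nonneg _) (by positivity)
    _ = _ := by ring

lemma g3p_V {n k : ℕ} (hk : k ∈ sM n) : nrm (VV ((sM n).erase k) mM (-(k : ℚ))) ≤
    ((2 * (2 * n + 1)) ^ 2 * (1 / (((k - 2 * n).factorial : ℚ) * (4 * n - k).factorial))) ^ 20 := by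
  obtain ⟨hk1, hk2⟩ := Finset.mem_Icc.1 hk
  unfold VV
  refine (nrm_prod _ _).trans ?_
  have h0 : ∀ m ∈ (sM n).erase k, nrm (iv (-(k : ℚ) + m) ^ mM m) ≤ (1 / (|-(k : ℚ) + m| - 1 / 2)) ^ 20 := by
    intro m hm
    refine (nrm_pow _ _).trans (pow_le_pow_left₀ (nrm_nonneg _) (nrm_iv ?_) 20)
    have hne : m ≠ k := Finset.ne_of_mem_erase hm
    have h1 : (1 : ℚ) ≤ |-(k : ℚ) + m| := by
      have h2 : (1 : ℤ) ≤ |-(k : ℤ) + m| := by
        apply Int.one_le_abs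
        omega
      exact_mod_cast h2
    linarith
  refine (Finset.prod_le_prod (fun _ _ => nrm_nonneg _) h0).trans ?_
  rw [Finset.prod_pow]
  have hpos : ∀ m ∈ (sM n).erase k, (0 : ℚ) ≤ 1 / (|-(k : ℚ) + m| - 1 / 2) := by
    intro m hm
    have hne : m ≠ k := Finset.ne_of_mem_erase hm
    have h1 : (1 : ℚ) ≤ |-(k : ℚ) + m| := by
      have h2 : (1 : ℤ) ≤ |-(k : ℤ) + m| := by
        apply Int.one_le_abs
        omega
      exact_mod_cast h2
    apply one_div_nonneg.2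
    linarith
  apply pow_le_pow_left₀ (Finset.prod_nonneg hpos)
  have hset : (sM n).erase k = Finset.Ico (2 * n) k ∪ Finset.Ico (k + 1) (4 * n + 1) := by
    ext x
    simp only [Finset.mem_erase, Finset.mem_Icc, Finset.mem_union, Finset.mem_Ico]
    omega
  have hdisj : Disjoint (Finset.Ico (2 * n) k) (Finset.Ico (k + 1) (4 * n + 1)) := by
    rw [Finset.disjoint_left]
    intro x
    simp only [Finset.mem_Ico]
    omega
  rw [hset, Finset.prod_union hdisj]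
  have h1 : ∏ m ∈ Finset.Ico (2 * n) k, (1 / (|-(k : ℚ) + m| - 1 / 2)) ≤
      2 * (2 * n + 1) / ((k - 2 * n).factorial : ℚ) := by
    rw [Finset.prod_Ico_eq_prod_range, ← Finset.prod_range_reflect]
    refine le_trans (le_of_eq ?_) ((g3p_Q (k - 2 * n)).trans ?_)
    · refine Finset.prod_congr rfl fun l hl => ?_
      rw [Finset.mem_range] at hl
      have h3 : 2 * n + (k - 2 * n - 1 - l) = k - 1 - l := by omega
      rw [h3]
      have h4 : ((k - 1 - l : ℕ) : ℚ) = k - 1 - l := by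
        rw [Nat.cast_sub (by omega), Nat.cast_sub (by omega)]
        push_cast
        ring
      rw [h4, abs_of_nonpos (by linarith [Nat.cast_nonneg (α := ℚ) l])]
      congr 1
      ring
    · apply div_le_div_of_nonneg_right _ (by positivity)
      have h5 : ((k - 2 * n : ℕ) : ℚ) ≤ 2 * n := by exact_mod_cast (by omega : k - 2 * n ≤ 2 * n)
      linarith
  have h2 : ∏ m ∈ Finset.Ico (k + 1) (4 * n + 1), (1 / (|-(k : ℚ) + m| - 1 / 2)) ≤
      2 * (2 * n + 1) / ((4 * n - k).factorial : ℚ) := by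
    rw [Finset.prod_Ico_eq_prod_range]
    have h3 : 4 * n + 1 - (k + 1) = 4 * n - k := by omega
    rw [h3]
    refine le_trans (le_of_eq ?_) ((g3p_Q (4 * n - k)).trans ?_)
    · refine Finset.prod_congr rfl fun l _ => ?_
      push_cast
      rw [abs_of_nonneg (by linarith [Nat.cast_nonneg (α := ℚ) l])]
      congr 1
      ring
    · apply div_le_div_of_nonneg_right _ (by positivity)
      have h5 : ((4 * n - k : ℕ) : ℚ) ≤ 2 * n := by exact_mod_cast (by omega : 4 * n - k ≤ 2 * n)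
      linarith
  have hpos2 : (0 : ℚ) ≤ ∏ m ∈ Finset.Ico (k + 1) (4 * n + 1), (1 / (|-(k : ℚ) + m| - 1 / 2)) := by
    apply Finset.prod_nonneg
    intro m hm
    apply hpos
    rw [hset]
    exact Finset.mem_union_right _ hm
  calc _ ≤ (2 * (2 * n + 1) / ((k - 2 * n).factorial : ℚ)) * (2 * (2 * n + 1) / ((4 * n - k).factorial : ℚ)) :=
        mul_le_mul h1 h2 hpos2 (by positivity)
    _ = _ := by ring

lemma g3p_main' {n k : ℕ} (hn : 2 ≤ n) (hk : k ∈ sM n) :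
    ((k.factorial : ℝ) * (6 * n - k).factorial) / (((k - 2 * n).factorial : ℝ) * (4 * n - k).factorial) *
      (1 / (((k - 2 * n).factorial : ℝ) * (4 * n - k).factorial)) ^ 20 ≤
    Real.exp 41 * (((3 * n).factorial / n.factorial) ^ 2 / (n.factorial : ℝ) ^ 40 *
      Real.exp (-((62 / 3) * ((k : ℝ) - 3 * n) ^ 2 / n + (10 / 3) * ((k : ℝ) - 3 * n) ^ 4 / n ^ 3))) := by
  obtain ⟨hk1, hk2⟩ := Finset.mem_Icc.1 hk
  rcases le_total (3 * n) k with h | h
  · have hm := g3p_main n (k - 3 * n) hn (by omega)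
    have e1 : 3 * n + (k - 3 * n) = k := by omega
    have e2 : 3 * n - (k - 3 * n) = 6 * n - k := by omega
    have e3 : n + (k - 3 * n) = k - 2 * n := by omega
    have e4 : n - (k - 3 * n) = 4 * n - k := by omega
    have e5 : ((k - 3 * n : ℕ) : ℝ) = k - 3 * n := by
      rw [Nat.cast_sub h]
      push_cast
      ring
    rw [e1, e2, e3, e4, e5] at hm
    exact hm
  · have hm := g3p_main n (3 * n - k) hn (by omega)
    have e1 : 3 * n + (3 * n - k) = 6 * n - k := by omega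
    have e2 : 3 * n - (3 * n - k) = k := by omega
    have e3 : n + (3 * n - k) = 4 * n - k := by omega
    have e4 : n - (3 * n - k) = k - 2 * n := by omega
    have e5 : ((3 * n - k : ℕ) : ℝ) = 3 * n - k := by
      rw [Nat.cast_sub h]
      push_cast
      ring
    have e6 : (3 * (n : ℝ) - k) ^ 2 = ((k : ℝ) - 3 * n) ^ 2 := by ring
    have e7 : (3 * (n : ℝ) - k) ^ 4 = ((k : ℝ) - 3 * n) ^ 4 := by ring
    rw [e1, e2, e3, e4, e5, e6, e7] at hm
    rw [mul_comm (k.factorial : ℝ), mul_comm ((k - 2 * n).factorial : ℝ)]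
    exact hm

lemma g3p_lin {n k : ℕ} (hn : 2 ≤ n) (hk : k ∈ sM n) :
    nrm (TS (-(k : ℚ)) (2 * X + C ((6 * n : ℕ) : ℚ))) ≤ 3 * n := by
  obtain ⟨hk1, hk2⟩ := Finset.mem_Icc.1 hk
  have e : (2 * X + C ((6 * n : ℕ) : ℚ) : ℚ[X]) = C 2 * (X + C (3 * n : ℚ)) := by
    rw [mul_add, ← C_mul, show (C 2 : ℚ[X]) = 2 from rfl]
    congr 2
    push_cast
    ring
  rw [e, map_mul, TS_C, nrm_C_mul]
  have h1 := nrm_TS_lin (-(k : ℚ)) (3 * n)
  have h7 : (k : ℚ) ≤ 4 * n := by exact_mod_cast hk2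
  have h8 : (2 : ℚ) * n ≤ k := by exact_mod_cast hk1
  have h9 : |-(k : ℚ) + 3 * n| ≤ n := by
    rw [abs_le]
    constructor <;> linarith
  have h10 : (2 : ℚ) ≤ n := by exact_mod_cast hn
  rw [abs_of_pos (by norm_num : (0 : ℚ) < 2)]
  linarith

lemma g3p_rat {n k i : ℕ} (hn : 2 ≤ n) (hk : k ∈ sM n) (hi : i ∈ Finset.Icc 1 20) (E : ℚ[X]) :
    |pa (sM n) mM (PM n * E) k i| ≤ 2 ^ 20 * (((2 * n).factorial : ℚ) ^ 18 * (3 * n) *
      ((5 * n) ^ 2 * (((k.factorial : ℚ) * (6 * n - k).factorial) /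
      (((k - 2 * n).factorial : ℚ) * (4 * n - k).factorial))) *
      nrm (TS (-(k : ℚ)) E) *
      ((5 * n) ^ 2 * (1 / (((k - 2 * n).factorial : ℚ) * (4 * n - k).factorial))) ^ 20) := by
  have hi' := Finset.mem_Icc.1 hi
  have h10 : (2 : ℚ) ≤ n := by exact_mod_cast hn
  have hd : pa (sM n) mM (PM n * E) k i = pfc (sM n) mM (PM n * E) k (20 - i) := by
    unfold pa
    rw [if_pos hi'.2]
  rw [hd]
  unfold pfc
  refine (coeff_le_nrm _ (by omega)).trans ?_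
  apply mul_le_mul_of_nonneg_left _ (by norm_num)
  refine (nrm_mul _ _).trans ?_
  apply mul_le_mul
  · rw [map_mul]
    refine (nrm_mul _ _).trans ?_
    apply mul_le_mul_of_nonneg_right _ (nrm_nonneg _)
    unfold PM
    rw [map_mul, map_mul, TS_C]
    refine (nrm_mul _ _).trans ?_
    apply mul_le_mul
    · rw [nrm_C_mul]
      unfold cM
      rw [abs_of_nonneg (by positivity)]
      exact mul_le_mul_of_nonneg_left (g3p_lin hn hk) (by positivity)
    · refine (g3p_Z hk).trans ?_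
      apply mul_le_mul_of_nonneg_right _ (by positivity)
      exact pow_le_pow_left₀ (by positivity) (by linarith) 2
    · exact nrm_nonneg _
    · positivity
  · refine (g3p_V hk).trans ?_
    apply pow_le_pow_left₀ (by positivity)
    apply mul_le_mul_of_nonneg_right _ (by positivity)
    exact pow_le_pow_left₀ (by positivity) (by linarith) 2
  · exact nrm_nonneg _
  · have := nrm_nonneg (TS (-(k : ℚ)) E)
    positivity

theorem G3_pa : ∃ K : ℝ, ∀ n : ℕ, 2 ≤ n → ∀ k ∈ sM n, ∀ i ∈ Finset.Icc 1 20, ∀ E : ℚ[X],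
    |((pa (sM n) mM (PM n * E) k i : ℚ) : ℝ)| ≤ Real.exp K * (n : ℝ) ^ 60 * R0 n *
      Real.exp (-((62 / 3) * ((k : ℝ) - 3 * n) ^ 2 / n + (10 / 3) * ((k : ℝ) - 3 * n) ^ 4 / n ^ 3)) *
      ((nrm (TS (-(k : ℚ)) E) : ℚ) : ℝ) := by
  refine ⟨Real.log (2 ^ 20 * 3 * 5 ^ 42) + 41, ?_⟩
  intro n hn k hk i hi E
  have hn' : (2 : ℝ) ≤ n := by exact_mod_cast hn
  have hn0 : (0 : ℝ) < n := by linarith
  have h1 : ((|pa (sM n) mM (PM n * E) k i| : ℚ) : ℝ) ≤ _ := Rat.cast_le.2 (g3p_rat hn hk hi E)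
  rw [Rat.cast_abs] at h1
  refine h1.trans ?_
  push_cast
  have hm := g3p_main' hn hk
  have hN : (0 : ℝ) ≤ ((nrm (TS (-(k : ℚ)) E) : ℚ) : ℝ) := by exact_mod_cast nrm_nonneg _
  rw [Real.exp_add, Real.exp_log (by positivity)]
  unfold R0
  set G : ℝ := ((k.factorial : ℝ) * (6 * n - k).factorial) / (((k - 2 * n).factorial : ℝ) * (4 * n - k).factorial)
  set H : ℝ := 1 / (((k - 2 * n).factorial : ℝ) * (4 * n - k).factorial)
  set W : ℝ := Real.exp (-((62 / 3) * ((k : ℝ) - 3 * n) ^ 2 / n + (10 / 3) * ((k : ℝ) - 3 * n) ^ 4 / n ^ 3))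
  set D : ℝ := ((nrm (TS (-(k : ℚ)) E) : ℚ) : ℝ)
  have hn60 : (n : ℝ) ^ 43 ≤ (n : ℝ) ^ 60 := pow_le_pow_right₀ (by linarith) (by norm_num)
  calc _ = (2 ^ 20 * 3 * 5 ^ 42 * (n : ℝ) ^ 43 * ((2 * n).factorial : ℝ) ^ 18 * D) * (G * H ^ 20) := by ring
    _ ≤ (2 ^ 20 * 3 * 5 ^ 42 * (n : ℝ) ^ 43 * ((2 * n).factorial : ℝ) ^ 18 * D) *
        (Real.exp 41 * (((3 * n).factorial / n.factorial) ^ 2 / (n.factorial : ℝ) ^ 40 * W)) :=
        mul_le_mul_of_nonneg_left hm (by positivity)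
    _ = (n : ℝ) ^ 43 * (2 ^ 20 * 3 * 5 ^ 42 * ((2 * n).factorial : ℝ) ^ 18 * D *
        (Real.exp 41 * (((3 * n).factorial / n.factorial) ^ 2 / (n.factorial : ℝ) ^ 40 * W))) := by ring
    _ ≤ (n : ℝ) ^ 60 * (2 ^ 20 * 3 * 5 ^ 42 * ((2 * n).factorial : ℝ) ^ 18 * D *
        (Real.exp 41 * (((3 * n).factorial / n.factorial) ^ 2 / (n.factorial : ℝ) ^ 40 * W))) :=
        mul_le_mul_of_nonneg_right hn60 (by positivity)
    _ = _ := by ring

end Pool.Agent.H574R2.D3
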