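import Pool.Agent.H574R2.D3.G3Tpre
import Pool.Agent.H574R2.D3.G3p
import Pool.Agent.H574R2.D3.G3Emod
import Pool.Agent.H574R2.D3.G3lev

/-! G3T: bound of the coefficient functional. -/

open Polynomial Pool.Agent.H337R2 Filter Topology

namespace Pool.Agent.H574R2.D3

noncomputable section

theorem G3_T : ∀ β : ℕ → ℚ, ∃ K : ℝ, ∀ n : ℕ, 2 ≤ n → ∀ (m : ℕ) (v : Fin m → ℕ), (∀ l, n ≤ v l) →
    ∀ i ≤ 4 * n, ∀ j ≤ 4 * n,
    |((BL n β ((∏ l, (X - C ((v l : ℚ) ^ 2))) * (PB2 n i * PB2 n j)) : ℚ) : ℝ)| ≤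
      (∏ l, ((v l : ℝ) ^ 2 + 1)) * (Real.sqrt (T2 K n i) * Real.sqrt (T2 K n j)) :=
  G3_T_of G3_pa (fun hn _ hk m v hv i => G3_E hn hk m v hv i) G3_level

end

end Pool.Agent.H574R2.D3
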