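import Pool.Agent.H574R2.D3.G3d

/-! G3T: the bound of the coefficient functional, from `G3_pa`, `G3_E`, `G3_level`. -/

open Polynomial Pool.Agent.H337R2

namespace Pool.Agent.H574R2.D3

noncomputable section

/-- statement of `G3_pa` -/
def G3T_pa : Prop := ∃ K : ℝ, ∀ n : ℕ, 2 ≤ n → ∀ k ∈ sM n, ∀ i ∈ Finset.Icc 1 20, ∀ E : ℚ[X],
    |((pa (sM n) mM (PM n * E) k i : ℚ) : ℝ)| ≤ Real.exp K * (n : ℝ) ^ 60 * R0 n *
      Real.exp (-((62 / 3) * ((k : ℝ) - 3 * n) ^ 2 / n + (10 / 3) * ((k : ℝ) - 3 * n) ^ 4 / n ^ 3)) *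
      ((nrm (TS (-(k : ℚ)) E) : ℚ) : ℝ)

/-- statement of `G3_E` -/
def G3T_E : Prop := ∀ {n : ℕ}, 2 ≤ n → ∀ {k : ℕ}, k ∈ sM n → ∀ (m : ℕ) (v : Fin m → ℕ),
    (∀ l, n ≤ v l) → ∀ i : ℕ,
    nrm (TS (-(k : ℚ)) (EM n ((∏ l, (X - C ((v l : ℚ) ^ 2))) * PB2 n i))) ≤
      ((n : ℚ) + 1) ^ 72 * (∏ l, ((v l : ℚ) ^ 2 + 1)) *
        (|((k : ℚ) - 3 * n) ^ 2 - (n : ℚ) ^ 2 / 20| + n + 1) ^ i

/-- statement of `G3_level` -/
def G3T_level : Prop := ∃ K : ℝ, ∀ n : ℕ, 2 ≤ n → ∀ κ : ℝ, |κ| ≤ n → ∀ i : ℕ, i ≤ 4 * n →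
    -((62 / 3) * κ ^ 2 / n + (10 / 3) * κ ^ 4 / n ^ 3) +
      2 * i * Real.log (|κ ^ 2 - (n : ℝ) ^ 2 / 20| + n + 1) ≤ 4 * i * Real.log n + LamN n i + K

theorem G3T_R0_nonneg (n : ℕ) : 0 ≤ R0 n := by
  unfold R0; positivity

/-- `exp(-φ) y^(i+j) ≤ e^K sqrt(b_i) sqrt(b_j)` -/
theorem G3T_mid {K2 : ℝ} {n : ℕ} (hn : 2 ≤ n) {φ y : ℝ} (hy : 0 < y)
    (h3 : ∀ i : ℕ, i ≤ 4 * n → -φ + 2 * i * Real.log y ≤ 4 * i * Real.log n + LamN n i + K2)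
    {i j : ℕ} (hi : i ≤ 4 * n) (hj : j ≤ 4 * n) :
    Real.exp (-φ) * y ^ (i + j) ≤ Real.exp K2 *
      (Real.sqrt ((n : ℝ) ^ (4 * i) * Real.exp (LamN n i)) *
        Real.sqrt ((n : ℝ) ^ (4 * j) * Real.exp (LamN n j))) := by
  have hn0 : (0 : ℝ) < n := by
    have : 0 < n := by omega
    exact_mod_cast this
  have one : ∀ i : ℕ, i ≤ 4 * n → Real.exp (-φ) * y ^ (2 * i) ≤
      Real.exp K2 * ((n : ℝ) ^ (4 * i) * Real.exp (LamN n i)) := by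
    intro i hi
    have h := Real.exp_le_exp.2 (h3 i hi)
    have e1 : Real.exp (-φ + 2 * i * Real.log y) = Real.exp (-φ) * y ^ (2 * i) := by
      rw [Real.exp_add]
      have : (2 : ℝ) * i * Real.log y = ((2 * i : ℕ) : ℝ) * Real.log y := by push_cast; ring
      rw [this, Real.exp_nat_mul, Real.exp_log hy]
    have e2 : Real.exp (4 * i * Real.log n + LamN n i + K2) =
        Real.exp K2 * ((n : ℝ) ^ (4 * i) * Real.exp (LamN n i)) := by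
      rw [Real.exp_add, Real.exp_add]
      have : (4 : ℝ) * i * Real.log n = ((4 * i : ℕ) : ℝ) * Real.log n := by push_cast; ring
      rw [this, Real.exp_nat_mul, Real.exp_log hn0]
      ring
    rw [e1, e2] at h
    exact h
  have hbi : 0 ≤ (n : ℝ) ^ (4 * i) * Real.exp (LamN n i) := by positivity
  have hbj : 0 ≤ (n : ℝ) ^ (4 * j) * Real.exp (LamN n j) := by positivity
  have hl : 0 ≤ Real.exp (-φ) * y ^ (i + j) := by positivity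
  have hr : 0 ≤ Real.exp K2 *
      (Real.sqrt ((n : ℝ) ^ (4 * i) * Real.exp (LamN n i)) *
        Real.sqrt ((n : ℝ) ^ (4 * j) * Real.exp (LamN n j))) := by positivity
  rw [← pow_le_pow_iff_left₀ hl hr (two_ne_zero)]
  calc (Real.exp (-φ) * y ^ (i + j)) ^ 2
      = (Real.exp (-φ) * y ^ (2 * i)) * (Real.exp (-φ) * y ^ (2 * j)) := by ring
    _ ≤ (Real.exp K2 * ((n : ℝ) ^ (4 * i) * Real.exp (LamN n i))) *
        (Real.exp K2 * ((n : ℝ) ^ (4 * j) * Real.exp (LamN n j))) :=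
        mul_le_mul (one i hi) (one j hj) (by positivity) (by positivity)
    _ = Real.exp K2 ^ 2 * (Real.sqrt ((n : ℝ) ^ (4 * i) * Real.exp (LamN n i)) ^ 2 *
        Real.sqrt ((n : ℝ) ^ (4 * j) * Real.exp (LamN n j)) ^ 2) := by
        rw [Real.sq_sqrt hbi, Real.sq_sqrt hbj]; ring
    _ = _ := by ring

theorem G3T_num {n : ℕ} (hn : 2 ≤ n) {B : ℝ} (hB : 0 ≤ B) :
    (2 * (n : ℝ) + 1) * ((n : ℝ) ^ 60 * ((n : ℝ) + 1) ^ 72) * B ≤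
      ((B + 1) * (3 * 2 ^ 72)) * (n : ℝ) ^ 200 := by
  have hn1 : (1 : ℝ) ≤ n := by
    have : 1 ≤ n := by omega
    exact_mod_cast this
  have h1 : 2 * (n : ℝ) + 1 ≤ 3 * n := by linarith
  have h2 : ((n : ℝ) + 1) ^ 72 ≤ (2 * (n : ℝ)) ^ 72 := pow_le_pow_left₀ (by linarith) (by linarith) 72
  have h3 : (n : ℝ) ^ 133 ≤ (n : ℝ) ^ 200 := pow_le_pow_right₀ hn1 (by norm_num)
  calc (2 * (n : ℝ) + 1) * ((n : ℝ) ^ 60 * ((n : ℝ) + 1) ^ 72) * B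
      ≤ (3 * (n : ℝ)) * ((n : ℝ) ^ 60 * (2 * (n : ℝ)) ^ 72) * (B + 1) := by
        gcongr
        linarith
    _ = ((B + 1) * (3 * 2 ^ 72)) * (n : ℝ) ^ 133 := by ring
    _ ≤ _ := by gcongr

theorem G3_T_of (h1 : G3T_pa) (h2 : G3T_E) (h3 : G3T_level) :
    ∀ β : ℕ → ℚ, ∃ K : ℝ, ∀ n : ℕ, 2 ≤ n → ∀ (m : ℕ) (v : Fin m → ℕ), (∀ l, n ≤ v l) →
    ∀ i ≤ 4 * n, ∀ j ≤ 4 * n,
    |((BL n β ((∏ l, (X - C ((v l : ℚ) ^ 2))) * (PB2 n i * PB2 n j)) : ℚ) : ℝ)| ≤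
      (∏ l, ((v l : ℝ) ^ 2 + 1)) * (Real.sqrt (T2 K n i) * Real.sqrt (T2 K n j)) := by
  intro β
  obtain ⟨K1, h1⟩ := h1
  obtain ⟨K2, h3⟩ := h3
  set B : ℝ := ∑ i ∈ Finset.Icc 1 20, |((β i : ℚ) : ℝ)| with hB
  have hB0 : 0 ≤ B := Finset.sum_nonneg fun _ _ => abs_nonneg _
  refine ⟨Real.log ((B + 1) * (3 * 2 ^ 72)) + K1 + K2, ?_⟩
  intro n hn m v hv i hi j hj
  have hn0 : (0 : ℝ) < n := by
    have : 0 < n := by omega
    exact_mod_cast this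
  have hR0 := G3T_R0_nonneg n
  have hV : 0 ≤ ∏ l, ((v l : ℝ) ^ 2 + 1) := Finset.prod_nonneg fun l _ => by positivity
  set V : ℝ := ∏ l, ((v l : ℝ) ^ 2 + 1) with hVdef
  set F : ℚ[X] := (∏ l, (X - C ((v l : ℚ) ^ 2))) * (PB2 n i * PB2 n j) with hF
  have hF' : F = (∏ l, (X - C ((v l : ℚ) ^ 2))) * PB2 n (i + j) := by
    rw [hF]; unfold PB2; rw [← pow_add]
  set s : ℝ := Real.sqrt ((n : ℝ) ^ (4 * i) * Real.exp (LamN n i)) *
        Real.sqrt ((n : ℝ) ^ (4 * j) * Real.exp (LamN n j)) with hs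
  have hs0 : 0 ≤ s := by positivity
  -- pointwise bound
  have hpt : ∀ k ∈ sM n, ∀ i' ∈ Finset.Icc 1 20,
      |((pa (sM n) mM (PM n * EM n F) k i' : ℚ) : ℝ)| ≤
        Real.exp K1 * (n : ℝ) ^ 60 * R0 n * (((n : ℝ) + 1) ^ 72 * V * (Real.exp K2 * s)) := by
    intro k hk i' hi'
    have a1 := h1 n hn k hk i' hi' (EM n F)
    have a2 := h2 hn hk m v hv (i + j)
    rw [← hF'] at a2
    have a2' : ((nrm (TS (-(k : ℚ)) (EM n F)) : ℚ) : ℝ) ≤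
        (((n : ℝ) + 1) ^ 72 * V *
        (|((k : ℝ) - 3 * n) ^ 2 - (n : ℝ) ^ 2 / 20| + n + 1) ^ (i + j)) := by
      have := (Rat.cast_le (K := ℝ)).2 a2
      push_cast at this
      exact this
    have hκ : |(k : ℝ) - 3 * n| ≤ n := by
      rw [Finset.mem_Icc] at hk
      have c1 : (2 : ℝ) * n ≤ k := by exact_mod_cast hk.1
      have c2 : (k : ℝ) ≤ 4 * n := by exact_mod_cast hk.2
      rw [abs_le]; constructor <;> linarith
    have hy : (0 : ℝ) < |((k : ℝ) - 3 * n) ^ 2 - (n : ℝ) ^ 2 / 20| + (n : ℝ) + 1 := by positivity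
    have a3 := G3T_mid hn hy (h3 n hn ((k : ℝ) - 3 * n) hκ) hi hj
    calc |((pa (sM n) mM (PM n * EM n F) k i' : ℚ) : ℝ)|
        ≤ _ := a1
      _ ≤ Real.exp K1 * (n : ℝ) ^ 60 * R0 n *
      Real.exp (-((62 / 3) * ((k : ℝ) - 3 * n) ^ 2 / n + (10 / 3) * ((k : ℝ) - 3 * n) ^ 4 / n ^ 3)) *
        (((n : ℝ) + 1) ^ 72 * V *
        (|((k : ℝ) - 3 * n) ^ 2 - (n : ℝ) ^ 2 / 20| + n + 1) ^ (i + j)) :=
          mul_le_mul_of_nonneg_left a2' (by positivity)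
      _ = Real.exp K1 * (n : ℝ) ^ 60 * R0 n * (((n : ℝ) + 1) ^ 72 * V *
        (Real.exp (-((62 / 3) * ((k : ℝ) - 3 * n) ^ 2 / n +
          (10 / 3) * ((k : ℝ) - 3 * n) ^ 4 / n ^ 3)) *
        (|((k : ℝ) - 3 * n) ^ 2 - (n : ℝ) ^ 2 / 20| + n + 1) ^ (i + j))) := by ring
      _ ≤ _ := by
        apply mul_le_mul_of_nonneg_left _ (by positivity)
        exact mul_le_mul_of_nonneg_left a3 (by positivity)
  -- the sum
  have hsum : |((BL n β F : ℚ) : ℝ)| ≤ (2 * (n : ℝ) + 1) *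
      (Real.exp K1 * (n : ℝ) ^ 60 * R0 n * (((n : ℝ) + 1) ^ 72 * V * (Real.exp K2 * s))) * B := by
    set c : ℝ := Real.exp K1 * (n : ℝ) ^ 60 * R0 n *
      (((n : ℝ) + 1) ^ 72 * V * (Real.exp K2 * s)) with hc
    have e : ((BL n β F : ℚ) : ℝ) = ∑ i' ∈ Finset.Icc 1 20,
        (∑ k ∈ sM n, ((pa (sM n) mM (PM n * EM n F) k i' : ℚ) : ℝ)) * ((β i' : ℚ) : ℝ) := by
      rw [BL_apply]
      unfold xb rho
      push_cast
      rfl
    rw [e]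
    refine (Finset.abs_sum_le_sum_abs _ _).trans ?_
    rw [hB, Finset.mul_sum]
    refine Finset.sum_le_sum fun i' hi' => ?_
    rw [abs_mul]
    refine mul_le_mul_of_nonneg_right ?_ (abs_nonneg _)
    refine (Finset.abs_sum_le_sum_abs _ _).trans ?_
    refine (Finset.sum_le_sum fun k hk => hpt k hk i' hi').trans ?_
    rw [Finset.sum_const, nsmul_eq_mul, Nat.card_Icc]
    have : ((4 * n + 1 - 2 * n : ℕ) : ℝ) = 2 * (n : ℝ) + 1 := by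
      have h : 4 * n + 1 - 2 * n = 2 * n + 1 := by omega
      rw [h]; push_cast; ring
    rw [this]
  refine hsum.trans ?_
  have hT : ∀ i, T2 (Real.log ((B + 1) * (3 * 2 ^ 72)) + K1 + K2) n i =
      (Real.exp (Real.log ((B + 1) * (3 * 2 ^ 72)) + K1 + K2) * (n : ℝ) ^ 200 * R0 n) *
        ((n : ℝ) ^ (4 * i) * Real.exp (LamN n i)) := by
    intro i; unfold T2; ring
  have hE : Real.exp (Real.log ((B + 1) * (3 * 2 ^ 72)) + K1 + K2) =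
      ((B + 1) * (3 * 2 ^ 72)) * Real.exp K1 * Real.exp K2 := by
    rw [Real.exp_add, Real.exp_add, Real.exp_log (by positivity)]
  set A : ℝ := Real.exp (Real.log ((B + 1) * (3 * 2 ^ 72)) + K1 + K2) * (n : ℝ) ^ 200 * R0 n with hA
  have hA0 : 0 ≤ A := by positivity
  have hS : Real.sqrt (T2 (Real.log ((B + 1) * (3 * 2 ^ 72)) + K1 + K2) n i) *
      Real.sqrt (T2 (Real.log ((B + 1) * (3 * 2 ^ 72)) + K1 + K2) n j) = A * s := by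
    rw [hT, hT, Real.sqrt_mul hA0, Real.sqrt_mul hA0, hs]
    have := Real.mul_self_sqrt hA0
    calc Real.sqrt A * Real.sqrt ((n : ℝ) ^ (4 * i) * Real.exp (LamN n i)) *
        (Real.sqrt A * Real.sqrt ((n : ℝ) ^ (4 * j) * Real.exp (LamN n j)))
        = (Real.sqrt A * Real.sqrt A) * (Real.sqrt ((n : ℝ) ^ (4 * i) * Real.exp (LamN n i)) *
          Real.sqrt ((n : ℝ) ^ (4 * j) * Real.exp (LamN n j))) := by ring
      _ = _ := by rw [this]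
  rw [hS, hA, hE]
  have hnum := G3T_num hn hB0
  calc (2 * (n : ℝ) + 1) *
      (Real.exp K1 * (n : ℝ) ^ 60 * R0 n * (((n : ℝ) + 1) ^ 72 * V * (Real.exp K2 * s))) * B
      = ((2 * (n : ℝ) + 1) * ((n : ℝ) ^ 60 * ((n : ℝ) + 1) ^ 72) * B) *
        (Real.exp K1 * Real.exp K2 * R0 n * V * s) := by ring
    _ ≤ (((B + 1) * (3 * 2 ^ 72)) * (n : ℝ) ^ 200) *
        (Real.exp K1 * Real.exp K2 * R0 n * V * s) :=
        mul_le_mul_of_nonneg_right hnum (by positivity)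
    _ = _ := by ring

end

end Pool.Agent.H574R2.D3
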