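import Pool.Agent.H574R2.D3.G3d

/-! Task G3s: the sum of the logarithms of the `T_i²`. -/

open Polynomial Pool.Agent.H337R2 Filter Topology

namespace Pool.Agent.H574R2.D3

noncomputable section

/-- lower Stirling bound -/
theorem G3s_lower (m : ℕ) (hm : 1 ≤ m) :
    (m : ℝ) * Real.log m - m ≤ Real.log (m.factorial : ℝ) := by
  have h1 := Real.pow_div_factorial_le_exp (m : ℝ) (Nat.cast_nonneg m) m
  have hmr : (0 : ℝ) < m := by exact_mod_cast hm
  have hf : (0 : ℝ) < (m.factorial : ℝ) := by exact_mod_cast Nat.factorial_pos m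
  have h2 : Real.log ((m : ℝ) ^ m / (m.factorial : ℝ)) ≤ m := by
    rw [Real.log_le_iff_le_exp (div_pos (pow_pos hmr m) hf)]
    exact h1
  rw [Real.log_div (pow_pos hmr m).ne' hf.ne', Real.log_pow] at h2
  linarith

/-- upper Stirling bound -/
theorem G3s_upper (m : ℕ) (hm : 1 ≤ m) :
    Real.log (m.factorial : ℝ) ≤ (m : ℝ) * Real.log m - m + Real.log m + 1 := by
  induction m, hm using Nat.le_induction with
  | base => simp
  | succ m hm ih =>
    have hmr : (0 : ℝ) < m := by exact_mod_cast hm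
    have hf : (0 : ℝ) < (m.factorial : ℝ) := by exact_mod_cast Nat.factorial_pos m
    have hm1 : (0 : ℝ) < (m : ℝ) + 1 := by linarith
    rw [Nat.factorial_succ]
    push_cast
    rw [Real.log_mul hm1.ne' hf.ne']
    have h1 := Real.one_sub_inv_le_log_of_pos (div_pos hm1 hmr)
    rw [Real.log_div hm1.ne' hmr.ne', inv_div] at h1
    have h2 : 1 - (m : ℝ) / (m + 1) = 1 / (m + 1) := by field_simp; ring
    rw [h2, div_le_iff₀ hm1] at h1
    nlinarith

theorem G3s_R0 (n : ℕ) (hn : 2 ≤ n) :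
    0 < R0 n ∧ Real.log (R0 n) ≤
      (36 * Real.log 2 + 6 * Real.log 3) * n + (20 * Real.log n + 50) := by
  have hnr : (0 : ℝ) < n := by exact_mod_cast (by omega : 0 < n)
  have hf1 : (0 : ℝ) < (n.factorial : ℝ) := by exact_mod_cast Nat.factorial_pos n
  have hf2 : (0 : ℝ) < ((2 * n).factorial : ℝ) := by exact_mod_cast Nat.factorial_pos (2 * n)
  have hf3 : (0 : ℝ) < ((3 * n).factorial : ℝ) := by exact_mod_cast Nat.factorial_pos (3 * n)
  have hR : R0 n = ((2 * n).factorial : ℝ) ^ 18 *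
      (((3 * n).factorial : ℝ) / (n.factorial : ℝ)) ^ 2 / (n.factorial : ℝ) ^ 40 := rfl
  have hpos : 0 < R0 n := by rw [hR]; positivity
  refine ⟨hpos, ?_⟩
  have hlog : Real.log (R0 n) = 18 * Real.log ((2 * n).factorial : ℝ)
      + 2 * (Real.log ((3 * n).factorial : ℝ) - Real.log (n.factorial : ℝ))
      - 40 * Real.log (n.factorial : ℝ) := by
    rw [hR, Real.log_div (by positivity) (by positivity), Real.log_mul (by positivity)
      (by positivity), Real.log_pow, Real.log_pow, Real.log_pow, Real.log_div hf3.ne' hf1.ne']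
    push_cast
    ring
  have h1 := G3s_lower n (by omega)
  have h2 := G3s_upper (2 * n) (by omega)
  have h3 := G3s_upper (3 * n) (by omega)
  push_cast at h2 h3
  rw [Real.log_mul two_ne_zero hnr.ne'] at h2
  rw [Real.log_mul three_ne_zero hnr.ne'] at h3
  have hl2 : Real.log 2 ≤ 1 := by
    have := Real.log_le_sub_one_of_pos (show (0 : ℝ) < 2 by norm_num)
    linarith
  have hl3 : Real.log 3 ≤ 2 := by
    have := Real.log_le_sub_one_of_pos (show (0 : ℝ) < 3 by norm_num)
    linarith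
  rw [hlog]
  nlinarith

theorem G3s_gauss (n : ℕ) (a b : ℝ) : ∑ i ∈ Finset.range n, (a + b * (i : ℝ)) =
    a * n + b * (n * (n - 1) / 2) := by
  induction n with
  | zero => simp
  | succ n ih =>
    rw [Finset.sum_range_succ, ih]
    push_cast
    ring

theorem G3s_Lam_full (n : ℕ) (hn : 1 ≤ n) : ∑ i ∈ Finset.range (4 * n), LamN n i =
    -(41185 / 1000) * (n : ℝ) ^ 2 + 8598 / 1000 * n := by
  have h1 : ∑ i ∈ Finset.range (4 * n), LamN n i = ∑ i ∈ Finset.range n, LamN n i
      + ∑ i ∈ Finset.range n, LamN n (n + i) + ∑ i ∈ Finset.range n, LamN n (n + n + i)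
      + ∑ i ∈ Finset.range n, LamN n (n + n + n + i) := by
    have : 4 * n = n + n + n + n := by ring
    rw [this, Finset.sum_range_add, Finset.sum_range_add, Finset.sum_range_add]
  have ha : ∀ i ∈ Finset.range n, LamN n i = 0 + (-(5991 / 1000)) * (i : ℝ) := by
    intro i hi
    rw [Finset.mem_range] at hi
    unfold LamN
    rw [if_pos hi.le]; ring
  have hb : ∀ i ∈ Finset.range n, LamN n (n + i) =
      (-(5991 / 1000) * (n : ℝ)) + (-(5797 / 1000)) * (i : ℝ) := by
    intro i hi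
    rw [Finset.mem_range] at hi
    unfold LamN
    rcases Nat.eq_zero_or_pos i with h0 | h0
    · subst h0
      rw [if_pos (by omega)]
      push_cast; ring
    · rw [if_neg (by omega), if_pos (by omega)]
      push_cast; ring
  have hc : ∀ i ∈ Finset.range n, LamN n (n + n + i) =
      (-(11788 / 1000) * (n : ℝ)) + (-(3020 / 1000)) * (i : ℝ) := by
    intro i hi
    rw [Finset.mem_range] at hi
    unfold LamN
    rcases Nat.eq_zero_or_pos i with h0 | h0
    · subst h0
      rw [if_neg (by omega), if_pos (by omega)]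
      push_cast; ring
    · rw [if_neg (by omega), if_neg (by omega), if_pos (by omega)]
      push_cast; ring
  have hd : ∀ i ∈ Finset.range n, LamN n (n + n + n + i) =
      (-(14808 / 1000) * (n : ℝ)) + (-(2388 / 1000)) * (i : ℝ) := by
    intro i hi
    rw [Finset.mem_range] at hi
    unfold LamN
    rcases Nat.eq_zero_or_pos i with h0 | h0
    · subst h0
      rw [if_neg (by omega), if_neg (by omega), if_pos (by omega)]
      push_cast; ring
    · rw [if_neg (by omega), if_neg (by omega), if_neg (by omega)]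
      push_cast; ring
  rw [h1, Finset.sum_congr rfl ha, Finset.sum_congr rfl hb, Finset.sum_congr rfl hc,
    Finset.sum_congr rfl hd, G3s_gauss, G3s_gauss, G3s_gauss, G3s_gauss]
  ring

theorem G3s_Lam_ge (n i : ℕ) (hi : i ≤ 4 * n) : -(18 * (n : ℝ)) ≤ LamN n i := by
  have hn0 : (0 : ℝ) ≤ n := Nat.cast_nonneg n
  have hi0 : (0 : ℝ) ≤ i := Nat.cast_nonneg i
  have hi' : (i : ℝ) ≤ 4 * n := by exact_mod_cast hi
  unfold LamN
  split_ifs with h1 h2 h3
  · have : (i : ℝ) ≤ n := by exact_mod_cast h1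
    linarith
  · have : (i : ℝ) ≤ 2 * n := by exact_mod_cast h2
    linarith
  · have : (i : ℝ) ≤ 3 * n := by exact_mod_cast h3
    linarith
  · linarith

theorem G3s_Lam (n : ℕ) (hn : 2 ≤ n) : ∑ i ∈ Finset.range (4 * n - 8), LamN n i ≤
    -(41185 / 1000) * (n : ℝ) ^ 2 + 153 * n := by
  have h1 := G3s_Lam_full n (by omega)
  have h2 : ∑ i ∈ Finset.range (4 * n), LamN n i = ∑ i ∈ Finset.range (4 * n - 8), LamN n i
      + ∑ i ∈ Finset.range 8, LamN n (4 * n - 8 + i) := by
    rw [← Finset.sum_range_add, Nat.sub_add_cancel (by omega)]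
  have h3 : ∑ i ∈ Finset.range 8, (-(18 * (n : ℝ))) ≤
      ∑ i ∈ Finset.range 8, LamN n (4 * n - 8 + i) := by
    apply Finset.sum_le_sum
    intro i hi
    rw [Finset.mem_range] at hi
    exact G3s_Lam_ge n _ (by omega)
  rw [Finset.sum_const, Finset.card_range, nsmul_eq_mul] at h3
  push_cast at h3
  have hn0 : (0 : ℝ) ≤ n := Nat.cast_nonneg n
  linarith

theorem G3_sum (K : ℝ) : ∀ ε : ℝ, 0 < ε → ∀ᶠ n : ℕ in atTop,
    ∑ i ∈ Finset.range (4 * n - 8), Real.log (T2 K n i) ≤
      32 * (n : ℝ) ^ 2 * Real.log n +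
      (144 * Real.log 2 + 24 * Real.log 3 - 41185 / 1000 + ε) * (n : ℝ) ^ 2 := by
  intro ε hε
  have hlo : ∀ᶠ n : ℕ in atTop, ‖Real.log (n : ℝ)‖ ≤ (ε / 1760) * ‖(n : ℝ)‖ := by
    have h := (Real.isLittleO_log_id_atTop.comp_tendsto tendsto_natCast_atTop_atTop).bound
      (show 0 < ε / 1760 by positivity)
    exact h
  have hK : ∀ᶠ n : ℕ in atTop, 2 * (4 * |K| + 353) / ε ≤ (n : ℝ) :=
    tendsto_natCast_atTop_atTop.eventually_ge_atTop _
  filter_upwards [hlo, hK, eventually_ge_atTop 2] with n h1 h2 hn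
  have hnr : (0 : ℝ) < n := by exact_mod_cast (by omega : 0 < n)
  have hn1 : (1 : ℝ) ≤ n := by exact_mod_cast (by omega : 1 ≤ n)
  have hlogn : 0 ≤ Real.log n := Real.log_nonneg hn1
  rw [Real.norm_of_nonneg hlogn, Real.norm_of_nonneg hnr.le] at h1
  obtain ⟨hR, hRl⟩ := G3s_R0 n hn
  have hT : ∀ i ∈ Finset.range (4 * n - 8), Real.log (T2 K n i) =
      (K + 200 * Real.log n + Real.log (R0 n)) + (4 * Real.log n) * (i : ℝ) + LamN n i := by
    intro i _
    unfold T2
    rw [Real.log_mul (by positivity) (Real.exp_pos _).ne', Real.log_exp,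
      Real.log_mul (by positivity) (by positivity), Real.log_mul (by positivity) hR.ne',
      Real.log_mul (Real.exp_pos _).ne' (by positivity), Real.log_exp, Real.log_pow,
      Real.log_pow]
    push_cast
    ring
  rw [Finset.sum_congr rfl hT, Finset.sum_add_distrib, G3s_gauss]
  have hLam := G3s_Lam n hn
  set N : ℝ := ((4 * n - 8 : ℕ) : ℝ) with hN
  have hN0 : 0 ≤ N := Nat.cast_nonneg _
  have hN4 : N ≤ 4 * n := by
    rw [hN]
    have : (4 * n - 8 : ℕ) ≤ 4 * n := Nat.sub_le _ _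
    exact_mod_cast this
  have hl2 : 0 ≤ Real.log 2 := Real.log_nonneg (by norm_num)
  have hl3 : 0 ≤ Real.log 3 := Real.log_nonneg (by norm_num)
  set X : ℝ := |K| + 200 * Real.log n + ((36 * Real.log 2 + 6 * Real.log 3) * n +
    (20 * Real.log n + 50)) with hX
  have hX0 : 0 ≤ X := by positivity
  have hKa : K ≤ |K| := le_abs_self K
  have e1 : (K + 200 * Real.log n + Real.log (R0 n)) * N ≤ X * (4 * n) := by
    calc (K + 200 * Real.log n + Real.log (R0 n)) * N ≤ X * N := by
          apply mul_le_mul_of_nonneg_right _ hN0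
          rw [hX]; linarith
      _ ≤ X * (4 * n) := mul_le_mul_of_nonneg_left hN4 hX0
  have e2 : 4 * Real.log n * (N * (N - 1) / 2) ≤ 32 * (n : ℝ) ^ 2 * Real.log n := by
    have : N * (N - 1) ≤ 16 * (n : ℝ) ^ 2 := by nlinarith
    nlinarith
  have e3 : 2 * (4 * |K| + 353) ≤ ε * n := by
    rw [div_le_iff₀ hε] at h2
    linarith
  have e4 : 880 * Real.log n * n ≤ ε / 2 * (n : ℝ) ^ 2 := by
    nlinarith
  have e5 : (4 * |K| + 353) * n ≤ ε / 2 * (n : ℝ) ^ 2 := by
    nlinarith
  have e6 : X * (4 * n) = 4 * |K| * n + 880 * Real.log n * n + 200 * n +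
      (144 * Real.log 2 + 24 * Real.log 3) * (n : ℝ) ^ 2 := by
    rw [hX]; ring
  nlinarith

end

end Pool.Agent.H574R2.D3
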