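import Pool.Agent.H574R2.D3.G4of
import Pool.Agent.H574R2.D3.A7
import Pool.Agent.H574R2.D3.B1
import Pool.Agent.H574R2.D3.G1s
import Pool.Agent.H574R2.D3.G2
import Pool.Agent.H574R2.D3.G3T
import Pool.Agent.H574R2.D3.G3s

open Polynomial Pool.Agent.H337R2 Filter Topology

namespace Pool.Agent.H574R2.D3

noncomputable section

lemma G4x_T2_nonneg (K : ℝ) (n i : ℕ) : 0 ≤ T2 K n i := by
  unfold T2 R0; positivity

/-- total archimedean bound -/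
theorem G4_arch (α β : ℕ → ℚ) (θ : ℝ) (h : ∀ i, Odd i → 3 ≤ i → i ≤ 19 → zr i = (α i : ℝ) + θ * (β i : ℝ)) :
    ∀ ε : ℝ, 0 < ε → ∀ᶠ n : ℕ in atTop, DD n α β ≠ 0 →
    Real.log |((DD n α β : ℚ) : ℝ)| ≤ 96 * (n : ℝ) ^ 2 * Real.log n +
      (-992 * Real.log 2 + 378 * Real.log 3 - 50 * Real.log 5 + 154 * Real.log 7 - 45649 / 1000 + ε) * (n : ℝ) ^ 2 :=
  G4_arch_of (fun m A B θ x w hw hF P P' hP hP' S T c a hS0 hT0 hc0 ha0 ha K hK hS hT =>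
      A7_det_bound m A B θ x w hw hF P P' hP hP' S T c a hS0 hT0 hc0 ha0 ha K hK hS hT)
    (fun hn α β θ h Q hQ => B1_hasSum hn α β θ h Q hQ) G1_sup G2_sum T2 G4x_T2_nonneg G3_T G3_sum α β θ h

end

end Pool.Agent.H574R2.D3
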