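import Pool.Agent.H574R2.D3.Defs
import Pool.Agent.H337R2.Asym

open Polynomial Pool.Agent.H337R2 Filter Topology

namespace Pool.Agent.H574R2.D3

noncomputable section

lemma G4x_prod_monic (m : ℕ) (a : ℕ → ℚ) :
    (∏ l ∈ Finset.range m, (X - C (a l)) : ℚ[X]).Monic ∧
      (∏ l ∈ Finset.range m, (X - C (a l)) : ℚ[X]).natDegree = m := by
  constructor
  · exact monic_prod_of_monic _ _ fun i _ => monic_X_sub_C _
  · rw [natDegree_prod_of_monic _ _ fun i _ => monic_X_sub_C _]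
    simp

lemma G4x_PF (n i : ℕ) : (PF n i).Monic ∧ (PF n i).natDegree = i := G4x_prod_monic i _

lemma G4x_PB2 (n i : ℕ) : (PB2 n i).Monic ∧ (PB2 n i).natDegree = i := by
  unfold PB2
  refine ⟨(monic_X_sub_C _).pow _, ?_⟩
  rw [(monic_X_sub_C _).natDegree_pow, natDegree_X_sub_C, mul_one]

lemma G4x_wv_nonneg (n v : ℕ) : 0 ≤ wv n v := by unfold wv; positivity

lemma G4x_gv_nonneg (n j v : ℕ) : 0 ≤ gv n j v := by
  unfold gv
  have := G4x_wv_nonneg n v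
  positivity

/-- `(v²+1)^(4n-8) ≤ 2 v^(8n-16)` -/
lemma G4x_cpow {n v : ℕ} (hn : 5 ≤ n) (hv : 3 * n + 1 ≤ v) :
    ((v : ℝ) ^ 2 + 1) ^ (4 * n - 8) ≤ 2 * (v : ℝ) ^ (8 * n - 16) := by
  have hv0 : (0 : ℝ) < v := by exact_mod_cast (by omega : 0 < v)
  have h1 : ((v : ℝ) ^ 2 + 1) = (v : ℝ) ^ 2 * (1 + 1 / (v : ℝ) ^ 2) := by field_simp
  have h2 : 1 + 1 / (v : ℝ) ^ 2 ≤ Real.exp (1 / (v : ℝ) ^ 2) := by
    have := Real.add_one_le_exp (1 / (v : ℝ) ^ 2); linarith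
  rw [h1, mul_pow, ← pow_mul, show 2 * (4 * n - 8) = 8 * n - 16 by omega]
  have h3 : (1 + 1 / (v : ℝ) ^ 2) ^ (4 * n - 8) ≤ 2 := by
    calc (1 + 1 / (v : ℝ) ^ 2) ^ (4 * n - 8) ≤ (Real.exp (1 / (v : ℝ) ^ 2)) ^ (4 * n - 8) :=
          pow_le_pow_left₀ (by positivity) h2 _
      _ = Real.exp (((4 * n - 8 : ℕ) : ℝ) * (1 / (v : ℝ) ^ 2)) := by rw [Real.exp_nat_mul]
      _ ≤ Real.exp (Real.log 2) := by
          apply Real.exp_le_exp.2
          have h4 : ((4 * n - 8 : ℕ) : ℝ) ≤ 4 * n := by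
            have : 4 * n - 8 ≤ 4 * n := by omega
            exact_mod_cast this
          have h5 : (3 * (n : ℝ)) ≤ v := by
            have : 3 * n ≤ v := by omega
            exact_mod_cast this
          have hn' : (5 : ℝ) ≤ n := by exact_mod_cast hn
          have h6 : (9 * (n : ℝ) ^ 2) ≤ (v : ℝ) ^ 2 := by nlinarith
          have h7 : ((4 * n - 8 : ℕ) : ℝ) * (1 / (v : ℝ) ^ 2) ≤ 4 * n * (1 / (9 * (n : ℝ) ^ 2)) := by
            apply mul_le_mul h4 _ (by positivity) (by positivity)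
            exact one_div_le_one_div_of_le (by positivity) h6
          have h8 : 4 * (n : ℝ) * (1 / (9 * (n : ℝ) ^ 2)) ≤ 1 / 2 := by
            rw [mul_one_div, div_le_div_iff₀ (by positivity) (by norm_num)]
            nlinarith
          have := Real.log_two_gt_d9
          linarith
      _ = 2 := Real.exp_log (by norm_num)
  calc (v : ℝ) ^ (8 * n - 16) * (1 + 1 / (v : ℝ) ^ 2) ^ (4 * n - 8) ≤ (v : ℝ) ^ (8 * n - 16) * 2 := by
        apply mul_le_mul_of_nonneg_left h3 (by positivity)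
    _ = _ := by ring

lemma G4x_entry {n i j v t : ℕ} (hn : 5 ≤ n) (hv : v = 3 * n + 1 + t) (Si Sj : ℝ) (hSi : 0 ≤ Si)
    (hSj : 0 ≤ Sj) (h1 : 2 * gv n i v ≤ Si ^ 2) (h2 : 2 * gv n j v ≤ Sj ^ 2) :
    wv n v * ((v : ℝ) ^ 2 + 1) ^ (4 * n - 8) *
      (|(((PF n i).eval ((v : ℚ) ^ 2) : ℚ) : ℝ)| * |(((PF n j).eval ((v : ℚ) ^ 2) : ℚ) : ℝ)|) ≤
      1 / ((t : ℝ) + 1) ^ 2 * (Si * Sj) := by
  have hv0 : (0 : ℝ) < v := by exact_mod_cast (by omega : 0 < v)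
  have hw := G4x_wv_nonneg n v
  set p := |(((PF n i).eval ((v : ℚ) ^ 2) : ℚ) : ℝ)| with hp
  set q := |(((PF n j).eval ((v : ℚ) ^ 2) : ℚ) : ℝ)| with hq
  have hp0 : 0 ≤ p := abs_nonneg _
  have hq0 : 0 ≤ q := abs_nonneg _
  have g1 : gv n i v = wv n v * (v : ℝ) ^ (8 * n - 14) * p ^ 2 := by unfold gv; rw [hp, sq_abs]
  have g2 : gv n j v = wv n v * (v : ℝ) ^ (8 * n - 14) * q ^ 2 := by unfold gv; rw [hq, sq_abs]
  have hexp : (v : ℝ) ^ (8 * n - 14) = (v : ℝ) ^ (8 * n - 16) * (v : ℝ) ^ 2 := by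
    rw [← pow_add]; congr 1; omega
  set W := wv n v * (v : ℝ) ^ (8 * n - 16) with hW
  have hW0 : 0 ≤ W := by rw [hW]; positivity
  have e1 : gv n i v = W * (v : ℝ) ^ 2 * p ^ 2 := by rw [g1, hexp, hW]; ring
  have e2 : gv n j v = W * (v : ℝ) ^ 2 * q ^ 2 := by rw [g2, hexp, hW]; ring
  rw [e1] at h1
  rw [e2] at h2
  -- 2 W v² p q ≤ Si Sj
  have h3 : 2 * (W * (v : ℝ) ^ 2 * (p * q)) ≤ Si * Sj := by
    apply le_of_pow_le_pow_left₀ two_ne_zero (by positivity)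
    calc (2 * (W * (v : ℝ) ^ 2 * (p * q))) ^ 2 = (2 * (W * (v : ℝ) ^ 2 * p ^ 2)) * (2 * (W * (v : ℝ) ^ 2 * q ^ 2)) := by ring
      _ ≤ Si ^ 2 * Sj ^ 2 := mul_le_mul h1 h2 (by positivity) (by positivity)
      _ = _ := by ring
  have ht : ((t : ℝ) + 1) ^ 2 ≤ (v : ℝ) ^ 2 := by
    apply pow_le_pow_left₀ (by positivity)
    have : t + 1 ≤ v := by omega
    exact_mod_cast this
  have h4 := G4x_cpow hn (v := v) (by omega)
  calc wv n v * ((v : ℝ) ^ 2 + 1) ^ (4 * n - 8) * (p * q)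
      ≤ wv n v * (2 * (v : ℝ) ^ (8 * n - 16)) * (p * q) := by
        apply mul_le_mul_of_nonneg_right _ (by positivity)
        exact mul_le_mul_of_nonneg_left h4 hw
    _ = (2 * (W * (v : ℝ) ^ 2 * (p * q))) / (v : ℝ) ^ 2 := by rw [hW]; field_simp
    _ ≤ (Si * Sj) / (v : ℝ) ^ 2 := by
        apply div_le_div_of_nonneg_right h3 (by positivity)
    _ ≤ (Si * Sj) / ((t : ℝ) + 1) ^ 2 := by
        apply div_le_div_of_nonneg_left (by positivity) (by positivity) ht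
    _ = _ := by ring

lemma G4x_sum_a : Summable (fun t : ℕ => 1 / ((t : ℝ) + 1) ^ 2) ∧ ∑' t : ℕ, 1 / ((t : ℝ) + 1) ^ 2 ≤ 2 := by
  have h0 : Summable (fun t : ℕ => 1 / ((t : ℝ)) ^ 2) := Real.summable_one_div_nat_pow.2 (by norm_num)
  have h1 : Summable (fun t : ℕ => 1 / ((t : ℝ) + 1) ^ 2) := by
    have := (summable_nat_add_iff 1).2 h0
    simpa using this
  refine ⟨h1, ?_⟩
  apply Real.tsum_le_of_sum_range_le (fun t => by positivity)
  intro N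
  have key : ∀ N : ℕ, ∑ t ∈ Finset.range (N + 1), 1 / ((t : ℝ) + 1) ^ 2 ≤ 2 - 1 / ((N : ℝ) + 1) := by
    intro N
    induction N with
    | zero => norm_num
    | succ k ih =>
      rw [Finset.sum_range_succ]
      have hk : (0 : ℝ) ≤ k := by positivity
      have : 1 / (((k + 1 : ℕ) : ℝ) + 1) ^ 2 ≤ 1 / ((k : ℝ) + 1) - 1 / (((k + 1 : ℕ) : ℝ) + 1) := by
        rw [div_sub_div _ _ (by positivity) (by positivity)]
        push_cast
        rw [div_le_div_iff₀ (by positivity) (by positivity)]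
        nlinarith
      linarith
  rcases N with _ | N
  · simp
  · have h2 := key N
    have h3 : 0 ≤ 1 / ((N : ℝ) + 1) := by positivity
    linarith

/-- the number of indices with a given `2 i / n` -/
lemma G4x_count {n : ℕ} (hn : 1 ≤ n) (m b : ℕ) :
    2 * ((Finset.range m).filter fun i => 2 * i / n = b).card ≤ n + 1 := by
  have hsub : ((Finset.range m).filter fun i => 2 * i / n = b) ⊆
      Finset.Ico ((b * n + 1) / 2) (((b + 1) * n + 1) / 2) := by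
    intro i hi
    rw [Finset.mem_filter] at hi
    rw [Finset.mem_Ico]
    have h := hi.2
    have h1 : b * n ≤ 2 * i := by
      rw [← h]; exact Nat.div_mul_le_self _ _
    have h2 : 2 * i < (b + 1) * n := by
      rw [← h, Nat.add_mul, one_mul]
      have := Nat.lt_div_mul_add (a := 2 * i) (b := n) (by omega)
      omega
    constructor
    · omega
    · omega
  have h := Finset.card_le_card hsub
  rw [Nat.card_Ico] at h
  have e : (b + 1) * n = b * n + n := by ring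
  rw [e] at h
  omega

lemma G4x_Hb {n : ℕ} (hn : 1 ≤ n) :
    2 * (n : ℝ) * ∑ i ∈ Finset.range (4 * n - 8), (Hb (2 * i / n) : ℝ) ≤ 3536 / 1000 * (n : ℝ) ^ 2 + 4 * n := by
  have hmaps : ∀ i ∈ Finset.range (4 * n - 8), 2 * i / n ∈ Finset.range 8 := by
    intro i hi
    rw [Finset.mem_range] at hi ⊢
    rw [Nat.div_lt_iff_lt_mul (by omega)]
    omega
  rw [← Finset.sum_fiberwise_of_maps_to hmaps]
  have h1 : ∀ b ∈ Finset.range 8, ∑ i ∈ (Finset.range (4 * n - 8)).filter (fun i => 2 * i / n = b),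
      (Hb (2 * i / n) : ℝ) ≤ (Hb b : ℝ) * (((n : ℝ) + 1) / 2) := by
    intro b _
    have e : ∑ i ∈ (Finset.range (4 * n - 8)).filter (fun i => 2 * i / n = b),
      (Hb (2 * i / n) : ℝ) = (((Finset.range (4 * n - 8)).filter (fun i => 2 * i / n = b)).card : ℝ) * (Hb b : ℝ) := by
      rw [← nsmul_eq_mul, ← Finset.sum_const]
      apply Finset.sum_congr rfl
      intro i hi
      rw [(Finset.mem_filter.1 hi).2]
    rw [e, mul_comm]
    have hb : (0 : ℝ) ≤ (Hb b : ℝ) := by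
      have : (0 : ℚ) ≤ Hb b := by
        unfold Hb
        split <;> norm_num
      exact_mod_cast this
    apply mul_le_mul_of_nonneg_left _ hb
    have h2 := G4x_count hn (4 * n - 8) b
    have h3 : (2 : ℝ) * (((Finset.range (4 * n - 8)).filter (fun i => 2 * i / n = b)).card : ℝ) ≤ n + 1 := by
      exact_mod_cast h2
    linarith
  have h2 := Finset.sum_le_sum h1
  rw [← Finset.sum_mul] at h2
  have h3 : ∑ b ∈ Finset.range 8, (Hb b : ℝ) = 3536 / 1000 := by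
    simp only [Finset.sum_range_succ, Finset.sum_range_zero, Hb]
    norm_num
  rw [h3] at h2
  have hn0 : (0 : ℝ) ≤ n := by positivity
  calc 2 * (n : ℝ) * _ ≤ 2 * (n : ℝ) * (3536 / 1000 * (((n : ℝ) + 1) / 2)) :=
        mul_le_mul_of_nonneg_left h2 (by positivity)
    _ ≤ _ := by nlinarith

lemma G4x_final_ev (ε : ℝ) (hε : 0 < ε) :
    ∀ᶠ n : ℕ in atTop, 8 * (n : ℝ) * (4 + Real.log n) + 12 * (n : ℝ) ≤ ε * (n : ℝ) ^ 2 := by
  have h1 : Tendsto (fun n : ℕ => Real.log (n : ℝ) / n) atTop (𝓝 0) := by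
    have := Real.isLittleO_log_id_atTop.tendsto_div_nhds_zero
    exact this.comp tendsto_natCast_atTop_atTop
  have h2 : Tendsto (fun n : ℕ => 44 / (n : ℝ)) atTop (𝓝 0) := tendsto_const_div_atTop_nhds_zero_nat 44
  have h3 : Tendsto (fun n : ℕ => 44 / (n : ℝ) + 8 * (Real.log (n : ℝ) / n)) atTop (𝓝 0) := by
    have := h2.add (h1.const_mul 8)
    simpa using this
  have h4 := h3.eventually (gt_mem_nhds hε)
  filter_upwards [h4, eventually_gt_atTop 0] with n hn hn0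
  have hn' : (0 : ℝ) < n := by exact_mod_cast hn0
  have e : 8 * (n : ℝ) * (4 + Real.log n) + 12 * n = (44 / (n : ℝ) + 8 * (Real.log (n : ℝ) / n)) * (n : ℝ) ^ 2 := by
    field_simp
    ring
  rw [e]
  exact mul_le_mul_of_nonneg_right hn.le (by positivity)

/-- total archimedean bound, from the other tasks -/
theorem G4_arch_of
    (hA7 : ∀ (m : ℕ) (A B : ℚ[X] →ₗ[ℚ] ℚ) (θ : ℝ) (x : ℕ → ℚ) (w : ℕ → ℝ) (_ : ∀ t, 0 ≤ w t)
      (_ : ∀ P : ℚ[X], P.natDegree ≤ 3 * m →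
        HasSum (fun t => w t * ((P.eval (x t) : ℚ) : ℝ)) (((A P : ℚ) : ℝ) + θ * ((B P : ℚ) : ℝ)))
      (P P' : ℕ → ℚ[X])
      (_ : ∀ i < m, (P i).Monic ∧ (P i).natDegree = i)
      (_ : ∀ i < m, (P' i).Monic ∧ (P' i).natDegree = i)
      (S T c a : ℕ → ℝ) (_ : ∀ i, 0 ≤ S i) (_ : ∀ i, 0 ≤ T i) (_ : ∀ t, 0 ≤ c t)
      (_ : ∀ t, 0 ≤ a t) (_ : Summable a) (K : ℝ) (_ : ∑' t, a t ≤ K)
      (_ : ∀ t, ∀ i < m, ∀ j < m,
        w t * c t ^ m * (|(((P i).eval (x t) : ℚ) : ℝ)| * |(((P j).eval (x t) : ℚ) : ℝ)|) ≤ a t * (S i * S j))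
      (_ : ∀ v : Fin m → ℕ, ∀ i < m, ∀ j < m,
        |((B ((∏ k, (X - C (x (v k)))) * (P' i * P' j)) : ℚ) : ℝ)| ≤ (∏ k, c (v k)) * (T i * T j)),
      |((MD A B m : ℚ) : ℝ)| ≤ (m.factorial : ℝ) ^ 2 * K ^ m *
        ((∏ i ∈ Finset.range m, S i ^ 2) * ∏ i ∈ Finset.range m, T i ^ 2))
    (hB1 : ∀ {n : ℕ} (_ : 5 ≤ n) (α β : ℕ → ℚ) (θ : ℝ)
      (_ : ∀ i, Odd i → 3 ≤ i → i ≤ 19 → zr i = (α i : ℝ) + θ * (β i : ℝ))
      (Q : ℚ[X]) (_ : Q.natDegree ≤ 12 * n),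
      HasSum (fun t : ℕ => wv n (3 * n + 1 + t) * ((Q.eval (((3 * n + 1 + t : ℕ) : ℚ) ^ 2) : ℚ) : ℝ))
        (((AL n α Q : ℚ) : ℝ) + θ * ((BL n β Q : ℚ) : ℝ)))
    (hG1 : ∃ N0 : ℕ, ∀ n : ℕ, N0 ≤ n → ∀ j < 4 * n - 8, ∀ v : ℕ, 3 * n + 1 ≤ v →
      gv n j v ≤ gv n j (3 * n + 1 + j) * Real.exp (2 * (Hb (2 * j / n) : ℝ) * n))
    (hG2 : ∀ ε : ℝ, 0 < ε → ∀ᶠ n : ℕ in atTop,
      ∑ j ∈ Finset.range (4 * n - 8), Real.log (gv n j (3 * n + 1 + j)) ≤
        64 * (n : ℝ) ^ 2 * Real.log n +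
        (-1136 * Real.log 2 + 354 * Real.log 3 - 50 * Real.log 5 + 154 * Real.log 7 - 8 + ε) * (n : ℝ) ^ 2)
    (T2 : ℝ → ℕ → ℕ → ℝ) (hT2 : ∀ K n i, 0 ≤ T2 K n i)
    (hG3T : ∀ β : ℕ → ℚ, ∃ K : ℝ, ∀ n : ℕ, 2 ≤ n → ∀ (m : ℕ) (v : Fin m → ℕ), (∀ l, n ≤ v l) →
      ∀ i ≤ 4 * n, ∀ j ≤ 4 * n,
      |((BL n β ((∏ l, (X - C ((v l : ℚ) ^ 2))) * (PB2 n i * PB2 n j)) : ℚ) : ℝ)| ≤
        (∏ l, ((v l : ℝ) ^ 2 + 1)) * (Real.sqrt (T2 K n i) * Real.sqrt (T2 K n j)))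
    (hG3s : ∀ K : ℝ, ∀ ε : ℝ, 0 < ε → ∀ᶠ n : ℕ in atTop,
      ∑ i ∈ Finset.range (4 * n - 8), Real.log (T2 K n i) ≤
        32 * (n : ℝ) ^ 2 * Real.log n +
        (144 * Real.log 2 + 24 * Real.log 3 - 41185 / 1000 + ε) * (n : ℝ) ^ 2)
    (α β : ℕ → ℚ) (θ : ℝ) (h : ∀ i, Odd i → 3 ≤ i → i ≤ 19 → zr i = (α i : ℝ) + θ * (β i : ℝ)) :
    ∀ ε : ℝ, 0 < ε → ∀ᶠ n : ℕ in atTop, DD n α β ≠ 0 →
    Real.log |((DD n α β : ℚ) : ℝ)| ≤ 96 * (n : ℝ) ^ 2 * Real.log n +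
      (-992 * Real.log 2 + 378 * Real.log 3 - 50 * Real.log 5 + 154 * Real.log 7 - 45649 / 1000 + ε) * (n : ℝ) ^ 2 := by
  intro ε hε
  obtain ⟨N0, hN0⟩ := hG1
  obtain ⟨K, hK⟩ := hG3T β
  filter_upwards [hG2 (ε / 3) (by positivity), hG3s K (ε / 3) (by positivity), G4x_final_ev (ε / 3) (by positivity),
    eventually_ge_atTop 5, eventually_ge_atTop N0] with n h2 h3 hev hn5 hnN hD
  set m := 4 * n - 8 with hm
  have hm4 : m ≤ 4 * n := by omega
  set S : ℕ → ℝ := fun i => Real.sqrt (2 * (gv n i (3 * n + 1 + i) * Real.exp (2 * (Hb (2 * i / n) : ℝ) * n))) with hS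
  set T : ℕ → ℝ := fun i => Real.sqrt (T2 K n i) with hT
  have hS0 : ∀ i, 0 ≤ S i := fun i => Real.sqrt_nonneg _
  have hT0 : ∀ i, 0 ≤ T i := fun i => Real.sqrt_nonneg _
  have hS2 : ∀ i, S i ^ 2 = 2 * (gv n i (3 * n + 1 + i) * Real.exp (2 * (Hb (2 * i / n) : ℝ) * n)) := by
    intro i
    apply Real.sq_sqrt
    have := G4x_gv_nonneg n i (3 * n + 1 + i)
    positivity
  have hT2' : ∀ i, T i ^ 2 = T2 K n i := fun i => Real.sq_sqrt (hT2 _ _ _)
  have main := hA7 m (AL n α) (BL n β) θ (fun t => ((3 * n + 1 + t : ℕ) : ℚ) ^ 2) (fun t => wv n (3 * n + 1 + t))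
    (fun t => G4x_wv_nonneg _ _) (fun P hP => hB1 hn5 α β θ h P (by omega)) (PF n) (PB2 n)
    (fun i _ => G4x_PF n i) (fun i _ => G4x_PB2 n i) S T (fun t => (((3 * n + 1 + t : ℕ) : ℝ)) ^ 2 + 1)
    (fun t => 1 / ((t : ℝ) + 1) ^ 2) hS0 hT0 (fun t => by positivity) (fun t => by positivity) G4x_sum_a.1 2 G4x_sum_a.2
    (by
      intro t i hi j hj
      have e1 := hN0 n hnN i hi (3 * n + 1 + t) (by omega)
      have e2 := hN0 n hnN j hj (3 * n + 1 + t) (by omega)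
      exact G4x_entry hn5 rfl (S i) (S j) (hS0 i) (hS0 j) (by rw [hS2]; linarith) (by rw [hS2]; linarith))
    (by
      intro v i hi j hj
      exact hK n (by omega) m (fun k => 3 * n + 1 + v k) (fun l => by omega) i (by omega) j (by omega))
  have hDD : DD n α β = MD (AL n α) (BL n β) m := rfl
  rw [← hDD] at main
  have hpos : 0 < |((DD n α β : ℚ) : ℝ)| := abs_pos.2 (by exact_mod_cast hD)
  have hrhs := lt_of_lt_of_le hpos main
  have hmf : (0 : ℝ) < (m.factorial : ℝ) := by exact_mod_cast Nat.factorial_pos _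
  have hprod : (∏ i ∈ Finset.range m, S i ^ 2) * ∏ i ∈ Finset.range m, T i ^ 2 ≠ 0 := by
    intro hc
    rw [hc, mul_zero] at hrhs
    exact lt_irrefl _ hrhs
  have hpS : ∏ i ∈ Finset.range m, S i ^ 2 ≠ 0 := left_ne_zero_of_mul hprod
  have hpT : ∏ i ∈ Finset.range m, T i ^ 2 ≠ 0 := right_ne_zero_of_mul hprod
  have hSi : ∀ i ∈ Finset.range m, S i ^ 2 ≠ 0 := Finset.prod_ne_zero_iff.1 hpS
  have hTi : ∀ i ∈ Finset.range m, T i ^ 2 ≠ 0 := Finset.prod_ne_zero_iff.1 hpT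
  have hlog := Real.log_le_log hpos main
  rw [Real.log_mul (by positivity) hprod, Real.log_mul (by positivity) (by positivity), Real.log_mul hpS hpT,
    Real.log_prod hSi, Real.log_prod hTi, Real.log_pow, Real.log_pow] at hlog
  have hlS : ∀ i ∈ Finset.range m, Real.log (S i ^ 2) =
      Real.log 2 + Real.log (gv n i (3 * n + 1 + i)) + 2 * n * (Hb (2 * i / n) : ℝ) := by
    intro i hi
    have := hSi i hi
    rw [hS2] at this
    have hg : gv n i (3 * n + 1 + i) * Real.exp (2 * (Hb (2 * i / n) : ℝ) * n) ≠ 0 := right_ne_zero_of_mul this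
    have hg' : gv n i (3 * n + 1 + i) ≠ 0 := left_ne_zero_of_mul hg
    rw [hS2, Real.log_mul (by norm_num) hg, Real.log_mul hg' (Real.exp_pos _).ne', Real.log_exp]
    ring
  rw [Finset.sum_congr rfl hlS, Finset.sum_add_distrib, Finset.sum_add_distrib, Finset.sum_const, Finset.card_range,
    nsmul_eq_mul, ← Finset.mul_sum] at hlog
  simp only [hT2'] at hlog
  have hHb := G4x_Hb (n := n) (by omega)
  rw [← hm] at hHb
  have hn0 : (0 : ℝ) < n := by exact_mod_cast (by omega : 0 < n)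
  have hmR : (m : ℝ) ≤ 4 * n := by exact_mod_cast hm4
  have hm0 : (0 : ℝ) < m := by exact_mod_cast (by omega : 0 < m)
  have hfac : Real.log (m.factorial : ℝ) ≤ m * Real.log m := by
    rw [← Real.log_pow]
    apply Real.log_le_log hmf
    exact_mod_cast Nat.factorial_le_pow m
  have hlm : Real.log m ≤ Real.log 4 + Real.log n := by
    rw [← Real.log_mul (by norm_num) hn0.ne']
    exact Real.log_le_log hm0 hmR
  have hl4 : Real.log 4 ≤ 2 := by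
    have : Real.log 4 = 2 * Real.log 2 := by
      rw [show (4 : ℝ) = 2 ^ 2 by norm_num, Real.log_pow]; norm_num
    have h9 := Real.log_two_lt_d9
    linarith
  have hl2 : Real.log 2 ≤ 1 := by
    have h9 := Real.log_two_lt_d9
    linarith
  have hln : 0 ≤ Real.log n := Real.log_natCast_nonneg n
  have hfac2 : (m : ℝ) * Real.log m ≤ 4 * n * (2 + Real.log n) := by
    calc (m : ℝ) * Real.log m ≤ m * (2 + Real.log n) := mul_le_mul_of_nonneg_left (by linarith) hm0.le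
      _ ≤ _ := mul_le_mul_of_nonneg_right hmR (by linarith)
  have hm2 : (m : ℝ) * Real.log 2 ≤ 4 * n := by
    have h0 : 0 ≤ Real.log 2 := Real.log_nonneg (by norm_num)
    calc (m : ℝ) * Real.log 2 ≤ m * 1 := mul_le_mul_of_nonneg_left hl2 hm0.le
      _ ≤ _ := by linarith
  push_cast at hlog
  nlinarith [hlog, hHb, hfac, hfac2, hm2, h2, h3, hev]

end

end Pool.Agent.H574R2.D3
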