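import Pool.Agent.H574R2.D3.Defs

/-!
# The local determinants are nonzero (task H5)

The values `Fm e`, `Bm i0 e` are computed modulo `7` (truncated power series modulo `7`, stored as
decimal digits); the determinants are nonzero modulo `7`.
-/

set_option autoImplicit false

open Polynomial Pool.Agent.H337R2

namespace Pool.Agent.H574R2.D3

namespace H5

theorem fact7 : Fact (Nat.Prime 7) := ⟨by norm_num⟩

attribute [local instance] fact7

/-- `x` reduces to `n` modulo `7` -/
def Rl (x : ℚ) (n : ℕ) : Prop :=
  ∃ z : ℤ_[7], (z : ℚ_[7]) = (x : ℚ_[7]) ∧ PadicInt.toZMod z = (n : ZMod 7)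

theorem Rl.add {x y : ℚ} {m n : ℕ} (hx : Rl x m) (hy : Rl y n) : Rl (x + y) (m + n) := by
  obtain ⟨z, hz, hz'⟩ := hx
  obtain ⟨w, hw, hw'⟩ := hy
  exact ⟨z + w, by rw [PadicInt.coe_add, hz, hw, Rat.cast_add], by
    rw [map_add, hz', hw', Nat.cast_add]⟩

theorem Rl.mul {x y : ℚ} {m n : ℕ} (hx : Rl x m) (hy : Rl y n) : Rl (x * y) (m * n) := by
  obtain ⟨z, hz, hz'⟩ := hx
  obtain ⟨w, hw, hw'⟩ := hy
  exact ⟨z * w, by rw [PadicInt.coe_mul, hz, hw, Rat.cast_mul], by
    rw [map_mul, hz', hw', Nat.cast_mul]⟩

theorem Rl.congr {x : ℚ} {m n : ℕ} (h : Rl x m) (hmn : m % 7 = n % 7) : Rl x n := by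
  obtain ⟨z, hz, hz'⟩ := h
  refine ⟨z, hz, hz'.trans ?_⟩
  rw [← ZMod.natCast_mod m 7, hmn, ZMod.natCast_mod]

theorem Rl.nat (n : ℕ) : Rl (n : ℚ) n :=
  ⟨(n : ℤ_[7]), by rw [PadicInt.coe_natCast, Rat.cast_natCast], map_natCast _ _⟩

theorem Rl.neg_one : Rl (-1) 6 :=
  ⟨-1, by rw [PadicInt.coe_neg, PadicInt.coe_one, Rat.cast_neg, Rat.cast_one], by
    rw [map_neg, map_one]; decide⟩

theorem Rl.neg {x : ℚ} {n : ℕ} (h : Rl x n) : Rl (-x) (6 * n) := by
  have := Rl.neg_one.mul h
  rwa [neg_one_mul] at this

theorem Rl.pow {x : ℚ} {n : ℕ} (h : Rl x n) (k : ℕ) : Rl (x ^ k) (n ^ k) := by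
  induction k with
  | zero =>
    rw [pow_zero, pow_zero]
    exact_mod_cast Rl.nat 1
  | succ k ih => rw [pow_succ, pow_succ]; exact ih.mul h

theorem Rl.zero : Rl 0 0 := by
  exact_mod_cast Rl.nat 0

theorem Rl.one : Rl 1 1 := by
  exact_mod_cast Rl.nat 1

theorem Rl.sub_nat (i j : ℕ) : Rl ((i : ℚ) - j) (i + 6 * j) := by
  rw [sub_eq_add_neg]
  exact (Rl.nat i).add (Rl.nat j).neg

theorem Rl.cancel {a x : ℚ} {m mi n : ℕ} (ha : Rl a m) (hm : m * mi % 7 = 1)
    (h : Rl (a * x) n) : Rl x (n * mi) := by
  obtain ⟨z, hz, hz'⟩ := ha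
  obtain ⟨w, hw, hw'⟩ := h
  have h1 : (m : ZMod 7) * (mi : ZMod 7) = 1 := by
    rw [← Nat.cast_mul, ← ZMod.natCast_mod, hm, Nat.cast_one]
  have hne : PadicInt.toZMod z ≠ 0 := by
    rw [hz']
    intro h0
    rw [h0, zero_mul] at h1
    exact absurd h1 (by decide)
  have hu : IsUnit z := by
    by_contra hcon
    have h2 : z ∈ IsLocalRing.maximalIdeal ℤ_[7] := (IsLocalRing.mem_maximalIdeal z).2 hcon
    rw [← PadicInt.ker_toZMod] at h2
    exact hne h2
  obtain ⟨u, rfl⟩ := hu
  have h3 : (((u : ℤ_[7]) : ℚ_[7])) * (((u⁻¹ : ℤ_[7]ˣ) : ℤ_[7]) : ℚ_[7]) = 1 := by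
    rw [← PadicInt.coe_mul, Units.mul_inv, PadicInt.coe_one]
  have h4 : PadicInt.toZMod (u : ℤ_[7]) * PadicInt.toZMod ((u⁻¹ : ℤ_[7]ˣ) : ℤ_[7]) = 1 := by
    rw [← map_mul, Units.mul_inv, map_one]
  refine ⟨w * ((u⁻¹ : ℤ_[7]ˣ) : ℤ_[7]), ?_, ?_⟩
  · rw [PadicInt.coe_mul, hw, Rat.cast_mul, ← hz]
    calc (((u : ℤ_[7]) : ℚ_[7])) * (x : ℚ_[7]) * (((u⁻¹ : ℤ_[7]ˣ) : ℤ_[7]) : ℚ_[7])
        = ((((u : ℤ_[7]) : ℚ_[7])) * (((u⁻¹ : ℤ_[7]ˣ) : ℤ_[7]) : ℚ_[7])) * (x : ℚ_[7]) := by ring
      _ = (x : ℚ_[7]) := by rw [h3, one_mul]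
  · rw [map_mul, hw', Nat.cast_mul]
    congr 1
    rw [hz'] at h4
    calc PadicInt.toZMod ((u⁻¹ : ℤ_[7]ˣ) : ℤ_[7])
        = ((m : ZMod 7) * (mi : ZMod 7)) * PadicInt.toZMod ((u⁻¹ : ℤ_[7]ˣ) : ℤ_[7]) := by
          rw [h1, one_mul]
      _ = (mi : ZMod 7) * ((m : ZMod 7) * PadicInt.toZMod ((u⁻¹ : ℤ_[7]ˣ) : ℤ_[7])) := by ring
      _ = (mi : ZMod 7) := by rw [h4, mul_one]

theorem Rl.sum {ι : Type} (s : Finset ι) (f : ι → ℚ) (g : ι → ℕ) (h : ∀ i ∈ s, Rl (f i) (g i)) :
    Rl (∑ i ∈ s, f i) (∑ i ∈ s, g i) := by
  classical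
  induction s using Finset.induction_on with
  | empty => simpa using Rl.zero
  | insert a s ha ih =>
    rw [Finset.sum_insert ha, Finset.sum_insert ha]
    exact (h a (Finset.mem_insert_self a s)).add
      (ih fun i hi => h i (Finset.mem_insert_of_mem hi))

/-- the digit `d` of `N` -/
def dg (N d : ℕ) : ℕ := N / 10 ^ d % 10

/-- `N` encodes the first twenty coefficients of `f` modulo `7` -/
def Rep (f : PowerSeries ℚ) (N : ℕ) : Prop := ∀ d, d < 20 → Rl (PowerSeries.coeff d f) (dg N d)

/-- the digit before `d` -/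
def pd (N : ℕ) : ℕ → ℕ
  | 0 => 0
  | d + 1 => dg N d

/-- `N'` is `(X + c) N` modulo `7` -/
def Chk (c N N' : ℕ) : Prop := ∀ d, d < 20 → dg N' d % 7 = (pd N d + c * dg N d) % 7

instance (c N N' : ℕ) : Decidable (Chk c N N') := by
  unfold Chk
  infer_instance

theorem coeff_lin_zero (c : ℚ) (f : PowerSeries ℚ) :
    PowerSeries.coeff 0 ((PowerSeries.X + PowerSeries.C c) * f) = c * PowerSeries.coeff 0 f := by
  rw [add_mul, map_add, PowerSeries.coeff_C_mul, PowerSeries.coeff_zero_X_mul, zero_add]

theorem coeff_lin_succ (c : ℚ) (f : PowerSeries ℚ) (d : ℕ) :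
    PowerSeries.coeff (d + 1) ((PowerSeries.X + PowerSeries.C c) * f) =
      PowerSeries.coeff d f + c * PowerSeries.coeff (d + 1) f := by
  rw [add_mul, map_add, PowerSeries.coeff_C_mul, PowerSeries.coeff_succ_X_mul]

theorem rep_mul {f : PowerSeries ℚ} {N N' c : ℕ} {c' : ℚ} (h : Rep f N) (hc : Rl c' c)
    (hk : Chk c N N') : Rep ((PowerSeries.X + PowerSeries.C c') * f) N' := by
  intro d hd
  have h1 := hk d hd
  cases d with
  | zero =>
    rw [coeff_lin_zero]
    refine (hc.mul (h 0 hd)).congr ?_
    rw [h1]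
    show _ = (0 + c * dg N 0) % 7
    rw [zero_add]
  | succ d =>
    rw [coeff_lin_succ]
    refine ((h d (by omega)).add (hc.mul (h (d + 1) hd))).congr ?_
    rw [h1]
    rfl

theorem rep_div {g : PowerSeries ℚ} {N N' c ci : ℕ} {c' : ℚ}
    (h : Rep ((PowerSeries.X + PowerSeries.C c') * g) N') (hc : Rl c' c) (hci : c * ci % 7 = 1)
    (hk : Chk c N N') : Rep g N := by
  have key : ∀ a b x : ℕ, b % 7 = (a + c * x) % 7 → ((b + 6 * a) * ci) % 7 = x % 7 := by
    intro a b x hb
    have e1 : (b + 6 * a) % 7 = (c * x) % 7 := by omega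
    calc ((b + 6 * a) * ci) % 7 = ((b + 6 * a) % 7 * (ci % 7)) % 7 := Nat.mul_mod _ _ _
      _ = ((c * x) % 7 * (ci % 7)) % 7 := by rw [e1]
      _ = (c * x * ci) % 7 := (Nat.mul_mod _ _ _).symm
      _ = (c * ci * x) % 7 := by rw [mul_right_comm]
      _ = ((c * ci) % 7 * (x % 7)) % 7 := Nat.mul_mod _ _ _
      _ = x % 7 := by rw [hci, one_mul, Nat.mod_mod]
  intro d
  induction d with
  | zero =>
    intro hd
    have h1 := h 0 hd
    rw [coeff_lin_zero] at h1
    refine (hc.cancel hci h1).congr ?_
    have h2 := key 0 (dg N' 0) (dg N 0) (hk 0 hd)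
    rwa [mul_zero, add_zero] at h2
  | succ d ih =>
    intro hd
    have h1 := h (d + 1) hd
    rw [coeff_lin_succ] at h1
    have h2 := ih (by omega)
    have h3 : Rl (c' * PowerSeries.coeff (d + 1) g) (dg N' (d + 1) + 6 * dg N d) := by
      have h4 := h1.add h2.neg
      have h5 : PowerSeries.coeff d g + c' * PowerSeries.coeff (d + 1) g + -PowerSeries.coeff d g =
        c' * PowerSeries.coeff (d + 1) g := by ring
      rwa [h5] at h4
    exact (hc.cancel hci h3).congr (key (dg N d) (dg N' (d + 1)) (dg N (d + 1)) (hk (d + 1) hd))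

theorem rep_iv_pow {a : ℚ} (ha : a ≠ 0) {c ci : ℕ} (hc : Rl a c) (hci : c * ci % 7 = 1)
    (L : List ℕ) (f : PowerSeries ℚ) (h0 : Rep f (L.getD 0 0)) (n : ℕ)
    (hk : ∀ k < n, Chk c (L.getD (k + 1) 0) (L.getD k 0)) :
    Rep (iv a ^ n * f) (L.getD n 0) := by
  induction n with
  | zero => rwa [pow_zero, one_mul]
  | succ n ih =>
    have h1 := ih fun k hk' => hk k (by omega)
    refine rep_div (c' := a) (N' := L.getD n 0) ?_ hc hci (hk n (by omega))
    have h2 : (PowerSeries.X + PowerSeries.C a) * (iv a ^ (n + 1) * f) = iv a ^ n * f := by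
      rw [pow_succ, ← mul_assoc, mul_comm (iv a ^ n) (iv a), ← mul_assoc, lin_mul_iv ha, one_mul]
    rw [h2]
    exact h1

theorem rep_lin_pow {a : ℚ} {c : ℕ} (hc : Rl a c) (L : List ℕ) (f : PowerSeries ℚ)
    (h0 : Rep f (L.getD 0 0)) (e : ℕ)
    (hk : ∀ k < e, Chk c (L.getD k 0) (L.getD (k + 1) 0)) :
    Rep (f * (PowerSeries.X + PowerSeries.C a) ^ e) (L.getD e 0) := by
  induction e with
  | zero => rwa [pow_zero, mul_one]
  | succ e ih =>
    have h1 := ih fun k hk' => hk k (by omega)
    have h2 := rep_mul h1 hc (hk e (by omega))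
    rwa [pow_succ, ← mul_assoc, mul_comm]

theorem rep_one : Rep 1 1 := by
  intro d hd
  rw [PowerSeries.coeff_one]
  split_ifs with h
  · subst h
    exact Rl.one
  · have : dg 1 d = 0 := by
      unfold dg
      rw [Nat.div_eq_of_lt (Nat.one_lt_pow h (by norm_num))]
    rw [this]
    exact Rl.zero

/-- the numerator -/
theorem prod_zeros (g : ℕ → PowerSeries ℚ) : ∏ i ∈ ({0, 1, 2, 3, 8, 9, 10, 11} : Finset ℕ), g i =
    g 0 * (g 1 * (g 2 * (g 3 * (g 8 * (g 9 * (g 10 * (g 11 * 1))))))) := by
  rw [Finset.prod_insert (by decide), Finset.prod_insert (by decide),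
    Finset.prod_insert (by decide), Finset.prod_insert (by decide),
    Finset.prod_insert (by decide), Finset.prod_insert (by decide),
    Finset.prod_insert (by decide), Finset.prod_singleton, mul_one]

/-- division by `X + 1` (pole 4) -/
def D45 : List ℕ := [60210561030656104330, 24362506255241534030, 54033661541456230430, 23164606231041546130, 54624061546256231530, 23154006231541546230, 63014000630140140630, 60344000064356104330, 15213161615641534030, 62362106244156230430, 15460261540441546130, 62315206231656231530, 15462361546241546230, 1406306231540140630, 134216021056104330, 52530453345341534030, 23664314640556230430, 54606553156141546130, 23152414623356231530, 54623653154641546230, 23154605532240140630]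

theorem D45_chk : ∀ k < 20, Chk (5 + 6 * 4) (D45.getD (k + 1) 0) (D45.getD k 0) := by
  decide +kernel

/-- division by `X + 2` (pole 4) -/
def D46 : List ℕ := [65452255310152246650, 14436413655405643060, 32042201144431304230, 50235646320434031250, 5411304502350465560, 23663262054113122130, 10306561005163402550, 24654522462161123360, 41221210206406325030, 66333255415354502150, 14503413663652054160, 32054201145060236630, 50236646320545411450, 60026143033135201660, 53156166542634415530, 52636161443303516050, 52534553204262601460, 52526605023561062430, 52525300541130153350, 52525262366326244260, 60210561030656104330]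

theorem D46_chk : ∀ k < 20, Chk (6 + 6 * 4) (D46.getD (k + 1) 0) (D46.getD k 0) := by
  decide +kernel

/-- division by `X + 3` (pole 4) -/
def D47 : List ℕ := [151266430, 12234110, 56356356356350231150, 12033454105526303640, 64424533221265521060, 34602545230162616420, 24621611231434415530, 51130136445045322610, 54366366253353316550, 61106241305240315540, 6435511521232101260, 63466122265024435020, 34534151655423252630, 24610433626116654410, 51136324551364133250, 54366244612241152440, 26034160415160154460, 23424641464013505320, 44530411534636614030, 25331464331131343210, 65452255310152246650]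

theorem D47_chk : ∀ k < 20, Chk (7 + 6 * 4) (D47.getD (k + 1) 0) (D47.getD k 0) := by
  decide +kernel

/-- the series at the pole 4 -/
def T4 : List ℕ := [23154605532240140630, 23154456441351056020, 23152301266023504260, 23132215534220140540, 23641016460161055550, 21163121441253566610, 4203500265440033530, 40630102525250350420, 56021324343413014060, 4206431616662105640, 40661132523360350150, 56354644325143011110, 54121442012144430, 556500206150022120, 5602102665110210560, 50420325322432035040, 14063444413146301450, 5606222663040210310, 50466115302452033330, 14435414223336355520, 2105600125510066360, 20350401546230630140, 63014511546226021050, 2103241546154203510, 20334361545150630230, 63561151532116022220, 54121440424211160, 556500254030044240, 5602102455320420350, 50420323364464063010, 14063425112415602130, 5606042453610420620, 50464403341534066660, 14412535661465633340, 2654400350420055650, 25252503014060560210, 43434132105645042030, 16166640350131406320, 25233153011630560460, 43253142142025044440, 14443000006241422250,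 2212000066360011410, 21056000630140140630, 3504006021051056020, 30145064203523504260, 21031610630320140540, 3332536023461055550]

theorem T4_chk : ∀ k < 46, Chk (6 * 4) (T4.getD k 0) (T4.getD (k + 1) 0) := by
  decide +kernel

theorem rep_zeros_4 : Rep (∏ i ∈ ({0, 1, 2, 3, 8, 9, 10, 11} : Finset ℕ),
    (PowerSeries.X + PowerSeries.C ((i : ℚ) - (4 : ℕ)))) 151266430 := by
  rw [prod_zeros fun i => PowerSeries.X + PowerSeries.C ((i : ℚ) - (4 : ℕ))]
  have h1 := rep_mul (N' := 10) rep_one (Rl.sub_nat 11 4) (by decide +kernel)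
  have h2 := rep_mul (N' := 160) h1 (Rl.sub_nat 10 4) (by decide +kernel)
  have h3 := rep_mul (N' := 1420) h2 (Rl.sub_nat 9 4) (by decide +kernel)
  have h4 := rep_mul (N' := 11410) h3 (Rl.sub_nat 8 4) (by decide +kernel)
  have h5 := rep_mul (N' := 103460) h4 (Rl.sub_nat 3 4) (by decide +kernel)
  have h6 := rep_mul (N' := 1535520) h5 (Rl.sub_nat 2 4) (by decide +kernel)
  have h7 := rep_mul (N' := 12234110) h6 (Rl.sub_nat 1 4) (by decide +kernel)
  have h8 := rep_mul (N' := 151266430) h7 (Rl.sub_nat 0 4) (by decide +kernel)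
  exact h8

theorem rep_ser_4 (e : ℕ) (he : e < 47) : Rep (ser 4 e) (T4.getD e 0) := by
  have h3 := rep_iv_pow (a := ((7 : ℕ) : ℚ) - (4 : ℕ)) (by norm_num) (Rl.sub_nat 7 4)
    (ci := 5) (by decide) D47 _ rep_zeros_4 20 D47_chk
  have h2 := rep_iv_pow (a := ((6 : ℕ) : ℚ) - (4 : ℕ)) (by norm_num) (Rl.sub_nat 6 4)
    (ci := 4) (by decide) D46 _ h3 20 D46_chk
  have h1 := rep_iv_pow (a := ((5 : ℕ) : ℚ) - (4 : ℕ)) (by norm_num) (Rl.sub_nat 5 4)
    (ci := 1) (by decide) D45 _ h2 20 D45_chk
  have h0 := rep_lin_pow (Rl.nat 4).neg T4 _ h1 e (fun k hk => T4_chk k (by omega))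
  have hE : (Finset.Icc 4 7 : Finset ℕ).erase 4 = {5, 6, 7} := by decide
  have hD : ∏ b ∈ (Finset.Icc 4 7 : Finset ℕ).erase 4, iv ((b : ℚ) - (4 : ℕ)) ^ 20 =
      iv (((5 : ℕ) : ℚ) - (4 : ℕ)) ^ 20 * (iv (((6 : ℕ) : ℚ) - (4 : ℕ)) ^ 20 *
        iv (((7 : ℕ) : ℚ) - (4 : ℕ)) ^ 20) := by
    rw [hE, Finset.prod_insert (by decide), Finset.prod_insert (by decide), Finset.prod_singleton]
  have hs : ser 4 e = (iv (((5 : ℕ) : ℚ) - (4 : ℕ)) ^ 20 * (iv (((6 : ℕ) : ℚ) - (4 : ℕ)) ^ 20 *
      (iv (((7 : ℕ) : ℚ) - (4 : ℕ)) ^ 20 * ∏ i ∈ ({0, 1, 2, 3, 8, 9, 10, 11} : Finset ℕ),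
      (PowerSeries.X + PowerSeries.C ((i : ℚ) - (4 : ℕ)))))) *
      (PowerSeries.X + PowerSeries.C (-((4 : ℕ) : ℚ))) ^ e := by
    unfold ser
    rw [hD]
    congr 1
    ring
  rw [hs]
  exact h0

/-- division by `X + -1` (pole 5) -/
def D54 : List ℕ := [2626260111111060606, 11324354456012332211, 34513031520660251356, 25201440161106616031, 61611263343455434336, 43434506252520525251, 52525200616161161616, 5050500060606010101, 66442200006655445566, 10630244444320526421, 60062241526361161046, 10006130161032343441, 60000603343440252526, 10000066252526616161, 1111110616161060606, 44560123323232332211, 41532235146240251356, 63425025341026616031, 32524224252335434336, 36161502616140525251, 14343422434341161616]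

theorem D54_chk : ∀ k < 20, Chk (4 + 6 * 5) (D54.getD (k + 1) 0) (D54.getD k 0) := by
  decide +kernel

/-- division by `X + 1` (pole 5) -/
def D56 : List ℕ := [16363636144105342516, 1551246013100556326, 34414456001261666036, 12226566000115333346, 1111506000010555556, 34444416000001666666, 3131310616161060606, 52103553426015342516, 66352141220610556326, 33305440111601666036, 55552313444425333346, 66666301222220555556, 33333300111111666666, 3030300010101060606, 52164300001625342516, 32015643434420556326, 21162331221311666036, 54442030111035333346, 32222003444430555556, 21111161222221666666, 2626260111111060606]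

theorem D56_chk : ∀ k < 20, Chk (6 + 6 * 5) (D56.getD (k + 1) 0) (D56.getD k 0) := by
  decide +kernel

/-- division by `X + 2` (pole 5) -/
def D57 : List ℕ := [141343363, 12420345, 62315462315463356266, 30263661032122652253, 26253453234164144105, 33021121103553551246, 34233241631136521643, 34334251611634525535, 42034336301611210526, 20234342262455563133, 25411266414121361165, 33663253040402422406, 11145021151515664123, 16320541636363614325, 16110051611422616656, 63016236301664140613, 22624565346306635455, 64141214420654534436, 30404024356221211203, 11515156652256332415, 16363636144105342516]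

theorem D57_chk : ∀ k < 20, Chk (7 + 6 * 5) (D57.getD (k + 1) 0) (D57.getD k 0) := by
  decide +kernel

/-- the series at the pole 5 -/
def T5 : List ℕ := [14343422434341161616, 64343361434323161615, 24342566434100161603, 14332242432201161536, 64216131416413160655, 23516506212250156313, 4413360546231021056, 45252555000002252525, 65252113000026252523, 35255356000230252506, 45216425002062252365, 65512323024606250533, 31440106210560235626, 6511260525252042035, 63434355525254434343, 13434411525205434346, 53435230525450434305, 63445065520634434653, 13563631546135430366, 54215100006540463545, 3504200063014014063, 34343400616161161616, 34343106616163161615, 34340264616110161603, 34312320616321161536, 34040146611153160655, 31411604633060156313, 6231540126651021056, 60000011434342252525, 50000136434336252523, 30001552434250252506, 60010151433232252365, 50121046421016250533, 31452402352110235626, 6651120455322042035, 64343444616164434343, 24343550616125434346, 14344136616420434305, 64352554612344434653, 24452100640355430366, 15655206213410463545,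 2315460553224014063, 20000055161611161616, 40000514161633161615, 10005462161120161603, 20050005163441161536, 40530054113523160655]

theorem T5_chk : ∀ k < 46, Chk (6 * 5) (T5.getD k 0) (T5.getD (k + 1) 0) := by
  decide +kernel

theorem rep_zeros_5 : Rep (∏ i ∈ ({0, 1, 2, 3, 8, 9, 10, 11} : Finset ℕ),
    (PowerSeries.X + PowerSeries.C ((i : ℚ) - (5 : ℕ)))) 141343363 := by
  rw [prod_zeros fun i => PowerSeries.X + PowerSeries.C ((i : ℚ) - (5 : ℕ))]
  have h1 := rep_mul (N' := 16) rep_one (Rl.sub_nat 11 5) (by decide +kernel)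
  have h2 := rep_mul (N' := 142) h1 (Rl.sub_nat 10 5) (by decide +kernel)
  have h3 := rep_mul (N' := 1141) h2 (Rl.sub_nat 9 5) (by decide +kernel)
  have h4 := rep_mul (N' := 14063) h3 (Rl.sub_nat 8 5) (by decide +kernel)
  have h5 := rep_mul (N' := 126651) h4 (Rl.sub_nat 3 5) (by decide +kernel)
  have h6 := rep_mul (N' := 1602104) h5 (Rl.sub_nat 2 5) (by decide +kernel)
  have h7 := rep_mul (N' := 12420345) h6 (Rl.sub_nat 1 5) (by decide +kernel)
  have h8 := rep_mul (N' := 141343363) h7 (Rl.sub_nat 0 5) (by decide +kernel)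
  exact h8

theorem rep_ser_5 (e : ℕ) (he : e < 47) : Rep (ser 5 e) (T5.getD e 0) := by
  have h3 := rep_iv_pow (a := ((7 : ℕ) : ℚ) - (5 : ℕ)) (by norm_num) (Rl.sub_nat 7 5)
    (ci := 4) (by decide) D57 _ rep_zeros_5 20 D57_chk
  have h2 := rep_iv_pow (a := ((6 : ℕ) : ℚ) - (5 : ℕ)) (by norm_num) (Rl.sub_nat 6 5)
    (ci := 1) (by decide) D56 _ h3 20 D56_chk
  have h1 := rep_iv_pow (a := ((4 : ℕ) : ℚ) - (5 : ℕ)) (by norm_num) (Rl.sub_nat 4 5)
    (ci := 6) (by decide) D54 _ h2 20 D54_chk
  have h0 := rep_lin_pow (Rl.nat 5).neg T5 _ h1 e (fun k hk => T5_chk k (by omega))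
  have hE : (Finset.Icc 4 7 : Finset ℕ).erase 5 = {4, 6, 7} := by decide
  have hD : ∏ b ∈ (Finset.Icc 4 7 : Finset ℕ).erase 5, iv ((b : ℚ) - (5 : ℕ)) ^ 20 =
      iv (((4 : ℕ) : ℚ) - (5 : ℕ)) ^ 20 * (iv (((6 : ℕ) : ℚ) - (5 : ℕ)) ^ 20 *
        iv (((7 : ℕ) : ℚ) - (5 : ℕ)) ^ 20) := by
    rw [hE, Finset.prod_insert (by decide), Finset.prod_insert (by decide), Finset.prod_singleton]
  have hs : ser 5 e = (iv (((4 : ℕ) : ℚ) - (5 : ℕ)) ^ 20 * (iv (((6 : ℕ) : ℚ) - (5 : ℕ)) ^ 20 *
      (iv (((7 : ℕ) : ℚ) - (5 : ℕ)) ^ 20 * ∏ i ∈ ({0, 1, 2, 3, 8, 9, 10, 11} : Finset ℕ),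
      (PowerSeries.X + PowerSeries.C ((i : ℚ) - (5 : ℕ)))))) *
      (PowerSeries.X + PowerSeries.C (-((5 : ℕ) : ℚ))) ^ e := by
    unfold ser
    rw [hD]
    congr 1
    ring
  rw [hs]
  exact h0

/-- division by `X + -2` (pole 6) -/
def D64 : List ℕ := [3203200064064013013, 53265600006240413242, 63264641241145330316, 64435062550133444154, 23332240222420333305, 14444316555502444441, 13333325222224333333, 1561560555555032032, 41340106510510532656, 62562424054101220234, 35511455005012555315, 32225451000530222201, 15555163000056555553, 42222252000005222222, 4314310241241026026, 24566201262550126414, 14511141311463660625, 13342545442506111231, 54445516333100666603, 63333466444424111112, 64444452333331666666]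

theorem D64_chk : ∀ k < 20, Chk (4 + 6 * 6) (D64.getD (k + 1) 0) (D64.getD k 0) := by
  decide +kernel

/-- division by `X + -1` (pole 6) -/
def D65 : List ℕ := [66005664403625110443, 43222065266213123304, 63613554243245124033, 43656205241463124114, 63653244241265124123, 43653615241243124124, 4064060504504013013, 33006332200422660334, 40333251355524654403, 30036242364202653044, 40003241365244653663, 30000352365352653654, 40000031365364653653, 4444440143143064064, 33041526604015110443, 36226050655223123304, 36502116653135124033, 36533560653603124114, 36536206653655124123, 36536500653653124124, 3203200064064013013]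

theorem D65_chk : ∀ k < 20, Chk (5 + 6 * 6) (D65.getD (k + 1) 0) (D65.getD k 0) := by
  decide +kernel

/-- division by `X + 1` (pole 6) -/
def D67 : List ℕ := [131444313, 12656553, 34343434343435423323, 3122130465564136463, 34620264315051355133, 21336115644166214103, 11030626604015110443, 44430063334001444313, 65655251212252656553, 33241450110205423323, 12113566101634136463, 26353051534421355133, 63305523503136214103, 33034145500355110443, 55521356661641444313, 41411032424422656553, 4401003654045423323, 34043525514004136463, 46522145053161355133, 56054531432106214103, 66005664403625110443]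

theorem D67_chk : ∀ k < 20, Chk (7 + 6 * 6) (D67.getD (k + 1) 0) (D67.getD k 0) := by
  decide +kernel

/-- the series at the pole 6 -/
def T6 : List ℕ := [64444452333331666666, 31111205666640555556, 42223254555345333346, 64455022331021666036, 31235245641230556326, 43510624353535342516, 1616160111111060606, 10000061222221666666, 10000603444430555556, 10006630111035333346, 10065231221311666036, 10640543434420556326, 16345200001625342516, 2020200010101060606, 22222200111111666666, 44444201222220555556, 11116213444425333346, 22201340111601666036, 44214041220610556326, 16354453426015342516, 2121210616161060606, 23333316000001666666, 56666406000010555556, 45553466000115333346, 23310356001261666036, 56413146013100556326, 43544536144105342516, 1212120515151060606, 13333325666661666666, 46666504555500555556, 35554542333505333346, 13322265661551666036, 46544144506360556326, 34215512562265342516, 6363630414141060606, 62222234555551666666, 14444502333360555556, 51112525666265333346, 62230004551141666036, 14530042362550556326, 52130465210355342516,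 3434340313131060606, 30000043444441666666, 30000400111150555556, 30004401222655333346, 30041413441431666036, 30455540155040556326]

theorem T6_chk : ∀ k < 46, Chk (6 * 6) (T6.getD k 0) (T6.getD (k + 1) 0) := by
  decide +kernel

theorem rep_zeros_6 : Rep (∏ i ∈ ({0, 1, 2, 3, 8, 9, 10, 11} : Finset ℕ),
    (PowerSeries.X + PowerSeries.C ((i : ℚ) - (6 : ℕ)))) 131444313 := by
  rw [prod_zeros fun i => PowerSeries.X + PowerSeries.C ((i : ℚ) - (6 : ℕ))]
  have h1 := rep_mul (N' := 15) rep_one (Rl.sub_nat 11 6) (by decide +kernel)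
  have h2 := rep_mul (N' := 126) h1 (Rl.sub_nat 10 6) (by decide +kernel)
  have h3 := rep_mul (N' := 1554) h2 (Rl.sub_nat 9 6) (by decide +kernel)
  have h4 := rep_mul (N' := 10101) h3 (Rl.sub_nat 8 6) (by decide +kernel)
  have h5 := rep_mul (N' := 141414) h4 (Rl.sub_nat 3 6) (by decide +kernel)
  have h6 := rep_mul (N' := 1060605) h5 (Rl.sub_nat 2 6) (by decide +kernel)
  have h7 := rep_mul (N' := 12656553) h6 (Rl.sub_nat 1 6) (by decide +kernel)
  have h8 := rep_mul (N' := 131444313) h7 (Rl.sub_nat 0 6) (by decide +kernel)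
  exact h8

theorem rep_ser_6 (e : ℕ) (he : e < 47) : Rep (ser 6 e) (T6.getD e 0) := by
  have h3 := rep_iv_pow (a := ((7 : ℕ) : ℚ) - (6 : ℕ)) (by norm_num) (Rl.sub_nat 7 6)
    (ci := 1) (by decide) D67 _ rep_zeros_6 20 D67_chk
  have h2 := rep_iv_pow (a := ((5 : ℕ) : ℚ) - (6 : ℕ)) (by norm_num) (Rl.sub_nat 5 6)
    (ci := 6) (by decide) D65 _ h3 20 D65_chk
  have h1 := rep_iv_pow (a := ((4 : ℕ) : ℚ) - (6 : ℕ)) (by norm_num) (Rl.sub_nat 4 6)
    (ci := 3) (by decide) D64 _ h2 20 D64_chk
  have h0 := rep_lin_pow (Rl.nat 6).neg T6 _ h1 e (fun k hk => T6_chk k (by omega))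
  have hE : (Finset.Icc 4 7 : Finset ℕ).erase 6 = {4, 5, 7} := by decide
  have hD : ∏ b ∈ (Finset.Icc 4 7 : Finset ℕ).erase 6, iv ((b : ℚ) - (6 : ℕ)) ^ 20 =
      iv (((4 : ℕ) : ℚ) - (6 : ℕ)) ^ 20 * (iv (((5 : ℕ) : ℚ) - (6 : ℕ)) ^ 20 *
        iv (((7 : ℕ) : ℚ) - (6 : ℕ)) ^ 20) := by
    rw [hE, Finset.prod_insert (by decide), Finset.prod_insert (by decide), Finset.prod_singleton]
  have hs : ser 6 e = (iv (((4 : ℕ) : ℚ) - (6 : ℕ)) ^ 20 * (iv (((5 : ℕ) : ℚ) - (6 : ℕ)) ^ 20 *
      (iv (((7 : ℕ) : ℚ) - (6 : ℕ)) ^ 20 * ∏ i ∈ ({0, 1, 2, 3, 8, 9, 10, 11} : Finset ℕ),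
      (PowerSeries.X + PowerSeries.C ((i : ℚ) - (6 : ℕ)))))) *
      (PowerSeries.X + PowerSeries.C (-((6 : ℕ) : ℚ))) ^ e := by
    unfold ser
    rw [hD]
    congr 1
    ring
  rw [hs]
  exact h0

/-- division by `X + -3` (pole 7) -/
def D74 : List ℕ := [2602600622560061310, 13445313253431325220, 20361165405422034340, 2606525613040260410, 64064434314136406420, 50450422352335045040, 5105102162160510510, 526200206650052620, 53151345062643440, 51324143355644061610, 30166142224310450120, 3206336666165105140, 26026354444463013010, 40640605555550320320, 4504500562430034540, 26113626431554516110, 53146066360111052520, 24142512544520130240, 53655301561053203210, 24124351431456026020, 53653605235230640640]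

theorem D74_chk : ∀ k < 20, Chk (4 + 6 * 7) (D74.getD (k + 1) 0) (D74.getD k 0) := by
  decide +kernel

/-- division by `X + -2` (pole 7) -/
def D75 : List ℕ := [12340324156413654040, 42616560422330351650, 16066464160203610110, 42364040423600354130, 16035004160353610420, 42361000423610354160, 4323000043230034540, 36202000004432415050, 20600241241620213410, 31236550145402430330, 20144051250500215320, 31250410146512430560, 20146501250630215340, 2421100146520025150, 53160136545226531010, 22011256462260632530, 55530146452606520220, 22220016451400631260, 55555366451336520140, 22222206451320631250, 2602600622560061310]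

theorem D75_chk : ∀ k < 20, Chk (5 + 6 * 7) (D75.getD (k + 1) 0) (D75.getD k 0) := by
  decide +kernel

/-- division by `X + -1` (pole 7) -/
def D76 : List ℕ := [121561440, 44444444444450165630, 30415263041520010540, 36634243663424445530, 3214130321413041640, 66245236624523663430, 65463136546313654040, 21632562163256216330, 50103532454020612140, 16600314631550060230, 45433360436053332240, 4262510040664036130, 33021312226654114340, 36224512461064123030, 14350423521221561440, 12620046202350165630, 23546663244620010540, 2530654026324445530, 203320446513041640, 11133624415423663430, 12340324156413654040]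

theorem D76_chk : ∀ k < 20, Chk (6 + 6 * 7) (D76.getD (k + 1) 0) (D76.getD k 0) := by
  decide +kernel

/-- the series at the pole 7 -/
def T7 : List ℕ := [53653605235230640640, 36536052352306406400, 65360523523064064000, 53605235230640640000, 36052352306406400000, 60523523064064000000, 5235230640640000000, 52352306406400000000, 23523064064000000000, 35230640640000000000, 52306406400000000000, 23064064000000000000, 30640640000000000000, 6406400000000000000, 64064000000000000000, 40640000000000000000, 6400000000000000000, 64000000000000000000, 40000000000000000000, 0, 0, 0, 0, 0, 0, 0, 0, 0, 0, 0, 0, 0, 0, 0, 0, 0, 0, 0, 0, 0, 0, 0, 0, 0, 0, 0, 0]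

theorem T7_chk : ∀ k < 46, Chk (6 * 7) (T7.getD k 0) (T7.getD (k + 1) 0) := by
  decide +kernel

theorem rep_zeros_7 : Rep (∏ i ∈ ({0, 1, 2, 3, 8, 9, 10, 11} : Finset ℕ),
    (PowerSeries.X + PowerSeries.C ((i : ℚ) - (7 : ℕ)))) 121561440 := by
  rw [prod_zeros fun i => PowerSeries.X + PowerSeries.C ((i : ℚ) - (7 : ℕ))]
  have h1 := rep_mul (N' := 14) rep_one (Rl.sub_nat 11 7) (by decide +kernel)
  have h2 := rep_mul (N' := 105) h1 (Rl.sub_nat 10 7) (by decide +kernel)
  have h3 := rep_mul (N' := 1253) h2 (Rl.sub_nat 9 7) (by decide +kernel)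
  have h4 := rep_mul (N' := 13013) h3 (Rl.sub_nat 8 7) (by decide +kernel)
  have h5 := rep_mul (N' := 162162) h4 (Rl.sub_nat 3 7) (by decide +kernel)
  have h6 := rep_mul (N' := 1105104) h5 (Rl.sub_nat 2 7) (by decide +kernel)
  have h7 := rep_mul (N' := 12156144) h6 (Rl.sub_nat 1 7) (by decide +kernel)
  have h8 := rep_mul (N' := 121561440) h7 (Rl.sub_nat 0 7) (by decide +kernel)
  exact h8

theorem rep_ser_7 (e : ℕ) (he : e < 47) : Rep (ser 7 e) (T7.getD e 0) := by
  have h3 := rep_iv_pow (a := ((6 : ℕ) : ℚ) - (7 : ℕ)) (by norm_num) (Rl.sub_nat 6 7)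
    (ci := 6) (by decide) D76 _ rep_zeros_7 20 D76_chk
  have h2 := rep_iv_pow (a := ((5 : ℕ) : ℚ) - (7 : ℕ)) (by norm_num) (Rl.sub_nat 5 7)
    (ci := 3) (by decide) D75 _ h3 20 D75_chk
  have h1 := rep_iv_pow (a := ((4 : ℕ) : ℚ) - (7 : ℕ)) (by norm_num) (Rl.sub_nat 4 7)
    (ci := 2) (by decide) D74 _ h2 20 D74_chk
  have h0 := rep_lin_pow (Rl.nat 7).neg T7 _ h1 e (fun k hk => T7_chk k (by omega))
  have hE : (Finset.Icc 4 7 : Finset ℕ).erase 7 = {4, 5, 6} := by decide
  have hD : ∏ b ∈ (Finset.Icc 4 7 : Finset ℕ).erase 7, iv ((b : ℚ) - (7 : ℕ)) ^ 20 =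
      iv (((4 : ℕ) : ℚ) - (7 : ℕ)) ^ 20 * (iv (((5 : ℕ) : ℚ) - (7 : ℕ)) ^ 20 *
        iv (((6 : ℕ) : ℚ) - (7 : ℕ)) ^ 20) := by
    rw [hE, Finset.prod_insert (by decide), Finset.prod_insert (by decide), Finset.prod_singleton]
  have hs : ser 7 e = (iv (((4 : ℕ) : ℚ) - (7 : ℕ)) ^ 20 * (iv (((5 : ℕ) : ℚ) - (7 : ℕ)) ^ 20 *
      (iv (((6 : ℕ) : ℚ) - (7 : ℕ)) ^ 20 * ∏ i ∈ ({0, 1, 2, 3, 8, 9, 10, 11} : Finset ℕ),
      (PowerSeries.X + PowerSeries.C ((i : ℚ) - (7 : ℕ)))))) *
      (PowerSeries.X + PowerSeries.C (-((7 : ℕ) : ℚ))) ^ e := by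
    unfold ser
    rw [hD]
    congr 1
    ring
  rw [hs]
  exact h0

/-- the table -/
def TT : ℕ → ℕ → ℕ
  | 4, e => T4.getD e 0
  | 5, e => T5.getD e 0
  | 6, e => T6.getD e 0
  | 7, e => T7.getD e 0
  | _, _ => 0

theorem rep_ser (j : ℕ) (hj : j ∈ Finset.Icc 4 7) (e : ℕ) (he : e < 47) :
    Rep (ser j e) (TT j e) := by
  rw [Finset.mem_Icc] at hj
  obtain ⟨h1, h2⟩ := hj
  interval_cases j
  · exact rep_ser_4 e he
  · exact rep_ser_5 e he
  · exact rep_ser_6 e he
  · exact rep_ser_7 e he

/-- inverses modulo `7` -/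
def inv7 : ℕ → ℕ
  | 0 => 1
  | 1 => 4
  | _ => 5

/-- harmonic sums modulo `7` -/
def hN (i m : ℕ) : ℕ := ∑ l ∈ Finset.range m, inv7 l ^ i

theorem rl_hs (i m : ℕ) (hm : m ≤ 3) : Rl (hs i m) (hN i m) := by
  unfold hs hN
  refine Rl.sum _ _ _ fun l hl => ?_
  rw [Finset.mem_range] at hl
  rw [← one_div_pow]
  refine Rl.pow ?_ i
  have hl3 : l < 3 := by omega
  interval_cases l
  · exact (Rl.cancel (a := 1) (m := 1) (mi := 1) (n := 1) Rl.one (by decide) (by norm_num; exact Rl.one))
  · exact (Rl.cancel (a := 2) (m := 2) (mi := 4) (n := 1) (Rl.nat 2) (by decide) (by norm_num; exact Rl.one))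
  · exact (Rl.cancel (a := 3) (m := 3) (mi := 5) (n := 1) (Rl.nat 3) (by decide) (by norm_num; exact Rl.one))

/-- `Fm e` modulo `7` -/
def FN (e : ℕ) : ℕ := 6 * ∑ j ∈ Finset.Icc 4 7, ∑ i ∈ Finset.Icc 1 20,
  dg (TT j e) (20 - i) * (hN i (j - 4) + 6 ^ (i + 1) * hN i (7 - j))

theorem rl_Fm (e : ℕ) (he : e < 47) : Rl (Fm e) (FN e) := by
  unfold Fm FN
  refine Rl.neg (Rl.sum _ _ _ fun j hj => Rl.sum _ _ _ fun i hi => ?_)
  have hj' := Finset.mem_Icc.1 hj
  have hi' := Finset.mem_Icc.1 hi
  refine Rl.mul (rep_ser j hj e he (20 - i) (by omega)) (Rl.add (rl_hs _ _ (by omega)) ?_)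
  exact Rl.mul (Rl.neg_one.pow _) (rl_hs _ _ (by omega))

/-- `Bm i0 e` modulo `7` -/
def BN (i0 e : ℕ) : ℕ := 2 * ∑ j ∈ Finset.Icc 4 7, dg (TT j e) (20 - i0)

theorem rl_Bm (i0 : ℕ) (h0 : 1 ≤ i0) (e : ℕ) (he : e < 47) : Rl (Bm i0 e) (BN i0 e) := by
  unfold Bm BN
  refine Rl.mul (Rl.nat 2) (Rl.sum _ _ _ fun j hj => ?_)
  exact rep_ser j hj e he (20 - i0) (by omega)

/-- values of `Fm` -/
def FF : ℕ := 23615146053533634303233655561162102520053063620

/-- values of `Bm` -/
def BB : ℕ → ℕ
  | 3 => 30230411031026643644444444041341305015010460460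
  | 5 => 4015123331024422534415555605302354616516300000
  | _ => 34324652642031221365355422252326355422412556540

theorem FN_val : ∀ e < 47, FN e % 7 = dg FF e % 7 := by
  decide +kernel

theorem BN_val_3 : ∀ e < 47, BN 3 e % 7 = dg (BB 3) e % 7 := by
  decide +kernel

theorem BN_val_5 : ∀ e < 47, BN 5 e % 7 = dg (BB 5) e % 7 := by
  decide +kernel

theorem BN_val_7 : ∀ e < 47, BN 7 e % 7 = dg (BB 7) e % 7 := by
  decide +kernel

/-- columns of the inverse matrix modulo `7` -/
def C3 : List ℕ := [35104502033240503520263423202036, 10616126134641512442346040621534, 64064120426413610254231265610502, 34205134362411516305232305210315, 52324352311643155550200123145126, 33032415623416421265340061144456, 31604504636420320146661400054434, 52666121322662004214663644540324, 40362162566044020421200026253260, 32030506403026026332255636560066, 3400511051211554133166541324036, 21341335556153560463315002366335, 23030312213265036306650536611351, 44105610663365304140666141351435, 32414302562560525324250641333040, 24443324462011605462232060402032,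 51246224654330503366353103145311, 26122055560356021066501335215236, 16615432601234255036142042562565, 36061566502402662643233020014442, 10203614064255561614325555151344, 22223513054032360151050351265101, 16126152332445662165106055204036, 36014524052150516546451021500514, 3403363222524211324263324301412, 63243553605262442232421234351435, 20323046534224103013626641440150, 2032304653422410301362664144015, 63606402351334646310134013334501, 41464455034463102061335633243224, 11145123204054334456451502621521, 1013263025614030405132661154411]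

/-- columns of the inverse matrix modulo `7` -/
def C5 : List ℕ := [14604535044015350000451355323125, 22263641531225464240425032235451, 44220633303361262544362211212041, 25622046546552612304624003241234, 44060304211121265110206445352556, 46002210451055612631023450225262, 4105353160006145143105622643354, 63516203303460336104063202350411, 6650335116345101320025430220351, 14061224615440440132265422141216, 43402363634514466303164221030220, 11444021405161302050311325104501, 36041256255345620205356644505104, 52506026151313563550402662353630, 26251222064556562405423440552260, 51324563333134302360031036564414, 12132462050220500236325255100244, 15213252622636120023254600031520, 36526455034120263532266035132351, 45653214023651442403546311502431, 32362123161623146530165634656413, 31431103265023246243144461563300, 31441256655332046214313141152444, 24641614630254136211620235463611, 65166041205016201331030555215553, 55612133436656200133100325054634, 40266340045533200013445325211550, 4026634004553320001344532521155, 21105106015001403530000541466000,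 23611103612523000353132610015143, 44560511633322300035636253611545, 4051662603036300003246023062665]

/-- columns of the inverse matrix modulo `7` -/
def C7 : List ℕ := [56606414306054062120260360430366, 26261200136340526522402423134645, 65522326163515001312112333365204, 13256024533332334311530111012314, 22526204223501265341346536144611, 23553231331040105404003516353110, 65651565636166041250530111115144, 6465131564403233645435026204415, 35544634263632600344034613202235, 66150653012330362114340052222246, 41310610401621164401620102653544, 11035510032501331130412065251216, 64506014155412040113040313056433, 55256306645303242101111213332263, 5425621525315300250435013630250, 14246320356546506315613041113262, 22525200646625524141564253036540, 16256364055514445354024465203615, 50424316145331341255402160132421, 61245612131355212245031462212226, 34422664603422534404124503212162, 45044102421515364600222446356560, 60300616113501255310153104425550, 55336466423420263301200100022350, 26134266411023422420631520652014, 65516634651044015122500120251141,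 20452213161401304032124445544320, 2045221316140130403212444554432, 63600021563103132150641643053435, 62063244161533644435635155040015, 55005004156633261163563236116131, 5000525623330360106415546010621]

/-- the entries of the matrix modulo `7` -/
def EN (i0 l k : ℕ) : ℕ := if k < 16 then dg FF (l + k) else dg (BB i0) (l + (k - 16))

theorem inv_chk_3 : ∀ i < 32, ∀ j < 32,
    (∑ k ∈ Finset.range 32, EN 3 i k * dg (C3.getD j 0) k) % 7 = if i = j then 1 else 0 := by
  decide +kernel

theorem inv_chk_5 : ∀ i < 32, ∀ j < 32,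
    (∑ k ∈ Finset.range 32, EN 5 i k * dg (C5.getD j 0) k) % 7 = if i = j then 1 else 0 := by
  decide +kernel

theorem inv_chk_7 : ∀ i < 32, ∀ j < 32,
    (∑ k ∈ Finset.range 32, EN 7 i k * dg (C7.getD j 0) k) % 7 = if i = j then 1 else 0 := by
  decide +kernel

theorem det_ne (M : Matrix (Fin 32) (Fin 32) ℚ) (N B : ℕ → ℕ → ℕ)
    (h : ∀ i j : Fin 32, Rl (M i j) (N i j))
    (hB : ∀ i < 32, ∀ j < 32, (∑ k ∈ Finset.range 32, N i k * B k j) % 7 = if i = j then 1 else 0) :
    M.det ≠ 0 := by
  intro h0
  choose Z hZ hZ' using h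
  have e1 : (Matrix.of Z).det = 0 := by
    have h1 : (Matrix.of Z).map (PadicInt.Coe.ringHom (p := 7)) = M.map (Rat.castHom ℚ_[7]) := by
      ext i j
      exact hZ i j
    have h2 := RingHom.map_det (PadicInt.Coe.ringHom (p := 7)) (Matrix.of Z)
    have h3 := RingHom.map_det (Rat.castHom ℚ_[7]) M
    rw [h0, map_zero] at h3
    have h4 : (PadicInt.Coe.ringHom (p := 7)) (Matrix.of Z).det = 0 := by
      rw [h2, RingHom.mapMatrix_apply, h1, h3, RingHom.mapMatrix_apply]
    exact Subtype.ext h4
  have e2 : ((Matrix.of Z).map (PadicInt.toZMod (p := 7))).det = 0 := by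
    have h2 := RingHom.map_det (PadicInt.toZMod (p := 7)) (Matrix.of Z)
    rw [e1, map_zero] at h2
    exact h2.symm
  have e3 : (Matrix.of Z).map (PadicInt.toZMod (p := 7)) *
      (Matrix.of fun k j : Fin 32 => ((B k j : ℕ) : ZMod 7)) = 1 := by
    ext i j
    rw [Matrix.mul_apply]
    have h1 : ∀ k : Fin 32, (Matrix.of Z).map (PadicInt.toZMod (p := 7)) i k *
        (Matrix.of fun k j : Fin 32 => ((B k j : ℕ) : ZMod 7)) k j =
        ((N i k * B k j : ℕ) : ZMod 7) := by
      intro k
      rw [Nat.cast_mul]
      show PadicInt.toZMod (Z i k) * ((B k j : ℕ) : ZMod 7) = _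
      rw [hZ' i k]
    rw [Finset.sum_congr rfl fun k _ => h1 k, ← Nat.cast_sum,
      Fin.sum_univ_eq_sum_range (fun k => N i k * B k j) 32, ← ZMod.natCast_mod,
      hB i i.2 j j.2, Matrix.one_apply]
    by_cases hij : i = j
    · rw [if_pos hij, if_pos (by rw [hij]), Nat.cast_one]
    · rw [if_neg hij, if_neg (fun h => hij (Fin.ext h)), Nat.cast_zero]
  have e4 := congrArg Matrix.det e3
  rw [Matrix.det_mul, e2, zero_mul, Matrix.det_one] at e4
  exact absurd e4 (by decide)

theorem main (i0 : ℕ) (h1 : 1 ≤ i0) (Cl : List ℕ)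
    (hv : ∀ e < 47, BN i0 e % 7 = dg (BB i0) e % 7)
    (hc : ∀ i < 32, ∀ j < 32,
      (∑ k ∈ Finset.range 32, EN i0 i k * dg (Cl.getD j 0) k) % 7 = if i = j then 1 else 0) :
    (Matrix.of fun l l' : Fin 32 =>
      if l'.1 < 16 then Fm (l.1 + l'.1) else Bm i0 (l.1 + (l'.1 - 16))).det ≠ 0 := by
  refine det_ne _ (EN i0) (fun k j => dg (Cl.getD j 0) k) ?_ hc
  intro i j
  show Rl (if j.1 < 16 then Fm (i.1 + j.1) else Bm i0 (i.1 + (j.1 - 16))) (EN i0 i.1 j.1)
  unfold EN
  have hi := i.2
  have hj := j.2
  split_ifs with h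
  · exact (rl_Fm _ (by omega)).congr (FN_val _ (by omega))
  · exact (rl_Bm i0 h1 _ (by omega)).congr (hv _ (by omega))

end H5

open H5 in
theorem H5_local (i0 : ℕ) (hi0 : i0 = 3 ∨ i0 = 5 ∨ i0 = 7) :
    (Matrix.of fun l l' : Fin 32 => if l'.1 < 16 then Fm (l.1 + l'.1) else Bm i0 (l.1 + (l'.1 - 16))).det ≠ 0 := by
  rcases hi0 with rfl | rfl | rfl
  · exact H5.main 3 (by norm_num) C3 BN_val_3 inv_chk_3
  · exact H5.main 5 (by norm_num) C5 BN_val_5 inv_chk_5
  · exact H5.main 7 (by norm_num) C7 BN_val_7 inv_chk_7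

end Pool.Agent.H574R2.D3
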