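import Pool.Agent.H574R2.D3.H6pre
import Pool.Agent.H574R2.D3.A2
import Pool.Agent.H574R2.D3.H3
import Pool.Agent.H574R2.D3.H4
import Pool.Agent.H574R2.D3.H5

/-! Task H6 (helper180): non-vanishing of the determinant. -/

open Polynomial Pool.Agent.H337R2

namespace Pool.Agent.H574R2.D3

noncomputable section

theorem H6_nonvanish (α β : ℕ → ℚ) (q : ℕ) (hα : UInt q α) (hβ : UInt q β) (i0 : ℕ)
    (hi0 : i0 = 3 ∨ i0 = 5 ∨ i0 = 7) (hβ0 : ∀ i < i0, β i = 0) (hβ1 : β i0 ≠ 0) :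
    ∃ p0 : ℕ, ∀ p : ℕ, p0 ≤ p → p.Prime → DD (2 * p) α β ≠ 0 :=
  H6_of (fun A B m _ _ _ _ _ _ e hR hC Q P hQ hP h => A2_MD_ne A B m e hR hC Q P hQ hP h)
    (fun hp α β hα hβ i0 hi0 hβ0 r hr1 hr2 => H3_diag hp α β hα hβ i0 hi0 hβ0 r hr1 hr2)
    (fun hp α β hα hβ i0 hi0 hβ0 r s l l' hr1 hr2 hs1 hs2 hrs hl hl' =>
      H4_offdiag hp α β hα hβ i0 hi0 hβ0 r s l l' hr1 hr2 hs1 hs2 hrs hl hl')
    (fun i0 hi0 => H5_local i0 hi0) α β q hα hβ i0 hi0 hβ0 hβ1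

end

end Pool.Agent.H574R2.D3
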