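import Pool.Agent.H574R2.D3.Defs
import Pool.Agent.H337R2.Asym

/-! STUBS of the project `dim_Q ⟨1, ζ(3), ζ(5), ..., ζ(19)⟩ ≥ 3`. Never import this file in a finished module. -/

open Polynomial Pool.Agent.H337R2 Filter Topology

namespace Pool.Agent.H574R2.D3

noncomputable section

/-! ### A. Linear algebra -/

theorem A1_MD_monic (A B : ℚ[X] →ₗ[ℚ] ℚ) (m : ℕ) (Q P P' : ℕ → ℚ[X])
    (hQ : ∀ i < 2 * m, (Q i).Monic ∧ (Q i).natDegree = i)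
    (hP : ∀ i < m, (P i).Monic ∧ (P i).natDegree = i)
    (hP' : ∀ i < m, (P' i).Monic ∧ (P' i).natDegree = i) :
    (Matrix.of fun i j : Fin (2 * m) =>
      if j.1 < m then A (Q i.1 * P j.1) else B (Q i.1 * P' (j.1 - m))).det = MD A B m := by
  sorry

theorem A1_real (A B : ℚ[X] →ₗ[ℚ] ℚ) (θ : ℝ) (m : ℕ) (Q P P' : ℕ → ℚ[X])
    (hQ : ∀ i < 2 * m, (Q i).Monic ∧ (Q i).natDegree = i)
    (hP : ∀ i < m, (P i).Monic ∧ (P i).natDegree = i)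
    (hP' : ∀ i < m, (P' i).Monic ∧ (P' i).natDegree = i) :
    (Matrix.of fun i j : Fin (2 * m) =>
      if j.1 < m then ((A (Q i.1 * P j.1) : ℚ) : ℝ) + θ * ((B (Q i.1 * P j.1) : ℚ) : ℝ)
      else ((B (Q i.1 * P' (j.1 - m)) : ℚ) : ℝ)).det = ((MD A B m : ℚ) : ℝ) := by
  sorry

theorem A2_MD_ne (A B : ℚ[X] →ₗ[ℚ] ℚ) (m : ℕ) {R C : Type} [Fintype R] [DecidableEq R] [Fintype C]
    [DecidableEq C] (e : R ≃ C ⊕ C) (hR : Fintype.card R = 2 * m) (hC : Fintype.card C = m)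
    (Q : R → ℚ[X]) (P : C → ℚ[X]) (hQ : ∀ r, (Q r).natDegree < 2 * m) (hP : ∀ c, (P c).natDegree < m)
    (h : (Matrix.of fun r s : R => Sum.elim (fun c => A (Q r * P c)) (fun c => B (Q r * P c)) (e s)).det ≠ 0) :
    MD A B m ≠ 0 := by
  sorry

theorem A3_padic_det (p : ℕ) [Fact p.Prime] (N : ℕ) (M : Matrix (Fin N) (Fin N) ℚ) (r c : ℕ → ℚ)
    (hr : ∀ i, 0 ≤ r i) (hc : ∀ i, 0 ≤ c i) (h : ∀ i j : Fin N, padicNorm p (M i j) ≤ r i * c j) :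
    padicNorm p M.det ≤ (∏ i ∈ Finset.range N, r i) * ∏ j ∈ Finset.range N, c j := by
  sorry

theorem A7_det_bound (m : ℕ) (A B : ℚ[X] →ₗ[ℚ] ℚ) (θ : ℝ) (x : ℕ → ℚ) (w : ℕ → ℝ) (hw : ∀ t, 0 ≤ w t)
    (hF : ∀ P : ℚ[X], P.natDegree ≤ 3 * m →
      HasSum (fun t => w t * ((P.eval (x t) : ℚ) : ℝ)) (((A P : ℚ) : ℝ) + θ * ((B P : ℚ) : ℝ)))
    (P P' : ℕ → ℚ[X])
    (hP : ∀ i < m, (P i).Monic ∧ (P i).natDegree = i)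
    (hP' : ∀ i < m, (P' i).Monic ∧ (P' i).natDegree = i)
    (S T c a : ℕ → ℝ) (hS0 : ∀ i, 0 ≤ S i) (hT0 : ∀ i, 0 ≤ T i) (hc0 : ∀ t, 0 ≤ c t)
    (ha0 : ∀ t, 0 ≤ a t) (ha : Summable a) (K : ℝ) (hK : ∑' t, a t ≤ K)
    (hS : ∀ t, ∀ i < m, ∀ j < m,
      w t * c t ^ m * (|(((P i).eval (x t) : ℚ) : ℝ)| * |(((P j).eval (x t) : ℚ) : ℝ)|) ≤ a t * (S i * S j))
    (hT : ∀ v : Fin m → ℕ, ∀ i < m, ∀ j < m,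
      |((B ((∏ k, (X - C (x (v k)))) * (P' i * P' j)) : ℚ) : ℝ)| ≤ (∏ k, c (v k)) * (T i * T j)) :
    |((MD A B m : ℚ) : ℝ)| ≤ (m.factorial : ℝ) ^ 2 * K ^ m *
      ((∏ i ∈ Finset.range m, S i ^ 2) * ∏ i ∈ Finset.range m, T i ^ 2) := by
  sorry

/-! ### B. The linear form -/

theorem B1_hasSum {n : ℕ} (hn : 5 ≤ n) (α β : ℕ → ℚ) (θ : ℝ)
    (h : ∀ i, Odd i → 3 ≤ i → i ≤ 19 → zr i = (α i : ℝ) + θ * (β i : ℝ))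
    (Q : ℚ[X]) (hQ : Q.natDegree ≤ 12 * n) :
    HasSum (fun t : ℕ => wv n (3 * n + 1 + t) * ((Q.eval (((3 * n + 1 + t : ℕ) : ℚ) ^ 2) : ℚ) : ℝ))
      (((AL n α Q : ℚ) : ℝ) + θ * ((BL n β Q : ℚ) : ℝ)) := by
  sorry

/-! ### C. p-adic size of the entries -/

theorem C1_pa {n p : ℕ} [Fact p.Prime] (hn : 1 ≤ n) (hp2 : 6 * n < p ^ 2) (E : ℚ[X]) {k : ℕ}
    (hk : k ∈ sM n) (A : ℚ) (hA : 0 ≤ A) (hE : PB p (p : ℚ) A (TS (-(k : ℚ)) E)) (i : ℕ) :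
    padicNorm p (pa (sM n) mM (PM n * E) k i) ≤ (p : ℚ) ^ (eM n p k - i : ℤ) * A := by
  sorry

theorem C1_pa_int {n p : ℕ} [Fact p.Prime] (hn : 1 ≤ n) (E : ℚ[X]) {k : ℕ}
    (hk : k ∈ sM n) (A : ℚ) (hA : 0 ≤ A) (hE : PB p 1 A (TS (-(k : ℚ)) E)) (i : ℕ)
    (hno : ∀ k' ∈ sM n, k' ≠ k → ¬ (p : ℤ) ∣ (k' : ℤ) - k) :
    padicNorm p (pa (sM n) mM (PM n * E) k i) ≤ padicNorm p (cM n) * A := by
  sorry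

theorem C2_xa {n p : ℕ} [Fact p.Prime] (hn : 1 ≤ n) (hp2 : 6 * n < p ^ 2) (q : ℕ) (α : ℕ → ℚ) (hα : UInt q α)
    (E : ℚ[X]) (W : ℚ) (hW : 0 ≤ W) (A : ℕ → ℚ) (hA : ∀ k, 0 ≤ A k)
    (hE : ∀ k ∈ sM n, PB p (p : ℚ) (A k) (TS (-(k : ℚ)) E))
    (hE1 : ∀ k ∈ sM n, PB p 1 1 (TS (-(k : ℚ)) E))
    (h : ∀ k ∈ sM n, (p : ℚ) ^ (eM n p k) * A k ≤ W ∨
      (padicNorm p (cM n) ≤ W ∧ k < 2 * n + p ∧ ∀ k' ∈ sM n, k' ≠ k → ¬ (p : ℤ) ∣ (k' : ℤ) - k)) :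
    padicNorm p ((q : ℚ) * xa n α (PM n * E)) ≤ W := by
  sorry

theorem C2_xb {n p : ℕ} [Fact p.Prime] (hn : 1 ≤ n) (hp2 : 6 * n < p ^ 2) (q : ℕ) (β : ℕ → ℚ) (hβ : UInt q β)
    (hβ3 : ∀ i < 3, β i = 0)
    (E : ℚ[X]) (W : ℚ) (hW : 0 ≤ W) (A : ℕ → ℚ) (hA : ∀ k, 0 ≤ A k)
    (hE : ∀ k ∈ sM n, PB p (p : ℚ) (A k) (TS (-(k : ℚ)) E))
    (hE1 : ∀ k ∈ sM n, PB p 1 1 (TS (-(k : ℚ)) E))
    (h : ∀ k ∈ sM n, (p : ℚ) ^ (eM n p k - 3) * A k ≤ W ∨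
      (padicNorm p (cM n) ≤ W ∧ ∀ k' ∈ sM n, k' ≠ k → ¬ (p : ℤ) ∣ (k' : ℤ) - k)) :
    padicNorm p ((q : ℚ) * xb n β (PM n * E)) ≤ W := by
  sorry

theorem C3_crude {n p : ℕ} [Fact p.Prime] (hn : 1 ≤ n) (q : ℕ) (u : ℕ → ℚ) (hu : UInt q u)
    (E : ℚ[X]) (A : ℚ) (hA : 0 ≤ A)
    (hE : ∀ k ∈ sM n, PB p ((16 * n + 1 : ℕ) : ℚ) A (TS (-(k : ℚ)) E)) :
    padicNorm p ((q : ℚ) * xa n u (PM n * E)) ≤ ((16 * n + 1 : ℕ) : ℚ) ^ 40 * A ∧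
    padicNorm p ((q : ℚ) * xb n u (PM n * E)) ≤ ((16 * n + 1 : ℕ) : ℚ) ^ 40 * A := by
  sorry

theorem C4_CP (i : ℕ) : (CP i).Monic ∧ (CP i).natDegree = i := by
  sorry

theorem C4_CP_PB {n p : ℕ} [Fact p.Prime] (hn : 1 ≤ n) (ρ : ℚ) (hρ1 : 1 ≤ ρ)
    (hρ : ∀ l : ℕ, 1 ≤ l → l ≤ 16 * n → (padicNorm p (l : ℚ))⁻¹ ≤ ρ) (i j : ℕ) (hi : 2 * i ≤ 16 * n)
    (hj : 2 * j ≤ 16 * n) (k : ℕ) :
    PB p ρ (padicNorm p (((2 * i - 1).factorial : ℕ) : ℚ) * padicNorm p (((2 * j - 1).factorial : ℕ) : ℚ))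
      (TS (-(k : ℚ)) (EM n (CP i * CP j))) := by
  sorry

/-! ### D. p-adic size of the determinant -/

theorem D1_greedy {K : Type} [DecidableEq K] (S : Finset K) (hS : S.Nonempty) (c : K → ℤ) (μ : ℤ) (m : ℕ) :
    ∃ (κ : ℕ → K) (s : ℕ → ℤ), (∀ i, κ i ∈ S) ∧ (∀ i, μ ≤ s i) ∧
      (∑ i ∈ Finset.range m, s i ≤ m * μ + ∑ k ∈ S, T1 (c k - μ)) ∧
      ∀ k ∈ S, ∀ i, c k - (((Finset.range i).filter fun l => κ l = k).card : ℤ) ≤ s i := by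
  sorry

theorem D1_split (y : ℤ) : ∃ z : ℤ, T1 z + 2 * T1 (y - z) ≤ T3 y := by
  sorry

theorem D2_kap_mem {n p k : ℕ} (hp : 0 < p) (hk : k ≤ 6 * n) : kap n p k ∈ Kset n p := by
  sorry

theorem D2_eM_kap {n p k : ℕ} (hn : 1 ≤ n) (hp : 0 < p) (hk : k ≤ 6 * n) : eM n p (kap n p k) = eM n p k := by
  sorry

/-- p-adic bound, version I -/
theorem D3_det_padic {n p : ℕ} [Fact p.Prime] (hn : 1 ≤ n) (hp2 : 6 * n < p ^ 2) (q : ℕ) (α β : ℕ → ℚ)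
    (hα : UInt q α) (hβ : UInt q β) (hβ3 : ∀ i < 3, β i = 0) (m : ℕ) (a : ℤ) (S : Finset ℕ) (hS : S ⊆ Kset n p)
    (h : ∀ k ∈ sM n, kap n p k ∈ S ∨
      (padicNorm p (cM n) ≤ (p : ℚ) ^ (a - 3) ∧ k < 2 * n + p ∧
        ∀ k' ∈ sM n, k' ≠ k → ¬ (p : ℤ) ∣ (k' : ℤ) - k)) :
    padicNorm p ((q : ℚ) ^ (2 * m) * MD (AL n α) (BL n β) m) ≤
      (p : ℚ) ^ ((m : ℤ) * (2 * a - 3) + ∑ κ ∈ S, T3 (eM n p κ - a)) := by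
  sorry

/-- large primes -/
theorem D3_large {n p : ℕ} [Fact p.Prime] (hn : 1 ≤ n) (hp2 : 6 * n < p ^ 2) (hp : 2 * n < p) (q : ℕ) (α β : ℕ → ℚ)
    (hα : UInt q α) (hβ : UInt q β) (hβ3 : ∀ i < 3, β i = 0) (m : ℕ) :
    padicNorm p ((q : ℚ) ^ (2 * m) * MD (AL n α) (BL n β) m) ≤ 1 := by
  sorry

theorem D4_small_med {n p : ℕ} [Fact p.Prime] (hn : 1 ≤ n) (hp2 : 16 * n < p ^ 2) (q : ℕ) (α β : ℕ → ℚ)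
    (hα : UInt q α) (hβ : UInt q β) (hβ3 : ∀ i < 3, β i = 0) (m : ℕ) (hm : m ≤ 4 * n) :
    padicNorm p ((q : ℚ) ^ (2 * m) * MD (AL n α) (BL n β) m) ≤
      ((p : ℚ) ^ 20) ^ (2 * m) * ((∏ i ∈ Finset.range (2 * m), padicNorm p (((2 * i - 1).factorial : ℕ) : ℚ)) *
        ∏ i ∈ Finset.range m, padicNorm p (((2 * i - 1).factorial : ℕ) : ℚ) ^ 2) := by
  sorry

theorem D4_small_crude {n p : ℕ} [Fact p.Prime] (hn : 1 ≤ n) (q : ℕ) (α β : ℕ → ℚ)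
    (hα : UInt q α) (hβ : UInt q β) (hβ3 : ∀ i < 3, β i = 0) (m : ℕ) (hm : m ≤ 4 * n) :
    padicNorm p ((q : ℚ) ^ (2 * m) * MD (AL n α) (BL n β) m) ≤
      (((16 * n + 1 : ℕ) : ℚ) ^ 40) ^ (2 * m) *
        ((∏ i ∈ Finset.range (2 * m), padicNorm p (((2 * i - 1).factorial : ℕ) : ℚ)) *
        ∏ i ∈ Finset.range m, padicNorm p (((2 * i - 1).factorial : ℕ) : ℚ) ^ 2) := by
  sorry

/-! ### E. Class sums -/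

theorem E1_Kset_sum {n p : ℕ} (hp : p.Prime) (hp2 : p ≠ 2) (hpn : p < 6 * n) (f : ℕ → ℤ) (M : ℤ) (hM : 0 ≤ M)
    (hf : ∀ r < p, f r = f ((6 * n - r) % p)) (hfM : ∀ r < p, f r ≤ M) :
    2 * ∑ r ∈ Kset n p, f r ≤ ∑ r ∈ Finset.range p, f r + M := by
  sorry

/-- poles-poles -/
theorem E2_PP {n p : ℕ} (hn : 1 ≤ n) (hp : p.Prime) (hpn : n < 50 * p) :
    ((∑ r ∈ Finset.range p, Np n p r ^ 2 : ℕ) : ℝ) ≤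
      2 * n + 2 * ∑ j ∈ Finset.Icc 1 300, tn (2 * n) j p + 1000 := by
  sorry

/-- poles-zeros -/
theorem E2_PZ {n p : ℕ} (hn : 1 ≤ n) (hp : p.Prime) (hpn : n < 50 * p) :
    2 * ∑ j ∈ Finset.Icc 1 300, (tn (4 * n) j p - 2 * tn (2 * n) j p) - 1000 ≤
      ((∑ r ∈ Finset.range p, Np n p r * Zp n p r : ℕ) : ℝ) := by
  sorry

/-- zeros-zeros -/
theorem E2_ZZ {n p : ℕ} (hn : 1 ≤ n) (hp : p.Prime) (hpn : n < 50 * p) :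
    ((∑ r ∈ Finset.range p, Zp n p r ^ 2 : ℕ) : ℝ) ≤
      4 * n + 4 * ∑ j ∈ Finset.Icc 1 300, tn (2 * n) j p +
        2 * ∑ j ∈ Finset.Icc 1 300, (tn (6 * n) j p - 2 * tn (4 * n) j p + tn (2 * n) j p) + 2000 := by
  sorry

theorem E3_A : ∃ K0 : ℝ, ∀ n p : ℕ, p.Prime → 7 ≤ n → n < 50 * p → p ≤ n → 16 * n < p ^ 2 → ∀ a : ℤ,
    a = ((12 * n / p : ℕ) : ℤ) + 1 - 18 * ((2 * n / p : ℕ) : ℤ) →
    ((((4 * n - 8 : ℕ) : ℤ) * (2 * a - 3) + ∑ κ ∈ Kset n p, T3 (eM n p κ - a) : ℤ) : ℝ) ≤ EA n p + K0 := by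
  sorry

/-- the hypothesis of `D3_det_padic` for `n < p < 2n` -/
theorem E3_good {n p : ℕ} (hn : 7 ≤ n) (hp : p.Prime) (h1 : n < p) (h2 : p < 2 * n) :
    Kfull n p ⊆ Kset n p ∧ ∀ k ∈ sM n, kap n p k ∈ Kfull n p ∨
      (k < 2 * n + p ∧ ∀ k' ∈ sM n, k' ≠ k → ¬ (p : ℤ) ∣ (k' : ℤ) - k) := by
  sorry

theorem E3_B : ∃ K0 : ℝ, ∀ n p : ℕ, p.Prime → 7 ≤ n → n < p → 3 * p < 4 * n →
    ((((4 * n - 8 : ℕ) : ℤ) * (-21) + ∑ κ ∈ Kfull n p, T3 (eM n p κ + 9) : ℤ) : ℝ) ≤ EB n p + K0 := by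
  sorry

theorem E3_C : ∃ K0 : ℝ, ∀ n p : ℕ, p.Prime → 7 ≤ n → 4 * n ≤ 3 * p → p < 2 * n →
    ((((4 * n - 8 : ℕ) : ℤ) * (-33) + ∑ κ ∈ Kfull n p, T3 (eM n p κ + 15) : ℤ) : ℝ) ≤ EC n p + K0 := by
  sorry

/-- p-adic size of the determinant, all primes `p > n/50` -/
theorem E4_padic : ∃ K0 : ℝ, 0 ≤ K0 ∧ ∀ n : ℕ, 7 ≤ n → ∀ p : ℕ, p.Prime → n < 50 * p → 16 * n < p ^ 2 →
    ∀ (q : ℕ) (α β : ℕ → ℚ), UInt q α → UInt q β → (∀ i < 3, β i = 0) →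
    ((padicNorm p ((q : ℚ) ^ (8 * n - 16) * DD n α β) : ℚ) : ℝ) ≤
      if p < 2 * n then (p : ℝ) ^ (EW n p + K0) else 1 := by
  sorry

/-! ### F. Prime number theorem sums -/

theorem F1_tent (α j : ℕ) (hj : 1 ≤ j) (lo hi : ℚ) (h0 : 0 < lo) (h1 : lo ≤ hi) (h2 : hi ≤ 16) :
    Tendsto (fun n : ℕ => (∑ p ∈ PS lo hi n, tn (α * n) j p * Real.log p) / (n : ℝ) ^ 2) atTop
      (𝓝 ((It α j lo hi : ℚ) : ℝ)) := by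
  sorry

theorem F1_const (lo hi : ℚ) (h0 : 0 < lo) (h1 : lo ≤ hi) (h2 : hi ≤ 16) :
    Tendsto (fun n : ℕ => (∑ p ∈ PS lo hi n, (n : ℝ) * Real.log p) / (n : ℝ) ^ 2) atTop
      (𝓝 (((hi - lo : ℚ)) : ℝ)) := by
  sorry

theorem F1_id (lo hi : ℚ) (h0 : 0 < lo) (h1 : lo ≤ hi) (h2 : hi ≤ 16) :
    Tendsto (fun n : ℕ => (∑ p ∈ PS lo hi n, (p : ℝ) * Real.log p) / (n : ℝ) ^ 2) atTop
      (𝓝 ((((hi ^ 2 - lo ^ 2) / 2 : ℚ)) : ℝ)) := by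
  sorry

theorem F1_inv (lo hi : ℚ) (h0 : 0 < lo) (h1 : lo ≤ hi) (h2 : hi ≤ 16) :
    Tendsto (fun n : ℕ => (∑ p ∈ PS lo hi n, ((n : ℝ) ^ 2 / p) * Real.log p) / (n : ℝ) ^ 2) atTop
      (𝓝 (Real.log ((hi : ℚ) : ℝ) - Real.log ((lo : ℚ) : ℝ))) := by
  sorry

theorem F1_floor (α J : ℕ) (lo hi : ℚ) (h0 : 0 < lo) (h1 : lo ≤ hi) (h2 : hi ≤ 16) (hα : α ≤ 16)
    (hJ : (α : ℚ) ≤ J * lo) :
    Tendsto (fun n : ℕ => (∑ p ∈ PS lo hi n, ((n : ℝ) * ((α * n / p : ℕ) : ℝ)) * Real.log p) / (n : ℝ) ^ 2) atTop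
      (𝓝 ((Ifl α J lo hi : ℚ) : ℝ)) := by
  sorry

theorem F2_A : Tendsto (fun n : ℕ => (∑ p ∈ PS (1 / 50) 1 n, EA n p * Real.log p) / (n : ℝ) ^ 2) atTop
    (𝓝 ((LA : ℝ) - 24 * Real.log 50)) := by
  sorry

theorem F2_B : Tendsto (fun n : ℕ => (∑ p ∈ PS 1 (4 / 3) n, EB n p * Real.log p) / (n : ℝ) ^ 2) atTop
    (𝓝 (LB : ℝ)) := by
  sorry

theorem F2_C : Tendsto (fun n : ℕ => (∑ p ∈ PS (4 / 3) 2 n, EC n p * Real.log p) / (n : ℝ) ^ 2) atTop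
    (𝓝 (LC : ℝ)) := by
  sorry

theorem F2_U : Tendsto (fun n : ℕ => (∑ p ∈ PS (1 / 50) 16 n,
      (∑ j ∈ Finset.Icc 1 800, (1 / 2 * tn (16 * n) j p + tn (8 * n) j p)) * Real.log p) / (n : ℝ) ^ 2)
    atTop (𝓝 (LU : ℝ)) := by
  sorry

theorem F3_numeric : LA + LB + LC + LU ≤ 28669 / 100 := by
  sorry

theorem F3_final : -1368 * Real.log 2 + 378 * Real.log 3 - 98 * Real.log 5 + 154 * Real.log 7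
    - 45649 / 1000 + 144 + 16 / 5 + 28669 / 100 < -2 := by
  sorry

/-- small primes: trivial exponents -/
theorem F4_small : ∀ ε : ℝ, 0 < ε → ∀ᶠ n : ℕ in atTop,
    8 * (n : ℝ) * (∑ p ∈ (Finset.range (n + 1)).filter (fun p : ℕ => p.Prime ∧ p ^ 2 ≤ 16 * n),
        40 * Real.log (16 * n + 1) +
      ∑ p ∈ (Finset.range (n + 1)).filter (fun p : ℕ => p.Prime ∧ 50 * p ≤ n), 20 * Real.log p) ≤
    (16 / 5 + ε) * (n : ℝ) ^ 2 := by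
  sorry

/-- factorials: the small prime part -/
theorem F5_fact : ∀ᶠ n : ℕ in atTop,
    ∑ p ∈ (Finset.range (n + 1)).filter (fun p : ℕ => p.Prime ∧ 50 * p ≤ n),
      (∑ i ∈ Finset.range (8 * n - 16), Real.log ((padicNorm p (((2 * i - 1).factorial : ℕ) : ℚ) : ℚ) : ℝ) +
       2 * ∑ i ∈ Finset.range (4 * n - 8), Real.log ((padicNorm p (((2 * i - 1).factorial : ℕ) : ℚ) : ℚ) : ℝ)) ≤
    - (∑ i ∈ Finset.range (8 * n - 16), Real.log ((2 * i - 1).factorial : ℝ) +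
       2 * ∑ i ∈ Finset.range (4 * n - 8), Real.log ((2 * i - 1).factorial : ℝ)) +
      ∑ p ∈ PS (1 / 50) 16 n,
        (∑ j ∈ Finset.Icc 1 800, (1 / 2 * tn (16 * n) j p + tn (8 * n) j p)) * Real.log p := by
  sorry

theorem F6_superfac : ∀ ε : ℝ, 0 < ε → ∀ᶠ n : ℕ in atTop,
    96 * (n : ℝ) ^ 2 * Real.log n + (352 * Real.log 2 - 144 - ε) * (n : ℝ) ^ 2 ≤
      ∑ i ∈ Finset.range (8 * n - 16), Real.log ((2 * i - 1).factorial : ℝ) +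
       2 * ∑ i ∈ Finset.range (4 * n - 8), Real.log ((2 * i - 1).factorial : ℝ) := by
  sorry

/-! ### G. The archimedean part -/

/-- one step ratio of `gv` -/
theorem G1_ratio {n j v : ℕ} (hn : 2 ≤ n) (hv : 3 * n + 1 + j ≤ v) :
    gv n j (v + 1) * ((v : ℝ) ^ (8 * n + 59) * (v + 3 * n + 1) * (v + n + 1) ^ 21 * ((v : ℝ) - 3 * n - j) ^ 2) =
    gv n j v * (((v : ℝ) + 1) ^ (8 * n + 59) * (v - 3 * n) * ((v : ℝ) - n) ^ 21 * ((v : ℝ) + 3 * n + j + 1) ^ 2) := by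
  sorry

/-- numerical certificate -/
theorem G1_cert (b : ℕ) (hb : b ≤ 7) (z τ : ℚ) (hz : z = 3 + (b + 1) / 2) (hτ : τ = z + Hb b) :
    (τ + z) ^ 2 * (τ - 3) * (τ - 1) ^ 17 < (τ - z) ^ 2 * (τ + 3) * (τ + 1) ^ 17 := by
  sorry

theorem G1_sup : ∃ N0 : ℕ, ∀ n : ℕ, N0 ≤ n → ∀ j < 4 * n - 8, ∀ v : ℕ, 3 * n + 1 ≤ v →
    gv n j v ≤ gv n j (3 * n + 1 + j) * Real.exp (2 * (Hb (2 * j / n) : ℝ) * n) := by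
  sorry

/-- `L2(x) = ∫_0^x (y log y - y)` -/
def L2 (x : ℝ) : ℝ := x ^ 2 / 2 * Real.log x - 3 / 4 * x ^ 2

theorem G2_superfac (a b e c c' : ℕ) (hb : 1 ≤ b) (hc : 1 ≤ c) :
    Tendsto (fun n : ℕ => (∑ j ∈ Finset.range (c * n - c'), Real.log ((a * n + b * j + e).factorial : ℝ)) / (n : ℝ) ^ 2
      - (a * c + b * (c : ℝ) ^ 2 / 2) * Real.log n) atTop
      (𝓝 ((L2 (a + b * c) - L2 a) / b)) := by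
  sorry

theorem G2_sum : ∀ ε : ℝ, 0 < ε → ∀ᶠ n : ℕ in atTop,
    ∑ j ∈ Finset.range (4 * n - 8), Real.log (gv n j (3 * n + 1 + j)) ≤
      64 * (n : ℝ) ^ 2 * Real.log n +
      (-1136 * Real.log 2 + 354 * Real.log 3 - 50 * Real.log 5 + 154 * Real.log 7 - 8 + ε) * (n : ℝ) ^ 2 := by
  sorry

/-- the bound `T_i²` -/
def T2 (K : ℝ) (n i : ℕ) : ℝ := Real.exp K * (n : ℝ) ^ 200 * R0 n * (n : ℝ) ^ (4 * i) * Real.exp (LamN n i)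

/-- truncated norm -/
def nrm (f : PowerSeries ℚ) : ℚ := ∑ j ∈ Finset.range 21, |PowerSeries.coeff j f| / 2 ^ j

theorem G3_pa : ∃ K : ℝ, ∀ n : ℕ, 2 ≤ n → ∀ k ∈ sM n, ∀ i ∈ Finset.Icc 1 20, ∀ E : ℚ[X],
    |((pa (sM n) mM (PM n * E) k i : ℚ) : ℝ)| ≤ Real.exp K * (n : ℝ) ^ 60 * R0 n *
      Real.exp (-((62 / 3) * ((k : ℝ) - 3 * n) ^ 2 / n + (10 / 3) * ((k : ℝ) - 3 * n) ^ 4 / n ^ 3)) *
      ((nrm (TS (-(k : ℚ)) E) : ℚ) : ℝ) := by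
  sorry

theorem G3_E {n : ℕ} (hn : 2 ≤ n) {k : ℕ} (hk : k ∈ sM n) (m : ℕ) (v : Fin m → ℕ) (hv : ∀ l, n ≤ v l) (i : ℕ) :
    nrm (TS (-(k : ℚ)) (EM n ((∏ l, (X - C ((v l : ℚ) ^ 2))) * PB2 n i))) ≤
      ((n : ℚ) + 1) ^ 72 * (∏ l, ((v l : ℚ) ^ 2 + 1)) *
        (|((k : ℚ) - 3 * n) ^ 2 - (n : ℚ) ^ 2 / 20| + n + 1) ^ i := by
  sorry

/-- the levels of the `B`-part -/
theorem G3_level : ∃ K : ℝ, ∀ n : ℕ, 2 ≤ n → ∀ κ : ℝ, |κ| ≤ n → ∀ i : ℕ, i ≤ 4 * n →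
    -((62 / 3) * κ ^ 2 / n + (10 / 3) * κ ^ 4 / n ^ 3) +
      2 * i * Real.log (|κ ^ 2 - (n : ℝ) ^ 2 / 20| + n + 1) ≤ 4 * i * Real.log n + LamN n i + K := by
  sorry

theorem G3_T : ∀ β : ℕ → ℚ, ∃ K : ℝ, ∀ n : ℕ, 2 ≤ n → ∀ (m : ℕ) (v : Fin m → ℕ), (∀ l, n ≤ v l) →
    ∀ i ≤ 4 * n, ∀ j ≤ 4 * n,
    |((BL n β ((∏ l, (X - C ((v l : ℚ) ^ 2))) * (PB2 n i * PB2 n j)) : ℚ) : ℝ)| ≤
      (∏ l, ((v l : ℝ) ^ 2 + 1)) * (Real.sqrt (T2 K n i) * Real.sqrt (T2 K n j)) := by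
  sorry

theorem G3_sum (K : ℝ) : ∀ ε : ℝ, 0 < ε → ∀ᶠ n : ℕ in atTop,
    ∑ i ∈ Finset.range (4 * n - 8), Real.log (T2 K n i) ≤
      32 * (n : ℝ) ^ 2 * Real.log n +
      (144 * Real.log 2 + 24 * Real.log 3 - 41185 / 1000 + ε) * (n : ℝ) ^ 2 := by
  sorry

/-- total archimedean bound -/
theorem G4_arch (α β : ℕ → ℚ) (θ : ℝ) (h : ∀ i, Odd i → 3 ≤ i → i ≤ 19 → zr i = (α i : ℝ) + θ * (β i : ℝ)) :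
    ∀ ε : ℝ, 0 < ε → ∀ᶠ n : ℕ in atTop, DD n α β ≠ 0 →
    Real.log |((DD n α β : ℚ) : ℝ)| ≤ 96 * (n : ℝ) ^ 2 * Real.log n +
      (-992 * Real.log 2 + 378 * Real.log 3 - 50 * Real.log 5 + 154 * Real.log 7 - 45649 / 1000 + ε) * (n : ℝ) ^ 2 := by
  sorry

/-! ### H. Non-vanishing (`n = 2p`) -/

theorem H2_pa {p : ℕ} [Fact p.Prime] (hp : 100 ≤ p) (r : ℕ) (hr1 : 1 ≤ r) (hr2 : 2 * r < p) :
    ∃ w : ℚ, padicNorm p w = 1 ∧ ∀ e j i : ℕ, e ≤ 46 → 4 ≤ j → j ≤ 7 → 1 ≤ i → i ≤ 20 →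
      padicNorm p (pa (sM (2 * p)) mM (PM (2 * p) * EM (2 * p) (XN (2 * p) r ^ e * OT p r 48)) (r + j * p) i
        / (p : ℚ) ^ (i + e) -
        w * (-2 * r) ^ e * PowerSeries.coeff (20 - i) (ser j e)) ≤ (p : ℚ)⁻¹ := by
  sorry

theorem H3_diag {p : ℕ} [Fact p.Prime] (hp : 100 ≤ p) (α β : ℕ → ℚ) (hα : ∀ i, padicNorm p (α i) ≤ 1)
    (hβ : ∀ i, padicNorm p (β i) ≤ 1) (i0 : ℕ) (hi0 : i0 = 3 ∨ i0 = 5 ∨ i0 = 7) (hβ0 : ∀ i < i0, β i = 0)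
    (r : ℕ) (hr1 : 1 ≤ r) (hr2 : 2 * r < p) :
    ∃ w : ℚ, padicNorm p w = 1 ∧ ∀ e : ℕ, e ≤ 46 →
      padicNorm p ((p : ℚ) ^ (-(e : ℤ)) * AL (2 * p) α (XN (2 * p) r ^ e * OT p r 48) -
        w * (-2 * r) ^ e * Fm e) ≤ (p : ℚ)⁻¹ ∧
      padicNorm p ((p : ℚ) ^ (-(e : ℤ) - i0) * BL (2 * p) β (XN (2 * p) r ^ e * OT p r 48) -
        w * (-2 * r) ^ e * (β i0 * Bm i0 e)) ≤ (p : ℚ)⁻¹ := by
  sorry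

theorem H4_offdiag {p : ℕ} [Fact p.Prime] (hp : 100 ≤ p) (α β : ℕ → ℚ) (hα : ∀ i, padicNorm p (α i) ≤ 1)
    (hβ : ∀ i, padicNorm p (β i) ≤ 1) (i0 : ℕ) (hi0 : i0 = 3 ∨ i0 = 5 ∨ i0 = 7) (hβ0 : ∀ i < i0, β i = 0)
    (r s l l' : ℕ) (hr1 : 1 ≤ r) (hr2 : 2 * r < p) (hs1 : 1 ≤ s) (hs2 : 2 * s < p) (hrs : r ≠ s)
    (hl : l < 32) (hl' : l' < 16) :
    padicNorm p ((p : ℚ) ^ (-(l : ℤ) - (l' : ℤ)) * AL (2 * p) α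
      ((XN (2 * p) r ^ l * OT p r 32) * (XN (2 * p) s ^ l' * OT p s 16))) ≤ (p : ℚ)⁻¹ ∧
    padicNorm p ((p : ℚ) ^ (-(l : ℤ) - (l' : ℤ) - i0) * BL (2 * p) β
      ((XN (2 * p) r ^ l * OT p r 32) * (XN (2 * p) s ^ l' * OT p s 16))) ≤ (p : ℚ)⁻¹ := by
  sorry

theorem H5_local (i0 : ℕ) (hi0 : i0 = 3 ∨ i0 = 5 ∨ i0 = 7) :
    (Matrix.of fun l l' : Fin 32 => if l'.1 < 16 then Fm (l.1 + l'.1) else Bm i0 (l.1 + (l'.1 - 16))).det ≠ 0 := by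
  sorry

theorem H6_nonvanish (α β : ℕ → ℚ) (q : ℕ) (hα : UInt q α) (hβ : UInt q β) (i0 : ℕ)
    (hi0 : i0 = 3 ∨ i0 = 5 ∨ i0 = 7) (hβ0 : ∀ i < i0, β i = 0) (hβ1 : β i0 ≠ 0) :
    ∃ p0 : ℕ, ∀ p : ℕ, p0 ≤ p → p.Prime → DD (2 * p) α β ≠ 0 := by
  sorry

/-! ### Z. Conclusion -/

theorem Z1_dim (h57 : Irrational (zr 5) ∨ Irrational (zr 7))
    (h : Module.finrank ℚ (Submodule.span ℚ (Set.range fun i : Fin 10 => if i.1 = 0 then (1 : ℝ) else zr (2 * i.1 + 1))) < 3) :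
    ∃ (θ : ℝ) (α β : ℕ → ℚ) (q i0 : ℕ), UInt q α ∧ UInt q β ∧ (i0 = 3 ∨ i0 = 5 ∨ i0 = 7) ∧ β i0 ≠ 0 ∧
      (∀ i < i0, β i = 0) ∧ (∀ i, Odd i → 3 ≤ i → i ≤ 19 → zr i = (α i : ℝ) + θ * (β i : ℝ)) := by
  sorry

theorem Z_main (h57 : Irrational (zr 5) ∨ Irrational (zr 7)) :
    3 ≤ Module.finrank ℚ (Submodule.span ℚ (Set.range fun i : Fin 10 => if i.1 = 0 then (1 : ℝ) else zr (2 * i.1 + 1))) := by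
  sorry

end

end Pool.Agent.H574R2.D3
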