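import Pool.Agent.H574R2.D3.ZP
import Pool.Agent.H574R2.D3.Z1
import Pool.Agent.H574R2.D3.D4
import Pool.Agent.H574R2.D3.E4
import Pool.Agent.H574R2.D3.F2
import Pool.Agent.H574R2.D3.F3
import Pool.Agent.H574R2.D3.F4
import Pool.Agent.H574R2.D3.F5
import Pool.Agent.H574R2.D3.F6
import Pool.Agent.H574R2.D3.G4
import Pool.Agent.H574R2.D3.H6

/-!
# Z: `dim_Q ⟨1, ζ(3), ζ(5), ..., ζ(19)⟩ ≥ 3` (final assembly)
-/

open Polynomial Pool.Agent.H337R2 Filter Topology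

namespace Pool.Agent.H574R2.D3

noncomputable section

theorem Z_main (h57 : Irrational (zr 5) ∨ Irrational (zr 7)) :
    3 ≤ Module.finrank ℚ (Submodule.span ℚ (Set.range fun i : Fin 10 => if i.1 = 0 then (1 : ℝ) else zr (2 * i.1 + 1))) := by
  by_contra hcon
  rw [not_le] at hcon
  obtain ⟨θ, α, β, q, i0, hα, hβ, hi0, hβ1, hβ0, hz⟩ := Z1_dim h57 hcon
  exact Z_contra_of (fun hn hp q α β hα hβ hβ3 m hm => D4_small_med hn hp q α β hα hβ hβ3 m hm)
    (fun hn q α β hα hβ hβ3 m hm => D4_small_crude hn q α β hα hβ hβ3 m hm)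
    E4_padic F2_A F2_B F2_C F2_U F3_numeric F3_final F4_small F5_fact F6_superfac
    α β q i0 hα hβ hi0 hβ0 (G4_arch α β θ hz) (H6_nonvanish α β q hα hβ i0 hi0 hβ0 hβ1)

end

end Pool.Agent.H574R2.D3
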