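import Pool.Agent.H574R2.D3.Defs
import Pool.Agent.H337R2.Asym
import Pool.Agent.H336R2.HD.A5

/-!
# Z: assembly of the proof of `dim_Q ⟨1, ζ(3), ζ(5), ..., ζ(19)⟩ ≥ 3`

All results of the other tasks are hypotheses of `Z_main_of`.
-/

open Polynomial Pool.Agent.H337R2 Filter Topology

namespace Pool.Agent.H574R2.D3

noncomputable section

/-- bound of the local factor -/
def ZBf (n p : ℕ) (K0 : ℝ) : ℝ :=
  if 50 * p ≤ n then
    (if p ^ 2 ≤ 16 * n then ((((16 * n + 1 : ℕ) : ℝ) ^ 40) ^ (2 * (4 * n - 8)))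
      else ((p : ℝ) ^ 20) ^ (2 * (4 * n - 8))) *
      ((∏ i ∈ Finset.range (2 * (4 * n - 8)), ((padicNorm p (((2 * i - 1).factorial : ℕ) : ℚ) : ℚ) : ℝ)) *
        ∏ i ∈ Finset.range (4 * n - 8), ((padicNorm p (((2 * i - 1).factorial : ℕ) : ℚ) : ℚ) : ℝ) ^ 2)
  else (p : ℝ) ^ (EW n p + K0)

lemma Z_norm_fac_pos (p N : ℕ) (hp : p.Prime) : 0 < ((padicNorm p ((N.factorial : ℕ) : ℚ) : ℚ) : ℝ) := by
  have : Fact p.Prime := ⟨hp⟩
  have : 0 < padicNorm p ((N.factorial : ℕ) : ℚ) :=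
    lt_of_le_of_ne (padicNorm.nonneg _) (Ne.symm (padicNorm.nonzero (by exact_mod_cast Nat.factorial_ne_zero N)))
  exact_mod_cast this

lemma Z_prods_pos (n p : ℕ) (hp : p.Prime) :
    0 < (∏ i ∈ Finset.range (2 * (4 * n - 8)), ((padicNorm p (((2 * i - 1).factorial : ℕ) : ℚ) : ℚ) : ℝ)) *
        ∏ i ∈ Finset.range (4 * n - 8), ((padicNorm p (((2 * i - 1).factorial : ℕ) : ℚ) : ℚ) : ℝ) ^ 2 :=
  mul_pos (Finset.prod_pos fun i _ => Z_norm_fac_pos p _ hp)
    (Finset.prod_pos fun i _ => pow_pos (Z_norm_fac_pos p _ hp) 2)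

lemma ZBf_pos (n p : ℕ) (K0 : ℝ) (hp : p.Prime) : 0 < ZBf n p K0 := by
  have hp0 : (0 : ℝ) < p := by exact_mod_cast hp.pos
  unfold ZBf
  split_ifs
  · exact mul_pos (by positivity) (Z_prods_pos n p hp)
  · exact mul_pos (by positivity) (Z_prods_pos n p hp)
  · exact Real.rpow_pos_of_pos hp0 _

/-- the log of the local factor, small primes -/
lemma Z_log_Bf_small (n p : ℕ) (K0 : ℝ) (hp : p.Prime) (h : 50 * p ≤ n) :
    Real.log (ZBf n p K0) ≤
      8 * (n : ℝ) * ((if p ^ 2 ≤ 16 * n then 40 * Real.log (16 * n + 1) else 0) + 20 * Real.log p) +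
      (∑ i ∈ Finset.range (8 * n - 16), Real.log ((padicNorm p (((2 * i - 1).factorial : ℕ) : ℚ) : ℚ) : ℝ) +
       2 * ∑ i ∈ Finset.range (4 * n - 8), Real.log ((padicNorm p (((2 * i - 1).factorial : ℕ) : ℚ) : ℚ) : ℝ)) := by
  have hp0 : (0 : ℝ) < p := by exact_mod_cast hp.pos
  have hlp : 0 ≤ Real.log p := Real.log_nonneg (by exact_mod_cast hp.one_lt.le)
  have hn0 : (0 : ℝ) ≤ n := by positivity
  have hl : 0 ≤ Real.log (16 * (n : ℝ) + 1) := Real.log_nonneg (by linarith)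
  have e8 : 8 * n - 16 = 2 * (4 * n - 8) := by omega
  rw [e8]
  have hprod : Real.log ((∏ i ∈ Finset.range (2 * (4 * n - 8)), ((padicNorm p (((2 * i - 1).factorial : ℕ) : ℚ) : ℚ) : ℝ)) *
        ∏ i ∈ Finset.range (4 * n - 8), ((padicNorm p (((2 * i - 1).factorial : ℕ) : ℚ) : ℚ) : ℝ) ^ 2)
      = ∑ i ∈ Finset.range (2 * (4 * n - 8)), Real.log ((padicNorm p (((2 * i - 1).factorial : ℕ) : ℚ) : ℚ) : ℝ) +
       2 * ∑ i ∈ Finset.range (4 * n - 8), Real.log ((padicNorm p (((2 * i - 1).factorial : ℕ) : ℚ) : ℚ) : ℝ) := by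
    rw [Real.log_mul (Finset.prod_pos fun i _ => Z_norm_fac_pos p _ hp).ne'
      (Finset.prod_pos fun i _ => pow_pos (Z_norm_fac_pos p _ hp) 2).ne',
      Real.log_prod (fun i _ => (Z_norm_fac_pos p _ hp).ne'),
      Real.log_prod (fun i _ => (pow_pos (Z_norm_fac_pos p _ hp) 2).ne'), Finset.mul_sum]
    congr 1
    apply Finset.sum_congr rfl
    intro i _
    rw [Real.log_pow]
    norm_num
  have hpp := Z_prods_pos n p hp
  have hm : ((2 * (4 * n - 8) : ℕ) : ℝ) ≤ 8 * n := by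
    have : 2 * (4 * n - 8) ≤ 8 * n := by omega
    exact_mod_cast this
  unfold ZBf
  rw [if_pos h, Real.log_mul (by split_ifs <;> positivity) hpp.ne', hprod]
  apply add_le_add_left
  split_ifs with h2
  · rw [Real.log_pow, Real.log_pow]
    have e1 : (((16 * n + 1 : ℕ) : ℕ) : ℝ) = 16 * (n : ℝ) + 1 := by push_cast; ring
    rw [e1]
    have e2 : ((40 : ℕ) : ℝ) = 40 := by norm_num
    rw [e2]
    have h3 : 40 * Real.log (16 * (n : ℝ) + 1) ≤ 40 * Real.log (16 * (n : ℝ) + 1) + 20 * Real.log p := by linarith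
    have h4 : ((2 * (4 * n - 8) : ℕ) : ℝ) * (40 * Real.log (16 * (n : ℝ) + 1)) ≤ 8 * n * (40 * Real.log (16 * (n : ℝ) + 1)) :=
      mul_le_mul_of_nonneg_right hm (by positivity)
    have h5 : 8 * (n : ℝ) * (40 * Real.log (16 * (n : ℝ) + 1)) ≤
        8 * (n : ℝ) * (40 * Real.log (16 * (n : ℝ) + 1) + 20 * Real.log p) :=
      mul_le_mul_of_nonneg_left h3 (by positivity)
    linarith
  · rw [Real.log_pow, Real.log_pow]
    have e2 : ((20 : ℕ) : ℝ) = 20 := by norm_num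
    rw [e2]
    have h4 : ((2 * (4 * n - 8) : ℕ) : ℝ) * (20 * Real.log p) ≤ 8 * n * (20 * Real.log p) :=
      mul_le_mul_of_nonneg_right hm (by positivity)
    linarith

lemma Z_log_Bf_large (n p : ℕ) (K0 : ℝ) (hp : p.Prime) (h : ¬ 50 * p ≤ n) :
    Real.log (ZBf n p K0) = (EW n p + K0) * Real.log p := by
  unfold ZBf
  rw [if_neg h, Real.log_rpow (by exact_mod_cast hp.pos)]

/-- statement of D4, medium primes -/
def ZHmed : Prop := ∀ {n p : ℕ} [Fact p.Prime], 1 ≤ n → 16 * n < p ^ 2 → ∀ (q : ℕ) (α β : ℕ → ℚ),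
    UInt q α → UInt q β → (∀ i < 3, β i = 0) → ∀ (m : ℕ), m ≤ 4 * n →
    padicNorm p ((q : ℚ) ^ (2 * m) * MD (AL n α) (BL n β) m) ≤
      ((p : ℚ) ^ 20) ^ (2 * m) * ((∏ i ∈ Finset.range (2 * m), padicNorm p (((2 * i - 1).factorial : ℕ) : ℚ)) *
        ∏ i ∈ Finset.range m, padicNorm p (((2 * i - 1).factorial : ℕ) : ℚ) ^ 2)

/-- statement of D4, crude version -/
def ZHcrude : Prop := ∀ {n p : ℕ} [Fact p.Prime], 1 ≤ n → ∀ (q : ℕ) (α β : ℕ → ℚ),
    UInt q α → UInt q β → (∀ i < 3, β i = 0) → ∀ (m : ℕ), m ≤ 4 * n →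
    padicNorm p ((q : ℚ) ^ (2 * m) * MD (AL n α) (BL n β) m) ≤
      (((16 * n + 1 : ℕ) : ℚ) ^ 40) ^ (2 * m) *
        ((∏ i ∈ Finset.range (2 * m), padicNorm p (((2 * i - 1).factorial : ℕ) : ℚ)) *
        ∏ i ∈ Finset.range m, padicNorm p (((2 * i - 1).factorial : ℕ) : ℚ) ^ 2)

lemma Z_norm_le_Bf (hmed : ZHmed) (hcrude : ZHcrude) (n p : ℕ) (K0 : ℝ) (hn : 7 ≤ n) (hp : p.Prime)
    (q : ℕ) (α β : ℕ → ℚ) (hα : UInt q α) (hβ : UInt q β) (hβ3 : ∀ i < 3, β i = 0)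
    (hE : n < 50 * p → 16 * n < p ^ 2 → ((padicNorm p ((q : ℚ) ^ (8 * n - 16) * DD n α β) : ℚ) : ℝ) ≤
      if p < 2 * n then (p : ℝ) ^ (EW n p + K0) else 1) (hn2 : 40000 ≤ n) (hp2 : p < 2 * n) :
    ((padicNorm p ((q : ℚ) ^ (8 * n - 16) * DD n α β) : ℚ) : ℝ) ≤ ZBf n p K0 := by
  have : Fact p.Prime := ⟨hp⟩
  have e8 : 8 * n - 16 = 2 * (4 * n - 8) := by omega
  unfold ZBf
  by_cases h : 50 * p ≤ n
  · rw [if_pos h, e8]
    by_cases h2 : p ^ 2 ≤ 16 * n
    · rw [if_pos h2]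
      have := hcrude (p := p) (by omega : 1 ≤ n) q α β hα hβ hβ3 (4 * n - 8) (by omega)
      have h3 : ((padicNorm p ((q : ℚ) ^ (2 * (4 * n - 8)) * MD (AL n α) (BL n β) (4 * n - 8)) : ℚ) : ℝ) ≤
        (((((16 * n + 1 : ℕ) : ℚ) ^ 40) ^ (2 * (4 * n - 8)) *
        ((∏ i ∈ Finset.range (2 * (4 * n - 8)), padicNorm p (((2 * i - 1).factorial : ℕ) : ℚ)) *
        ∏ i ∈ Finset.range (4 * n - 8), padicNorm p (((2 * i - 1).factorial : ℕ) : ℚ) ^ 2) : ℚ) : ℝ) := by
        exact_mod_cast this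
      refine h3.trans (le_of_eq ?_)
      push_cast
      rfl
    · rw [if_neg h2]
      have := hmed (p := p) (by omega : 1 ≤ n) (by omega) q α β hα hβ hβ3 (4 * n - 8) (by omega)
      have h3 : ((padicNorm p ((q : ℚ) ^ (2 * (4 * n - 8)) * MD (AL n α) (BL n β) (4 * n - 8)) : ℚ) : ℝ) ≤
        ((((p : ℚ) ^ 20) ^ (2 * (4 * n - 8)) *
        ((∏ i ∈ Finset.range (2 * (4 * n - 8)), padicNorm p (((2 * i - 1).factorial : ℕ) : ℚ)) *
        ∏ i ∈ Finset.range (4 * n - 8), padicNorm p (((2 * i - 1).factorial : ℕ) : ℚ) ^ 2) : ℚ) : ℝ) := by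
        exact_mod_cast this
      refine h3.trans (le_of_eq ?_)
      push_cast
      rfl
  · rw [if_neg h]
    have := hE (by omega) (by nlinarith)
    rw [if_pos hp2] at this
    exact this

lemma Z_EW_split (n : ℕ) (hn : 7 ≤ n) (hnp : ¬ n.Prime) (K0 : ℝ) (hK0 : 0 ≤ K0) :
    ∑ p ∈ ((Finset.range (2 * n)).filter Nat.Prime).filter (fun p => ¬ 50 * p ≤ n), (EW n p + K0) * Real.log p ≤
      ∑ p ∈ PS (1 / 50) 1 n, EA n p * Real.log p + ∑ p ∈ PS 1 (4 / 3) n, EB n p * Real.log p +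
      ∑ p ∈ PS (4 / 3) 2 n, EC n p * Real.log p + K0 * (Real.log 4 * (2 * n)) := by
  classical
  have hn0 : (0 : ℝ) < n := by exact_mod_cast (by omega : 0 < n)
  simp only [add_mul, Finset.sum_add_distrib]
  apply add_le_add
  · apply le_of_eq
    set T := ((Finset.range (2 * n)).filter Nat.Prime).filter (fun p => ¬ 50 * p ≤ n) with hT
    have e1 : PS (1 / 50) 1 n = T.filter (fun p => p ≤ n) := by
      ext p
      unfold PS
      rw [hT]
      simp only [Finset.mem_filter, Finset.mem_range]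
      constructor
      · rintro ⟨h1, h2, h3, h4⟩
        have h5 : n < 50 * p := by
          have : (n : ℝ) < 50 * p := by linarith
          exact_mod_cast this
        have h6 : p < n := by
          rw [one_mul] at h4
          exact_mod_cast h4
        exact ⟨⟨⟨by omega, h2⟩, by omega⟩, h6.le⟩
      · rintro ⟨⟨⟨h1, h2⟩, h3⟩, h4⟩
        have h5 : p < n := by
          rcases lt_or_eq_of_le h4 with h | h
          · exact h
          · exact absurd (h ▸ h2) hnp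
        refine ⟨by omega, h2, ?_, ?_⟩
        · have : (n : ℝ) < 50 * p := by exact_mod_cast (by omega : n < 50 * p)
          linarith
        · rw [one_mul]; exact_mod_cast h5
    have e2 : PS 1 (4 / 3) n = (T.filter (fun p => ¬ p ≤ n)).filter (fun p => 3 * p < 4 * n) := by
      ext p
      unfold PS
      rw [hT]
      simp only [Finset.mem_filter, Finset.mem_range]
      constructor
      · rintro ⟨h1, h2, h3, h4⟩
        have h5 : n < p := by
          rw [one_mul] at h3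
          exact_mod_cast h3
        have h6 : 3 * p < 4 * n := by
          have : 3 * (p : ℝ) < 4 * n := by linarith
          exact_mod_cast this
        exact ⟨⟨⟨⟨by omega, h2⟩, by omega⟩, by omega⟩, h6⟩
      · rintro ⟨⟨⟨⟨h1, h2⟩, h3⟩, h4⟩, h5⟩
        refine ⟨by omega, h2, ?_, ?_⟩
        · rw [one_mul]; exact_mod_cast (by omega : n < p)
        · have : 3 * (p : ℝ) < 4 * n := by exact_mod_cast h5
          linarith
    have e3 : PS (4 / 3) 2 n = (T.filter (fun p => ¬ p ≤ n)).filter (fun p => ¬ 3 * p < 4 * n) := by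
      ext p
      unfold PS
      rw [hT]
      simp only [Finset.mem_filter, Finset.mem_range]
      constructor
      · rintro ⟨h1, h2, h3, h4⟩
        have h5 : 4 * n < 3 * p := by
          have : 4 * (n : ℝ) < 3 * p := by linarith
          exact_mod_cast this
        have h6 : p < 2 * n := by exact_mod_cast h4
        exact ⟨⟨⟨⟨by omega, h2⟩, by omega⟩, by omega⟩, by omega⟩
      · rintro ⟨⟨⟨⟨h1, h2⟩, h3⟩, h4⟩, h5⟩
        refine ⟨by omega, h2, ?_, by exact_mod_cast h1⟩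
        have h6 : 4 * n ≠ 3 * p := by
          intro h6
          have h7 : 2 ∣ p := by omega
          rcases (Nat.dvd_prime h2).1 h7 with h8 | h8
          · omega
          · omega
        have : 4 * (n : ℝ) < 3 * p := by exact_mod_cast (by omega : 4 * n < 3 * p)
        linarith
    rw [e1, e2, e3, ← Finset.sum_filter_add_sum_filter_not T (fun p => p ≤ n), add_assoc]
    congr 1
    · apply Finset.sum_congr rfl
      intro p hp
      rw [Finset.mem_filter] at hp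
      unfold EW
      rw [if_pos hp.2]
    · rw [← Finset.sum_filter_add_sum_filter_not (T.filter (fun p => ¬ p ≤ n)) (fun p => 3 * p < 4 * n)]
      congr 1
      · apply Finset.sum_congr rfl
        intro p hp
        rw [Finset.mem_filter, Finset.mem_filter] at hp
        unfold EW
        rw [if_neg hp.1.2, if_pos hp.2]
      · apply Finset.sum_congr rfl
        intro p hp
        rw [Finset.mem_filter, Finset.mem_filter] at hp
        unfold EW
        rw [if_neg hp.1.2, if_neg hp.2]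
  · rw [← Finset.mul_sum]
    apply mul_le_mul_of_nonneg_left _ hK0
    refine le_trans ?_ (Chebyshev.theta_le_log4_mul_x (x := 2 * n) (by positivity))
    unfold Chebyshev.theta
    apply Finset.sum_le_sum_of_subset_of_nonneg
    · intro p hp
      rw [Finset.mem_filter, Finset.mem_filter, Finset.mem_range] at hp
      rw [Finset.mem_filter, Finset.mem_Ioc]
      refine ⟨⟨hp.1.2.pos, ?_⟩, hp.1.2⟩
      rw [Nat.le_floor_iff (by positivity)]
      have : ((p : ℕ) : ℝ) ≤ ((2 * n : ℕ) : ℝ) := by exact_mod_cast hp.1.1.le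
      push_cast at this
      exact this
    · intro p hp _
      rw [Finset.mem_filter] at hp
      exact Real.log_nonneg (by exact_mod_cast hp.2.one_lt.le)

lemma Z_ev_of_tendsto {f : ℕ → ℝ} {L : ℝ} (h : Tendsto (fun n : ℕ => f n / (n : ℝ) ^ 2) atTop (𝓝 L)) (ε : ℝ) (hε : 0 < ε) :
    ∀ᶠ n : ℕ in atTop, f n ≤ (L + ε) * (n : ℝ) ^ 2 := by
  filter_upwards [h.eventually_lt_const (show L < L + ε by linarith), eventually_ge_atTop 1] with n h1 hn
  have hn0 : (0 : ℝ) < (n : ℝ) ^ 2 := by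
    have : (0 : ℝ) < n := by exact_mod_cast hn
    positivity
  rw [div_lt_iff₀ hn0] at h1
  exact h1.le

/-- The contradiction, all inputs as hypotheses. -/
theorem Z_contra_of
    (hmed : ZHmed) (hcrude : ZHcrude)
    (hE4 : ∃ K0 : ℝ, 0 ≤ K0 ∧ ∀ n : ℕ, 7 ≤ n → ∀ p : ℕ, p.Prime → n < 50 * p → 16 * n < p ^ 2 →
      ∀ (q : ℕ) (α β : ℕ → ℚ), UInt q α → UInt q β → (∀ i < 3, β i = 0) →
      ((padicNorm p ((q : ℚ) ^ (8 * n - 16) * DD n α β) : ℚ) : ℝ) ≤
        if p < 2 * n then (p : ℝ) ^ (EW n p + K0) else 1)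
    (hF2A : Tendsto (fun n : ℕ => (∑ p ∈ PS (1 / 50) 1 n, EA n p * Real.log p) / (n : ℝ) ^ 2) atTop
      (𝓝 ((LA : ℝ) - 24 * Real.log 50)))
    (hF2B : Tendsto (fun n : ℕ => (∑ p ∈ PS 1 (4 / 3) n, EB n p * Real.log p) / (n : ℝ) ^ 2) atTop
      (𝓝 (LB : ℝ)))
    (hF2C : Tendsto (fun n : ℕ => (∑ p ∈ PS (4 / 3) 2 n, EC n p * Real.log p) / (n : ℝ) ^ 2) atTop
      (𝓝 (LC : ℝ)))
    (hF2U : Tendsto (fun n : ℕ => (∑ p ∈ PS (1 / 50) 16 n,
      (∑ j ∈ Finset.Icc 1 800, (1 / 2 * tn (16 * n) j p + tn (8 * n) j p)) * Real.log p) / (n : ℝ) ^ 2)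
      atTop (𝓝 (LU : ℝ)))
    (hF3n : LA + LB + LC + LU ≤ 28669 / 100)
    (hF3f : -1368 * Real.log 2 + 378 * Real.log 3 - 98 * Real.log 5 + 154 * Real.log 7
      - 45649 / 1000 + 144 + 16 / 5 + 28669 / 100 < -2)
    (hF4 : ∀ ε : ℝ, 0 < ε → ∀ᶠ n : ℕ in atTop,
      8 * (n : ℝ) * (∑ p ∈ (Finset.range (n + 1)).filter (fun p : ℕ => p.Prime ∧ p ^ 2 ≤ 16 * n),
          40 * Real.log (16 * n + 1) +
        ∑ p ∈ (Finset.range (n + 1)).filter (fun p : ℕ => p.Prime ∧ 50 * p ≤ n), 20 * Real.log p) ≤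
      (16 / 5 + ε) * (n : ℝ) ^ 2)
    (hF5 : ∀ᶠ n : ℕ in atTop,
      ∑ p ∈ (Finset.range (n + 1)).filter (fun p : ℕ => p.Prime ∧ 50 * p ≤ n),
        (∑ i ∈ Finset.range (8 * n - 16), Real.log ((padicNorm p (((2 * i - 1).factorial : ℕ) : ℚ) : ℚ) : ℝ) +
         2 * ∑ i ∈ Finset.range (4 * n - 8), Real.log ((padicNorm p (((2 * i - 1).factorial : ℕ) : ℚ) : ℚ) : ℝ)) ≤
      - (∑ i ∈ Finset.range (8 * n - 16), Real.log ((2 * i - 1).factorial : ℝ) +
         2 * ∑ i ∈ Finset.range (4 * n - 8), Real.log ((2 * i - 1).factorial : ℝ)) +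
        ∑ p ∈ PS (1 / 50) 16 n,
          (∑ j ∈ Finset.Icc 1 800, (1 / 2 * tn (16 * n) j p + tn (8 * n) j p)) * Real.log p)
    (hF6 : ∀ ε : ℝ, 0 < ε → ∀ᶠ n : ℕ in atTop,
      96 * (n : ℝ) ^ 2 * Real.log n + (352 * Real.log 2 - 144 - ε) * (n : ℝ) ^ 2 ≤
        ∑ i ∈ Finset.range (8 * n - 16), Real.log ((2 * i - 1).factorial : ℝ) +
         2 * ∑ i ∈ Finset.range (4 * n - 8), Real.log ((2 * i - 1).factorial : ℝ))
    (α β : ℕ → ℚ) (q i0 : ℕ) (hα : UInt q α) (hβ : UInt q β)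
    (hi0 : i0 = 3 ∨ i0 = 5 ∨ i0 = 7) (hβ0 : ∀ i < i0, β i = 0)
    (hG4 : ∀ ε : ℝ, 0 < ε → ∀ᶠ n : ℕ in atTop, DD n α β ≠ 0 →
      Real.log |((DD n α β : ℚ) : ℝ)| ≤ 96 * (n : ℝ) ^ 2 * Real.log n +
      (-992 * Real.log 2 + 378 * Real.log 3 - 50 * Real.log 5 + 154 * Real.log 7 - 45649 / 1000 + ε) * (n : ℝ) ^ 2)
    (hH6 : ∃ p0 : ℕ, ∀ p : ℕ, p0 ≤ p → p.Prime → DD (2 * p) α β ≠ 0) : False := by
  obtain ⟨K0, hK0, hE4⟩ := hE4
  obtain ⟨p0, hH6⟩ := hH6
  have hβ3 : ∀ i < 3, β i = 0 := fun i hi => hβ0 i (by omega)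
  have hq0 : 0 < q := hα.1
  have hF3 : ((LA : ℝ) + LB + LC + LU) ≤ 28669 / 100 := by
    have h := (Rat.cast_le (K := ℝ)).2 hF3n
    push_cast at h
    exact h
  -- the eventual inequalities
  have hε : (0 : ℝ) < 1 / 100 := by norm_num
  have ev1 := hG4 (1 / 100) hε
  have ev2 := Z_ev_of_tendsto hF2A (1 / 100) hε
  have ev3 := Z_ev_of_tendsto hF2B (1 / 100) hε
  have ev4 := Z_ev_of_tendsto hF2C (1 / 100) hε
  have ev5 := Z_ev_of_tendsto hF2U (1 / 100) hε
  have ev6 := hF4 (1 / 100) hε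
  have ev7 := hF5
  have ev8 := hF6 (1 / 100) hε
  have ev9 : ∀ᶠ n : ℕ in atTop, 8 * Real.log q + K0 * (Real.log 4 * 2) ≤ 1 / 100 * n := by
    have := (tendsto_natCast_atTop_atTop (R := ℝ)).const_mul_atTop hε
    exact this.eventually_ge_atTop _
  obtain ⟨N2, hN2⟩ := eventually_atTop.1 (ev1.and (ev2.and (ev3.and (ev4.and (ev5.and (ev6.and (ev7.and (ev8.and ev9))))))))
  obtain ⟨P, hPge, hPp⟩ := Nat.exists_infinite_primes (N2 + p0 + 40000)
  set n : ℕ := 2 * P with hn_def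
  have hDne : DD n α β ≠ 0 := hH6 P (by omega) hPp
  obtain ⟨g1, g2, g3, g4, g5, g6, g7, g8, g9⟩ := hN2 n (by omega)
  have g1 := g1 hDne
  have hn7 : 7 ≤ n := by omega
  have hn40 : 40000 ≤ n := by omega
  have hnp : ¬ n.Prime := Nat.not_prime_mul (by norm_num) (by omega)
  have hn0 : (0 : ℝ) < n := by exact_mod_cast (by omega : 0 < n)
  clear_value n
  set D := DD n α β with hD
  set z : ℚ := (q : ℚ) ^ (8 * n - 16) * D with hz
  have hqr : (0 : ℝ) < q := by exact_mod_cast hq0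
  have hqq : (0 : ℚ) < q := by exact_mod_cast hq0
  have hz0 : z ≠ 0 := mul_ne_zero (pow_pos hqq _).ne' hDne
  set S := (Finset.range (2 * n)).filter Nat.Prime with hS
  have hpf := Pool.Agent.H336R2.HD.A5_prod_formula z hz0 S (fun p hp => (Finset.mem_filter.1 hp).2)
    (fun p => ZBf n p K0)
    (fun p hp => by
      rw [hS, Finset.mem_filter, Finset.mem_range] at hp
      exact Z_norm_le_Bf hmed hcrude n p K0 hn7 hp.2 q α β hα hβ hβ3
        (fun h1 h2 => hE4 n hn7 p hp.2 h1 h2 q α β hα hβ hβ3) hn40 hp.1)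
    (fun p hp hpS => by
      rw [hS, Finset.mem_filter, Finset.mem_range] at hpS
      have h1 : 2 * n ≤ p := by
        by_contra h; exact hpS ⟨by omega, hp⟩
      have h2 := hE4 n hn7 p hp (by omega) (by nlinarith) q α β hα hβ hβ3
      rw [if_neg (by omega)] at h2
      have h3 : padicNorm p ((q : ℚ) ^ (8 * n - 16) * DD n α β) ≤ 1 := by
        exact_mod_cast h2
      exact h3)
  have hprodpos : 0 < ∏ p ∈ S, ZBf n p K0 :=
    Finset.prod_pos fun p hp => ZBf_pos n p K0 (Finset.mem_filter.1 hp).2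
  have hzabs : 0 < |(z : ℝ)| := abs_pos.2 (by exact_mod_cast hz0)
  have hlog := Real.log_nonneg hpf
  rw [Real.log_mul hzabs.ne' hprodpos.ne', Real.log_prod (fun p hp => (ZBf_pos n p K0 (Finset.mem_filter.1 hp).2).ne')] at hlog
  have hzlog : Real.log |(z : ℝ)| = ((8 * n - 16 : ℕ) : ℝ) * Real.log q + Real.log |((D : ℚ) : ℝ)| := by
    rw [hz]
    push_cast
    rw [abs_mul, Real.log_mul (by positivity) (abs_pos.2 (by exact_mod_cast hDne)).ne', abs_of_pos (by positivity), Real.log_pow]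
  have hlq : 0 ≤ Real.log q := Real.log_nonneg (by exact_mod_cast hq0)
  have hmq : ((8 * n - 16 : ℕ) : ℝ) * Real.log q ≤ 8 * n * Real.log q := by
    apply mul_le_mul_of_nonneg_right _ hlq
    have : 8 * n - 16 ≤ 8 * n := Nat.sub_le _ _
    exact_mod_cast this
  -- split of the sum
  rw [← Finset.sum_filter_add_sum_filter_not S (fun p => 50 * p ≤ n)] at hlog
  have hsmall : ∑ p ∈ S.filter (fun p => 50 * p ≤ n), Real.log (ZBf n p K0) ≤
      8 * (n : ℝ) * (∑ p ∈ (Finset.range (n + 1)).filter (fun p : ℕ => p.Prime ∧ p ^ 2 ≤ 16 * n),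
        40 * Real.log (16 * n + 1) +
      ∑ p ∈ (Finset.range (n + 1)).filter (fun p : ℕ => p.Prime ∧ 50 * p ≤ n), 20 * Real.log p) +
      ∑ p ∈ (Finset.range (n + 1)).filter (fun p : ℕ => p.Prime ∧ 50 * p ≤ n),
      (∑ i ∈ Finset.range (8 * n - 16), Real.log ((padicNorm p (((2 * i - 1).factorial : ℕ) : ℚ) : ℚ) : ℝ) +
       2 * ∑ i ∈ Finset.range (4 * n - 8), Real.log ((padicNorm p (((2 * i - 1).factorial : ℕ) : ℚ) : ℚ) : ℝ)) := by
    have e1 : S.filter (fun p => 50 * p ≤ n) = (Finset.range (n + 1)).filter (fun p : ℕ => p.Prime ∧ 50 * p ≤ n) := by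
      ext p
      rw [hS]
      simp only [Finset.mem_filter, Finset.mem_range]
      constructor
      · rintro ⟨⟨h1, h2⟩, h3⟩; exact ⟨by omega, h2, h3⟩
      · rintro ⟨h1, h2, h3⟩; exact ⟨⟨by omega, h2⟩, h3⟩
    rw [e1]
    calc _ ≤ ∑ p ∈ (Finset.range (n + 1)).filter (fun p : ℕ => p.Prime ∧ 50 * p ≤ n),
          (8 * (n : ℝ) * ((if p ^ 2 ≤ 16 * n then 40 * Real.log (16 * n + 1) else 0) + 20 * Real.log p) +
          (∑ i ∈ Finset.range (8 * n - 16), Real.log ((padicNorm p (((2 * i - 1).factorial : ℕ) : ℚ) : ℚ) : ℝ) +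
       2 * ∑ i ∈ Finset.range (4 * n - 8), Real.log ((padicNorm p (((2 * i - 1).factorial : ℕ) : ℚ) : ℚ) : ℝ))) := by
          apply Finset.sum_le_sum
          intro p hp
          rw [Finset.mem_filter] at hp
          exact Z_log_Bf_small n p K0 hp.2.1 hp.2.2
      _ ≤ _ := by
          rw [Finset.sum_add_distrib, ← Finset.mul_sum, Finset.sum_add_distrib]
          apply add_le_add_left
          apply mul_le_mul_of_nonneg_left _ (by positivity)
          apply add_le_add_left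
          rw [← Finset.sum_filter]
          apply Finset.sum_le_sum_of_subset_of_nonneg
          · intro p hp
            simp only [Finset.mem_filter, Finset.mem_range] at hp ⊢
            exact ⟨hp.1.1, hp.1.2.1, hp.2⟩
          · intro p _ _
            have : 0 ≤ Real.log (16 * (n : ℝ) + 1) := Real.log_nonneg (by linarith)
            positivity
  have hlarge : ∑ p ∈ S.filter (fun p => ¬ 50 * p ≤ n), Real.log (ZBf n p K0) ≤
      ∑ p ∈ PS (1 / 50) 1 n, EA n p * Real.log p + ∑ p ∈ PS 1 (4 / 3) n, EB n p * Real.log p +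
      ∑ p ∈ PS (4 / 3) 2 n, EC n p * Real.log p + K0 * (Real.log 4 * (2 * n)) := by
    refine le_trans (le_of_eq ?_) (Z_EW_split n hn7 hnp K0 hK0)
    apply Finset.sum_congr rfl
    intro p hp
    rw [hS, Finset.mem_filter, Finset.mem_filter] at hp
    exact Z_log_Bf_large n p K0 hp.1.2 hp.2
  have hfin : 8 * (n : ℝ) * Real.log q + K0 * (Real.log 4 * (2 * n)) ≤ 1 / 100 * (n : ℝ) ^ 2 := by
    have := mul_le_mul_of_nonneg_right g9 hn0.le
    nlinarith
  have hn2 : (0 : ℝ) < (n : ℝ) ^ 2 := by positivity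
  have h50 : Real.log 50 = Real.log 2 + 2 * Real.log 5 := by
    rw [show (50 : ℝ) = 2 * 5 ^ 2 by norm_num, Real.log_mul (by norm_num) (by norm_num), Real.log_pow]
    push_cast; ring
  rw [h50] at g2
  have htot : 0 ≤ ((-1368 * Real.log 2 + 378 * Real.log 3 - 98 * Real.log 5 + 154 * Real.log 7
      - 45649 / 1000 + 144 + 16 / 5) + ((LA : ℝ) + LB + LC + LU) + 8 / 100) * (n : ℝ) ^ 2 := by
    nlinarith
  have hneg : ((-1368 * Real.log 2 + 378 * Real.log 3 - 98 * Real.log 5 + 154 * Real.log 7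
      - 45649 / 1000 + 144 + 16 / 5) + ((LA : ℝ) + LB + LC + LU) + 8 / 100) * (n : ℝ) ^ 2 < 0 := by
    apply mul_neg_of_neg_of_pos _ hn2
    linarith
  linarith

end

end Pool.Agent.H574R2.D3
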